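import Pool.Agent.LibSCQ.Slim

/-!
TASK 7b. The quotient is hyperbolic.
-/

set_option autoImplicit false

namespace Pool.Agent.LibSCQ

variable {H : Type} [Group H] {a b : H} {d : H → H → ℤ} {δ κ η M U E : ℤ} {N : Subgroup H}

/-- slim triangles imply the four point condition -/
theorem hyp_of_slim {G : Type} [Group G] {d : G → G → ℤ} (h : Geo d) {D : ℤ}
    (hs : ∀ x y z p, d x p + d p y = d x y →
      ∃ q, (d x q + d q z = d x z ∨ d z q + d q y = d z y) ∧ d p q ≤ D) :
    Hyp d (4 * D + 2) := by
  intro x y z w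
  have hself := h.self
  have hsym := h.symm
  have hD : 0 ≤ D := by
    obtain ⟨q, _, hq⟩ := hs x x x x (by rw [hself]; norm_num)
    exact (h.nonneg _ _).trans hq
  -- maximal point of the geodesic from `x` to `z` close to `I(x, w)`
  obtain ⟨k, ⟨p, hp1, hp2, q, hq1, hq2⟩, hmax⟩ :=
    Int.exists_greatest_of_bdd (P := fun k => ∃ p, d x p + d p z = d x z ∧ d x p = k ∧
      ∃ q, d x q + d q w = d x w ∧ d p q ≤ D)
      ⟨d x z, by
        rintro k ⟨p, h1, h2, _⟩
        have := h.nonneg p z
        omega⟩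
      ⟨0, x, by rw [hself]; ring, hself x, x, by rw [hself]; ring, by rw [hself]; exact hD⟩
  -- a point close to `I(w, z)`
  have hp' : ∃ p', d p p' ≤ 1 ∧ d x p' + d p' z = d x z ∧ ∃ q', d w q' + d q' z = d w z ∧
      d p' q' ≤ D := by
    rcases eq_or_lt_of_le (h.nonneg p z) with h0 | h0
    · have : p = z := h.eq _ _ h0.symm
      subst this
      exact ⟨p, by rw [hself]; norm_num, hp1, p, by rw [hself]; ring, by rw [hself]; exact hD⟩
    · obtain ⟨p', h1, h2⟩ := h.geod p z 1 (by norm_num) (by omega)
      have h3 := h.tri x p p'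
      have h4 := h.tri x p' z
      have h5 : d x p' + d p' z = d x z := by omega
      refine ⟨p', h1.le, h5, ?_⟩
      obtain ⟨q', hq', hq''⟩ := hs x z w p' h5
      rcases hq' with hq' | hq'
      · exfalso
        have := hmax (d x p') ⟨p', h5, rfl, q', hq', hq''⟩
        omega
      · exact ⟨q', hq', hq''⟩
  obtain ⟨p', hpp', hp1', q', hq1', hq2'⟩ := hp'
  obtain ⟨r, hr, hr'⟩ := hs x z y p hp1
  rcases hr with hr | hr
  · left
    have t1 := h.tri x r q'
    have t2 := h.tri r p q'
    have t3 := h.tri p p' q'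
    have t4 := h.tri x q' z
    have t5 := h.tri y r w
    have t6 := h.tri r q' w
    have s1 := hsym r p
    have s2 := hsym y r
    have s3 := hsym w q'
    have s4 := hsym z w
    have s5 := hsym q' z
    omega
  · right
    have t1 := h.tri x q z
    have t2 := h.tri q r z
    have t3 := h.tri q p r
    have t4 := h.tri y r w
    have t5 := h.tri r q w
    have t6 := h.tri r p q
    have s1 := hsym q p
    have s2 := hsym r p
    omega

theorem AxSys.slim_bar (h : SCHyp a d δ κ η M U E) (X : AxSys a d η M U N) [N.Normal]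
    (x y z p : H ⧸ N) (hp : dbar d N x p + dbar d N p y = dbar d N x y) :
    ∃ q, (dbar d N x q + dbar d N q z = dbar d N x z ∨
      dbar d N z q + dbar d N q y = dbar d N z y) ∧ dbar d N p q ≤ 1006 * U := by
  have hg : Geo d := h.geo
  have hmk : ∀ g ∈ N, ∀ w : H, (QuotientGroup.mk (g * w) : H ⧸ N) = QuotientGroup.mk w := by
    intro g hg w
    rw [QuotientGroup.eq]
    have : (g * w)⁻¹ * w = w⁻¹ * g⁻¹ * w := by group
    rw [this]
    have h1 := ‹N.Normal›.conj_mem g⁻¹ (N.inv_mem hg) w⁻¹
    rwa [inv_inv] at h1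
  obtain ⟨p0, rfl⟩ := QuotientGroup.mk_surjective p
  obtain ⟨x1, rfl⟩ := QuotientGroup.mk_surjective x
  obtain ⟨z1, rfl⟩ := QuotientGroup.mk_surjective z
  obtain ⟨y1, rfl⟩ := QuotientGroup.mk_surjective y
  obtain ⟨g1, hg1, hx, _⟩ := exists_min (N := N) hg p0 x1
  set x0 := g1 * x1 with hx0
  obtain ⟨g2, hg2, hz, _⟩ := exists_min (N := N) hg x0 z1
  set z0 := g2 * z1 with hz0
  obtain ⟨g3, hg3, hy, _⟩ := exists_min (N := N) hg z0 y1
  set y0 := g3 * y1 with hy0
  obtain ⟨g, hgN, hgp, _⟩ := exists_min (N := N) hg y0 p0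
  have ex : (QuotientGroup.mk x1 : H ⧸ N) = QuotientGroup.mk x0 := (hmk g1 hg1 x1).symm
  have ez : (QuotientGroup.mk z1 : H ⧸ N) = QuotientGroup.mk z0 := (hmk g2 hg2 z1).symm
  have ey : (QuotientGroup.mk y1 : H ⧸ N) = QuotientGroup.mk y0 := (hmk g3 hg3 y1).symm
  rw [ex, ey] at hp
  rw [ex, ez, ey]
  let T : H → Prop := fun w =>
    dbar d N (QuotientGroup.mk x0) (QuotientGroup.mk w) +
        dbar d N (QuotientGroup.mk w) (QuotientGroup.mk z0) =
      dbar d N (QuotientGroup.mk x0) (QuotientGroup.mk z0) ∨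
    dbar d N (QuotientGroup.mk z0) (QuotientGroup.mk w) +
        dbar d N (QuotientGroup.mk w) (QuotientGroup.mk y0) =
      dbar d N (QuotientGroup.mk z0) (QuotientGroup.mk y0)
  have hT : ∀ g ∈ N, ∀ w, T w → T (g * w) := by
    intro g hg w hw
    simp only [T, hmk g hg w]
    exact hw
  let u : ℕ → H := fun i => if i = 0 then p0 else if i = 1 then x0 else if i = 2 then z0 else y0
  let v : ℕ → H := fun i => if i = 0 then x0 else if i = 1 then z0 else if i = 2 then y0
    else g * p0
  have hT1 : ∀ s t w : H, IsMin d N s t → d s w + d w t = d s t →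
      dbar d N (QuotientGroup.mk s) (QuotientGroup.mk w) +
        dbar d N (QuotientGroup.mk w) (QuotientGroup.mk t) =
      dbar d N (QuotientGroup.mk s) (QuotientGroup.mk t) := by
    intro s t w hst hw
    rw [dbar_mk hg, dbar_mk hg, dbar_mk hg]
    have h1 : d s w = dq d N s w := min_left hg hst hw
    have h2 : d w t = dq d N w t := min_right hg hst hw
    have h3 : d s t = dq d N s t := hst
    rw [← h1, ← h2, ← h3, hw]
  have C : Conf E X T p0 g 4 u v :=
    { k3 := by norm_num
      k4 := le_rfl
      g_mem := hgN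
      start := rfl
      stop := rfl
      min := by
        intro i hi
        interval_cases i
        · exact hx
        · exact hz
        · exact hy
        · exact hgp
      gap := by
        intro i hi
        left
        have hi' : i < 3 := by omega
        interval_cases i <;> rfl
      mid := by
        intro i hi0 hi w hw
        have hi' : i < 3 := by omega
        interval_cases i
        · left
          exact hT1 _ _ _ hz hw
        · right
          exact hT1 _ _ _ hy hw
      far := by
        show d p0 x0 + d y0 (g * p0) ≤ dq d N x0 y0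
        have h1 : d p0 x0 = dq d N p0 x0 := hx
        have h2 : d y0 (g * p0) = dq d N y0 (g * p0) := hgp
        rw [dbar_mk hg, dbar_mk hg, dbar_mk hg] at hp
        rw [h1, h2, dq_right hg hgN, ← hp, dq_symm hg p0 x0, dq_symm hg y0 p0] }
  obtain ⟨q, hq1, hq2⟩ := C.close h X hT
  exact ⟨QuotientGroup.mk q, hq1, by rw [dbar_mk hg]; exact hq2⟩

theorem AxSys.hyp_bar (h : SCHyp a d δ κ η M U E) (X : AxSys a d η M U N) [N.Normal] :
    Hyp (dbar d N) (4100 * U) := by
  have h1 := hyp_of_slim (geo_bar (N := N) h.geo) (D := 1006 * U) (fun x y z p hp =>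
    X.slim_bar h x y z p hp)
  have hU : 1 ≤ U := by
    have h2 := h.hE5
    have h3 := h.hMU
    have h4 := h.hE
    have h5 := h.η0
    have h6 := h.κ0
    have h7 := h.δ0
    omega
  intro x y z w
  rcases h1 x y z w with h2 | h2
  · left; omega
  · right; omega

end Pool.Agent.LibSCQ
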