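import Pool.Agent.LibSCQ.Quot

/-!
TASK 6b. Projections of lines in the quotient, given hyperbolicity of the quotient.
-/

set_option autoImplicit false

namespace Pool.Agent.LibSCQ

variable {H : Type} [Group H] {a b : H} {d : H → H → ℤ} {δ κ η M U E : ℤ} {N : Subgroup H}

theorem AxSys.lin_bar (h : SCHyp a d δ κ η M U E) (X : AxSys a d η M U N) [N.Normal]
    (hyp : Hyp (dbar d N) (4100 * U)) :
    Lin (QuotientGroup.mk a : H ⧸ N) (dbar d N) (4100 * U) := by
  have k1 := h.δ0
  have k2 := h.κ0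
  have k3 := h.η0
  have k4 := h.hE
  have k5 := h.hM
  have k6 := h.hMU
  refine ⟨geo_bar h.geo, by linarith, hyp, fun k => ?_⟩
  rw [← QuotientGroup.mk_one, ← QuotientGroup.mk_zpow, dbar_mk h.geo]
  exact X.line_bar h k

/-- a point of a geodesic line `g⟨a⟩` close to a point almost between two points of the line -/
theorem Lin.on_line (h : Lin a d δ) (g w : H) (i j ε : ℤ)
    (hw : d (g * a ^ i) w + d w (g * a ^ j) ≤ |i - j| + ε) :
    ∃ k : ℤ, d w (g * a ^ k) ≤ ε + δ := by
  have hd : ∀ k l : ℤ, d (g * a ^ k) (g * a ^ l) = |k - l| := fun k l => by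
    rw [h.geo.inv, h.dline]
  have n1 := h.geo.nonneg (g * a ^ i) w
  have n2 := h.geo.nonneg w (g * a ^ j)
  obtain ⟨z, hz1, hz2⟩ : ∃ z : ℤ, |i - z| = min (d (g * a ^ i) w) |i - j| ∧
      |z - j| = |i - j| - min (d (g * a ^ i) w) |i - j| := by
    have n3 := abs_nonneg (i - j)
    have m1 := min_le_right (d (g * a ^ i) w) |i - j|
    have m2 : 0 ≤ min (d (g * a ^ i) w) |i - j| := le_min n1 n3
    set c := min (d (g * a ^ i) w) |i - j|
    rcases le_total i j with hij | hij
    · refine ⟨i + c, ?_, ?_⟩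
      · rw [abs_sub_comm, abs_of_nonneg (by linarith)]
        ring
      · rw [abs_of_nonpos (by linarith : i - j ≤ 0)] at m1 ⊢
        rw [abs_of_nonpos (by linarith)]
        ring
    · refine ⟨i - c, ?_, ?_⟩
      · rw [abs_of_nonneg (by linarith)]
        ring
      · rw [abs_of_nonneg (by linarith : 0 ≤ i - j)] at m1 ⊢
        rw [abs_of_nonneg (by linarith)]
        ring
  refine ⟨z, ?_⟩
  have hyp := h.hyp (g * a ^ i) (g * a ^ z) (g * a ^ j) w
  have e1 := hd i z
  have e2 := hd z j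
  have e3 := hd i j
  have s1 := h.geo.symm (g * a ^ z) w
  have s2 := h.geo.symm (g * a ^ j) w
  have s3 := h.geo.tri (g * a ^ i) w (g * a ^ j)
  rcases min_choice (d (g * a ^ i) w) |i - j| with hc | hc
  · rw [hc] at hz1 hz2
    rcases hyp with h1 | h1 <;> linarith [h.δ0]
  · rw [hc] at hz1 hz2
    have m1 := min_le_left (d (g * a ^ i) w) |i - j|
    rw [hc] at m1
    rcases hyp with h1 | h1 <;> linarith [h.δ0]

theorem AxSys.par_bar (h : SCHyp a d δ κ η M U E) (X : AxSys a d η M U N) [N.Normal]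
    (hyp : Hyp (dbar d N) (4100 * U)) :
    Par (QuotientGroup.mk a : H ⧸ N) (dbar d N) (4100 * U) (120000 * U) := by
  have L := X.lin_bar h hyp
  have k1 := h.δ0
  have k2 := h.κ0
  have k3 := h.η0
  have k4 := h.hE
  have k5 := h.hM
  have k6 := h.hMU
  refine ⟨L, by linarith, ?_⟩
  intro g hg i j s t hs ht
  set ā : H ⧸ N := QuotientGroup.mk a with hā
  obtain ⟨γ, rfl⟩ := QuotientGroup.mk_surjective g
  have hγ : ∀ k : ℤ, γ * a ^ k ∉ N := by
    intro k hk
    apply hg
    rw [← QuotientGroup.eq_one_iff, QuotientGroup.mk_mul, QuotientGroup.mk_zpow] at hk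
    rw [Subgroup.mem_zpowers_iff]
    exact ⟨-k, by rw [zpow_neg]; exact (eq_inv_of_mul_eq_one_left hk).symm⟩
  set x : H ⧸ N := (QuotientGroup.mk γ : H ⧸ N) * ā ^ i with hx
  set y : H ⧸ N := (QuotientGroup.mk γ : H ⧸ N) * ā ^ j with hy
  have c1 := L.near_tau x s hs
  have c2 := L.near_tau y t ht
  have c3 : |s - t| ≤ |s - tau ā (dbar d N) x| + |tau ā (dbar d N) x - tau ā (dbar d N) y| +
      |t - tau ā (dbar d N) y| := by
    have q1 := abs_sub_le s (tau ā (dbar d N) x) t
    have q2 := abs_sub_le (tau ā (dbar d N) x) (tau ā (dbar d N) y) t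
    rw [abs_sub_comm (tau ā (dbar d N) y) t] at q2
    linarith
  by_cases hc : 3 * (4100 * U) + 1 < |tau ā (dbar d N) x - tau ā (dbar d N) y|
  · have q := L.n2 x y hc
    have dxy : dbar d N x y = |i - j| := by rw [hx, hy, L.geo.inv, L.dline]
    have q1 := L.geo.tri (ā ^ tau ā (dbar d N) x) (ā ^ tau ā (dbar d N) y) y
    have q2 := L.geo.tri x (ā ^ tau ā (dbar d N) x) (ā ^ tau ā (dbar d N) y)
    rw [L.dline] at q1 q2
    obtain ⟨k, hk⟩ := L.on_line (QuotientGroup.mk γ) (ā ^ tau ā (dbar d N) x) i j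
      (5 * (4100 * U) + 2) (by rw [← hx, ← hy]; linarith)
    obtain ⟨l, hl⟩ := L.on_line (QuotientGroup.mk γ) (ā ^ tau ā (dbar d N) y) i j
      (5 * (4100 * U) + 2) (by rw [← hx, ← hy]; linarith)
    rw [hā, ← QuotientGroup.mk_zpow, ← QuotientGroup.mk_zpow, ← QuotientGroup.mk_mul,
      dbar_mk h.geo] at hk hl
    have := X.par_lift h hγ hk hl
    linarith
  · push Not at hc
    linarith

end Pool.Agent.LibSCQ
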