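import Pool.Agent.LibSCQ.Base

/-!
TASK 1. Nearest point projections to the line `⟨a⟩`.
-/

set_option autoImplicit false

namespace Pool.Agent.LibSCQ

variable {H : Type} [Group H] {a : H} {d : H → H → ℤ} {δ κ : ℤ}

theorem Lin.dline (h : Lin a d δ) (i j : ℤ) : d (a ^ i) (a ^ j) = |i - j| := by
  have h1 := h.geo.inv (a ^ i) 1 (a ^ (j - i))
  rw [mul_one, ← zpow_add, add_sub_cancel, h.line] at h1
  rw [h1, abs_sub_comm]

/-- a point almost between `x` and `y` is close to an honest point between `x` and `y` -/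
theorem Lin.between (h : Lin a d δ) (x y p : H) (ε : ℤ) (hp : d x p + d p y ≤ d x y + ε) :
    ∃ w, d x w + d w y = d x y ∧ d w p ≤ ε + δ := by
  have hδ := h.δ0
  have ht := h.geo.tri x p y
  rcases le_or_gt (d x p) (d x y) with hle | hgt
  · obtain ⟨w, hw1, hw2⟩ := h.geo.geod x y (d x p) (h.geo.nonneg _ _) hle
    refine ⟨w, by omega, ?_⟩
    have s1 := h.geo.symm y p
    rcases h.hyp x w y p with h4 | h4
    · omega
    · omega
  · refine ⟨y, by rw [h.geo.self]; omega, ?_⟩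
    have s1 := h.geo.symm y p
    omega

theorem Lin.near_isLeast (h : Lin a d δ) (x : H) : IsLeast (near a d x) (tau a d x) := by
  have hne : (near a d x).Nonempty := by
    obtain ⟨s, hs⟩ : ∃ s : ℤ, ∀ u : ℤ, (d x (a ^ s)).toNat ≤ (d x (a ^ u)).toNat := by
      have hex : ∃ n : ℕ, ∃ s : ℤ, (d x (a ^ s)).toNat = n := ⟨_, 0, rfl⟩
      classical
      obtain ⟨s, hs⟩ := Nat.find_spec hex
      exact ⟨s, fun u => by rw [hs]; exact Nat.find_min' hex ⟨u, rfl⟩⟩
    refine ⟨s, fun u => ?_⟩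
    have h1 := hs u
    have h2 := h.geo.nonneg x (a ^ s)
    have h3 := h.geo.nonneg x (a ^ u)
    omega
  have hbd : BddBelow (near a d x) := by
    refine ⟨-(2 * d x 1), fun s hs => ?_⟩
    have h1 : d x (a ^ s) ≤ d x (a ^ (0 : ℤ)) := hs 0
    rw [zpow_zero] at h1
    have h2 := h.geo.tri 1 x (a ^ s)
    rw [h.line, h.geo.symm 1 x] at h2
    have := neg_abs_le s
    omega
  exact ⟨Int.csInf_mem hne hbd, fun s hs => csInf_le hbd hs⟩

theorem Lin.tau_mem (h : Lin a d δ) (x : H) (u : ℤ) : d x (a ^ tau a d x) ≤ d x (a ^ u) :=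
  (h.near_isLeast x).1 u

theorem Lin.tau_mul (h : Lin a d δ) (x : H) (j : ℤ) : tau a d (a ^ j * x) = j + tau a d x := by
  have hsh : ∀ s : ℤ, d (a ^ j * x) (a ^ s) = d x (a ^ (s - j)) := by
    intro s
    have := h.geo.inv (a ^ j) x (a ^ (s - j))
    rw [← zpow_add, add_sub_cancel] at this
    exact this
  have hl := h.near_isLeast x
  have : IsLeast (near a d (a ^ j * x)) (j + tau a d x) := by
    constructor
    · intro u
      rw [hsh, hsh, add_sub_cancel_left]
      exact hl.1 _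
    · intro s hs
      have : s - j ∈ near a d x := by
        intro u
        have := hs (u + j)
        rw [hsh, hsh, add_sub_cancel_right] at this
        exact this
      have := hl.2 this
      omega
  exact (h.near_isLeast _).unique this

theorem Lin.tau_zpow (h : Lin a d δ) (j : ℤ) : tau a d (a ^ j) = j := by
  have h1 := h.tau_mem (a ^ j) j
  rw [h.dline, h.dline, sub_self, abs_zero] at h1
  have := abs_nonpos_iff.1 h1
  omega

theorem Lin.tau_near (h : Lin a d δ) (x : H) (k : ℤ) : |tau a d x - k| ≤ 2 * d x (a ^ k) := by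
  rw [← h.dline]
  have h1 := h.geo.tri (a ^ tau a d x) x (a ^ k)
  have h2 := h.tau_mem x k
  rw [h.geo.symm (a ^ tau a d x) x] at h1
  omega

/-- the projection is almost between `x` and any point of the line -/
theorem Lin.n1 (h : Lin a d δ) (x : H) (u : ℤ) :
    d x (a ^ tau a d x) + |tau a d x - u| ≤ d x (a ^ u) + (2 * δ + 1) := by
  have hδ := h.δ0
  have hu := h.tau_mem x u
  set t := tau a d x with ht
  rcases le_or_gt (|t - u|) δ with hD | hD
  · omega
  · -- the point at distance δ + 1 from `t` towards `u`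
    obtain ⟨m, hm1, hm2⟩ : ∃ m : ℤ, |t - m| = δ + 1 ∧ |m - u| = |t - u| - (δ + 1) := by
      rcases le_total t u with hle | hle
      · refine ⟨t + (δ + 1), ?_, ?_⟩
        · rw [show t - (t + (δ + 1)) = -(δ + 1) by ring, abs_neg, abs_of_nonneg (by omega)]
        · rw [abs_of_nonpos (by omega : t - u ≤ 0)] at hD ⊢
          rw [abs_of_nonpos (by omega : t + (δ + 1) - u ≤ 0)]
          ring
      · refine ⟨t - (δ + 1), ?_, ?_⟩
        · rw [show t - (t - (δ + 1)) = δ + 1 by ring, abs_of_nonneg (by omega)]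
        · rw [abs_of_nonneg (by omega : 0 ≤ t - u)] at hD ⊢
          rw [abs_of_nonneg (by omega : 0 ≤ t - (δ + 1) - u)]
          ring
    have hm := h.tau_mem x m
    rw [← ht] at hm
    have e1 := h.dline t m
    have e2 := h.dline m u
    have e3 := h.dline t u
    have s1 := h.geo.symm (a ^ t) (a ^ m)
    have s2 := h.geo.symm (a ^ u) (a ^ m)
    have s3 := h.geo.symm (a ^ m) (a ^ u)
    rcases h.hyp x (a ^ t) (a ^ m) (a ^ u) with h4 | h4
    · omega
    · omega

/-- the same for any nearest exponent -/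
theorem Lin.near_tau (h : Lin a d δ) (x : H) (s : ℤ) (hs : s ∈ near a d x) :
    |s - tau a d x| ≤ 2 * δ + 1 := by
  have h1 := h.n1 x s
  have h2 := hs (tau a d x)
  rw [abs_sub_comm] at h1
  omega

/-- points with distant projections: a geodesic passes through the projections -/
theorem Lin.n2 (h : Lin a d δ) (x y : H) (hxy : 3 * δ + 1 < |tau a d x - tau a d y|) :
    d x (a ^ tau a d x) + |tau a d x - tau a d y| + d (a ^ tau a d y) y ≤ d x y + (5 * δ + 2) := by
  have hδ := h.δ0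
  have h1 := h.n1 x (tau a d y)
  have h2 := h.n1 y (tau a d x)
  rw [abs_sub_comm (tau a d y)] at h2
  have e := h.dline (tau a d x) (tau a d y)
  have s1 := h.geo.symm (a ^ tau a d y) y
  have s2 := h.geo.symm (a ^ tau a d x) y
  have s3 := h.geo.symm (a ^ tau a d x) (a ^ tau a d y)
  rcases h.hyp x y (a ^ tau a d y) (a ^ tau a d x) with h4 | h4
  · omega
  · omega

theorem Lin.lip (h : Lin a d δ) (x y : H) :
    |tau a d x - tau a d y| ≤ d x y + (5 * δ + 2) := by
  have hδ := h.δ0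
  have h0 := h.geo.nonneg x y
  rcases le_or_gt (|tau a d x - tau a d y|) (3 * δ + 1) with hD | hD
  · omega
  · have h1 := h.n2 x y hD
    have h2 := h.geo.nonneg x (a ^ tau a d x)
    have h3 := h.geo.nonneg (a ^ tau a d y) y
    omega

theorem Par.tau_par (h : Par a d δ κ) {g : H} (hg : g ∉ Subgroup.zpowers a) (i j : ℤ) :
    |tau a d (g * a ^ i) - tau a d (g * a ^ j)| ≤ κ :=
  h.par g hg i j _ _ (fun u => h.toLin.tau_mem _ u) (fun u => h.toLin.tau_mem _ u)

/-- `⟨a⟩` is malnormal -/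
theorem Par.malnormal (h : Par a d δ κ) {g : H} (hg : g ∉ Subgroup.zpowers a) {i j : ℤ}
    (hij : a ^ i * g = g * a ^ j) : i = 0 ∧ j = 0 := by
  have hκ := h.κ0
  have hn : ∀ n : ℕ, a ^ (i * n) * g = g * a ^ (j * n) := by
    intro n
    induction n with
    | zero => simp
    | succ n ih =>
      push_cast
      rw [mul_add, mul_add, mul_one, mul_one, zpow_add, zpow_add, mul_assoc, hij, ← mul_assoc, ih,
        mul_assoc]
  have hi : i = 0 := by
    have h1 := h.tau_par hg (j * ((κ + 1).toNat : ℕ)) 0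
    rw [zpow_zero, mul_one, ← hn, h.toLin.tau_mul, add_sub_cancel_right, Int.toNat_of_nonneg
      (by omega)] at h1
    by_contra hne
    have h2 : 1 ≤ |i| := Int.one_le_abs hne
    rw [abs_mul, abs_of_nonneg (by omega : (0 : ℤ) ≤ κ + 1)] at h1
    nlinarith
  refine ⟨hi, ?_⟩
  rw [hi, zpow_zero, one_mul] at hij
  have h3 : a ^ j = 1 := by
    have : g * 1 = g * a ^ j := by rw [mul_one]; exact hij
    exact (mul_left_cancel this).symm
  have h4 := h.line j
  rw [h3, h.geo.self] at h4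
  exact abs_eq_zero.1 h4.symm

/-- `n2` for the line `u⟨a⟩`, in terms of points of the line -/
theorem Lin.n2' (h : Lin a d δ) (u x y : H)
    (hxy : 3 * δ + 1 < |tau a d (u⁻¹ * x) - tau a d (u⁻¹ * y)|) :
    d x (u * a ^ tau a d (u⁻¹ * x)) + |tau a d (u⁻¹ * x) - tau a d (u⁻¹ * y)| +
      d (u * a ^ tau a d (u⁻¹ * y)) y ≤ d x y + (5 * δ + 2) := by
  have h1 := h.n2 (u⁻¹ * x) (u⁻¹ * y) hxy
  have e1 := h.geo.inv u (u⁻¹ * x) (a ^ tau a d (u⁻¹ * x))
  have e2 := h.geo.inv u (a ^ tau a d (u⁻¹ * y)) (u⁻¹ * y)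
  have e3 := h.geo.inv u (u⁻¹ * x) (u⁻¹ * y)
  rw [mul_inv_cancel_left] at e1 e2
  rw [mul_inv_cancel_left, mul_inv_cancel_left] at e3
  omega

/-- Behrstock inequality for the lines `u⟨a⟩` and `v⟨a⟩` -/
theorem Par.beh (h : Par a d δ κ) {u v : H} (huv : u⁻¹ * v ∉ Subgroup.zpowers a) (x : H) :
    (∀ k : ℤ, |tau a d (u⁻¹ * x) - tau a d (u⁻¹ * (v * a ^ k))| ≤ κ + 7 * δ + 3) ∨
      (∀ k : ℤ, |tau a d (v⁻¹ * x) - tau a d (v⁻¹ * (u * a ^ k))| ≤ κ + 7 * δ + 3) := by
  have hδ := h.δ0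
  have hvu : v⁻¹ * u ∉ Subgroup.zpowers a := by
    intro hm
    apply huv
    have := Subgroup.inv_mem _ hm
    rwa [mul_inv_rev, inv_inv] at this
  by_contra hcon
  push Not at hcon
  obtain ⟨⟨k, hk⟩, ⟨l, hl⟩⟩ := hcon
  -- one half of the argument
  have half : ∀ (u v : H), u⁻¹ * v ∉ Subgroup.zpowers a → ∀ k : ℤ,
      κ + 7 * δ + 3 < |tau a d (u⁻¹ * x) - tau a d (u⁻¹ * (v * a ^ k))| →
      d x (u * a ^ tau a d (u⁻¹ * x)) < d x (v * a ^ tau a d (v⁻¹ * x)) := by
    intro u v huv k hk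
    have hpar := h.tau_par huv k (tau a d (v⁻¹ * x))
    rw [mul_assoc, mul_assoc] at hpar
    have htri := abs_sub_le (tau a d (u⁻¹ * x)) (tau a d (u⁻¹ * (v * a ^ tau a d (v⁻¹ * x))))
      (tau a d (u⁻¹ * (v * a ^ k)))
    rw [abs_sub_comm (tau a d (u⁻¹ * (v * a ^ tau a d (v⁻¹ * x))))] at htri
    have h1 := h.toLin.n2' u x (v * a ^ tau a d (v⁻¹ * x)) (by omega)
    have h2 := h.geo.nonneg (u * a ^ tau a d (u⁻¹ * (v * a ^ tau a d (v⁻¹ * x))))
      (v * a ^ tau a d (v⁻¹ * x))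
    omega
  have g1 := half u v huv k hk
  have g2 := half v u hvu l hl
  omega

end Pool.Agent.LibSCQ
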