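import Pool.Agent.LibSCQ.Pres
import Pool.Agent.LibSCQ.Line

/-!
TASK 10. The free group of rank two with its word metric.
-/

set_option autoImplicit false

namespace Pool.Agent.LibSCQ

/-- the word metric of the free group -/
def dfree (x y : F2) : ℤ := (x⁻¹ * y).norm

namespace FreeAux

open FreeGroup

/-- length of the longest common prefix -/
def lcp {γ : Type} [DecidableEq γ] : List γ → List γ → ℕ
  | a :: l, b :: m => if a = b then lcp l m + 1 else 0
  | _, _ => 0

theorem lcp_ultra {γ : Type} [DecidableEq γ] (L M K : List γ) :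
    min (lcp L M) (lcp M K) ≤ lcp L K := by
  induction L generalizing M K with
  | nil => simp [lcp]
  | cons a l ih =>
    cases M with
    | nil => simp [lcp]
    | cons b m =>
      cases K with
      | nil => simp [lcp]
      | cons c k =>
        simp only [lcp]
        by_cases h1 : a = b
        · by_cases h2 : b = c
          · have := ih m k
            subst h1 h2
            simp only [if_true]
            omega
          · simp [h2]
        · simp [h1]

theorem lcp_comm {γ : Type} [DecidableEq γ] (L M : List γ) : lcp L M = lcp M L := by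
  induction L generalizing M with
  | nil => cases M <;> simp [lcp]
  | cons a l ih =>
    cases M with
    | nil => simp [lcp]
    | cons b m =>
      simp only [lcp]
      by_cases h : a = b
      · subst h; simp [ih m]
      · simp [h, Ne.symm h]

theorem norm_mk_red {L : List (Fin 2 × Bool)} (h : IsReduced L) : (mk L : F2).norm = L.length := by
  rw [FreeGroup.norm, toWord_mk, h.reduce_eq]

theorem red_invRev {L : List (Fin 2 × Bool)} (h : IsReduced L) : IsReduced (invRev L) := by
  rw [isReduced_iff_reduce_eq, reduce_invRev, h.reduce_eq]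

theorem norm_form : ∀ L M : List (Fin 2 × Bool), IsReduced L → IsReduced M →
    ((mk L : F2)⁻¹ * mk M).norm + 2 * lcp L M = L.length + M.length := by
  intro L
  induction L with
  | nil =>
    intro M _ hM
    have : (mk [] : F2) = 1 := rfl
    rw [this, inv_one, one_mul, norm_mk_red hM]
    simp [lcp]
  | cons a l ih =>
    intro M hL hM
    cases M with
    | nil =>
      have : (mk [] : F2) = 1 := rfl
      rw [this, mul_one, norm_inv_eq, norm_mk_red hL]
      simp [lcp]
    | cons b m =>
      by_cases h : a = b
      · subst h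
        have e1 : (mk (a :: l) : F2) = mk [a] * mk l := by rw [mul_mk]; rfl
        have e2 : (mk (a :: m) : F2) = mk [a] * mk m := by rw [mul_mk]; rfl
        have e3 : (mk (a :: l) : F2)⁻¹ * mk (a :: m) = (mk l)⁻¹ * mk m := by
          rw [e1, e2]; group
        have hl : IsReduced l := List.IsChain.tail hL
        have hm : IsReduced m := List.IsChain.tail hM
        have := ih m hl hm
        rw [e3]
        simp only [lcp, if_true, List.length_cons]
        omega
      · have hr : IsReduced (invRev (a :: l) ++ b :: m) := by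
          rw [FreeGroup.IsReduced, List.isChain_append]
          refine ⟨red_invRev hL, hM, ?_⟩
          intro x hx y hy
          simp only [invRev, List.map_cons, List.reverse_cons, List.getLast?_append,
            List.getLast?_singleton, Option.some_or, Option.mem_def, Option.some.injEq] at hx
          simp only [List.head?_cons, Option.mem_def, Option.some.injEq] at hy
          subst hx hy
          intro h1
          simp only at h1 ⊢
          by_contra h2
          apply h
          refine Prod.ext h1 ?_
          cases ha : a.2 <;> cases hb : b.2 <;> simp_all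
        rw [inv_mk, mul_mk, norm_mk_red hr]
        simp only [lcp, h, if_false, List.length_append, invRev_length]
        ring

theorem norm_form' (x y : F2) :
    (x⁻¹ * y).norm + 2 * lcp x.toWord y.toWord = x.norm + y.norm := by
  have := norm_form x.toWord y.toWord isReduced_toWord isReduced_toWord
  rw [mk_toWord, mk_toWord] at this
  exact this

theorem dfree_inv (g x y : F2) : dfree (g * x) (g * y) = dfree x y := by
  rw [dfree, dfree]
  congr 2
  group

theorem dfree_form (x y z : F2) :
    dfree y z + 2 * lcp (x⁻¹ * y).toWord (x⁻¹ * z).toWord = dfree x y + dfree x z := by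
  have := norm_form' (x⁻¹ * y) (x⁻¹ * z)
  have e : (x⁻¹ * y)⁻¹ * (x⁻¹ * z) = y⁻¹ * z := by group
  rw [e] at this
  rw [dfree, dfree, dfree]
  exact_mod_cast this

theorem dfree_symm (x y : F2) : dfree x y = dfree y x := by
  rw [dfree, dfree, ← norm_inv_eq]
  congr 2
  group

theorem hyp0 : Hyp dfree 0 := by
  intro x y z w
  have h1 := dfree_form x y w
  have h2 := dfree_form x z w
  have h3 := dfree_form x y z
  have h4 := lcp_ultra (x⁻¹ * y).toWord (x⁻¹ * z).toWord (x⁻¹ * w).toWord
  omega

theorem parity (x y z : F2) : ∃ k : ℤ, dfree x y + dfree x z + dfree y z = 2 * k := by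
  have h1 := dfree_form x y z
  exact ⟨dfree y z + lcp (x⁻¹ * y).toWord (x⁻¹ * z).toWord, by omega⟩

theorem dfree_line (k : ℤ) : dfree 1 (gx ^ k) = |k| := by
  rw [dfree, inv_one, one_mul]
  obtain ⟨n, rfl | rfl⟩ := Int.eq_nat_or_neg k
  · rw [zpow_natCast, gx, norm_of_pow]; simp
  · rw [zpow_neg, zpow_natCast, gx, norm_inv_eq, norm_of_pow]; simp

theorem geo : Geo dfree where
  self x := by rw [dfree, inv_mul_cancel, FreeGroup.norm_one]; rfl
  eq x y h := by
    rw [dfree] at h
    have : (x⁻¹ * y).norm = 0 := by exact_mod_cast h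
    rw [FreeGroup.norm_eq_zero] at this
    exact (inv_mul_eq_one.1 this)
  nonneg x y := by rw [dfree]; positivity
  symm := dfree_symm
  tri x y z := by
    rw [dfree, dfree, dfree]
    have := norm_mul_le (x⁻¹ * y) (y⁻¹ * z)
    have e : x⁻¹ * y * (y⁻¹ * z) = x⁻¹ * z := by group
    rw [e] at this
    exact_mod_cast this
  inv := dfree_inv
  geod x y k hk hk' := by
    obtain ⟨n, rfl⟩ := Int.eq_ofNat_of_zero_le hk
    have hn : n ≤ (x⁻¹ * y).norm := by rw [dfree] at hk'; exact_mod_cast hk'
    set L := (x⁻¹ * y).toWord with hL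
    have hred : IsReduced L := isReduced_toWord
    have hlen : (x⁻¹ * y).norm = L.length := rfl
    have h1 : IsReduced (L.take n) := List.IsChain.take hred n
    have h2 : IsReduced (L.drop n) := List.IsChain.drop hred n
    have h3 : (mk (L.take n) : F2) * mk (L.drop n) = x⁻¹ * y := by
      rw [mul_mk, List.take_append_drop, hL, mk_toWord]
    refine ⟨x * mk (L.take n), ?_, ?_⟩
    · rw [dfree]
      have : x⁻¹ * (x * mk (L.take n)) = mk (L.take n) := by group
      rw [this, norm_mk_red h1, List.length_take]
      omega
    · rw [dfree, dfree]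
      have : (x * mk (L.take n))⁻¹ * y = mk (L.drop n) := by
        rw [mul_inv_rev, mul_assoc, ← h3]; group
      rw [this, norm_mk_red h2, List.length_drop]
      omega

theorem lin : Lin gx dfree 0 where
  geo := geo
  δ0 := le_rfl
  hyp := hyp0
  line := dfree_line

theorem dline (i j : ℤ) : dfree (gx ^ i) (gx ^ j) = |i - j| := by
  have := dfree_inv (gx ^ i) 1 (gx ^ (j - i))
  rw [mul_one, ← zpow_add, dfree_line] at this
  rw [show i + (j - i) = j by ring] at this
  rw [this, abs_sub_comm]

/-- nearest points on the line -/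
theorem near_exact {x : F2} {s : ℤ} (hs : ∀ u : ℤ, dfree x (gx ^ s) ≤ dfree x (gx ^ u)) (u : ℤ) :
    dfree x (gx ^ s) + |s - u| ≤ dfree x (gx ^ u) := by
  by_contra hcon
  push Not at hcon
  have hsu : s ≠ u := by
    rintro rfl
    simp at hcon
  obtain ⟨k, hk⟩ := parity x (gx ^ s) (gx ^ u)
  rw [dline] at hk
  -- the neighbour of `s` in the direction of `u`
  obtain ⟨v, hv1, hv2⟩ : ∃ v : ℤ, |s - v| = 1 ∧ |v - u| = |s - u| - 1 := by
    rcases lt_or_gt_of_ne hsu with h | h
    · exact ⟨s + 1, by simp, by rw [abs_of_nonpos (by omega), abs_of_neg (by omega)]; ring⟩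
    · exact ⟨s - 1, by simp, by rw [abs_of_nonneg (by omega), abs_of_pos (by omega)]; ring⟩
  have h4 := hyp0 x (gx ^ s) (gx ^ v) (gx ^ u)
  rw [dline, dline, dline, hv1, hv2] at h4
  have h5 := hs v
  omega

theorem proj_eq {g : F2} (hg : g ∉ Subgroup.zpowers gx) (i j s t : ℤ)
    (hs : ∀ u : ℤ, dfree (g * gx ^ i) (gx ^ s) ≤ dfree (g * gx ^ i) (gx ^ u))
    (ht : ∀ u : ℤ, dfree (g * gx ^ j) (gx ^ t) ≤ dfree (g * gx ^ j) (gx ^ u)) : s = t := by
  by_contra hst
  have h1 := near_exact hs t
  have h2 := near_exact ht s
  set x := g * gx ^ i with hx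
  set y := g * gx ^ j with hy
  have h3 := hyp0 x (gx ^ s) (gx ^ t) y
  have hxy : dfree x y = |i - j| := by rw [hx, hy, dfree_inv, dline]
  rw [dline] at h3
  have hpos : 0 < |s - t| := abs_pos.2 (sub_ne_zero.2 hst)
  rw [abs_sub_comm t s] at h2
  have h4 : dfree x (gx ^ s) + dfree (gx ^ s) y ≤ dfree x y := by
    have e1 := dfree_symm (gx ^ s) y
    have e2 := dfree_symm (gx ^ t) y
    have e3 := geo.tri y (gx ^ t) (gx ^ s)
    rw [dline, abs_sub_comm t s] at e3
    omega
  set c := dfree x (gx ^ s) with hc
  have hc0 : 0 ≤ c := geo.nonneg _ _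
  have hd0 : 0 ≤ dfree (gx ^ s) y := geo.nonneg _ _
  obtain ⟨m, hm1, hm2⟩ : ∃ m : ℤ, |i - m| = c ∧ |m - j| = |i - j| - c := by
    rcases le_total i j with h | h
    · have e : |i - j| = j - i := by rw [abs_of_nonpos (by omega)]; ring
      exact ⟨i + c, by rw [abs_of_nonpos (by omega)]; ring,
        by rw [e, abs_of_nonpos (by omega)]; ring⟩
    · have e : |i - j| = i - j := by rw [abs_of_nonneg (by omega)]
      exact ⟨i - c, by rw [abs_of_nonneg (by omega)]; ring,
        by rw [e, abs_of_nonneg (by omega)]; ring⟩
  have hq1 : dfree x (g * gx ^ m) = c := by rw [hx, dfree_inv, dline, hm1]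
  have hq2 : dfree y (g * gx ^ m) = |i - j| - c := by
    rw [hy, dfree_inv, dline, abs_sub_comm, hm2]
  have h5 := hyp0 x (gx ^ s) y (g * gx ^ m)
  have h6 := geo.nonneg (gx ^ s) (g * gx ^ m)
  have h7 : dfree (gx ^ s) (g * gx ^ m) = 0 := by omega
  have h8 := geo.eq _ _ h7
  apply hg
  have : g = gx ^ s * (gx ^ m)⁻¹ := by rw [h8]; group
  rw [this]
  exact Subgroup.mul_mem _ (Subgroup.zpow_mem _ (Subgroup.mem_zpowers gx) _)
    (Subgroup.inv_mem _ (Subgroup.zpow_mem _ (Subgroup.mem_zpowers gx) _))

/-- exponent sum of the second generator -/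
def expb : F2 →* Multiplicative ℤ :=
  FreeGroup.lift fun i => if i = 1 then Multiplicative.ofAdd 1 else 1

theorem expb_x : expb gx = 1 := by simp [expb, gx]

theorem expb_y : expb gy = Multiplicative.ofAdd 1 := by simp [expb, gy]

theorem expb_list (u : F2) (hu : expb u = 1) (n : ℕ) :
    expb (((List.range n).map fun k => gy ^ (k + 1) * u).prod) =
      Multiplicative.ofAdd (∑ k ∈ Finset.range n, ((k : ℤ) + 1)) := by
  induction n with
  | zero => simp
  | succ n ih =>
    rw [List.range_succ, List.map_append, List.prod_append, expb.map_mul, ih,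
      Finset.sum_range_succ, ofAdd_add]
    simp only [List.map_cons, List.map_nil, List.prod_cons, List.prod_nil, mul_one, expb.map_mul,
      expb.map_pow, expb_y, hu]
    rw [← ofAdd_nsmul]
    simp

theorem sum_pos_aux (n : ℕ) (hn : 0 < n) : 0 < ∑ k ∈ Finset.range n, ((k : ℤ) + 1) :=
  Finset.sum_pos (fun k _ => by positivity) ⟨0, Finset.mem_range.2 hn⟩

theorem expb_fw (u : F2) (hu : expb u = 1) : expb (fw gy u) ≠ 1 := by
  rw [fw, expb_list u hu]
  intro h
  have h1 := ofAdd_eq_one.1 h
  exact (sum_pos_aux 1000 (Nat.succ_pos 999)).ne' h1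

end FreeAux

open FreeAux in
theorem free_good : Good gx gy dfree 10 10 ∅ where
  geo := geo
  δ0 := by norm_num
  hyp := fun x y z w => by
    rcases hyp0 x y z w with h | h
    · left; omega
    · right; omega
  line := dfree_line
  κ0 := by norm_num
  par := fun g hg i j s t hs ht => by
    rw [proj_eq hg i j s t hs ht]
    simp
  b_le := by
    rw [dfree, inv_one, one_mul, gy, FreeGroup.norm_of]; rfl
  jsep := fun k l _ _ x y h => by
    have := congrArg expb h
    simp only [map_zpow, map_mul, expb_x, expb_y, one_zpow, one_mul, mul_one] at this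
    rw [← ofAdd_zsmul, ← ofAdd_zsmul] at this
    have := Multiplicative.ofAdd.injective this
    simpa using this
  ball := fun h hh => by
    rw [dfree, inv_one, one_mul] at hh
    have hh' : h.norm ≤ 1 := by exact_mod_cast hh
    have hlen : h.toWord.length ≤ 1 := hh'
    have hm : h = FreeGroup.mk h.toWord := FreeGroup.mk_toWord.symm
    rcases hw : h.toWord with _ | ⟨⟨i, e⟩, l⟩
    · left
      rw [hm, hw]; rfl
    · rw [hw] at hlen
      have hl : l = [] := by
        cases l with
        | nil => rfl
        | cons _ _ => simp at hlen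
      subst hl
      rw [hm, hw]
      right
      fin_cases i <;> cases e
      · right; left; rfl
      · left; rfl
      · right; right; right; rfl
      · right; right; left; rfl
  tf := fun h p hp hh => by
    have := IsMulTorsionFree.pow_left_injective (M := F2) (n := p) (by omega)
    exact this (by simpa using hh)
  dset := fun m hm => by
    exfalso
    obtain ⟨k, hk⟩ := hm
    have := congrArg expb hk
    simp only [map_zpow, expb_x, one_zpow] at this
    exact expb_fw _ (by rw [map_zpow, expb_x, one_zpow]) this.symm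

end Pool.Agent.LibSCQ
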