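import Pool.Agent.LibSCQ.Line

/-!
TASK 8a. Local geodesics in hyperbolic spaces.
-/

set_option autoImplicit false

namespace Pool.Agent.LibSCQ

variable {H : Type} [Group H] {d : H → H → ℤ} {δ : ℤ}

theorem lg_right (h : Geo d) (hδ : 0 ≤ δ) (hyp : Hyp d δ) (γ : ℤ → H) (L : ℤ)
    (hL : 100 * (δ + 1) ≤ L) (hγ : ∀ s t, s ≤ t → t ≤ s + L → d (γ s) (γ t) = t - s) (n : ℕ) :
    ∀ s u t : ℤ, u - s ≤ n → s ≤ u → u ≤ t → 2 * (t - u) ≤ L →
      d (γ s) (γ u) + d (γ u) (γ t) ≤ d (γ s) (γ t) + δ := by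
  induction n using Nat.strong_induction_on with
  | _ n ih =>
  intro s u t hn hsu hut htu
  by_cases hts : t ≤ s + L
  · rw [hγ s u hsu (by omega), hγ u t hut (by omega), hγ s t (by omega) hts]
    omega
  · obtain ⟨l, hl⟩ : ∃ l : ℤ, l = L / 2 := ⟨_, rfl⟩
    have h1 := ih (n - 1) (by omega) s (u - l) u (by omega) (by omega) (by omega) (by omega)
    have h2 : d (γ (u - l)) (γ u) = l := by rw [hγ _ _ (by omega) (by omega)]; omega
    have h3 : d (γ u) (γ t) = t - u := hγ _ _ (by omega) (by omega)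
    have h4 : d (γ (u - l)) (γ t) = t - (u - l) := hγ _ _ (by omega) (by omega)
    rcases hyp (γ s) (γ (u - l)) (γ u) (γ t) with h5 | h5
    · exfalso
      rw [h2] at h1
      rw [h4, h3] at h5
      omega
    · rw [h4, h2] at h5
      rw [h3]
      omega

theorem lg_left (h : Geo d) (hδ : 0 ≤ δ) (hyp : Hyp d δ) (γ : ℤ → H) (L : ℤ)
    (hL : 100 * (δ + 1) ≤ L) (hγ : ∀ s t, s ≤ t → t ≤ s + L → d (γ s) (γ t) = t - s)
    {s u t : ℤ} (hsu : s ≤ u) (hut : u ≤ t) (hu : 2 * (u - s) ≤ L) :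
    d (γ s) (γ u) + d (γ u) (γ t) ≤ d (γ s) (γ t) + δ := by
  have := lg_right h hδ hyp (fun i => γ (-i)) L hL (by
    intro a b hab hb
    rw [h.symm, hγ _ _ (by omega) (by omega)]
    omega) (t - u).toNat (-t) (-u) (-s) (by omega) (by omega) (by omega) (by omega)
  simp only [neg_neg] at this
  rw [h.symm (γ t) (γ u), h.symm (γ u) (γ s), h.symm (γ t) (γ s)] at this
  omega

/-- a local geodesic is almost geodesic, with a better constant -/
theorem loc_geo' (h : Geo d) (hδ : 0 ≤ δ) (hyp : Hyp d δ) (γ : ℤ → H) (L : ℤ)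
    (hL : 100 * (δ + 1) ≤ L) (hγ : ∀ s t, s ≤ t → t ≤ s + L → d (γ s) (γ t) = t - s)
    {s u t : ℤ} (hsu : s ≤ u) (hut : u ≤ t) :
    d (γ s) (γ u) + d (γ u) (γ t) ≤ d (γ s) (γ t) + 2 * δ := by
  obtain ⟨l, hl⟩ : ∃ l : ℤ, l = L / 2 := ⟨_, rfl⟩
  by_cases htu : 2 * (t - u) ≤ L
  · have := lg_right h hδ hyp γ L hL hγ (u - s).toNat s u t (by omega) hsu hut htu
    omega
  · have h1 := lg_right h hδ hyp γ L hL hγ (u - s).toNat s u (u + l) (by omega) hsu (by omega)
      (by omega)
    have h2 := lg_left h hδ hyp γ L hL hγ (s := u) (u := u + l) (t := t) (by omega) (by omega)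
      (by omega)
    have h3 : d (γ u) (γ (u + l)) = l := by rw [hγ _ _ (by omega) (by omega)]; omega
    rw [h3] at h1 h2
    rcases hyp (γ s) (γ u) (γ (u + l)) (γ t) with h5 | h5
    · exfalso
      omega
    · rw [h3] at h5
      omega

/-- a local geodesic is almost geodesic -/
theorem loc_geo (h : Geo d) (hδ : 0 ≤ δ) (hyp : Hyp d δ) (γ : ℤ → H) (L : ℤ)
    (hL : 100 * (δ + 1) ≤ L) (hγ : ∀ s t, s ≤ t → t ≤ s + L → d (γ s) (γ t) = t - s)
    {s u t : ℤ} (hsu : s ≤ u) (hut : u ≤ t) :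
    d (γ s) (γ u) + d (γ u) (γ t) ≤ d (γ s) (γ t) + 4 * δ := by
  have := loc_geo' h hδ hyp γ L hL hγ hsu hut
  omega

/-- discrete intermediate value theorem along a path -/
theorem lg_ivt (h : Geo d) (γ : ℤ → H) (hγ : ∀ s, d (γ s) (γ (s + 1)) ≤ 1) (s k : ℤ) (hk : 0 ≤ k)
    (n : ℕ) : k ≤ d (γ s) (γ (s + n)) → ∃ u, s ≤ u ∧ u ≤ s + n ∧ d (γ s) (γ u) = k := by
  induction n with
  | zero =>
    intro hkn
    refine ⟨s, le_rfl, by simp, ?_⟩
    simp only [Nat.cast_zero, add_zero, h.self] at hkn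
    rw [h.self]
    omega
  | succ n ih =>
    intro hkn
    by_cases hc : k ≤ d (γ s) (γ (s + n))
    · obtain ⟨u, hu1, hu2, hu3⟩ := ih hc
      exact ⟨u, hu1, by push_cast; omega, hu3⟩
    · refine ⟨s + (n + 1 : ℕ), by omega, le_rfl, ?_⟩
      have h1 := h.tri (γ s) (γ (s + n)) (γ (s + (n + 1 : ℕ)))
      have h2 := hγ (s + n)
      have h3 : s + (n : ℤ) + 1 = s + (n + 1 : ℕ) := by push_cast; ring
      rw [h3] at h2
      omega

/-- a point almost between two points of a local geodesic is close to a point of it -/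
theorem loc_geo_near (h : Geo d) (hδ : 0 ≤ δ) (hyp : Hyp d δ) (γ : ℤ → H) (L : ℤ)
    (hL : 100 * (δ + 1) ≤ L) (hγ : ∀ s t, s ≤ t → t ≤ s + L → d (γ s) (γ t) = t - s)
    {s t ε : ℤ} (hst : s ≤ t) {w : H} (hw : d (γ s) w + d w (γ t) ≤ d (γ s) (γ t) + ε) :
    ∃ u, s ≤ u ∧ u ≤ t ∧ d w (γ u) ≤ 5 * δ + ε := by
  by_cases hc : d (γ s) w ≤ d (γ s) (γ t)
  · obtain ⟨u, hu1, hu2, hu3⟩ := lg_ivt h γ (fun a => by
      rw [hγ a (a + 1) (by omega) (by omega)]; omega) s (d (γ s) w) (h.nonneg _ _) (t - s).toNat (by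
        rw [Int.toNat_of_nonneg (by omega), add_sub_cancel]
        exact hc)
    rw [Int.toNat_of_nonneg (by omega), add_sub_cancel] at hu2
    refine ⟨u, hu1, hu2, ?_⟩
    have h1 := loc_geo' h hδ hyp γ L hL hγ hu1 hu2
    have h2 := h.tri (γ s) w (γ t)
    rcases hyp (γ s) w (γ t) (γ u) with h5 | h5
    · rw [h.symm (γ t) (γ u)] at h5
      omega
    · omega
  · refine ⟨t, hst, le_rfl, ?_⟩
    omega

/-- a geodesic path between two points -/
theorem lg_path (h : Geo d) (x y : H) : ∃ σ : ℕ → H, σ 0 = x ∧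
    ∀ i : ℕ, (i : ℤ) ≤ d x y → d (σ i) y = d x y - i ∧ (0 < i → d (σ (i - 1)) (σ i) = 1) := by
  have hstep : ∀ z : H, ∃ z' : H, 1 ≤ d z y → d z z' = 1 ∧ d z' y = d z y - 1 := by
    intro z
    by_cases hz : 1 ≤ d z y
    · obtain ⟨z', h1, h2⟩ := h.geod z y 1 (by omega) hz
      exact ⟨z', fun _ => ⟨h1, h2⟩⟩
    · exact ⟨z, fun h' => absurd h' hz⟩
  choose f hf using hstep
  refine ⟨fun i => f^[i] x, rfl, ?_⟩
  intro i
  induction i with
  | zero =>
    intro _
    refine ⟨by simp, fun h0 => absurd h0 (lt_irrefl _)⟩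
  | succ i ih =>
    intro hi
    have h1 := (ih (by push_cast at hi; omega)).1
    have h2 := hf (f^[i] x) (by push_cast at hi; simp only at h1; omega)
    refine ⟨?_, fun _ => ?_⟩
    · simp only [Function.iterate_succ_apply'] at h1 ⊢
      rw [h2.2, h1]
      push_cast
      ring
    · simp only [Nat.add_sub_cancel, Function.iterate_succ_apply']
      exact h2.1

/-- the axis of an element `h` whose translation length is attained at `1` -/
theorem axis_path (h : Geo d) (g : H) (hg : 0 < d 1 g) (hmin : ∀ x, d 1 g ≤ d x (g * x)) :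
    ∃ γ : ℤ → H, γ 0 = 1 ∧ (∀ s, γ (s + d 1 g) = g * γ s) ∧
      ∀ s t, s ≤ t → t ≤ s + d 1 g → d (γ s) (γ t) = t - s := by
  obtain ⟨σ, hσ0, hσ⟩ := lg_path h 1 g
  obtain ⟨n, hn⟩ : ∃ n : ℤ, n = d 1 g := ⟨_, rfl⟩
  rw [← hn] at hg hmin hσ ⊢
  have hσn : σ n.toNat = g := by
    have := (hσ n.toNat (by omega)).1
    exact h.eq _ _ (by omega)
  let γ : ℤ → H := fun s => g ^ (s / n) * σ (s % n).toNat
  have hγper : ∀ s, γ (s + n) = g * γ s := by
    intro s
    simp only [γ]
    have hq : (s + n) / n = 1 + s / n := by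
      have : s + n = s + n * 1 := by ring
      rw [this, Int.add_mul_ediv_left _ _ (by omega)]
      ring
    rw [hq, Int.add_emod_right, zpow_add, zpow_one, mul_assoc]
  have hstep : ∀ s, d (γ s) (γ (s + 1)) ≤ 1 := by
    intro s
    have h0 : 0 ≤ s % n := Int.emod_nonneg _ (by omega)
    have h1 : s % n < n := Int.emod_lt_of_pos _ hg
    have h2 := Int.mul_ediv_add_emod s n
    by_cases hc : s % n + 1 < n
    · have hq : (s + 1) / n = s / n := by
        have : s + 1 = (s % n + 1) + n * (s / n) := by linarith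
        rw [this, Int.add_mul_ediv_left _ _ (by omega), Int.ediv_eq_zero_of_lt (by omega) hc,
          zero_add]
      have hr : (s + 1) % n = s % n + 1 := by
        have h3 := Int.mul_ediv_add_emod (s + 1) n
        rw [hq] at h3
        linarith
      simp only [γ]
      rw [hq, hr, h.inv]
      have h4 := (hσ (s % n + 1).toNat (by omega)).2 (by omega)
      have h5 : (s % n + 1).toNat - 1 = (s % n).toNat := by omega
      rw [h5] at h4
      omega
    · have hr' : s % n = n - 1 := by omega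
      have hq : (s + 1) / n = s / n + 1 := by
        have : s + 1 = 0 + n * (s / n + 1) := by
          have : n * (s / n + 1) = n * (s / n) + n := by ring
          omega
        rw [this, Int.add_mul_ediv_left _ _ (by omega), Int.zero_ediv, zero_add]
      have hr : (s + 1) % n = 0 := by
        have h3 := Int.mul_ediv_add_emod (s + 1) n
        rw [hq] at h3
        have : n * (s / n + 1) = n * (s / n) + n := by ring
        omega
      simp only [γ]
      rw [hq, hr, zpow_add, zpow_one, mul_assoc, h.inv, Int.toNat_zero, hσ0, mul_one, hr']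
      have h4 := (hσ n.toNat (by omega)).2 (by omega)
      have h5 : n.toNat - 1 = (n - 1).toNat := by omega
      rw [h5, hσn] at h4
      omega
  have hup : ∀ (k : ℕ) (s : ℤ), d (γ s) (γ (s + k)) ≤ k := by
    intro k
    induction k with
    | zero =>
      intro s
      simp [h.self]
    | succ k ih =>
      intro s
      have h1 := ih s
      have h2 := hstep (s + k)
      have h3 := h.tri (γ s) (γ (s + k)) (γ (s + k + 1))
      have h4 : s + (k : ℤ) + 1 = s + (k + 1 : ℕ) := by push_cast; ring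
      rw [h4] at h2 h3
      push_cast at *
      omega
  refine ⟨γ, ?_, hγper, ?_⟩
  · simp only [γ]
    simp [hσ0]
  · intro s t hst hts
    have h1 := hup (t - s).toNat s
    have h2 := hup (s + n - t).toNat t
    have e1 : s + ((t - s).toNat : ℤ) = t := by omega
    have e2 : t + ((s + n - t).toNat : ℤ) = s + n := by omega
    rw [e1] at h1
    rw [e2] at h2
    have h3 := hmin (γ s)
    rw [← hγper] at h3
    have h4 := h.tri (γ s) (γ t) (γ (s + n))
    omega

end Pool.Agent.LibSCQ
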