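import Pool.Agent.LibSCQ.Quot
import Pool.Agent.LibSCQ.LocGeo

/-!
TASK 8b. The quotient is torsion-free.
-/

set_option autoImplicit false

namespace Pool.Agent.LibSCQ

variable {H : Type} [Group H] {a b : H} {d : H → H → ℤ} {δ κ η M U E : ℤ} {N : Subgroup H}

/-- the constants -/
theorem SCHyp.nums (h : SCHyp a d δ κ η M U E) :
    0 ≤ δ ∧ 0 ≤ κ ∧ 0 ≤ η ∧ δ + κ + η + 1 ≤ E ∧ 500000 * E ≤ M ∧ 10000 * (U - M) ≤ M ∧ M ≤ U :=
  ⟨h.δ0, h.κ0, h.η0, h.hE, h.hE5, h.hU, h.hMU⟩

theorem SCHyp.dPQ (h : SCHyp a d δ κ η M U E) (A : Chain a d η M) (j : ℤ) :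
    d (A.P j) (A.P j * a ^ A.m j) = |A.m j| := by
  have := h.geo.inv (A.P j) 1 (a ^ A.m j)
  rw [mul_one] at this
  rw [this, h.line]

theorem SCHyp.dQP (h : SCHyp a d δ κ η M U E) (A : Chain a d η M) (j : ℤ) :
    d (A.P j * a ^ A.m j) (A.P (j + 1)) ≤ η := by
  have := h.geo.inv (A.P j * a ^ A.m j) 1 (A.e j)
  rw [mul_one] at this
  rw [A.step, this]
  exact A.e_le j

theorem AxSys.P_dist (h : SCHyp a d δ κ η M U E) (X : AxSys a d η M U N) {A : Chain a d η M}
    {r : H} {p : ℕ} (hA : (A, r, p) ∈ X.Ax) (i : ℤ) (n : ℕ) (hn : n ≤ 999) :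
    d (A.P i) (A.P (i + n)) ≤ (n + 1) * U + n * η := by
  have h1 := A.upper h.toChHyp i n
  have h2 := X.m_sum A r p i n hA (le_trans hn (X.per_ge A r p hA))
  linarith

theorem AxSys.P_dist' (h : SCHyp a d δ κ η M U E) (X : AxSys a d η M U N) {A : Chain a d η M}
    {r : H} {p : ℕ} (hA : (A, r, p) ∈ X.Ax) (i j : ℤ) (n : ℕ) (hn : n ≤ 999)
    (hij : |i - j| ≤ n) : d (A.P i) (A.P j) ≤ (n + 1) * U + n * η := by
  obtain ⟨k1, k2, k3, k4, k5, k6, k7⟩ := h.nums
  have hU0 : 0 ≤ U := by linarith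
  rw [abs_le] at hij
  rcases le_total i j with hle | hle
  · obtain ⟨l, rfl⟩ : ∃ l : ℕ, j = i + l := ⟨(j - i).toNat, by omega⟩
    have hl : (l : ℤ) ≤ n := by omega
    have := X.P_dist h hA i l (by omega)
    nlinarith
  · obtain ⟨l, rfl⟩ : ∃ l : ℕ, i = j + l := ⟨(i - j).toNat, by omega⟩
    have hl : (l : ℤ) ≤ n := by omega
    have := X.P_dist h hA j l (by omega)
    rw [h.geo.symm] at this
    nlinarith

/-- a point almost between two points of the chain is close to the chain at its position -/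
theorem near_chain (h : SCHyp a d δ κ η M U E) (X : AxSys a d η M U N) {A : Chain a d η M} {r : H}
    {p : ℕ} (hA : (A, r, p) ∈ X.Ax) {i i' : ℤ} (hi : i ≤ i') {z : H}
    (hz : 2 * (d (A.P i) z + d z (A.P i')) ≤ 2 * d (A.P i) (A.P i') + M) :
    d z (A.P (A.pos z)) ≤ 10 * U := by
  obtain ⟨k1, k2, k3, k4, k5, k6, k7⟩ := h.nums
  have hmono := A.mono h.toChHyp hz
  rw [A.pos_P h.toChHyp, A.pos_P h.toChHyp, min_eq_left (by omega), max_eq_right (by omega)]
    at hmono
  set ρ := A.pos z with hρ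
  obtain ⟨m1, m2⟩ := hmono
  by_cases hl : i + 2 ≤ ρ
  · -- left side
    have hL := A.pass h.toChHyp (j := ρ - 1) (x := A.P i) (y := z)
      (by rw [A.pos_P h.toChHyp]; omega) (by omega)
    have e1 : ρ - 1 + 1 = ρ := by ring
    have hQ := h.dQP A (ρ - 1)
    rw [e1] at hQ
    have t1 := h.geo.tri z (A.P (ρ - 1) * a ^ A.m (ρ - 1)) (A.P ρ)
    rw [h.geo.symm z (A.P (ρ - 1) * a ^ A.m (ρ - 1))] at t1
    have hPQ := h.dPQ A (ρ - 1)
    by_cases hr : ρ + 4 ≤ i'
    · have hR := A.pass h.toChHyp (j := ρ + 2) (x := z) (y := A.P i')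
        (by omega) (by rw [A.pos_P h.toChHyp]; omega)
      have t2 := h.geo.tri (A.P i) (A.P (ρ - 1)) (A.P i')
      have t3 := h.geo.tri (A.P (ρ - 1)) (A.P (ρ - 1) * a ^ A.m (ρ - 1)) (A.P i')
      have t4 := h.geo.tri (A.P (ρ - 1) * a ^ A.m (ρ - 1)) (A.P ρ) (A.P i')
      have t5 := h.geo.tri (A.P ρ) (A.P (ρ + 2)) (A.P i')
      have t6 := h.geo.tri (A.P (ρ + 2)) (A.P (ρ + 2) * a ^ A.m (ρ + 2)) (A.P i')
      have hPQ2 := h.dPQ A (ρ + 2)
      have hD := X.P_dist h hA ρ 2 (by norm_num)
      push_cast at hD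
      have n1 := h.geo.nonneg z (A.P (ρ + 2))
      linarith
    · have t2 := h.geo.tri (A.P i) (A.P (ρ - 1)) (A.P i')
      have t3 := h.geo.tri (A.P (ρ - 1)) (A.P (ρ - 1) * a ^ A.m (ρ - 1)) (A.P i')
      have t4 := h.geo.tri (A.P (ρ - 1) * a ^ A.m (ρ - 1)) (A.P ρ) (A.P i')
      have hD := X.P_dist' h hA ρ i' 3 (by norm_num) (by rw [abs_le]; constructor <;> omega)
      push_cast at hD
      have n1 := h.geo.nonneg z (A.P i')
      linarith
  · have t0 := h.geo.tri z (A.P i) (A.P ρ)
    rw [h.geo.symm z (A.P i)] at t0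
    by_cases hr : ρ + 4 ≤ i'
    · have hR := A.pass h.toChHyp (j := ρ + 2) (x := z) (y := A.P i')
        (by omega) (by rw [A.pos_P h.toChHyp]; omega)
      have t5 := h.geo.tri (A.P i) (A.P (ρ + 2)) (A.P i')
      have t6 := h.geo.tri (A.P (ρ + 2)) (A.P (ρ + 2) * a ^ A.m (ρ + 2)) (A.P i')
      have hPQ2 := h.dPQ A (ρ + 2)
      have hD := X.P_dist' h hA i (ρ + 2) 3 (by norm_num) (by rw [abs_le]; constructor <;> omega)
      have hD2 := X.P_dist' h hA i ρ 3 (by norm_num) (by rw [abs_le]; constructor <;> omega)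
      push_cast at hD hD2
      have n1 := h.geo.nonneg z (A.P (ρ + 2))
      linarith
    · have hD := X.P_dist' h hA i i' 4 (by norm_num) (by rw [abs_le]; constructor <;> omega)
      have hD2 := X.P_dist' h hA i ρ 3 (by norm_num) (by rw [abs_le]; constructor <;> omega)
      push_cast at hD hD2
      have n1 := h.geo.nonneg z (A.P i')
      linarith

/-- lower bound for the distance of entry points -/
theorem P_lower (h : SCHyp a d δ κ η M U E) (A : Chain a d η M) (i : ℤ) (n : ℕ) :
    (n + 1) * (M - 61 * E) ≤ d (A.P i) (A.P (i + (n + 3))) := by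
  have hl := A.lower h.toChHyp (i := i + 1) (x := A.P i) (y := A.P (i + (n + 3))) n
    (by rw [A.pos_P h.toChHyp]; omega) (by rw [A.pos_P h.toChHyp]; omega)
  have hs : ((n : ℤ) + 1) * M ≤ ∑ l ∈ Finset.range (n + 1), |A.m (i + 1 + l)| := by
    have := Finset.card_nsmul_le_sum (Finset.range (n + 1)) (fun l => |A.m (i + 1 + l)|) M
      (fun l _ => A.m_ge _)
    rw [Finset.card_range, nsmul_eq_mul] at this
    push_cast at this
    exact this
  have n1 := h.geo.nonneg (A.P i) (A.P (i + 1))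
  have n2 := h.geo.nonneg (A.P (i + 1 + n) * a ^ A.m (i + 1 + n)) (A.P (i + (n + 3)))
  linarith

/-- entry points are ordered along a geodesic -/
theorem P_order (h : SCHyp a d δ κ η M U E) (A : Chain a d η M) {x : H} {j : ℤ} (n : ℕ)
    (hx : A.pos x + 2 ≤ j) :
    d x (A.P j) + (n + 1) * (M - 61 * E) ≤ d x (A.P (j + (n + 2))) := by
  have hl := A.lower h.toChHyp (i := j) (x := x) (y := A.P (j + (n + 2))) n
    hx (by rw [A.pos_P h.toChHyp]; omega)
  have hs : ((n : ℤ) + 1) * M ≤ ∑ l ∈ Finset.range (n + 1), |A.m (j + l)| := by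
    have := Finset.card_nsmul_le_sum (Finset.range (n + 1)) (fun l => |A.m (j + l)|) M
      (fun l _ => A.m_ge _)
    rw [Finset.card_range, nsmul_eq_mul] at this
    push_cast at this
    exact this
  have n2 := h.geo.nonneg (A.P (j + n) * a ^ A.m (j + n)) (A.P (j + (n + 2)))
  linarith

/-- The core: no element outside `N` that is shortest in its class and has a power in `N`. -/
theorem AxSys.tors_core (h : SCHyp a d δ κ η M U E) (X : AxSys a d η M U N)
    {g : H} {p : ℕ} (hp : 0 < p) (hgN : g ∉ N)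
    (hmin : ∀ x, ∀ ν ∈ N, d 1 g ≤ d x (ν * g * x)) {A : Chain a d η M} {r : H} {K : ℕ}
    (hA : (A, r, K) ∈ X.Ax) (hv : A.pos 1 + 915 ≤ A.pos (g ^ p)) : False := by
  obtain ⟨k1, k2, k3, k4, k5, k6, k7⟩ := h.nums
  have hsym := h.geo.symm
  have htri := h.geo.tri
  have hinv := h.geo.inv
  have hE0 : 1 ≤ E := by linarith
  have hgpos : 0 < d 1 g := by
    rcases lt_or_eq_of_le (h.geo.nonneg 1 g) with h1 | h1
    · exact h1
    · exfalso
      have := h.geo.eq 1 g h1.symm
      exact hgN (this ▸ N.one_mem)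
  -- the translated axis
  have hov : ∀ i j : ℤ, |A.pos (g * A.P i) - A.pos (g * A.P j)| ≤ 5 := by
    rcases X.overlap A r K (A.tr g) (g * r * g⁻¹) K hA (X.tr A r K g hA) with ⟨_, _, t, ht⟩ | h2
    · exfalso
      have := ht 0
      change g * A.P 0 = r ^ t * A.P 0 at this
      have := mul_right_cancel this
      exact hgN (this ▸ N.zpow_mem (X.mem A r K hA) t)
    · intro i j
      exact h2 _ ⟨i, 0, by rw [zpow_zero, mul_one]; rfl⟩ _ ⟨j, 0, by rw [zpow_zero, mul_one]; rfl⟩
  set α := A.pos 1 with hα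
  set ω := A.pos (g ^ p) with hω
  have hposP := A.pos_P h.toChHyp
  by_cases hs : 5 * d 1 g ≤ M
  · -- short case
    have key : ∀ j, α + 2 ≤ j → j + 1 ≤ ω → |A.pos (A.P j) - A.pos (g * A.P j)| ≤ 1 := by
      intro j hj1 hj2
      have hps := A.pass h.toChHyp (j := j) (x := 1) (y := g ^ p) hj1 hj2
      have hPQ := h.dPQ A j
      have t1 := htri (A.P j) (A.P j * a ^ A.m j) (g ^ p)
      -- distances of the translate
      have t2 := htri 1 g (g * A.P j)
      have e2 : d g (g * A.P j) = d 1 (A.P j) := by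
        have := hinv g 1 (A.P j)
        rwa [mul_one] at this
      have hgg : d (g ^ p) (g * g ^ p) = d 1 g := by
        have := hinv (g ^ p) 1 g
        rw [mul_one] at this
        rw [← pow_succ', pow_succ]
        exact this
      have t3 := htri (g ^ p) (g * g ^ p) (g * A.P j)
      have e3 : d (g * g ^ p) (g * A.P j) = d (g ^ p) (A.P j) := hinv _ _ _
      have e4 := hsym (g ^ p) (A.P j)
      have hyp := h.hyp 1 (A.P j) (g ^ p) (g * A.P j)
      have hc : d (A.P j) (g * A.P j) ≤ 61 * E + d 1 g + δ := by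
        rcases hyp with h1 | h1 <;> linarith
      apply A.pos_near h.toChHyp
      linarith
    have q1 := key (α + 2) (by omega) (by omega)
    have q2 := key (ω - 1) (by omega) (by omega)
    have q3 := hov (α + 2) (ω - 1)
    rw [hposP] at q1 q2
    rw [abs_le] at q1 q2 q3
    omega
  · -- long case
    push Not at hs
    obtain ⟨γ, g0, g1, g2⟩ := axis_path h.geo g hgpos (fun x => by
      have := hmin x 1 N.one_mem
      rwa [one_mul] at this)
    have hL : 100 * (δ + 1) ≤ d 1 g := by linarith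
    have hγp : ∀ n : ℕ, γ (n * d 1 g) = g ^ n := by
      intro n
      induction n with
      | zero => simpa using g0
      | succ n ih =>
        have e : (((n + 1 : ℕ) : ℤ)) * d 1 g = n * d 1 g + d 1 g := by push_cast; ring
        rw [e, g1, ih, pow_succ']
    have hminγ : ∀ s t, s ≤ t → t ≤ s + d 1 g → IsMin d N (γ s) (γ t) := by
      intro s t h1 h2
      have hfull : IsMin d N (γ s) (g * γ s) := by
        unfold IsMin
        apply le_antisymm
        · obtain ⟨ν, hν, e⟩ := dq_mem (N := N) h.geo (γ s) (g * γ s)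
          rw [e, ← mul_assoc]
          have e2 : d (γ s) (g * γ s) = d 1 g := by
            rw [← g1, g2 s (s + d 1 g) (by linarith) le_rfl]
            ring
          rw [e2]
          exact hmin _ ν hν
        · exact dq_le' h.geo _ _
      apply min_left h.geo hfull
      rw [← g1, g2 s t h1 h2, g2 t (s + d 1 g) h2 (by linarith),
        g2 s (s + d 1 g) (by linarith) le_rfl]
      ring
    -- points of the path near the entry points
    have hnear : ∀ j, α + 2 ≤ j → j + 1 ≤ ω →
        ∃ s, 0 ≤ s ∧ s ≤ p * d 1 g ∧ d (A.P j) (γ s) ≤ 67 * E := by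
      intro j hj1 hj2
      obtain ⟨w, w1, w2⟩ := A.pass_near h.toChHyp (j := j) (x := 1) (y := g ^ p) hj1 hj2
      obtain ⟨u, u1, u2, u3⟩ := loc_geo_near h.geo k1 h.hyp γ (d 1 g) hL g2 (s := 0)
        (t := p * d 1 g) (ε := 0) (by positivity) (w := w) (by rw [g0, hγp]; linarith)
      refine ⟨u, u1, u2, ?_⟩
      have := htri (A.P j) w (γ u)
      have := hsym (A.P j) w
      linarith
    have hloc : ∀ s u t, s ≤ u → u ≤ t →
        d (γ s) (γ u) + d (γ u) (γ t) ≤ d (γ s) (γ t) + 4 * δ := fun s u t h1 h2 =>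
      loc_geo h.geo k1 h.hyp γ (d 1 g) hL g2 h1 h2
    have hposn : ∀ x y : H, d x y ≤ 67 * E → |A.pos x - A.pos y| ≤ 1 := fun x y hxy =>
      A.pos_near h.toChHyp (by linarith)
    by_cases hlen : 515 * U ≤ d 1 g
    · obtain ⟨s, s1, s2, s3⟩ := hnear (α + 2) (by omega) (by omega)
      obtain ⟨s', s1', s2', s3'⟩ := hnear (α + 510) (by omega) (by omega)
      have p1 := hposn _ _ s3
      have p2 := hposn _ _ s3'
      rw [hposP] at p1 p2
      have hD := X.P_dist h hA (α + 2) 508 (by norm_num)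
      have e : α + 2 + ((508 : ℕ) : ℤ) = α + 510 := by push_cast; ring
      rw [e] at hD
      push_cast at hD
      have t1 := htri (γ s) (A.P (α + 2)) (γ s')
      have t2 := htri (A.P (α + 2)) (A.P (α + 510)) (γ s')
      have e1 := hsym (γ s) (A.P (α + 2))
      have e2 := hsym (γ s) (γ s')
      rw [abs_le] at p1 p2
      rcases le_total s s' with hss | hss
      · by_cases hc : s' ≤ s + d 1 g
        · have := X.disp h hA (hminγ s s' hss hc)
          rw [abs_le] at this
          omega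
        · have hq := hloc s (s + d 1 g) s' (by linarith) (by linarith)
          rw [g2 s (s + d 1 g) (by linarith) le_rfl] at hq
          have := h.geo.nonneg (γ (s + d 1 g)) (γ s')
          linarith
      · by_cases hc : s ≤ s' + d 1 g
        · have := X.disp h hA (hminγ s' s hss hc)
          rw [abs_le] at this
          omega
        · have hq := hloc s' (s' + d 1 g) s (by linarith) (by linarith)
          rw [g2 s' (s' + d 1 g) (by linarith) le_rfl] at hq
          have := h.geo.nonneg (γ (s' + d 1 g)) (γ s)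
          linarith
    · push Not at hlen
      -- 1-Lipschitz
      have hlip : ∀ (n : ℕ) (s : ℤ), d (γ s) (γ (s + n)) ≤ n := by
        intro n
        induction n with
        | zero =>
          intro s
          have := h.geo.self (γ s)
          simp [this]
        | succ n ih =>
          intro s
          have t1 := htri (γ s) (γ (s + n)) (γ (s + (n + 1 : ℕ)))
          have t2 := ih s
          have t3 := g2 (s + n) (s + (n + 1 : ℕ)) (by push_cast; linarith)
            (by push_cast; linarith)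
          rw [t3] at t1
          push_cast at t1 ⊢
          linarith
      have hlip' : ∀ s t : ℤ, s ≤ t → d (γ s) (γ t) ≤ t - s := by
        intro s t hst
        obtain ⟨n, rfl⟩ : ∃ n : ℕ, t = s + n := ⟨(t - s).toNat, by omega⟩
        have := hlip n s
        linarith
      set j := α + 2 with hj
      obtain ⟨s, s1, s2, s3⟩ := hnear j (by omega) (by omega)
      obtain ⟨s', s1', s2', s3'⟩ := hnear (j + 100) (by omega) (by omega)
      obtain ⟨s'', s1'', s2'', s3''⟩ := hnear (j + 912) (by omega) (by omega)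
      -- the order
      have o1 := P_order h A (x := 1) (j := j) 98 (by omega)
      have o2 := P_order h A (x := 1) (j := j + 100) 810 (by omega)
      have e1 : j + (((98 : ℕ) : ℤ) + 2) = j + 100 := by push_cast; ring
      have e2 : j + 100 + (((810 : ℕ) : ℤ) + 2) = j + 912 := by push_cast; ring
      rw [e1] at o1
      rw [e2] at o2
      push_cast at o1 o2
      have l1 := P_lower h A j 97
      have l2 := P_lower h A (j + 100) 809
      have e3 : j + (((97 : ℕ) : ℤ) + 3) = j + 100 := by push_cast; ring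
      have e4 : j + 100 + (((809 : ℕ) : ℤ) + 3) = j + 912 := by push_cast; ring
      rw [e3] at l1
      rw [e4] at l2
      push_cast at l1 l2
      have hord : ∀ u v : ℤ, ∀ x y : H, 0 ≤ v → d x (γ u) ≤ 67 * E → d y (γ v) ≤ 67 * E →
          d 1 x + (M - 61 * E) ≤ d 1 y → u < v := by
        intro u v x y hv0 hx hy hxy
        by_contra hc
        push Not at hc
        have q := hloc 0 v u hv0 hc
        rw [g0] at q
        have q1 := h.geo.nonneg (γ v) (γ u)
        have q2 := htri 1 (γ v) y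
        have q3 := hsym (γ v) y
        have q4 := htri 1 x (γ u)
        linarith
      have os : s < s' := hord s s' _ _ s1' s3 s3' (by linarith)
      have os' : s' < s'' := hord s' s'' _ _ s1'' s3' s3'' (by linarith)
      -- the length of the second part
      have hlong : d 1 g < s'' - s' := by
        have q1 := hlip' s' s'' os'.le
        have q2 := htri (A.P (j + 100)) (γ s') (A.P (j + 912))
        have q3 := htri (γ s') (γ s'') (A.P (j + 912))
        have q4 := hsym (γ s'') (A.P (j + 912))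
        linarith
      -- the two translated points
      have hz : ∀ (u : ℤ) (i : ℤ), s ≤ u → u ≤ s' → d (A.P i) (γ u) ≤ 67 * E →
          d (γ (u + d 1 g)) (A.P (A.pos (γ (u + d 1 g)))) ≤ 10 * U ∧
            |A.pos (γ (u + d 1 g)) - A.pos (g * A.P i)| ≤ 1 := by
        intro u i hu1 hu2 hi
        constructor
        · apply near_chain h X hA (i := j) (i' := j + 912) (by omega)
          have q := hloc s (u + d 1 g) s'' (by linarith) (by linarith)
          have q1 := htri (A.P j) (γ s) (γ (u + d 1 g))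
          have q2 := htri (γ (u + d 1 g)) (γ s'') (A.P (j + 912))
          have q3 := hsym (γ s'') (A.P (j + 912))
          have q4 := htri (γ s) (A.P j) (γ s'')
          have q5 := htri (A.P j) (A.P (j + 912)) (γ s'')
          have q6 := hsym (γ s) (A.P j)
          linarith
        · apply hposn
          rw [g1, hinv, hsym]
          exact hi
      obtain ⟨z1, z2⟩ := hz s j le_rfl os.le s3
      obtain ⟨z1', z2'⟩ := hz s' (j + 100) os.le le_rfl s3'
      have z3 := hov j (j + 100)
      have hpz : |A.pos (γ (s + d 1 g)) - A.pos (γ (s' + d 1 g))| ≤ ((7 : ℕ) : ℤ) := by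
        rw [abs_le] at z2 z2' z3 ⊢
        push_cast
        constructor <;> omega
      have hD := X.P_dist' h hA _ _ 7 (by norm_num) hpz
      push_cast at hD
      have f1 := htri (γ (s + d 1 g)) (A.P (A.pos (γ (s + d 1 g)))) (γ (s' + d 1 g))
      have f2 := htri (A.P (A.pos (γ (s + d 1 g)))) (A.P (A.pos (γ (s' + d 1 g))))
        (γ (s' + d 1 g))
      have f3 := hsym (A.P (A.pos (γ (s' + d 1 g)))) (γ (s' + d 1 g))
      have f4 : d (γ (s + d 1 g)) (γ (s' + d 1 g)) = d (γ s) (γ s') := by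
        rw [g1, g1, hinv]
      have f5 := htri (A.P j) (γ s) (A.P (j + 100))
      have f6 := htri (γ s) (γ s') (A.P (j + 100))
      have f7 := hsym (γ s') (A.P (j + 100))
      linarith

theorem AxSys.tors (h : SCHyp a d δ κ η M U E) (X : AxSys a d η M U N) [N.Normal]
    (tf : ∀ (g : H) (p : ℕ), 0 < p → g ^ p = 1 → g = 1) {g : H} {p : ℕ} (hp : 0 < p)
    (hg : g ^ p ∈ N) : g ∈ N := by
  by_contra hgN
  -- a shortest element of the class
  let S : Set ℤ := {k | ∃ x, ∃ ν ∈ N, k = d 1 (x⁻¹ * (ν * g) * x)}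
  have hne : S.Nonempty := ⟨_, 1, 1, N.one_mem, rfl⟩
  have hbd : BddBelow S := by
    refine ⟨0, ?_⟩
    rintro k ⟨x, ν, _, rfl⟩
    exact h.geo.nonneg _ _
  obtain ⟨x0, ν0, hν0, e0⟩ := Int.csInf_mem hne hbd
  set g0 := x0⁻¹ * (ν0 * g) * x0 with hg0
  have hNn : N.Normal := inferInstance
  have hmem : ∀ y : H, y ∈ N ↔ x0⁻¹ * y * x0 ∈ N := by
    intro y
    constructor
    · intro hy
      have := hNn.conj_mem y hy x0⁻¹
      rwa [inv_inv] at this
    · intro hy
      have := hNn.conj_mem _ hy x0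
      have e : x0 * (x0⁻¹ * y * x0) * x0⁻¹ = y := by group
      rwa [e] at this
  have hg0N : g0 ∉ N := by
    intro hc
    rw [hg0, ← hmem] at hc
    apply hgN
    have := N.mul_mem (N.inv_mem hν0) hc
    rwa [inv_mul_cancel_left] at this
  have hg0p : g0 ^ p ∈ N := by
    have e : g0 ^ p = x0⁻¹ * (ν0 * g) ^ p * x0 := by
      have := conj_pow (i := p) (a := x0⁻¹) (b := ν0 * g)
      rw [inv_inv] at this
      exact this
    rw [e, ← hmem]
    rw [← QuotientGroup.eq_one_iff, QuotientGroup.mk_pow, QuotientGroup.mk_mul,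
      (QuotientGroup.eq_one_iff ν0).2 hν0, one_mul, ← QuotientGroup.mk_pow,
      QuotientGroup.eq_one_iff]
    exact hg
  have hmin : ∀ x, ∀ ν ∈ N, d 1 g0 ≤ d x (ν * g0 * x) := by
    intro x ν hν
    have hd : d x (ν * g0 * x) = d 1 (x⁻¹ * (ν * g0) * x) := by
      have := h.geo.inv x 1 (x⁻¹ * (ν * g0) * x)
      rw [mul_one] at this
      rw [← this]
      congr 1
      group
    rw [hd, ← e0]
    apply csInf_le hbd
    refine ⟨x0 * x, x0 * ν * x0⁻¹ * ν0, N.mul_mem (hNn.conj_mem ν hν x0) hν0, ?_⟩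
    congr 1
    rw [hg0]
    group
  have hne1 : g0 ^ p ≠ 1 := by
    intro hc
    exact hg0N ((tf g0 p hp hc) ▸ N.one_mem)
  obtain ⟨A, r, K, hA, hv⟩ := X.visible (g0 ^ p) hg0p hne1 1
  rw [mul_one] at hv
  rcases le_total (A.pos 1) (A.pos (g0 ^ p)) with hle | hle
  · rw [abs_sub_comm, abs_of_nonneg (by linarith)] at hv
    exact X.tors_core h hp hg0N hmin hA (by linarith)
  · rw [abs_of_nonneg (by linarith)] at hv
    have hA' := X.tr A r K (g0 ^ p)⁻¹ hA
    have hinvN : g0⁻¹ ∉ N := fun hc => hg0N (by simpa using N.inv_mem hc)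
    have hd1 : d 1 g0⁻¹ = d 1 g0 := by
      have := h.geo.inv g0 1 g0⁻¹
      rw [mul_one, mul_inv_cancel] at this
      rw [← this, h.geo.symm]
    refine X.tors_core h hp hinvN ?_ hA' ?_
    · intro x ν hν
      rw [hd1]
      have hν' : g0 * ν⁻¹ * g0⁻¹ ∈ N := hNn.conj_mem _ (N.inv_mem hν) g0
      have q := hmin x (g0 * ν⁻¹ * g0⁻¹) hν'
      have q1 := h.geo.inv (g0 * ν⁻¹) x (ν * g0⁻¹ * x)
      have e1 : g0 * ν⁻¹ * (ν * g0⁻¹ * x) = x := by group
      have e2 : g0 * ν⁻¹ * g0⁻¹ * g0 * x = g0 * ν⁻¹ * x := by group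
      rw [e1, h.geo.symm] at q1
      rw [e2, q1] at q
      exact q
    · have q1 := A.tr_pos (g0 ^ p)⁻¹ (g0 ^ p)
      rw [inv_mul_cancel] at q1
      have q2 := A.tr_pos (g0 ^ p)⁻¹ 1
      rw [mul_one] at q2
      rw [q1, inv_pow, q2]
      linarith

end Pool.Agent.LibSCQ
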