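import Pool.Agent.LibSCQ.Rel
import Pool.Agent.LibSCQ.ParBar
import Pool.Agent.LibSCQ.HypBar
import Pool.Agent.LibSCQ.Tors

/-!
TASK 9. One step of the construction.
-/

set_option autoImplicit false

namespace Pool.Agent.LibSCQ

variable {H : Type} [Group H] {a b : H} {d : H → H → ℤ} {δ κ : ℤ} {D : Set ℤ} {n E c : ℤ} {w : H}

theorem Par.mono_const {G : Type} [Group G] {a : G} {d : G → G → ℤ} {δ κ δ' κ' : ℤ}
    (h : Par a d δ κ) (h1 : δ ≤ δ') (h2 : κ ≤ κ') : Par a d δ' κ' where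
  geo := h.geo
  δ0 := h.δ0.trans h1
  hyp := by
    intro x y z w
    rcases h.hyp x y z w with h3 | h3
    · left; linarith
    · right; linarith
  line := h.line
  κ0 := h.κ0.trans h2
  par := fun g hg i j s t hs ht => (h.par g hg i j s t hs ht).trans h2

theorem StepHyp.bounds (h : StepHyp a b d δ κ D n E c w) : 3000 ≤ E ∧ 1000000 * E ≤ n := by
  have h1 := h.hE
  have h2 := h.hn
  have h3 := h.δ0
  have h4 := h.κ0
  have h5 := h.geo.nonneg 1 w
  have h6 := abs_nonneg c
  constructor <;> linarith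

theorem fw_mk (N : Subgroup H) [N.Normal] (b u : H) :
    fw (QuotientGroup.mk b : H ⧸ N) (QuotientGroup.mk u) = QuotientGroup.mk (fw b u) := by
  have h1 : (QuotientGroup.mk (fw b u) : H ⧸ N) = QuotientGroup.mk' N (fw b u) := rfl
  rw [h1]
  unfold fw
  rw [map_list_prod, List.map_map]
  rfl

theorem StepHyp.stage (h : StepHyp a b d δ κ D n E c w) :
    Good (QuotientGroup.mk a : H ⧸ NC a b n c w) (QuotientGroup.mk b)
      (dbar d (NC a b n c w)) (5000 * n) (150000 * n) (insert n D) := by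
  obtain ⟨hE, hn⟩ := h.bounds
  have hsc := h.sc
  obtain ⟨X, hX⟩ := h.axsys
  have hhyp := X.hyp_bar hsc
  have hpar := X.par_bar hsc hhyp
  have hpar' : Par (QuotientGroup.mk a : H ⧸ NC a b n c w) (dbar d (NC a b n c w)) (5000 * n)
      (150000 * n) := hpar.mono_const (by linarith) (by linarith)
  have hmk1 : (QuotientGroup.mk (1 : H) : H ⧸ NC a b n c w) = 1 := rfl
  refine { toPar := hpar', b_le := ?_, jsep := ?_, ball := ?_, tf := ?_, dset := ?_ }
  · rw [← hmk1, dbar_mk h.geo]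
    exact (dq_le' h.geo 1 b).trans h.b_le
  · intro k l hk hl x y he
    have he' : (QuotientGroup.mk (a ^ x * b ^ l * a ^ y) : H ⧸ NC a b n c w) =
        QuotientGroup.mk (b ^ k) := he.symm
    rw [QuotientGroup.eq] at he'
    have hν : (a ^ x * b ^ l * a ^ y) * (b ^ k)⁻¹ ∈ NC a b n c w := by
      have h1 := (inferInstance : (NC a b n c w).Normal).conj_mem _ he' (a ^ x * b ^ l * a ^ y)
      have h2 := (NC a b n c w).inv_mem h1
      have h3 : (a ^ x * b ^ l * a ^ y * ((a ^ x * b ^ l * a ^ y)⁻¹ * b ^ k) *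
          (a ^ x * b ^ l * a ^ y)⁻¹)⁻¹ = (a ^ x * b ^ l * a ^ y) * (b ^ k)⁻¹ := by group
      rwa [h3] at h2
    exact X.jsep_bar hsc h.b_le (by linarith) h.jsep hν hk hl
      (inv_mul_cancel_right (a ^ x * b ^ l * a ^ y) (b ^ k))
  · intro g hg
    obtain ⟨x, rfl⟩ := QuotientGroup.mk_surjective g
    rw [← hmk1, dbar_mk h.geo] at hg
    obtain ⟨ν, hν, hd⟩ := dq_mem (N := NC a b n c w) h.geo 1 x
    rw [hd] at hg
    have hx : (QuotientGroup.mk x : H ⧸ NC a b n c w) = QuotientGroup.mk (ν * x) := by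
      rw [QuotientGroup.mk_mul, (QuotientGroup.eq_one_iff ν).mpr hν, one_mul]
    rw [hx]
    rcases h.ball _ hg with h1 | h1 | h1 | h1 | h1 <;> rw [h1]
    · left; rfl
    · right; left; rfl
    · right; right; left; rfl
    · right; right; right; left; rfl
    · right; right; right; right; rfl
  · intro g p hp hg
    obtain ⟨x, rfl⟩ := QuotientGroup.mk_surjective g
    rw [← QuotientGroup.mk_pow, QuotientGroup.eq_one_iff] at hg
    rw [QuotientGroup.eq_one_iff]
    exact X.tors hsc h.tf hp hg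
  · intro m hm
    obtain ⟨t, ht⟩ := Subgroup.mem_zpowers_iff.mp hm
    rw [← QuotientGroup.mk_zpow, ← QuotientGroup.mk_zpow, fw_mk] at ht
    have hν : fw b (a ^ m) * (a ^ t)⁻¹ ∈ NC a b n c w := by
      rw [← QuotientGroup.eq_one_iff, QuotientGroup.mk_mul, ← ht, QuotientGroup.mk_inv]
      exact mul_inv_cancel _
    by_cases h1 : fw b (a ^ m) * (a ^ t)⁻¹ = 1
    · right
      apply h.dset
      rw [mul_inv_eq_one] at h1
      rw [h1]
      exact Subgroup.mem_zpowers_iff.mpr ⟨t, rfl⟩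
    · left
      obtain ⟨A, r, p, hA, hpos⟩ := X.visible _ hν h1 (a ^ t)
      rw [inv_mul_cancel_right] at hpos
      exact hX A r p hA m t (by linarith)

theorem StepHyp.inj (h : StepHyp a b d δ κ D n E c w) {g : H} (hg : g ∈ NC a b n c w)
    (h1 : g ≠ 1) (x : H) : 100 * n ≤ d x (g * x) := by
  obtain ⟨hE, hn⟩ := h.bounds
  obtain ⟨X, -⟩ := h.axsys
  have h2 := X.inj h.sc hg h1 x
  linarith

end Pool.Agent.LibSCQ
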