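import Pool.Agent.LibSCQ.Line

/-!
TASK 2. Chains of lines. All constants are multiples of `E ≥ δ + κ + η + 1`.
-/

set_option autoImplicit false

namespace Pool.Agent.LibSCQ

/-- the hypotheses for chains -/
structure ChHyp {H : Type} [Group H] (a : H) (d : H → H → ℤ) (δ κ η M E : ℤ) : Prop
    extends Par a d δ κ where
  η0 : 0 ≤ η
  hE : δ + κ + η + 1 ≤ E
  hM : 100 * E ≤ M

variable {H : Type} [Group H] {a : H} {d : H → H → ℤ} {δ κ η M E : ℤ}

namespace Chain

/-! ### equivariance -/

theorem tr_t (g : H) (A : Chain a d η M) (i : ℤ) (x : H) : (A.tr g).t i (g * x) = A.t i x := by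
  unfold t tr
  congr 1
  group

theorem tr_pos (g : H) (A : Chain a d η M) (x : H) : (A.tr g).pos (g * x) = A.pos x := by
  unfold pos lft
  congr 1
  ext i
  change |(A.tr g).t i (g * x) - A.m i| ≤ |(A.tr g).t i (g * x)| ↔ |A.t i x - A.m i| ≤ |A.t i x|
  rw [tr_t]

/-! ### order of the lines -/

theorem P_succ (A : Chain a d η M) (i : ℤ) (k : ℤ) :
    (A.P i)⁻¹ * (A.P (i + 1) * a ^ k) = a ^ A.m i * (A.e i * a ^ k) := by
  rw [A.step]; group

theorem P_pred (A : Chain a d η M) (i : ℤ) (k : ℤ) :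
    (A.P (i + 1))⁻¹ * (A.P i * a ^ k) = (A.e i)⁻¹ * a ^ (k - A.m i) := by
  rw [A.step, zpow_sub]; group

theorem adj_left (h : ChHyp a d δ κ η M E) (A : Chain a d η M) (i k : ℤ) :
    |A.t i (A.P (i + 1) * a ^ k) - A.m i| ≤ κ + 2 * η := by
  unfold t
  rw [P_succ, h.tau_mul]
  have h1 := h.tau_par (A.e_not i) k 0
  rw [zpow_zero, mul_one] at h1
  have h2 := h.tau_near (A.e i) 0
  rw [zpow_zero, h.geo.symm] at h2
  have h3 := A.e_le i
  simp only [abs_eq_max_neg] at *
  omega

theorem adj_right (h : ChHyp a d δ κ η M E) (A : Chain a d η M) (i k : ℤ) :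
    |A.t (i + 1) (A.P i * a ^ k)| ≤ κ + 2 * η := by
  unfold t
  rw [P_pred]
  have hn : (A.e i)⁻¹ ∉ Subgroup.zpowers a := fun hh => A.e_not i (inv_mem_iff.mp hh)
  have h1 := h.tau_par hn (k - A.m i) 0
  rw [zpow_zero, mul_one] at h1
  have h2 := h.tau_near (A.e i)⁻¹ 0
  have h4 := h.geo.inv (A.e i) (A.e i)⁻¹ 1
  rw [mul_inv_cancel, mul_one] at h4
  rw [zpow_zero, ← h4] at h2
  have h3 := A.e_le i
  simp only [abs_eq_max_neg] at *
  omega

theorem succ_not (A : Chain a d η M) (i : ℤ) : (A.P i)⁻¹ * A.P (i + 1) ∉ Subgroup.zpowers a := by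
  intro hh
  have := P_succ A i 0
  rw [zpow_zero, mul_one, mul_one] at this
  rw [this] at hh
  exact A.e_not i ((Subgroup.mul_mem_cancel_left _ (Subgroup.zpow_mem_zpowers a _)).mp hh)

/-- later lines project to the exit point of an earlier line -/
theorem ord_left (h : ChHyp a d δ κ η M E) (A : Chain a d η M) {i j : ℤ} (hij : i < j) (k : ℤ) :
    |A.t i (A.P j * a ^ k) - A.m i| ≤ 7 * E := by
  have hη := h.η0
  have hE := h.hE
  have hM := h.hM
  have hδ := h.δ0
  have hκ := h.κ0
  obtain ⟨n, hn⟩ : ∃ n : ℕ, j = i + 1 + n := ⟨(j - i - 1).toNat, by omega⟩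
  induction n generalizing i with
  | zero =>
    have := adj_left h A i k
    rw [hn]
    simp only [Nat.cast_zero, add_zero]
    omega
  | succ n ih =>
    have h1 := ih (i := i + 1) (by omega) (by push_cast at hn; omega)
    have hm := A.m_ge (i + 1)
    rcases h.beh (A.succ_not i) (A.P j * a ^ k) with hb | hb
    · have h2 := hb 0
      have h3 := adj_left h A i 0
      unfold t at *
      simp only [abs_eq_max_neg] at *
      omega
    · have h2 := hb 0
      have h3 := adj_right h A i 0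
      unfold t at *
      simp only [abs_eq_max_neg] at *
      omega

/-- earlier lines project to the entry point of a later line -/
theorem ord_right (h : ChHyp a d δ κ η M E) (A : Chain a d η M) {i j : ℤ} (hij : i < j) (k : ℤ) :
    |A.t j (A.P i * a ^ k)| ≤ 7 * E := by
  have hη := h.η0
  have hE := h.hE
  have hM := h.hM
  have hδ := h.δ0
  have hκ := h.κ0
  obtain ⟨n, hn⟩ : ∃ n : ℕ, j = i + 1 + n := ⟨(j - i - 1).toNat, by omega⟩
  induction n generalizing j with
  | zero =>
    have := adj_right h A i k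
    rw [hn]
    simp only [Nat.cast_zero, add_zero]
    omega
  | succ n ih =>
    obtain ⟨j', rfl⟩ : ∃ j', j = j' + 1 := ⟨j - 1, by omega⟩
    have h1 := ih (j := j') (by omega) (by push_cast at hn; omega)
    have hm := A.m_ge j'
    rcases h.beh (A.succ_not j') (A.P i * a ^ k) with hb | hb
    · have h2 := hb 0
      have h3 := adj_left h A j' 0
      unfold t at *
      simp only [abs_eq_max_neg] at *
      omega
    · have h2 := hb 0
      have h3 := adj_right h A j' 0
      unfold t at *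
      simp only [abs_eq_max_neg] at *
      omega

theorem line_ne_lt (h : ChHyp a d δ κ η M E) (A : Chain a d η M) {i j : ℤ} (hij : i < j) :
    (A.P j)⁻¹ * A.P i ∉ Subgroup.zpowers a := by
  rintro ⟨s, hs⟩
  simp only at hs
  have h1 := ord_right h A hij (7 * E + 1 - s)
  unfold t at h1
  rw [← mul_assoc, ← hs, ← zpow_add, h.tau_zpow] at h1
  simp only [abs_eq_max_neg] at h1
  omega

theorem line_ne (h : ChHyp a d δ κ η M E) (A : Chain a d η M) {i j : ℤ} (hij : i ≠ j) :
    (A.P i)⁻¹ * A.P j ∉ Subgroup.zpowers a := by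
  rcases lt_or_gt_of_ne hij with hlt | hlt
  · intro hh
    apply line_ne_lt h A hlt
    rw [← inv_mem_iff] at hh
    simpa using hh
  · exact line_ne_lt h A hlt

theorem dich (h : ChHyp a d δ κ η M E) (A : Chain a d η M) {i j : ℤ} (hij : i < j) (x : H) :
    |A.t i x - A.m i| ≤ 14 * E ∨ |A.t j x| ≤ 14 * E := by
  have hη := h.η0
  have hE := h.hE
  have hδ := h.δ0
  have hκ := h.κ0
  rcases h.beh (line_ne h A (ne_of_lt hij)) x with hb | hb
  · left
    have h1 := hb 0
    have h2 := ord_left h A hij 0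
    unfold t at *
    simp only [abs_eq_max_neg] at *
    omega
  · right
    have h1 := hb 0
    have h2 := ord_right h A hij 0
    unfold t at *
    simp only [abs_eq_max_neg] at *
    omega

/-! ### the position of a point -/

theorem mem_lft (A : Chain a d η M) (i : ℤ) (x : H) :
    i ∈ A.lft x ↔ |A.t i x - A.m i| ≤ |A.t i x| := Iff.rfl

theorem lft_down (h : ChHyp a d δ κ η M E) (A : Chain a d η M) {i j : ℤ} (hij : i ≤ j) {x : H}
    (hj : j ∈ A.lft x) : i ∈ A.lft x := by
  have hη := h.η0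
  have hE := h.hE
  have hM := h.hM
  have hδ := h.δ0
  have hκ := h.κ0
  rcases eq_or_lt_of_le hij with rfl | hlt
  · exact hj
  rw [mem_lft] at *
  have h1 := A.m_ge i
  have h2 := A.m_ge j
  have h3 := dich h A hlt x
  simp only [abs_eq_max_neg] at *
  omega

/-- passing a line of the chain, without positions -/
theorem far_line (h : ChHyp a d δ κ η M E) (A : Chain a d η M) (i : ℤ) (x y : H)
    (hxy : 43 * E ≤ |A.t i x - A.t i y|) :
    d x (A.P i * a ^ A.t i x) + 1 ≤ d x y := by
  have hη := h.η0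
  have hE := h.hE
  have hδ := h.δ0
  have hκ := h.κ0
  have h1 := h.n2' (A.P i) x y (by unfold t at hxy; omega)
  have h2 := h.geo.nonneg (A.P i * a ^ tau a d ((A.P i)⁻¹ * y)) y
  unfold t at *
  omega

/-- the lines run away from `P 0` -/
theorem line_dist (h : ChHyp a d δ κ η M E) (A : Chain a d η M) (i k : ℤ) :
    |i| - 1 ≤ d (A.P 0) (A.P i * a ^ k) := by
  have hη := h.η0
  have hE := h.hE
  have hM := h.hM
  have hδ := h.δ0
  have hκ := h.κ0
  have key : ∀ n : ℕ, (∀ k : ℤ, (n : ℤ) - 1 ≤ d (A.P 0) (A.P (n : ℤ) * a ^ k)) ∧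
      (∀ k : ℤ, (n : ℤ) - 1 ≤ d (A.P 0) (A.P (-(n : ℤ)) * a ^ k)) := by
    intro n
    induction n with
    | zero =>
      constructor <;> intro k <;>
      · have := h.geo.nonneg (A.P 0) (A.P 0 * a ^ k)
        simp only [Nat.cast_zero, neg_zero]
        omega
    | succ n ih =>
      rcases Nat.eq_zero_or_pos n with hn | hn
      · subst hn
        constructor <;> intro k
        · have := h.geo.nonneg (A.P 0) (A.P ((0 + 1 : ℕ) : ℤ) * a ^ k)
          push_cast at *
          omega
        · have := h.geo.nonneg (A.P 0) (A.P (-((0 + 1 : ℕ) : ℤ)) * a ^ k)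
          push_cast at *
          omega
      constructor
      · intro k
        have h0 := ord_right h A (i := 0) (j := n) (by omega) 0
        rw [zpow_zero, mul_one] at h0
        have h1 := ord_left h A (i := n) (j := n + 1) (by omega) k
        have hm := A.m_ge n
        have h2 := far_line h A n (A.P 0) (A.P (n + 1) * a ^ k)
          (by simp only [abs_eq_max_neg] at *; omega)
        have h3 := ih.1 (A.t n (A.P 0))
        push_cast
        omega
      · intro k
        have h0 := ord_left h A (i := -(n : ℤ)) (j := 0) (by omega) 0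
        rw [zpow_zero, mul_one] at h0
        have h1 := ord_right h A (i := -(n : ℤ) - 1) (j := -(n : ℤ)) (by omega) k
        have hm := A.m_ge (-(n : ℤ))
        have h2 := far_line h A (-(n : ℤ)) (A.P 0) (A.P (-(n : ℤ) - 1) * a ^ k)
          (by simp only [abs_eq_max_neg] at *; omega)
        have h3 := ih.2 (A.t (-(n : ℤ)) (A.P 0))
        push_cast
        rw [show -((n : ℤ) + 1) = -(n : ℤ) - 1 by ring]
        omega
  rcases le_or_gt 0 i with hi | hi
  · obtain ⟨n, rfl⟩ := Int.eq_ofNat_of_zero_le hi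
    have := (key n).1 k
    simpa using this
  · obtain ⟨n, hn⟩ : ∃ n : ℕ, i = -(n : ℤ) := ⟨(-i).toNat, by omega⟩
    rw [hn, abs_neg, Nat.abs_cast]
    exact (key n).2 k

theorem lft_bdd (h : ChHyp a d δ κ η M E) (A : Chain a d η M) (x : H) : BddAbove (A.lft x) := by
  have hη := h.η0
  have hE := h.hE
  have hM := h.hM
  have hδ := h.δ0
  have hκ := h.κ0
  refine ⟨d (A.P 0) x + 1, fun i hi => ?_⟩
  have hnn := h.geo.nonneg (A.P 0) x
  rcases le_or_gt i 0 with hi0 | hi0
  · omega
  rw [mem_lft] at hi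
  have hm := A.m_ge i
  have h0 := ord_right h A (i := 0) (j := i) hi0 0
  rw [zpow_zero, mul_one] at h0
  have h1 := far_line h A i (A.P 0) x (by simp only [abs_eq_max_neg] at *; omega)
  have h2 := line_dist h A i (A.t i (A.P 0))
  simp only [abs_eq_max_neg] at h2
  omega

theorem lft_ne (h : ChHyp a d δ κ η M E) (A : Chain a d η M) (x : H) : (A.lft x).Nonempty := by
  have hη := h.η0
  have hE := h.hE
  have hM := h.hM
  have hδ := h.δ0
  have hκ := h.κ0
  have hnn := h.geo.nonneg (A.P 0) x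
  refine ⟨-(d (A.P 0) x + 2), ?_⟩
  by_contra hi
  rw [mem_lft] at hi
  set i := -(d (A.P 0) x + 2) with hidef
  have hm := A.m_ge i
  have h0 := ord_left h A (i := i) (j := 0) (by omega) 0
  rw [zpow_zero, mul_one] at h0
  have h1 := far_line h A i (A.P 0) x (by simp only [abs_eq_max_neg] at *; omega)
  have h2 := line_dist h A i (A.t i (A.P 0))
  simp only [abs_eq_max_neg] at h2
  omega

theorem mem_lft_iff (h : ChHyp a d δ κ η M E) (A : Chain a d η M) (i : ℤ) (x : H) :
    i ∈ A.lft x ↔ i ≤ A.pos x := by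
  constructor
  · intro hi
    exact le_csSup (lft_bdd h A x) hi
  · intro hi
    exact lft_down h A hi (Int.csSup_mem (lft_ne h A x) (lft_bdd h A x))

/-- lines before the position are passed -/
theorem t_lt (h : ChHyp a d δ κ η M E) (A : Chain a d η M) {i : ℤ} {x : H} (hi : i < A.pos x) :
    |A.t i x - A.m i| ≤ 14 * E := by
  have hη := h.η0
  have hE := h.hE
  have hM := h.hM
  have hδ := h.δ0
  have hκ := h.κ0
  have h1 := (mem_lft_iff h A (A.pos x) x).mpr le_rfl
  rw [mem_lft] at h1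
  have h2 := dich h A hi x
  have hm := A.m_ge (A.pos x)
  simp only [abs_eq_max_neg] at *
  omega

/-- lines after the position are not reached -/
theorem t_gt (h : ChHyp a d δ κ η M E) (A : Chain a d η M) {i : ℤ} {x : H}
    (hi : A.pos x + 2 ≤ i) : |A.t i x| ≤ 14 * E := by
  have hη := h.η0
  have hE := h.hE
  have hM := h.hM
  have hδ := h.δ0
  have hκ := h.κ0
  have h1 : ¬ (A.pos x + 1 ∈ A.lft x) := by
    rw [mem_lft_iff h]; omega
  rw [mem_lft] at h1
  have h2 := dich h A (i := A.pos x + 1) (j := i) (by omega) x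
  have hm := A.m_ge (A.pos x + 1)
  simp only [abs_eq_max_neg] at *
  omega

theorem pos_eq (h : ChHyp a d δ κ η M E) (A : Chain a d η M) {j : ℤ} {x : H}
    (h1 : j ∈ A.lft x) (h2 : j + 1 ∉ A.lft x) : A.pos x = j := by
  rw [mem_lft_iff h] at h1 h2
  omega

theorem t_self (h : ChHyp a d δ κ η M E) (A : Chain a d η M) (j k : ℤ) :
    A.t j (A.P j * a ^ k) = k := by
  unfold t
  rw [inv_mul_cancel_left, h.tau_zpow]

theorem pos_pt (h : ChHyp a d δ κ η M E) (A : Chain a d η M) (j k : ℤ) :
    A.pos (A.P j * a ^ k) = if |k - A.m j| ≤ |k| then j else j - 1 := by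
  have hη := h.η0
  have hE := h.hE
  have hM := h.hM
  have hδ := h.δ0
  have hκ := h.κ0
  have hs := t_self h A j k
  split_ifs with hk
  · refine pos_eq h A ?_ ?_
    · rw [mem_lft, hs]; exact hk
    · rw [mem_lft]
      have h1 := ord_right h A (i := j) (j := j + 1) (by omega) k
      have hm := A.m_ge (j + 1)
      simp only [abs_eq_max_neg] at *
      omega
  · refine pos_eq h A ?_ ?_
    · rw [mem_lft]
      have h1 := ord_left h A (i := j - 1) (j := j) (by omega) k
      have hm := A.m_ge (j - 1)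
      simp only [abs_eq_max_neg] at *
      omega
    · rw [sub_add_cancel, mem_lft, hs]; exact hk

theorem pos_P (h : ChHyp a d δ κ η M E) (A : Chain a d η M) (j : ℤ) : A.pos (A.P j) = j - 1 := by
  have hη := h.η0
  have hE := h.hE
  have hM := h.hM
  have hδ := h.δ0
  have hκ := h.κ0
  have h1 := pos_pt h A j 0
  rw [zpow_zero, mul_one] at h1
  rw [h1, if_neg]
  have hm := A.m_ge j
  simp only [abs_eq_max_neg] at *
  omega

theorem pos_Q (h : ChHyp a d δ κ η M E) (A : Chain a d η M) (j : ℤ) :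
    A.pos (A.P j * a ^ A.m j) = j := by
  rw [pos_pt h, if_pos]
  simp

/-- points with similar projections have similar positions -/
theorem pos_close (h : ChHyp a d δ κ η M E) (A : Chain a d η M) {x y : H}
    (hxy : ∀ i, 3 * |A.t i x - A.t i y| ≤ M) : |A.pos x - A.pos y| ≤ 1 := by
  have hη := h.η0
  have hE := h.hE
  have hM := h.hM
  have hδ := h.δ0
  have hκ := h.κ0
  have key : ∀ x y : H, (∀ i, 3 * |A.t i x - A.t i y| ≤ M) → A.pos x ≤ A.pos y + 1 := by
    intro x y hxy
    by_contra hcon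
    have h1 := t_lt h A (i := A.pos y + 1) (x := x) (by omega)
    have h2 : ¬ (A.pos y + 1 ∈ A.lft y) := by rw [mem_lft_iff h]; omega
    rw [mem_lft] at h2
    have h3 := hxy (A.pos y + 1)
    have hm := A.m_ge (A.pos y + 1)
    simp only [abs_eq_max_neg] at *
    omega
  have h1 := key x y hxy
  have h2 := key y x (fun i => by rw [abs_sub_comm]; exact hxy i)
  rw [abs_le]
  omega

theorem pos_near (h : ChHyp a d δ κ η M E) (A : Chain a d η M) {x y : H}
    (hxy : 4 * d x y ≤ M) : |A.pos x - A.pos y| ≤ 1 := by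
  have hη := h.η0
  have hE := h.hE
  have hM := h.hM
  have hδ := h.δ0
  have hκ := h.κ0
  refine pos_close h A fun i => ?_
  have h1 := h.lip ((A.P i)⁻¹ * x) ((A.P i)⁻¹ * y)
  rw [h.geo.inv] at h1
  unfold t
  omega

theorem pos_coset (h : ChHyp a d δ κ η M E) (A : Chain a d η M) (g : H) (i j : ℤ) :
    |A.pos (g * a ^ i) - A.pos (g * a ^ j)| ≤ 1 := by
  have hη := h.η0
  have hE := h.hE
  have hM := h.hM
  have hδ := h.δ0
  have hκ := h.κ0
  by_cases hg : ∃ l, (A.P l)⁻¹ * g ∈ Subgroup.zpowers a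
  · obtain ⟨l, s, hs⟩ := hg
    simp only at hs
    have hg' : g = A.P l * a ^ s := by rw [hs]; group
    have h1 : ∀ i, g * a ^ i = A.P l * a ^ (s + i) := by
      intro i; rw [hg', zpow_add, mul_assoc]
    rw [h1, h1, pos_pt h, pos_pt h]
    split_ifs <;> simp
  · push Not at hg
    refine pos_close h A fun l => ?_
    unfold t
    rw [← mul_assoc, ← mul_assoc]
    have := h.tau_par (hg l) i j
    omega

/-! ### second half -/

theorem d_pt (h : ChHyp a d δ κ η M E) (u : H) (i j : ℤ) : d (u * a ^ i) (u * a ^ j) = |i - j| := by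
  rw [h.geo.inv, h.toPar.toLin.dline]

theorem E_pos (h : ChHyp a d δ κ η M E) : 1 ≤ E := by
  have := h.δ0; have := h.κ0; have := h.η0; have := h.hE; linarith

theorem d_step (h : ChHyp a d δ κ η M E) (A : Chain a d η M) (j : ℤ) :
    d (A.P j * a ^ A.m j) (A.P (j + 1)) ≤ η := by
  have h1 : d (A.P j * a ^ A.m j * 1) (A.P j * a ^ A.m j * A.e j) = d 1 (A.e j) := h.geo.inv _ _ _
  rw [A.step j]
  rw [mul_one] at h1
  rw [h1]
  exact A.e_le j

theorem pass_gen (h : ChHyp a d δ κ η M E) (A : Chain a d η M) {j c : ℤ} {x y : H}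
    (hc : 2 * c + 3 * δ + 1 < M) (hx : |A.t j x| ≤ c) (hy : |A.t j y - A.m j| ≤ c) :
    d x (A.P j) + |A.m j| + d (A.P j * a ^ A.m j) y ≤ d x y + (5 * δ + 2 + 4 * c) := by
  have hm := A.m_ge j
  have hn : |A.m j| ≤ |A.t j x - A.t j y| + 2 * c := by
    rw [abs_le] at hx hy
    rcases abs_cases (A.m j) with h1 | h1 <;> rcases abs_cases (A.t j x - A.t j y) with h2 | h2 <;>
      omega
  have h1 := h.toPar.toLin.n2' (A.P j) x y
    (show 3 * δ + 1 < |tau a d ((A.P j)⁻¹ * x) - tau a d ((A.P j)⁻¹ * y)| by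
      change 3 * δ + 1 < |A.t j x - A.t j y|
      omega)
  change d x (A.P j * a ^ A.t j x) + |A.t j x - A.t j y| + d (A.P j * a ^ A.t j y) y ≤ _ at h1
  have h2 : d x (A.P j) ≤ d x (A.P j * a ^ A.t j x) + |A.t j x| := by
    have h3 := h.geo.tri x (A.P j * a ^ A.t j x) (A.P j)
    have h4 := d_pt h (A.P j) (A.t j x) 0
    rw [zpow_zero, mul_one, sub_zero] at h4
    omega
  have h3 : d (A.P j * a ^ A.m j) y ≤ |A.t j y - A.m j| + d (A.P j * a ^ A.t j y) y := by
    have h3 := h.geo.tri (A.P j * a ^ A.m j) (A.P j * a ^ A.t j y) y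
    have h4 := d_pt h (A.P j) (A.m j) (A.t j y)
    rw [abs_sub_comm] at h4
    omega
  omega

/-- a version of `pass` in terms of the projections -/
theorem pass_t (h : ChHyp a d δ κ η M E) (A : Chain a d η M) {j : ℤ} {x y : H}
    (hx : |A.t j x| ≤ 14 * E) (hy : |A.t j y - A.m j| ≤ 14 * E) :
    d x (A.P j) + |A.m j| + d (A.P j * a ^ A.m j) y ≤ d x y + 61 * E := by
  have h1 := h.δ0; have h2 := h.κ0; have h3 := h.η0; have h4 := h.hE; have h5 := h.hM
  have := pass_gen h A (c := 14 * E) (by omega) hx hy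
  omega

theorem pass (h : ChHyp a d δ κ η M E) (A : Chain a d η M) {j : ℤ} {x y : H}
    (hx : A.pos x + 2 ≤ j) (hy : j + 1 ≤ A.pos y) :
    d x (A.P j) + |A.m j| + d (A.P j * a ^ A.m j) y ≤ d x y + 61 * E :=
  pass_t h A (t_gt h A hx) (t_lt h A (by omega))

/-- a geodesic passes close to the entry points of the lines -/
theorem pass_near (h : ChHyp a d δ κ η M E) (A : Chain a d η M) {j : ℤ} {x y : H}
    (hx : A.pos x + 2 ≤ j) (hy : j + 1 ≤ A.pos y) :
    ∃ w, d x w + d w y = d x y ∧ d w (A.P j) ≤ 62 * E := by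
  have h1 := pass h A hx hy
  have h2 := h.geo.tri (A.P j) (A.P j * a ^ A.m j) y
  have h3 := d_pt h (A.P j) 0 (A.m j)
  rw [zpow_zero, mul_one, zero_sub, abs_neg] at h3
  obtain ⟨w, hw, hw'⟩ := h.toPar.toLin.between x y (A.P j) (61 * E) (by omega)
  have h4 := h.κ0; have h5 := h.η0; have h6 := h.hE
  exact ⟨w, hw, by omega⟩

theorem lower_gen (h : ChHyp a d δ κ η M E) (A : Chain a d η M) {i : ℤ} {x : H} (n : ℕ) :
    ∀ y : H, (∀ l : ℕ, l ≤ n → |A.t (i + l) x| ≤ 14 * E) →
      (∀ l : ℕ, l ≤ n → |A.t (i + l) y - A.m (i + l)| ≤ 14 * E) →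
    d x (A.P i) + ∑ l ∈ Finset.range (n + 1), |A.m (i + l)| + d (A.P (i + n) * a ^ A.m (i + n)) y
      ≤ d x y + (n + 1) * (61 * E) := by
  induction n with
  | zero =>
    intro y hx hy
    have h1 := pass_t h A (hx 0 le_rfl) (hy 0 le_rfl)
    simp only [Nat.cast_zero, add_zero] at h1
    simp only [zero_add, Finset.range_one, Finset.sum_singleton, Nat.cast_zero, add_zero, one_mul]
    exact h1
  | succ n ih =>
    intro y hx hy
    have h1 := pass_t h A (hx (n + 1) le_rfl) (hy (n + 1) le_rfl)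
    have h2 := ih (A.P (i + (n + 1 : ℕ))) (fun l hl => hx l (by omega)) (fun l hl => by
      have h3 := ord_left h A (i := i + l) (j := i + (n + 1 : ℕ)) (by push_cast; omega) 0
      rw [zpow_zero, mul_one] at h3
      have := E_pos h
      omega)
    have h3 := h.geo.nonneg (A.P (i + n) * a ^ A.m (i + n)) (A.P (i + (n + 1 : ℕ)))
    rw [Finset.sum_range_succ]
    have h4 : ((n + 1 : ℕ) + 1 : ℤ) * (61 * E) = (n + 1) * (61 * E) + 61 * E := by
      push_cast; ring
    rw [h4]
    linarith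

/-- lower bound for the distance of points with lines between them -/
theorem lower (h : ChHyp a d δ κ η M E) (A : Chain a d η M) {i : ℤ} {x y : H} (n : ℕ)
    (hx : A.pos x + 2 ≤ i) (hy : i + (n + 1) ≤ A.pos y) :
    d x (A.P i) + ∑ l ∈ Finset.range (n + 1), |A.m (i + l)| + d (A.P (i + n) * a ^ A.m (i + n)) y
      ≤ d x y + (n + 1) * (61 * E) :=
  lower_gen h A n y (fun l _ => t_gt h A (by omega)) (fun l hl => t_lt h A (by omega))

/-- the sum of the travels is at least `n M` -/
theorem sum_ge (A : Chain a d η M) (i : ℤ) (n : ℕ) :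
    n * M ≤ ∑ l ∈ Finset.range n, |A.m (i + l)| := by
  have := Finset.card_nsmul_le_sum (Finset.range n) (fun l => |A.m (i + l)|) M
    (fun l _ => A.m_ge _)
  simpa using this

/-- positions grow at most linearly -/
theorem pos_lip (h : ChHyp a d δ κ η M E) (A : Chain a d η M) (x y : H) :
    M * (|A.pos x - A.pos y| - 2) ≤ 4 * d x y := by
  have hE := E_pos h
  have hM := h.hM
  have key : ∀ x y : H, A.pos x ≤ A.pos y → M * ((A.pos y - A.pos x) - 2) ≤ 4 * d x y := by
    intro x y hxy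
    rcases le_or_gt (A.pos y - A.pos x) 2 with h1 | h1
    · have h2 := h.geo.nonneg x y
      nlinarith
    · obtain ⟨n, hn⟩ : ∃ n : ℕ, A.pos y - A.pos x - 2 = n + 1 := ⟨(A.pos y - A.pos x - 3).toNat, by omega⟩
      have h2 := lower h A (i := A.pos x + 2) (x := x) (y := y) n le_rfl (by omega)
      have h3 := sum_ge A (A.pos x + 2) (n + 1)
      have h4 := h.geo.nonneg x (A.P (A.pos x + 2))
      have h5 := h.geo.nonneg (A.P (A.pos x + 2 + n) * a ^ A.m (A.pos x + 2 + n)) y
      rw [hn]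
      push_cast at h3
      have h6 : (n + 1 : ℤ) * M ≤ d x y + (n + 1) * (61 * E) := by linarith
      have h7 : (0 : ℤ) ≤ (n + 1 : ℤ) := by positivity
      nlinarith
  rcases le_total (A.pos x) (A.pos y) with h1 | h1
  · have h2 := key x y h1
    rwa [abs_sub_comm, abs_of_nonneg (by omega)]
  · have h2 := key y x h1
    rw [h.geo.symm y x] at h2
    rwa [abs_of_nonneg (by omega)]

/-- upper bound for the distance of points of the chain -/
theorem upper (h : ChHyp a d δ κ η M E) (A : Chain a d η M) (i : ℤ) (n : ℕ) :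
    d (A.P i) (A.P (i + n)) ≤ ∑ l ∈ Finset.range n, |A.m (i + l)| + n * η := by
  induction n with
  | zero => simp [h.geo.self]
  | succ n ih =>
    have h1 := h.geo.tri (A.P i) (A.P (i + n)) (A.P (i + (n + 1 : ℕ)))
    have h2 := h.geo.tri (A.P (i + n)) (A.P (i + n) * a ^ A.m (i + n)) (A.P (i + (n + 1 : ℕ)))
    have h3 := d_pt h (A.P (i + n)) 0 (A.m (i + n))
    rw [zpow_zero, mul_one, zero_sub, abs_neg] at h3
    have h4 := d_step h A (i + n)
    rw [show i + (n : ℤ) + 1 = i + (n + 1 : ℕ) by push_cast; ring] at h4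
    rw [Finset.sum_range_succ]
    push_cast at *
    linarith

/-- positions are coarsely monotone along geodesics -/
theorem mono (h : ChHyp a d δ κ η M E) (A : Chain a d η M) {x y w : H}
    (hw : 2 * (d x w + d w y) ≤ 2 * d x y + M) :
    min (A.pos x) (A.pos y) - 2 ≤ A.pos w ∧ A.pos w ≤ max (A.pos x) (A.pos y) + 2 := by
  have hE := E_pos h
  have hM := h.hM
  constructor
  · by_contra hcon
    push Not at hcon
    have hx : A.pos w + 3 ≤ A.pos x := by have := min_le_left (A.pos x) (A.pos y); omega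
    have hy : A.pos w + 3 ≤ A.pos y := by have := min_le_right (A.pos x) (A.pos y); omega
    have h1 := pass h A (j := A.pos w + 2) (x := w) (y := x) le_rfl (by omega)
    have h2 := pass h A (j := A.pos w + 2) (x := w) (y := y) le_rfl (by omega)
    have h3 := A.m_ge (A.pos w + 2)
    have h4 := h.geo.tri x (A.P (A.pos w + 2) * a ^ A.m (A.pos w + 2)) y
    rw [h.geo.symm x (A.P (A.pos w + 2) * a ^ A.m (A.pos w + 2))] at h4
    have h5 := h.geo.nonneg w (A.P (A.pos w + 2))
    rw [h.geo.symm w x] at h1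
    omega
  · by_contra hcon
    push Not at hcon
    have hx : A.pos x + 3 ≤ A.pos w := by have := le_max_left (A.pos x) (A.pos y); omega
    have hy : A.pos y + 3 ≤ A.pos w := by have := le_max_right (A.pos x) (A.pos y); omega
    have h1 := pass h A (j := A.pos w - 1) (x := x) (y := w) (by omega) (by omega)
    have h2 := pass h A (j := A.pos w - 1) (x := y) (y := w) (by omega) (by omega)
    have h3 := A.m_ge (A.pos w - 1)
    have h4 := h.geo.tri x (A.P (A.pos w - 1)) y
    rw [h.geo.symm (A.P (A.pos w - 1)) y] at h4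
    have h5 := h.geo.nonneg (A.P (A.pos w - 1) * a ^ A.m (A.pos w - 1)) w
    rw [h.geo.symm y w] at h2
    omega

/-! ### periodic chains -/

theorem pos_rot (h : ChHyp a d δ κ η M E) (A : Chain a d η M) {r : H} {K : ℤ}
    (hP : ∀ i, A.P (i + K) = r * A.P i) (hm : ∀ i, A.m (i + K) = A.m i) (x : H) :
    A.pos (r * x) = A.pos x + K := by
  have ht : ∀ i, A.t (i + K) (r * x) = A.t i x := by
    intro i
    simp only [Chain.t, hP]
    rw [mul_inv_rev, mul_assoc, inv_mul_cancel_left]
  have key : ∀ i, i ≤ A.pos (r * x) ↔ i ≤ A.pos x + K := by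
    intro i
    rw [← mem_lft_iff h, ← sub_le_iff_le_add, ← mem_lft_iff h]
    have h1 := ht (i - K)
    have h2 := hm (i - K)
    rw [sub_add_cancel] at h1 h2
    simp only [lft, Set.mem_ofPred_eq]
    rw [h1, h2]
  exact le_antisymm ((key _).1 le_rfl) ((key _).2 le_rfl)

theorem pos_rot_zpow (h : ChHyp a d δ κ η M E) (A : Chain a d η M) {r : H} {K : ℤ}
    (hP : ∀ i, A.P (i + K) = r * A.P i) (hm : ∀ i, A.m (i + K) = A.m i) (t : ℤ) (x : H) :
    A.pos (r ^ t * x) = A.pos x + t * K := by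
  induction t using Int.induction_on with
  | zero => simp
  | succ n ih =>
    rw [add_comm (n : ℤ) 1, zpow_add, zpow_one, mul_assoc, pos_rot h A hP hm, ih]
    ring
  | pred n ih =>
    have h1 := pos_rot h A hP hm (r ^ (-(n : ℤ) - 1) * x)
    rw [← mul_assoc, ← zpow_one_add, show 1 + (-(n : ℤ) - 1) = -n by ring, ih] at h1
    linarith

/-- if the position of `z` is more than half a period ahead of that of `x` then the rotation moves
`x` closer to `z` -/
theorem shorten (h : ChHyp a d δ κ η M E) (A : Chain a d η M) {r : H} {K : ℕ} {U : ℤ}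
    (hE : 500000 * E ≤ M) (hU : 10000 * (U - M) ≤ M) (hMU : M ≤ U) (hK : 999 ≤ K) (hK' : K ≤ 1000)
    (hP : ∀ i, A.P (i + K) = r * A.P i) (hm : ∀ i, A.m (i + K) = A.m i)
    (hs : ∀ i (k : ℕ), k ≤ K → ∑ l ∈ Finset.range k, |A.m (i + l)| ≤ (k + 1) * U)
    {x z : H} (hxz : A.pos x + 503 ≤ A.pos z) : d (r * x) z < d x z := by
  have hE1 := E_pos h
  have hη0 := h.η0
  have hηE : η + 1 ≤ E := by have := h.δ0; have := h.κ0; have := h.hE; omega
  obtain ⟨n, hn1, hn2, hn3⟩ : ∃ n : ℕ, n + 1 ≤ K ∧ (n + 1 : ℤ) ≤ A.pos z - A.pos x - 2 ∧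
      (n + 1 = K ∨ 501 ≤ n + 1) := by
    rcases le_or_gt (K : ℤ) (A.pos z - A.pos x - 2) with h1 | h1
    · exact ⟨K - 1, by omega, by omega, by omega⟩
    · exact ⟨500, by omega, by omega, by omega⟩
  have h1 := lower h A (i := A.pos x + 2) (x := x) (y := z) n le_rfl (by omega)
  generalize A.pos x + 2 = i at h1
  have h2 := sum_ge A i (n + 1)
  have h3 : d (r * x) (A.P (i + K)) = d x (A.P i) := by rw [hP, h.geo.inv]
  have h4 := h.geo.tri (r * x) (A.P (i + K)) z
  have h5 := h.geo.tri (A.P (i + K)) (A.P (i + n) * a ^ A.m (i + n)) z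
  have h6 := h.geo.tri (A.P (i + K)) (A.P (i + n + 1)) (A.P (i + n) * a ^ A.m (i + n))
  have h7 := d_step h A (i + n)
  rw [h.geo.symm] at h7
  push_cast at h2
  rcases eq_or_lt_of_le hn1 with hK1 | hK1
  · have h8 : i + (K : ℤ) = i + n + 1 := by omega
    have h9 : d (A.P (i + K)) (A.P (i + n + 1)) = 0 := by rw [h8, h.geo.self]
    have h10 : (n : ℤ) ≤ 999 := by omega
    have h11 : (998 : ℤ) ≤ n := by omega
    nlinarith
  · obtain ⟨k, hk⟩ : ∃ k : ℕ, K = n + 1 + k := ⟨K - (n + 1), by omega⟩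
    have h8 := upper h A (i + n + 1) k
    have h9 := hs (i + n + 1) k (by omega)
    rw [show i + (n : ℤ) + 1 + k = i + K by rw [hk]; push_cast; ring, h.geo.symm] at h8
    have hk1 : (k : ℤ) ≤ 499 := by omega
    have hk2 : (500 : ℤ) ≤ n := by omega
    have hk3 : (n : ℤ) ≤ 999 := by omega
    have hk0 : (0 : ℤ) ≤ k := by positivity
    have e1 : (k + 1 : ℤ) * U ≤ 500 * U := by nlinarith
    have e2 : (k : ℤ) * η ≤ 499 * E := by nlinarith
    have e3 : (n + 1 : ℤ) * (M - 61 * E) ≥ 501 * (M - 61 * E) := by nlinarith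
    nlinarith

end Chain

end Pool.Agent.LibSCQ
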