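import Mathlib

/-!
A Greendlinger lemma for systems of rotations satisfying projection axioms.

`H` acts on itself by left multiplication. `Q` is the set of axes, every axis `A` has a rotation
`r A`. Paths are sequences of rotations; the weight of a path is the sum of `4 ^ radius`. In a path
of minimal weight every step of maximal radius is visible from the ends of the path.
-/

set_option autoImplicit false

namespace Pool.Agent.LibSCQ

/-- A system of rotations. -/
structure RotSys (H : Type) [Group H] (Q : Type) [MulAction H Q] where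
  r : Q → H
  ρ : Q → H → ℕ
  D : Q → H → H → ℤ
  pts : Q → Set H
  θ : ℤ
  lam : ℤ
  L : ℤ
  r_smul : ∀ (g : H) (A : Q), r (g • A) = g * r A * g⁻¹
  r_fix : ∀ A : Q, r A • A = A
  ρ_smul : ∀ (g : H) (A : Q) (x : H), ρ (g • A) (g * x) = ρ A x
  D_smul : ∀ (g : H) (A : Q) (x y : H), D (g • A) (g * x) (g * y) = D A x y
  pts_ne : ∀ A : Q, (pts A).Nonempty
  D_self : ∀ A x, D A x x = 0
  D_symm : ∀ A x y, D A x y = D A y x
  D_tri : ∀ A x y z, D A x z ≤ D A x y + D A y z
  beh : ∀ A B x, A ≠ B → (∀ b ∈ pts B, D A x b ≤ θ) ∨ (∀ a ∈ pts A, D B x a ≤ θ)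
  rad : ∀ A B x, A ≠ B → ρ B x ≤ ρ A x → ∀ b ∈ pts B, D A x b ≤ θ
  short : ∀ A B x, A ≠ B → (∃ b ∈ pts B, lam < D A x b) → ∃ t : ℤ, ρ B (r A ^ t * x) < ρ B x
  rot : ∀ A x (k : ℤ), k ≠ 0 → L ≤ D A x (r A ^ k * x)
  θ0 : 0 ≤ θ
  hlam : θ ≤ lam
  hL : lam + 15 * θ < L

namespace RotSys

variable {H : Type} [Group H] {Q : Type} [MulAction H Q] (S : RotSys H Q)

/-- the end point of a path -/
def run : H → List (Q × ℤ) → H
  | x, [] => x
  | x, s :: l => run (S.r s.1 ^ s.2 * x) l

/-- the weight of a path -/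
def W : H → List (Q × ℤ) → ℕ
  | _, [] => 0
  | x, s :: l => 4 ^ S.ρ s.1 x + W (S.r s.1 ^ s.2 * x) l

/-- all radii of the path are at most `R` -/
def AllLe : H → List (Q × ℤ) → ℕ → Prop
  | _, [], _ => True
  | x, s :: l, R => S.ρ s.1 x ≤ R ∧ AllLe (S.r s.1 ^ s.2 * x) l R

/-- paths of minimal weight between their ends -/
def Mini (x : H) (l : List (Q × ℤ)) : Prop :=
  ∀ l', S.run x l' = S.run x l → S.W x l ≤ S.W x l'

theorem run_append (x : H) (l l' : List (Q × ℤ)) :
    S.run x (l ++ l') = S.run (S.run x l) l' := by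
  induction l generalizing x with
  | nil => rfl
  | cons s l ih => simp only [List.cons_append, run, ih]

theorem W_append (x : H) (l l' : List (Q × ℤ)) :
    S.W x (l ++ l') = S.W x l + S.W (S.run x l) l' := by
  induction l generalizing x with
  | nil => simp [run, W]
  | cons s l ih => simp only [List.cons_append, run, W, ih]; omega

theorem allLe_append (x : H) (l l' : List (Q × ℤ)) (R : ℕ) :
    S.AllLe x (l ++ l') R ↔ S.AllLe x l R ∧ S.AllLe (S.run x l) l' R := by
  induction l generalizing x with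
  | nil => simp [run, AllLe]
  | cons s l ih => simp only [List.cons_append, run, AllLe, ih]; tauto

theorem AllLe.mono {x : H} {l : List (Q × ℤ)} {R R' : ℕ} (h : S.AllLe x l R) (hR : R ≤ R') :
    S.AllLe x l R' := by
  induction l generalizing x with
  | nil => trivial
  | cons s l ih => exact ⟨h.1.trans hR, ih h.2⟩

theorem run_nil (x : H) : S.run x [] = x := rfl

theorem run_cons (x : H) (s : Q × ℤ) (l : List (Q × ℤ)) :
    S.run x (s :: l) = S.run (S.r s.1 ^ s.2 * x) l := rfl

theorem run_sing (x : H) (s : Q × ℤ) : S.run x [s] = S.r s.1 ^ s.2 * x := rfl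

theorem W_cons (x : H) (s : Q × ℤ) (l : List (Q × ℤ)) :
    S.W x (s :: l) = 4 ^ S.ρ s.1 x + S.W (S.r s.1 ^ s.2 * x) l := rfl

theorem zpow_fix (A : Q) (k : ℤ) : S.r A ^ k • A = A := by
  have h1 : S.r A ∈ MulAction.stabilizer H A := S.r_fix A
  exact (Subgroup.zpow_mem _ h1 k : _)

theorem ρ_rot (A : Q) (k : ℤ) (x : H) : S.ρ A (S.r A ^ k * x) = S.ρ A x := by
  have h := S.ρ_smul (S.r A ^ k) A x
  rwa [S.zpow_fix] at h

theorem r_rot (A : Q) (k : ℤ) (C : Q) (t : ℤ) :
    S.r (S.r A ^ k • C) ^ t = S.r A ^ k * S.r C ^ t * (S.r A ^ k)⁻¹ := by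
  rw [S.r_smul, conj_zpow]

/-- translate of a path -/
def tr (g : H) (l : List (Q × ℤ)) : List (Q × ℤ) := l.map fun s => (g • s.1, s.2)

theorem run_tr (g x : H) (l : List (Q × ℤ)) : S.run (g * x) (tr g l) = g * S.run x l := by
  induction l generalizing x with
  | nil => rfl
  | cons s l ih =>
    simp only [tr, List.map_cons, run] at ih ⊢
    rw [S.r_smul, conj_zpow, ← ih]
    congr 1
    group

theorem W_tr (g x : H) (l : List (Q × ℤ)) : S.W (g * x) (tr g l) = S.W x l := by
  induction l generalizing x with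
  | nil => rfl
  | cons s l ih =>
    simp only [tr, List.map_cons, W] at ih ⊢
    rw [S.r_smul, conj_zpow, S.ρ_smul, ← ih]
    congr 2
    group

theorem Mini.left {x : H} {l l' : List (Q × ℤ)} (h : S.Mini x (l ++ l')) : S.Mini x l := by
  intro m hm
  have := h (m ++ l') (by rw [run_append, run_append, hm])
  rw [W_append, W_append, hm] at this
  omega

theorem Mini.right {x : H} {l l' : List (Q × ℤ)} (h : S.Mini x (l ++ l')) :
    S.Mini (S.run x l) l' := by
  intro m hm
  have := h (l ++ m) (by rw [run_append, run_append, hm])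
  rw [W_append, W_append] at this
  omega

/-- all axes of a minimal path are different -/
theorem Mini.ne {x : H} {l₁ l₂ l₃ : List (Q × ℤ)} {A B : Q} {k j : ℤ}
    (h : S.Mini x (l₁ ++ (A, k) :: (l₂ ++ (B, j) :: l₃))) : A ≠ B := by
  rintro rfl
  have h1 : S.run x (l₁ ++ (A, k + j) :: (tr (S.r A ^ j) l₂ ++ l₃)) =
      S.run x (l₁ ++ (A, k) :: (l₂ ++ (A, j) :: l₃)) := by
    simp only [run_append, run_cons]
    congr 1
    rw [← S.run_tr (S.r A ^ j)]
    congr 1
    rw [add_comm, zpow_add]
    group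
  have h2 := h _ h1
  simp only [W_append, W_cons] at h2
  have e : S.r A ^ (k + j) * S.run x l₁ = S.r A ^ j * (S.r A ^ k * S.run x l₁) := by
    rw [add_comm, zpow_add]; group
  rw [e, S.W_tr, S.run_tr] at h2
  have : 0 < 4 ^ S.ρ A (S.run (S.r A ^ k * S.run x l₁) l₂) := by positivity
  omega

theorem Mini.ne_zero {x : H} {l₁ l₂ : List (Q × ℤ)} {A : Q} {k : ℤ}
    (h : S.Mini x (l₁ ++ (A, k) :: l₂)) : k ≠ 0 := by
  rintro rfl
  have h2 := h (l₁ ++ l₂) (by simp [run_append, run_cons])
  simp only [W_append, W_cons, zpow_zero, one_mul] at h2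
  have : 0 < 4 ^ S.ρ A (S.run x l₁) := by positivity
  omega

theorem pow4 {a b : ℕ} (h : 4 ^ a ≤ 4 ^ b) : a ≤ b := (Nat.pow_le_pow_iff_right (by norm_num)).1 h

/-- a step cannot be made cheaper by doing it earlier -/
theorem Mini.before {x : H} {l₁ l₂ l₃ : List (Q × ℤ)} {A : Q} {k : ℤ}
    (h : S.Mini x (l₁ ++ (l₂ ++ (A, k) :: l₃))) :
    S.ρ A (S.run (S.run x l₁) l₂) ≤ S.ρ A (S.run x l₁) := by
  have h2 := h (l₁ ++ (A, k) :: (tr (S.r A ^ k) l₂ ++ l₃)) (by
    simp only [run_append, run_cons, run_tr])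
  simp only [W_append, W_cons, run_tr, W_tr] at h2
  exact pow4 (by omega)

/-- a step cannot be made cheaper by doing it later -/
theorem Mini.after {x : H} {l₁ l₂ l₃ : List (Q × ℤ)} {A : Q} {k : ℤ}
    (h : S.Mini x (l₁ ++ (A, k) :: (l₂ ++ l₃))) :
    S.ρ A (S.run x l₁) ≤ S.ρ A (S.run (S.r A ^ k * S.run x l₁) l₂) := by
  have e : S.run (S.run x l₁) (tr (S.r A ^ (-k)) l₂) =
      S.r A ^ (-k) * S.run (S.r A ^ k * S.run x l₁) l₂ := by
    rw [← run_tr]; congr 1; rw [zpow_neg]; group
  have e' : S.W (S.run x l₁) (tr (S.r A ^ (-k)) l₂) = S.W (S.r A ^ k * S.run x l₁) l₂ := by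
    rw [← S.W_tr (S.r A ^ (-k)) (S.r A ^ k * S.run x l₁)]; congr 1; rw [zpow_neg]; group
  have e'' : S.r A ^ k * (S.r A ^ (-k) * S.run (S.r A ^ k * S.run x l₁) l₂) =
      S.run (S.r A ^ k * S.run x l₁) l₂ := by rw [zpow_neg]; group
  have h2 := h (l₁ ++ (tr (S.r A ^ (-k)) l₂ ++ (A, k) :: l₃)) (by
    simp only [run_append, run_cons, e, e''])
  simp only [W_append, W_cons, e, e', e'', S.ρ_rot] at h2
  exact pow4 (by omega)

/-- the start of a step is close to the axis, as seen from the other axes -/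
theorem Mini.start {x : H} {l₁ l₂ : List (Q × ℤ)} {A C : Q} {k : ℤ}
    (h : S.Mini x (l₁ ++ (A, k) :: l₂)) (hC : C ≠ A) :
    ∀ a ∈ S.pts A, S.D C (S.run x l₁) a ≤ S.lam := by
  by_contra hcon
  push Not at hcon
  obtain ⟨a, ha, hlt⟩ := hcon
  obtain ⟨t, ht⟩ := S.short C A (S.run x l₁) hC ⟨a, ha, hlt⟩
  have hr : S.ρ C (S.run x l₁) < S.ρ A (S.run x l₁) := by
    by_contra hle
    have := S.rad C A (S.run x l₁) hC (not_lt.1 hle) a ha
    have := S.hlam
    omega
  set z := S.run x l₁ with hz
  have e1 : S.r (S.r A ^ k • C) ^ (-t) * (S.r A ^ k * (S.r C ^ t * z)) = S.r A ^ k * z := by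
    rw [S.r_rot]; simp only [zpow_neg]; group
  have e2 : S.ρ (S.r A ^ k • C) (S.r A ^ k * (S.r C ^ t * z)) = S.ρ C z := by
    rw [S.ρ_smul, S.ρ_rot]
  have h2 := h (l₁ ++ (C, t) :: (A, k) :: (S.r A ^ k • C, -t) :: l₂) (by
    simp only [run_append, run_cons, ← hz, e1])
  simp only [W_append, W_cons, ← hz, e1, e2] at h2
  obtain ⟨n, hn⟩ : ∃ n, S.ρ A z = n + 1 := ⟨S.ρ A z - 1, by omega⟩
  have h3 : 4 ^ S.ρ C z ≤ 4 ^ n := Nat.pow_le_pow_right (by norm_num) (by omega)
  have h4 : 4 ^ S.ρ A (S.r C ^ t * z) ≤ 4 ^ n := Nat.pow_le_pow_right (by norm_num) (by omega)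
  have h5 : 0 < 4 ^ n := by positivity
  rw [hn, pow_succ] at h2
  omega

/-- the end of a step is close to the axis, as seen from the other axes -/
theorem Mini.stop {x : H} {l₁ l₂ : List (Q × ℤ)} {A C : Q} {k : ℤ}
    (h : S.Mini x (l₁ ++ (A, k) :: l₂)) (hC : C ≠ A) :
    ∀ a ∈ S.pts A, S.D C (S.r A ^ k * S.run x l₁) a ≤ S.lam := by
  by_contra hcon
  push Not at hcon
  obtain ⟨a, ha, hlt⟩ := hcon
  set z := S.run x l₁ with hz
  obtain ⟨t, ht⟩ := S.short C A (S.r A ^ k * z) hC ⟨a, ha, hlt⟩
  have hr : S.ρ C (S.r A ^ k * z) < S.ρ A (S.r A ^ k * z) := by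
    by_contra hle
    have := S.rad C A (S.r A ^ k * z) hC (not_lt.1 hle) a ha
    have := S.hlam
    omega
  have e1 : S.r (S.r A ^ (-k) • C) ^ t * z = S.r A ^ (-k) * (S.r C ^ t * (S.r A ^ k * z)) := by
    rw [S.r_rot]; simp only [zpow_neg]; group
  have e2 : S.ρ (S.r A ^ (-k) • C) z = S.ρ C (S.r A ^ k * z) := by
    have : z = S.r A ^ (-k) * (S.r A ^ k * z) := by rw [zpow_neg]; group
    conv_lhs => rw [this]
    rw [S.ρ_smul]
  have e3 : S.r A ^ k * (S.r A ^ (-k) * (S.r C ^ t * (S.r A ^ k * z))) =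
      S.r C ^ t * (S.r A ^ k * z) := by rw [zpow_neg]; group
  have e4 : S.r C ^ (-t) * (S.r C ^ t * (S.r A ^ k * z)) = S.r A ^ k * z := by
    rw [zpow_neg]; group
  have h2 := h (l₁ ++ (S.r A ^ (-k) • C, t) :: (A, k) :: (C, -t) :: l₂) (by
    simp only [run_append, run_cons, ← hz, e1, e3, e4])
  simp only [W_append, W_cons, ← hz, e1, e2, e3, e4, S.ρ_rot] at h2
  rw [S.ρ_rot] at hr ht
  obtain ⟨n, hn⟩ : ∃ n, S.ρ A z = n + 1 := ⟨S.ρ A z - 1, by omega⟩
  have h3 : 4 ^ S.ρ C (S.r A ^ k * z) ≤ 4 ^ n := Nat.pow_le_pow_right (by norm_num) (by omega)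
  have h4 : 4 ^ S.ρ A (S.r C ^ t * (S.r A ^ k * z)) ≤ 4 ^ n :=
    Nat.pow_le_pow_right (by norm_num) (by omega)
  have h5 : 0 < 4 ^ n := by positivity
  rw [hn, pow_succ] at h2
  omega

/-- the reversed path -/
def rev (l : List (Q × ℤ)) : List (Q × ℤ) := (l.map fun s => (s.1, -s.2)).reverse

theorem rev_cons (s : Q × ℤ) (l : List (Q × ℤ)) : rev (s :: l) = rev l ++ [(s.1, -s.2)] := by
  simp [rev]

theorem rev_append (l l' : List (Q × ℤ)) : rev (l ++ l') = rev l' ++ rev l := by
  simp [rev]

theorem rev_rev (l : List (Q × ℤ)) : rev (rev l) = l := by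
  simp [rev, List.map_reverse, Function.comp_def]

theorem run_rev (x : H) (l : List (Q × ℤ)) : S.run (S.run x l) (rev l) = x := by
  induction l generalizing x with
  | nil => rfl
  | cons s l ih =>
    rw [rev_cons, run_append]
    change S.run (S.run (S.run (S.r s.1 ^ s.2 * x) l) (rev l)) [(s.1, -s.2)] = x
    rw [ih, run_sing, zpow_neg]
    simp

theorem W_rev (x : H) (l : List (Q × ℤ)) : S.W (S.run x l) (rev l) = S.W x l := by
  induction l generalizing x with
  | nil => rfl
  | cons s l ih =>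
    rw [rev_cons, W_append, run_cons, ih, run_rev, W_cons, W_cons, S.ρ_rot]
    simp [W]; omega

theorem allLe_rev (x : H) (l : List (Q × ℤ)) (R : ℕ) :
    S.AllLe (S.run x l) (rev l) R ↔ S.AllLe x l R := by
  induction l generalizing x with
  | nil => simp [AllLe, rev]
  | cons s l ih =>
    rw [rev_cons, allLe_append, run_cons, ih, run_rev]
    simp only [AllLe, S.ρ_rot]; tauto

theorem Mini.rev {x : H} {l : List (Q × ℤ)} (h : S.Mini x l) : S.Mini (S.run x l) (rev l) := by
  intro m hm
  rw [run_rev] at hm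
  have h1 := S.run_rev (S.run x l) m
  rw [hm] at h1
  have h2 := h _ h1
  rw [W_rev]
  have h3 := S.W_rev (S.run x l) m
  rw [hm] at h3
  omega

theorem exists_max (x : H) : ∀ (q : List (Q × ℤ)), q ≠ [] →
    ∃ u B j v, q = u ++ (B, j) :: v ∧ S.AllLe x q (S.ρ B (S.run x u)) := by
  intro q
  induction q generalizing x with
  | nil => intro h; exact absurd rfl h
  | cons s l ih =>
    intro _
    by_cases hl : l = []
    · subst hl
      exact ⟨[], s.1, s.2, [], rfl, le_rfl, trivial⟩
    · obtain ⟨u, B, j, v, rfl, h⟩ := ih (S.r s.1 ^ s.2 * x) hl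
      by_cases hle : S.ρ s.1 x ≤ S.ρ B (S.run (S.r s.1 ^ s.2 * x) u)
      · exact ⟨s :: u, B, j, v, rfl, hle, h⟩
      · exact ⟨[], s.1, s.2, _, rfl, le_rfl, AllLe.mono S h (not_le.1 hle).le⟩

/-- the statement that the steps of maximal radius in minimal paths of length at most `N` are
visible from both ends -/
def Claim (N : ℕ) : Prop :=
  ∀ (x : H) (l₁ : List (Q × ℤ)) (A : Q) (k : ℤ) (l₂ : List (Q × ℤ)),
    (l₁ ++ (A, k) :: l₂).length ≤ N → S.Mini x (l₁ ++ (A, k) :: l₂) →
    S.AllLe x (l₁ ++ (A, k) :: l₂) (S.ρ A (S.run x l₁)) →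
    S.D A x (S.run x l₁) ≤ 6 * S.θ ∧
      S.D A (S.r A ^ k * S.run x l₁) (S.run x (l₁ ++ (A, k) :: l₂)) ≤ 6 * S.θ

theorem leftclose (x : H) (A : Q) (k : ℤ) (p t : List (Q × ℤ))
    (hmin : S.Mini x (p ++ t ++ [(A, k)]))
    (hall : S.AllLe x (p ++ t) (S.ρ A (S.run x (p ++ t))))
    (hp : p = [] ∨ ∃ p' B j, p = p' ++ [(B, j)] ∧ (∀ b ∈ S.pts B, S.D A x b ≤ S.θ)) :
    S.D A x (S.run x p) ≤ 2 * S.θ := by
  have hθ := S.θ0
  rcases hp with rfl | ⟨p', B, j, rfl, hb⟩
  · rw [run_nil, S.D_self]; omega
  · have hne : B ≠ A := by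
      refine Mini.ne S (x := x) (l₁ := p') (l₂ := t) (l₃ := []) (k := j) (j := k) ?_
      simpa using hmin
    have h1 : S.ρ B (S.run x p') ≤ S.ρ A (S.run x (p' ++ [(B, j)] ++ t)) := by
      rw [allLe_append, allLe_append] at hall
      exact hall.1.2.1
    have h2 : S.ρ A (S.run x (p' ++ [(B, j)] ++ t)) ≤ S.ρ A (S.run x (p' ++ [(B, j)])) := by
      rw [run_append]
      exact Mini.before S (l₁ := p' ++ [(B, j)]) (l₂ := t) (l₃ := []) (k := k) (by simpa using hmin)
    have h3 : S.run x (p' ++ [(B, j)]) = S.r B ^ j * S.run x p' := by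
      rw [run_append, run_sing]
    have h4 : S.ρ B (S.run x (p' ++ [(B, j)])) ≤ S.ρ A (S.run x (p' ++ [(B, j)])) := by
      rw [h3, S.ρ_rot, ← h3]; omega
    obtain ⟨b, hb'⟩ := S.pts_ne B
    have h5 := S.rad A B _ hne.symm h4 b hb'
    have h6 := hb b hb'
    have h7 := S.D_tri A x b (S.run x (p' ++ [(B, j)]))
    rw [S.D_symm A b] at h7
    omega

theorem rightclose (x : H) (A : Q) (k : ℤ) (t s : List (Q × ℤ))
    (hmin : S.Mini x (t ++ s ++ [(A, k)]))
    (hall : S.AllLe x (t ++ s) (S.ρ A (S.run x (t ++ s))))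
    (hs : s = [] ∨ ∃ s' B j, s = (B, j) :: s' ∧
      (∀ b ∈ S.pts B, S.D A (S.run x (t ++ s)) b ≤ S.θ)) :
    S.D A (S.run x t) (S.run x (t ++ s)) ≤ 2 * S.θ := by
  have hθ := S.θ0
  rcases hs with rfl | ⟨s', B, j, rfl, hb⟩
  · rw [List.append_nil, S.D_self]; omega
  · have hne : B ≠ A := by
      refine Mini.ne S (x := x) (l₁ := t) (l₂ := s') (l₃ := []) (k := j) (j := k) ?_
      simpa using hmin
    have h1 : S.ρ B (S.run x t) ≤ S.ρ A (S.run x (t ++ (B, j) :: s')) := by
      rw [allLe_append] at hall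
      exact hall.2.1
    have h2 : S.ρ A (S.run x (t ++ (B, j) :: s')) ≤ S.ρ A (S.run x t) := by
      rw [run_append]
      exact Mini.before S (l₁ := t) (l₂ := (B, j) :: s') (l₃ := []) (k := k) (by simpa using hmin)
    obtain ⟨b, hb'⟩ := S.pts_ne B
    have h5 := S.rad A B _ hne.symm (h1.trans h2) b hb'
    have h6 := hb b hb'
    have h7 := S.D_tri A (S.run x t) b (S.run x (t ++ (B, j) :: s'))
    rw [S.D_symm A b] at h7
    omega

theorem inner {N : ℕ} (hN : S.Claim N) (x : H) (A : Q) (k : ℤ) :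
    ∀ (n : ℕ) (p q s : List (Q × ℤ)), q.length ≤ n → (p ++ q ++ s).length ≤ N →
    S.Mini x (p ++ q ++ s ++ [(A, k)]) →
    S.AllLe x (p ++ q ++ s) (S.ρ A (S.run x (p ++ q ++ s))) →
    (p = [] ∨ ∃ p' B j, p = p' ++ [(B, j)] ∧ (∀ b ∈ S.pts B, S.D A x b ≤ S.θ) ∧
      ∀ C j', (C, j') ∈ q → ∀ b ∈ S.pts B, S.D C x b ≤ S.θ) →
    (s = [] ∨ ∃ s' B j, s = (B, j) :: s' ∧
      (∀ b ∈ S.pts B, S.D A (S.run x (p ++ q ++ s)) b ≤ S.θ) ∧
      ∀ C j', (C, j') ∈ q → ∀ b ∈ S.pts B, S.D C (S.run x (p ++ q ++ s)) b ≤ S.θ) →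
    S.D A x (S.run x (p ++ q ++ s)) ≤ 6 * S.θ := by
  intro n
  induction n with
  | zero =>
    intro p q s hq hlen hmin hall hp hs
    obtain rfl : q = [] := List.length_eq_zero_iff.1 (Nat.le_zero.1 hq)
    have hθ := S.θ0
    have h1 : S.D A x (S.run x p) ≤ 2 * S.θ := by
      refine S.leftclose x A k p s (by simpa using hmin) (by simpa using hall) ?_
      rcases hp with h | ⟨p', B, j, h1, h2, -⟩
      · exact Or.inl h
      · exact Or.inr ⟨p', B, j, h1, h2⟩
    have h2 : S.D A (S.run x p) (S.run x (p ++ s)) ≤ 2 * S.θ := by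
      refine S.rightclose x A k p s (by simpa using hmin) (by simpa using hall) ?_
      rcases hs with h | ⟨s', B, j, h1, h2, -⟩
      · exact Or.inl h
      · exact Or.inr ⟨s', B, j, h1, by simpa using h2⟩
    have h3 := S.D_tri A x (S.run x p) (S.run x (p ++ s))
    simp only [List.append_nil]
    omega
  | succ n ih =>
    intro p q s hq hlen hmin hall hp hs
    have hθ := S.θ0
    have hL := S.hL
    have hlam := S.hlam
    by_cases hq0 : q = []
    · subst hq0
      exact ih p [] s (by simp) hlen hmin hall hp hs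
    obtain ⟨u, B, j, v, hquv, hmax⟩ := S.exists_max (S.run x p) q hq0
    set y := S.run x (p ++ q ++ s) with hy
    set xs := S.run x p with hxs
    set x1 := S.run xs u with hx1
    set x2 := S.r B ^ j * x1 with hx2
    have hxt : S.run x (p ++ q) = S.run x2 v := by
      rw [run_append, hquv, run_append, run_cons]
    set xt := S.run x (p ++ q) with hxt'
    have hyxt : y = S.run xt s := by rw [hy, run_append]
    have hminq : S.Mini xs q := by
      have h1 : S.Mini x (p ++ (q ++ (s ++ [(A, k)]))) := by simpa using hmin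
      exact Mini.left S (Mini.right S h1)
    have hc := hN xs u B j v (by rw [← hquv]; simp at hlen; omega) (by rw [← hquv]; exact hminq)
      (by rw [← hquv]; exact hmax)
    have c1 : S.D B xs x1 ≤ 6 * S.θ := hc.1
    have c2 : S.D B x2 xt ≤ 6 * S.θ := by
      have h2 := hc.2
      rw [run_append, run_cons, ← hx1, ← hx2, ← hxt] at h2
      exact h2
    have hBA : B ≠ A := by
      refine Mini.ne S (x := x) (l₁ := p ++ u) (l₂ := v ++ s) (l₃ := []) (k := j) (j := k) ?_
      rw [hquv] at hmin; simpa using hmin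
    have hj : j ≠ 0 := by
      refine Mini.ne_zero S (x := xs) (l₁ := u) (l₂ := v) (A := B) ?_
      rw [← hquv]; exact hminq
    have c3 : S.L ≤ S.D B x1 x2 := S.rot B x1 j hj
    have c4 : S.L - 12 * S.θ ≤ S.D B xs xt := by
      have h1 := S.D_tri B x1 xs x2
      have h2 := S.D_tri B xs xt x2
      rw [S.D_symm B x1 xs] at h1
      rw [S.D_symm B xt x2] at h2
      omega
    -- the left and right estimates
    have hleft : S.D B x xs ≤ S.lam + S.θ := by
      rcases hp with h | ⟨p', B', j', rfl, h1, h2⟩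
      · rw [hxs, h, run_nil, S.D_self]; omega
      · obtain ⟨b, hb⟩ := S.pts_ne B'
        have hBB : B' ≠ B := by
          refine Mini.ne S (x := x) (l₁ := p') (l₂ := u) (l₃ := v ++ s ++ [(A, k)]) (k := j')
            (j := j) ?_
          rw [hquv] at hmin; simpa using hmin
        have h3 := Mini.stop S (x := x) (l₁ := p') (l₂ := q ++ s ++ [(A, k)]) (A := B') (C := B)
          (k := j') (by simpa using hmin) hBB.symm b hb
        have h4 : S.r B' ^ j' * S.run x p' = xs := by rw [hxs, run_append, run_sing]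
        rw [h4] at h3
        have h5 := h2 B j (by rw [hquv]; simp) b hb
        have h6 := S.D_tri B x b xs
        rw [S.D_symm B b] at h6
        omega
    have hright : S.D B xt y ≤ S.lam + S.θ := by
      rcases hs with h | ⟨s', B', j', rfl, h1, h2⟩
      · rw [hyxt, h, run_nil, S.D_self]; omega
      · obtain ⟨b, hb⟩ := S.pts_ne B'
        have hBB : B ≠ B' := by
          refine Mini.ne S (x := x) (l₁ := p ++ u) (l₂ := v) (l₃ := s' ++ [(A, k)]) (k := j)
            (j := j') ?_
          rw [hquv] at hmin; simpa using hmin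
        have h3 := Mini.start S (x := x) (l₁ := p ++ q) (l₂ := s' ++ [(A, k)]) (A := B') (C := B)
          (k := j') (by simpa using hmin) hBB b hb
        have h5 := h2 B j (by rw [hquv]; simp) b hb
        have h6 := S.D_tri B xt b y
        rw [S.D_symm B b] at h6
        rw [← hxt'] at h3
        omega
    have hR : ∀ l, S.AllLe x l (S.ρ A y) → True := fun _ _ => trivial
    by_cases h1 : ∀ a ∈ S.pts A, S.D B xs a ≤ S.θ
    · -- `A` is on the side of `xs`
      have e : p ++ u ++ ((B, j) :: v ++ s) = p ++ q ++ s := by rw [hquv]; simp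
      have key := ih p u ((B, j) :: v ++ s) (by rw [hquv] at hq; simp at hq; omega)
        (by rw [e]; exact hlen) (by rw [e]; exact hmin) (by rw [e]; exact hall) ?_ ?_
      · rw [e] at key; exact key
      · rcases hp with h | ⟨p', B', j', h2, h3, h4⟩
        · exact Or.inl h
        · exact Or.inr ⟨p', B', j', h2, h3, fun C i hC => h4 C i (by rw [hquv]; simp [hC])⟩
      · refine Or.inr ⟨v ++ s, B, j, by simp, ?_, ?_⟩
        · rw [e, ← hy]
          rcases S.beh A B y hBA.symm with h2 | h2
          · exact h2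
          · exfalso
            obtain ⟨a, ha⟩ := S.pts_ne A
            have h3 := h1 a ha
            have h4 := h2 a ha
            have h5 := S.D_tri B xs a xt
            have h6 := S.D_tri B a y xt
            rw [S.D_symm B a y, S.D_symm B y xt] at h6
            omega
        · intro C j'' hC b hb
          rw [e, ← hy]
          obtain ⟨u1, u2, hu⟩ := List.append_of_mem hC
          have hCB : C ≠ B := by
            refine Mini.ne S (x := xs) (l₁ := u1) (l₂ := u2) (l₃ := v) (k := j'') (j := j) ?_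
            rw [hquv, hu] at hminq; simpa using hminq
          -- the point after the step `C`
          have hm2 : S.Mini xs ((u1 ++ [(C, j'')]) ++ (u2 ++ [(B, j)])) := by
            have : S.Mini xs ((u1 ++ [(C, j'')]) ++ (u2 ++ [(B, j)]) ++ v) := by
              rw [hquv, hu] at hminq; simpa using hminq
            exact Mini.left S this
          set xp := S.run xs (u1 ++ [(C, j'')]) with hxp
          have hx1p : S.run xp u2 = x1 := by
            rw [hx1, hu, hxp, ← run_append]; simp
          have hc2 := hN xp u2 B j [] (by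
              rw [hquv, hu] at hlen; simp at hlen ⊢; omega) (Mini.right S hm2) (by
              rw [hx1p]
              rw [hquv, hu] at hmax
              have e2 : u1 ++ (C, j'') :: u2 ++ (B, j) :: v =
                (u1 ++ [(C, j'')]) ++ (u2 ++ [(B, j)]) ++ v := by simp
              rw [e2, allLe_append, allLe_append] at hmax
              exact hmax.1.2)
          have h4 : S.D B xp x1 ≤ 6 * S.θ := by rw [← hx1p]; exact hc2.1
          have h5 : S.ρ C xp ≤ S.ρ B x1 := by
            rw [hxp, run_append, run_sing, S.ρ_rot]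
            rw [hquv, hu] at hmax
            have e2 : u1 ++ (C, j'') :: u2 ++ (B, j) :: v =
                u1 ++ (C, j'') :: (u2 ++ (B, j) :: v) := by simp
            rw [e2, allLe_append] at hmax
            exact hmax.2.1
          have h6 : S.ρ B x1 ≤ S.ρ B xp := by
            have := Mini.before S (x := xs) (l₁ := u1 ++ [(C, j'')]) (l₂ := u2) (l₃ := [])
              (A := B) (k := j) (by simpa using hm2)
            rw [← hxp, hx1p] at this
            exact this
          obtain ⟨c, hc⟩ := S.pts_ne C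
          have h7 := S.rad B C xp hCB.symm (h5.trans h6) c hc
          rcases S.beh B C y hCB.symm with h8 | h8
          · exfalso
            have h9 := h8 c hc
            have t1 := S.D_tri B x1 xp c
            rw [S.D_symm B x1 xp] at t1
            have t2 := S.D_tri B x1 c y
            rw [S.D_symm B c y] at t2
            have t3 := S.D_tri B x1 y x2
            have t4 := S.D_tri B y xt x2
            rw [S.D_symm B y xt, S.D_symm B xt x2] at t4
            omega
          · exact h8 b hb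
    by_cases h2 : ∀ a ∈ S.pts A, S.D B xt a ≤ S.θ
    · -- `A` is on the side of `xt`
      have e : (p ++ u ++ [(B, j)]) ++ v ++ s = p ++ q ++ s := by rw [hquv]; simp
      have key := ih (p ++ u ++ [(B, j)]) v s (by rw [hquv] at hq; simp at hq; omega)
        (by rw [e]; exact hlen) (by rw [e]; exact hmin) (by rw [e]; exact hall) ?_ ?_
      · rw [e] at key; exact key
      · refine Or.inr ⟨p ++ u, B, j, rfl, ?_, ?_⟩
        · rcases S.beh A B x hBA.symm with h3 | h3
          · exact h3
          · exfalso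
            obtain ⟨a, ha⟩ := S.pts_ne A
            have h4 := h2 a ha
            have h5 := h3 a ha
            have h6 := S.D_tri B xs x xt
            have h7 := S.D_tri B x a xt
            rw [S.D_symm B xs x] at h6
            rw [S.D_symm B a xt] at h7
            omega
        · intro C j'' hC b hb
          obtain ⟨v1, v2, hv⟩ := List.append_of_mem hC
          have hCB : B ≠ C := by
            refine Mini.ne S (x := xs) (l₁ := u) (l₂ := v1) (l₃ := v2) (k := j) (j := j'') ?_
            rw [hquv, hv] at hminq; simpa using hminq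
          have hm2 : S.Mini x1 ((B, j) :: v1) := by
            have : S.Mini xs (u ++ ((B, j) :: v1 ++ (C, j'') :: v2)) := by
              rw [hquv, hv] at hminq; simpa using hminq
            have := Mini.right S this
            exact Mini.left S this
          set xp := S.run x2 v1 with hxp
          have hc2 := hN x1 [] B j v1 (by
              rw [hquv, hv] at hlen; simp at hlen ⊢; omega) (by simpa using hm2) (by
              rw [hquv, hv] at hmax
              have e2 : u ++ (B, j) :: (v1 ++ (C, j'') :: v2) =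
                (u ++ ((B, j) :: v1)) ++ (C, j'') :: v2 := by simp
              rw [e2, allLe_append, allLe_append] at hmax
              have := hmax.1.2
              exact this)
          have h4 : S.D B x2 xp ≤ 6 * S.θ := by
            have := hc2.2
            rw [run_nil, List.nil_append, run_cons, ← hx2, ← hxp] at this
            exact this
          have h5 : S.ρ C xp ≤ S.ρ B x1 := by
            rw [hquv, hv] at hmax
            have e2 : u ++ (B, j) :: (v1 ++ (C, j'') :: v2) =
                (u ++ (B, j) :: v1) ++ (C, j'') :: v2 := by simp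
            rw [e2, allLe_append] at hmax
            have := hmax.2.1
            rw [run_append, run_cons, ← hx1, ← hx2, ← hxp] at this
            exact this
          have h6 : S.ρ B x1 ≤ S.ρ B xp := by
            have := Mini.after S (x := x1) (l₁ := []) (l₂ := v1) (l₃ := [])
              (A := B) (k := j) (by simpa using hm2)
            rw [run_nil, ← hx2, ← hxp] at this
            exact this
          obtain ⟨c, hc⟩ := S.pts_ne C
          have h7 := S.rad B C xp hCB (h5.trans h6) c hc
          rcases S.beh B C x hCB with h8 | h8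
          · exfalso
            have h9 := h8 c hc
            have t1 := S.D_tri B x2 xp c
            have t2 := S.D_tri B x c x2
            rw [S.D_symm B c x2] at t2
            have t3 := S.D_tri B x1 xs x2
            rw [S.D_symm B x1 xs] at t3
            have t4 := S.D_tri B xs x x2
            rw [S.D_symm B xs x] at t4
            omega
          · exact h8 b hb
      · rcases hs with h | ⟨s', B', j', h2, h3, h4⟩
        · exact Or.inl h
        · refine Or.inr ⟨s', B', j', h2, ?_, fun C i hC => ?_⟩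
          · rw [e]; exact h3
          · rw [e]; exact h4 C i (by rw [hquv]; simp [hC])
    · -- `A` is in the middle
      have h3 : ∀ b ∈ S.pts B, S.D A xs b ≤ S.θ :=
        (S.beh A B xs hBA.symm).resolve_right h1
      have h4 : ∀ b ∈ S.pts B, S.D A xt b ≤ S.θ :=
        (S.beh A B xt hBA.symm).resolve_right h2
      obtain ⟨b, hb⟩ := S.pts_ne B
      have h5 := h3 b hb
      have h6 := h4 b hb
      have h7 : S.D A x xs ≤ 2 * S.θ := by
        refine S.leftclose x A k p (q ++ s) (by simpa using hmin) (by simpa [hy] using hall) ?_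
        rcases hp with h | ⟨p', B, j, h1, h2, -⟩
        · exact Or.inl h
        · exact Or.inr ⟨p', B, j, h1, h2⟩
      have h8 : S.D A xt y ≤ 2 * S.θ := by
        refine S.rightclose x A k (p ++ q) s (by simpa using hmin) (by simpa [hy] using hall) ?_
        rcases hs with h | ⟨s', B, j, h1, h2, -⟩
        · exact Or.inl h
        · exact Or.inr ⟨s', B, j, h1, h2⟩
      have t1 := S.D_tri A x xs y
      have t2 := S.D_tri A xs b y
      have t3 := S.D_tri A b xt y
      rw [S.D_symm A b xt] at t3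
      omega

theorem claim (N : ℕ) : S.Claim N := by
  induction N with
  | zero => intro x l₁ A k l₂ h; simp at h
  | succ N hN =>
    intro x l₁ A k l₂ hlen hmin hall
    have first : ∀ (x : H) (l₁ : List (Q × ℤ)) (k : ℤ), l₁.length ≤ N →
        S.Mini x (l₁ ++ [(A, k)]) → S.AllLe x l₁ (S.ρ A (S.run x l₁)) →
        S.D A x (S.run x l₁) ≤ 6 * S.θ := by
      intro x l₁ k h1 h2 h3
      have := S.inner hN x A k l₁.length [] l₁ [] le_rfl (by simpa using h1) (by simpa using h2)
        (by simpa using h3) (Or.inl rfl) (Or.inl rfl)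
      simpa using this
    have e1 : l₁ ++ (A, k) :: l₂ = (l₁ ++ [(A, k)]) ++ l₂ := by simp
    constructor
    · refine first x l₁ k (by simp at hlen; omega) ?_ ?_
      · rw [e1] at hmin; exact Mini.left S hmin
      · rw [allLe_append] at hall; exact hall.1
    · set z := S.run x (l₁ ++ (A, k) :: l₂) with hz
      set x2 := S.r A ^ k * S.run x l₁ with hx2
      have hz2 : z = S.run x2 l₂ := by rw [hz, run_append, run_cons]
      have hr : S.run z (rev l₂) = x2 := by rw [hz2, run_rev]
      have h1 := Mini.rev S hmin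
      rw [← hz, e1, rev_append, rev_append, ← List.append_assoc] at h1
      have h2 := Mini.left S h1
      have h3 := first z (rev l₂) (-k) (by simp [rev] at hlen ⊢; omega) (by simpa [rev] using h2) (by
        rw [hr, hx2, S.ρ_rot, hz2, allLe_rev]
        rw [allLe_append] at hall
        exact hall.2.2)
      rw [hr, S.D_symm] at h3
      exact h3

theorem visible (x : H) (l : List (Q × ℤ)) (hl : l ≠ []) (hmin : S.Mini x l) :
    ∃ A, S.L - 12 * S.θ ≤ S.D A x (S.run x l) := by
  obtain ⟨u, B, j, v, rfl, hmax⟩ := S.exists_max x l hl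
  obtain ⟨h1, h2⟩ := S.claim _ x u B j v le_rfl hmin hmax
  have h3 := S.rot B (S.run x u) j (Mini.ne_zero S hmin)
  have h4 := S.D_tri B (S.run x u) x (S.r B ^ j * S.run x u)
  have h5 := S.D_tri B x (S.run x (u ++ (B, j) :: v)) (S.r B ^ j * S.run x u)
  rw [S.D_symm B (S.run x u) x] at h4
  rw [S.D_symm B (S.run x (u ++ (B, j) :: v))] at h5
  exact ⟨B, by omega⟩

theorem exists_run {g : H} (hg : g ∈ Subgroup.closure (Set.range S.r)) (x : H) :
    ∃ l, S.run x l = g * x := by
  induction hg using Subgroup.closure_induction generalizing x with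
  | mem g hg =>
    obtain ⟨A, rfl⟩ := hg
    exact ⟨[(A, 1)], by simp [run_sing]⟩
  | one => exact ⟨[], by simp [run_nil]⟩
  | mul g h _ _ ihg ihh =>
    obtain ⟨l, hl⟩ := ihh x
    obtain ⟨m, hm⟩ := ihg (h * x)
    exact ⟨l ++ m, by rw [run_append, hl, hm, mul_assoc]⟩
  | inv g _ ih =>
    obtain ⟨l, hl⟩ := ih (g⁻¹ * x)
    refine ⟨rev l, ?_⟩
    have := S.run_rev (g⁻¹ * x) l
    rw [hl] at this
    simpa using this

/-- **Greendlinger lemma.** A nontrivial product of rotations has a visible axis. -/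
theorem greendlinger {g : H} (hg : g ∈ Subgroup.closure (Set.range S.r)) (h1 : g ≠ 1) (x : H) :
    ∃ A, S.L - 12 * S.θ ≤ S.D A x (g * x) := by
  classical
  have hex : ∃ n, ∃ l, S.run x l = g * x ∧ S.W x l = n := by
    obtain ⟨l, hl⟩ := S.exists_run hg x
    exact ⟨_, l, hl, rfl⟩
  obtain ⟨l, hl, hW⟩ := Nat.find_spec hex
  have hmin : S.Mini x l := by
    intro l' hl'
    rw [hW]
    exact Nat.find_min' hex ⟨l', hl'.trans hl, rfl⟩
  have hne : l ≠ [] := by
    rintro rfl
    rw [run_nil] at hl
    exact h1 (by simpa using hl.symm)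
  obtain ⟨A, hA⟩ := S.visible x l hne hmin
  exact ⟨A, by rw [← hl]; exact hA⟩

end RotSys

end Pool.Agent.LibSCQ
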