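import Pool.Agent.LibSCQ.Over
import Pool.Agent.LibSCQ.GL

/-!
TASK 4. A system of relators gives a system of axes. The set of axes is
`Σ q : ι, H ⧸ Subgroup.zpowers (r q)`; it is a rotation system with `θ = 7`, `lam = 508`,
`L = 999`, so the Greendlinger lemma gives axes visible with `999 - 12 * 7 = 915`.
-/

set_option autoImplicit false

namespace Pool.Agent.LibSCQ

variable {H : Type} [Group H] {a : H} {d : H → H → ℤ} {δ κ η M U E : ℤ}

/-- the hypotheses for the small cancellation step -/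
structure SCHyp {H : Type} [Group H] (a : H) (d : H → H → ℤ) (δ κ η M U E : ℤ) : Prop
    extends ChHyp a d δ κ η M E where
  hE5 : 500000 * E ≤ M
  hU : 10000 * (U - M) ≤ M
  hMU : M ≤ U

/-! ### translates -/

namespace Chain

theorem ext' {A B : Chain a d η M} (hP : A.P = B.P) (hm : A.m = B.m) (he : A.e = B.e) : A = B := by
  cases A; cases B
  simp only at hP hm he
  subst hP hm he
  rfl

theorem tr_tr (C : Chain a d η M) (g h : H) : (C.tr g).tr h = C.tr (h * g) := by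
  apply ext'
  · funext i; simp [tr, mul_assoc]
  · rfl
  · rfl

theorem tr_pos' (C : Chain a d η M) (g x : H) : (C.tr g).pos x = C.pos (g⁻¹ * x) := by
  have h := tr_pos g C (g⁻¹ * x)
  rwa [mul_inv_cancel_left] at h

theorem mem_pts_tr {C : Chain a d η M} {g x : H} : x ∈ (C.tr g).pts ↔ g⁻¹ * x ∈ C.pts := by
  constructor
  · rintro ⟨i, k, rfl⟩
    exact ⟨i, k, by simp [tr, mul_assoc]⟩
  · rintro ⟨i, k, hx⟩
    refine ⟨i, k, ?_⟩
    simp only [tr]
    rw [mul_assoc, ← hx]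
    group

end Chain

/-! ### periodicity of a relator system -/

namespace RelSys

variable {ι : Type}

theorem P_zpow (S : RelSys a d η M U ι) (q : ι) (t i : ℤ) :
    (S.C q).P (i + t * S.per q) = S.r q ^ t * (S.C q).P i := by
  induction t using Int.induction_on with
  | zero => simp
  | succ n ih =>
    have h1 : i + ((n : ℤ) + 1) * S.per q = (i + (n : ℤ) * S.per q) + S.per q := by ring
    rw [h1, S.P_per, ih, ← mul_assoc, add_comm (n : ℤ) 1, zpow_one_add]
  | pred n ih =>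
    have h1 : i + (-(n : ℤ)) * S.per q = (i + (-(n : ℤ) - 1) * S.per q) + S.per q := by ring
    rw [h1, S.P_per] at ih
    have h2 : (-(n : ℤ)) = 1 + (-(n : ℤ) - 1) := by ring
    rw [h2, zpow_one_add, mul_assoc] at ih
    simpa using ih

end RelSys

/-! ### overlaps of axes -/

theorem good_of_exc {ι : Type} (S : RelSys a d η M U ι) (q q' : ι) (p v : ℤ) (s : ℤ)
    (hs : s = 1 ∨ s = -1) :
    ∃ j, p ≤ j ∧ j ≤ p + 2 ∧ ¬ S.exc q j ∧ ¬ S.exc q' (v + s * j) := by
  by_contra hcon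
  push Not at hcon
  have key : ∀ j, p ≤ j → j ≤ p + 2 → S.exc q j ∨ S.exc q' (v + s * j) := by
    intro j h1 h2
    by_cases h3 : S.exc q j
    · exact Or.inl h3
    · exact Or.inr (hcon j h1 h2 h3)
  have e1 : ∀ i j, S.exc q i → S.exc q j → i ≠ j → 3 ≤ |i - j| := S.exc_sep q
  have e2 : ∀ i j, S.exc q' (v + s * i) → S.exc q' (v + s * j) → i ≠ j → 3 ≤ |i - j| := by
    intro i j hi hj hij
    have hne : v + s * i ≠ v + s * j := by
      rcases hs with rfl | rfl
      · intro h; apply hij; linarith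
      · intro h; apply hij; linarith
    have h := S.exc_sep q' _ _ hi hj hne
    rcases hs with rfl | rfl
    · have : v + 1 * i - (v + 1 * j) = i - j := by ring
      rwa [this] at h
    · have : v + -1 * i - (v + -1 * j) = -(i - j) := by ring
      rwa [this, abs_neg] at h
  have a1 : ¬ (3 ≤ |p - (p + 1)|) := by
    rw [show p - (p + 1) = -1 by ring]; norm_num
  have a2 : ¬ (3 ≤ |p - (p + 2)|) := by
    rw [show p - (p + 2) = -2 by ring]; norm_num
  have a3 : ¬ (3 ≤ |(p + 1) - (p + 2)|) := by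
    rw [show (p + 1) - (p + 2) = -1 by ring]; norm_num
  have n1 : p ≠ p + 1 := by omega
  have n2 : p ≠ p + 2 := by omega
  have n3 : p + 1 ≠ p + 2 := by omega
  rcases key p le_rfl (by omega) with k1 | k1 <;>
  rcases key (p + 1) (by omega) (by omega) with k2 | k2 <;>
  rcases key (p + 2) (by omega) le_rfl with k3 | k3
  · exact a1 (e1 _ _ k1 k2 n1)
  · exact a1 (e1 _ _ k1 k2 n1)
  · exact a2 (e1 _ _ k1 k3 n2)
  · exact a3 (e2 _ _ k2 k3 n3)
  · exact a3 (e1 _ _ k2 k3 n3)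
  · exact a2 (e2 _ _ k1 k3 n2)
  · exact a1 (e2 _ _ k1 k2 n1)
  · exact a1 (e2 _ _ k1 k2 n1)

theorem overlap_aux {ι : Type} (h : SCHyp a d δ κ η M U E) (S : RelSys a d η M U ι) (q q' : ι)
    (g g' : H) {x y : H} (hx : x ∈ ((S.C q').tr g').pts) (hy : y ∈ ((S.C q').tr g').pts)
    (hxy : ((S.C q).tr g).pos x + 6 ≤ ((S.C q).tr g).pos y) :
    ∃ t : ℤ, q = q' ∧ g' = g * S.r q ^ t := by
  obtain ⟨s, u, hs, hrun⟩ := Chain.run_lines h.toChHyp ((S.C q).tr g) ((S.C q').tr g') hx hy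
  set p := ((S.C q).tr g).pos x with hp
  -- the lines agree
  have hk : ∀ j, p + 2 ≤ j → j ≤ p + 5 →
      ∃ k : ℤ, ((S.C q').tr g').P (u + s * j) = ((S.C q).tr g).P j * a ^ k := by
    intro j h1 h2
    obtain ⟨k, hk⟩ := Subgroup.mem_zpowers_iff.1 (hrun j h1 (by omega))
    exact ⟨k, by rw [hk]; group⟩
  rcases hs with rfl | rfl
  · obtain ⟨j, j1, j2, g1, g2⟩ := good_of_exc S q q' (p + 2) u 1 (Or.inl rfl)
    obtain ⟨k, hk1⟩ := hk j (by omega) (by omega)
    obtain ⟨k', hk2⟩ := hk (j + 1) (by omega) (by omega)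
    have s1 := ((S.C q).tr g).step j
    have s2 := ((S.C q').tr g').step (u + 1 * j)
    have e1 : u + 1 * (j + 1) = u + 1 * j + 1 := by ring
    rw [e1, s2, hk1, s1] at hk2
    have e2 : (S.C q).e j = a ^ (-(S.C q).m j + k + (S.C q').m (u + 1 * j)) *
        (S.C q').e (u + 1 * j) * a ^ (-k') := by
      have : ((S.C q').tr g').m (u + 1 * j) = (S.C q').m (u + 1 * j) := rfl
      have t2 : ((S.C q').tr g').e (u + 1 * j) = (S.C q').e (u + 1 * j) := rfl
      have t3 : ((S.C q).tr g).m j = (S.C q).m j := rfl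
      have t4 : ((S.C q).tr g).e j = (S.C q).e j := rfl
      rw [this, t2, t3, t4] at hk2
      have h5 : a ^ k * a ^ (S.C q').m (u + 1 * j) * (S.C q').e (u + 1 * j) =
          a ^ (S.C q).m j * (S.C q).e j * a ^ k' := by
        have := congrArg (fun z => (((S.C q).tr g).P j)⁻¹ * z) hk2
        simpa [mul_assoc] using this
      have h6 : (S.C q).e j = (a ^ (S.C q).m j)⁻¹ *
          (a ^ k * a ^ (S.C q').m (u + 1 * j) * (S.C q').e (u + 1 * j)) * (a ^ k')⁻¹ := by
        rw [h5]; group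
      rw [h6, ← zpow_neg, ← zpow_neg]
      rw [zpow_add, zpow_add]
      simp only [mul_assoc]
    obtain ⟨hq, ⟨t, ht⟩, hx0, hy0⟩ := S.js q q' j (u + 1 * j) _ _ g1 g2 e2
    subst hq
    refine ⟨t, rfl, ?_⟩
    have hk0 : k' = 0 := by omega
    subst hk0
    -- A.P (j+1) = B.P (u + j + 1)
    have h7 : ((S.C q).tr g').P (u + 1 * j + 1) = ((S.C q).tr g).P (j + 1) := by
      rw [s2, hk1, hk2, s1]; simp
    have h8 : (S.C q).P (j + 1) = S.r q ^ t * (S.C q).P (u + 1 * j + 1) := by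
      rw [← S.P_zpow]; congr 1; linarith
    simp only [Chain.tr] at h7
    rw [h8, ← mul_assoc] at h7
    exact mul_right_cancel h7
  · exfalso
    obtain ⟨j, j1, j2, g1, g2⟩ := good_of_exc S q q' (p + 2) (u - 1) (-1) (Or.inr rfl)
    obtain ⟨k, hk1⟩ := hk j (by omega) (by omega)
    obtain ⟨k', hk2⟩ := hk (j + 1) (by omega) (by omega)
    have s1 := ((S.C q).tr g).step j
    have s2 := ((S.C q').tr g').step (u - 1 + -1 * j)
    have e1 : u + -1 * (j + 1) = u - 1 + -1 * j := by ring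
    have e3 : u - 1 + -1 * j + 1 = u + -1 * j := by ring
    rw [e1] at hk2
    rw [e3, hk1, hk2, s1] at s2
    refine S.js' q q' j (u - 1 + -1 * j) (k - (S.C q).m j)
      (-(k' + (S.C q').m (u - 1 + -1 * j))) g1 g2 ?_
    have t1 : ((S.C q').tr g').m (u - 1 + -1 * j) = (S.C q').m (u - 1 + -1 * j) := rfl
    have t2 : ((S.C q').tr g').e (u - 1 + -1 * j) = (S.C q').e (u - 1 + -1 * j) := rfl
    have t3 : ((S.C q).tr g).m j = (S.C q).m j := rfl
    have t4 : ((S.C q).tr g).e j = (S.C q).e j := rfl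
    rw [t1, t2, t3, t4] at s2
    have h5 : a ^ k = a ^ (S.C q).m j * (S.C q).e j * a ^ k' * a ^ (S.C q').m (u - 1 + -1 * j) *
        (S.C q').e (u - 1 + -1 * j) := by
      have := congrArg (fun z => (((S.C q).tr g).P j)⁻¹ * z) s2
      simpa [mul_assoc] using this
    have h6 : (S.C q).e j = (a ^ (S.C q).m j)⁻¹ * a ^ k * ((S.C q').e (u - 1 + -1 * j))⁻¹ *
        (a ^ (S.C q').m (u - 1 + -1 * j))⁻¹ * (a ^ k')⁻¹ := by
      rw [h5]; group
    rw [h6]
    have h7 : k - (S.C q).m j = -(S.C q).m j + k := by ring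
    have h8 : -(k' + (S.C q').m (u - 1 + -1 * j)) = -(S.C q').m (u - 1 + -1 * j) + -k' := by ring
    rw [h7, h8, zpow_add, zpow_add, zpow_neg, zpow_neg, zpow_neg]
    simp only [mul_assoc]

theorem axes_overlap {ι : Type} (h : SCHyp a d δ κ η M U E) (S : RelSys a d η M U ι) (q q' : ι)
    (g g' : H) :
    ((∃ t : ℤ, q = q' ∧ g' = g * S.r q ^ t) ∨
      ∀ x ∈ ((S.C q').tr g').pts, ∀ y ∈ ((S.C q').tr g').pts,
        |((S.C q).tr g).pos x - ((S.C q).tr g).pos y| ≤ 5) := by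
  by_contra hcon
  push Not at hcon
  obtain ⟨h1, x, hx, y, hy, hxy⟩ := hcon
  have key : ∃ t : ℤ, q = q' ∧ g' = g * S.r q ^ t := by
    rcases lt_abs.1 hxy with h2 | h2
    · exact overlap_aux h S q q' g g' hy hx (by omega)
    · exact overlap_aux h S q q' g g' hx hy (by omega)
  obtain ⟨t, ht1, ht2⟩ := key
  exact h1 t ht1 ht2

/-! ### the rotation system -/

section Rot

variable {ι : Type} (S : RelSys a d η M U ι)

/-- the set of axes -/
abbrev AxQ : Type := Σ q : ι, H ⧸ Subgroup.zpowers (S.r q)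

/-- the chain of an axis -/
noncomputable def axC (A : AxQ S) : Chain a d η M := (S.C A.1).tr A.2.out

/-- the rotation of an axis -/
noncomputable def axR (A : AxQ S) : H := A.2.out * S.r A.1 * (A.2.out)⁻¹

theorem out_eq (A : AxQ S) (g : H) (hg : (g : H ⧸ Subgroup.zpowers (S.r A.1)) = A.2) :
    ∃ t : ℤ, A.2.out = g * S.r A.1 ^ t := by
  obtain ⟨⟨h, hh⟩, he⟩ := QuotientGroup.mk_out_eq_mul (Subgroup.zpowers (S.r A.1)) g
  obtain ⟨t, rfl⟩ := Subgroup.mem_zpowers_iff.1 hh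
  exact ⟨t, by rw [← hg]; exact he⟩

theorem axR_eq (A : AxQ S) (g : H) (hg : (g : H ⧸ Subgroup.zpowers (S.r A.1)) = A.2) :
    axR S A = g * S.r A.1 * g⁻¹ := by
  obtain ⟨t, ht⟩ := out_eq S A g hg
  have h : axR S A = A.2.out * S.r A.1 * (A.2.out)⁻¹ := rfl
  rw [h, ht]
  have : S.r A.1 ^ t * S.r A.1 = S.r A.1 * S.r A.1 ^ t := by
    rw [← zpow_add_one, ← zpow_one_add, add_comm]
  calc g * S.r A.1 ^ t * S.r A.1 * (g * S.r A.1 ^ t)⁻¹
      = g * (S.r A.1 ^ t * S.r A.1) * (g * S.r A.1 ^ t)⁻¹ := by simp only [mul_assoc]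
    _ = g * (S.r A.1 * S.r A.1 ^ t) * (g * S.r A.1 ^ t)⁻¹ := by rw [this]
    _ = g * S.r A.1 * g⁻¹ := by group

theorem axPts_eq (A : AxQ S) (g : H) (hg : (g : H ⧸ Subgroup.zpowers (S.r A.1)) = A.2) :
    (axC S A).pts = ((S.C A.1).tr g).pts := by
  obtain ⟨t, ht⟩ := out_eq S A g hg
  ext x
  have h : axC S A = (S.C A.1).tr A.2.out := rfl
  rw [h, ht]
  constructor
  · rintro ⟨i, k, rfl⟩
    refine ⟨i + t * S.per A.1, k, ?_⟩
    simp only [Chain.tr]
    rw [S.P_zpow]
    simp only [mul_assoc]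
  · rintro ⟨i, k, rfl⟩
    refine ⟨i + (-t) * S.per A.1, k, ?_⟩
    simp only [Chain.tr]
    rw [S.P_zpow, zpow_neg]
    simp only [mul_assoc, mul_inv_cancel_left]

theorem axPos_eq (h : ChHyp a d δ κ η M E) (A : AxQ S) (g : H)
    (hg : (g : H ⧸ Subgroup.zpowers (S.r A.1)) = A.2) :
    ∃ c : ℤ, ∀ x, (axC S A).pos x = ((S.C A.1).tr g).pos x + c := by
  obtain ⟨t, ht⟩ := out_eq S A g hg
  refine ⟨(-t) * S.per A.1, fun x => ?_⟩
  have h0 : axC S A = (S.C A.1).tr A.2.out := rfl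
  rw [h0, ht, Chain.tr_pos', Chain.tr_pos', mul_inv_rev, ← zpow_neg, mul_assoc]
  exact Chain.pos_rot_zpow h (S.C A.1) (fun i => S.P_per A.1 i) (fun i => S.m_per A.1 i) _ _

/-- the distance to an axis -/
noncomputable def axρ (A : AxQ S) (x : H) : ℕ := sInf {n : ℕ | ∃ y ∈ (axC S A).pts, (n : ℤ) = d x y}

/-- the distance of the projections to an axis -/
noncomputable def axD (A : AxQ S) (x y : H) : ℤ := |(axC S A).pos x - (axC S A).pos y|

theorem pts_ne' (C : Chain a d η M) : C.pts.Nonempty := ⟨C.P 0, 0, 0, by simp⟩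

theorem axρ_mem (hg : Geo d) (A : AxQ S) (x : H) :
    ∃ y ∈ (axC S A).pts, (axρ S A x : ℤ) = d x y := by
  have hne : {n : ℕ | ∃ y ∈ (axC S A).pts, (n : ℤ) = d x y}.Nonempty := by
    obtain ⟨y, hy⟩ := pts_ne' (axC S A)
    exact ⟨(d x y).toNat, y, hy, Int.toNat_of_nonneg (hg.nonneg x y)⟩
  exact Nat.sInf_mem hne

theorem axρ_le (hg : Geo d) (A : AxQ S) (x y : H) (hy : y ∈ (axC S A).pts) :
    (axρ S A x : ℤ) ≤ d x y := by
  have h1 : axρ S A x ≤ (d x y).toNat :=
    Nat.sInf_le ⟨y, hy, Int.toNat_of_nonneg (hg.nonneg x y)⟩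
  have h2 := Int.toNat_of_nonneg (hg.nonneg x y)
  omega

theorem smul_coe (g : H) (A : AxQ S) :
    ((g * A.2.out : H) : H ⧸ Subgroup.zpowers (S.r A.1)) = (g • A).2 := by
  have h1 : (g • A).2 = g • A.2 := rfl
  rw [h1]
  conv_rhs => rw [← QuotientGroup.out_eq' A.2]
  rfl

theorem ax_ne (h : SCHyp a d δ κ η M U E) {A B : AxQ S} (hAB : A ≠ B) :
    ∀ x ∈ (axC S B).pts, ∀ y ∈ (axC S B).pts, |(axC S A).pos x - (axC S A).pos y| ≤ 5 := by
  rcases axes_overlap h S A.1 B.1 A.2.out B.2.out with ⟨t, h1, h2⟩ | h1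
  · exfalso
    apply hAB
    obtain ⟨q, x⟩ := A
    obtain ⟨q', y⟩ := B
    simp only at h1 h2
    subst h1
    have : x = y := by
      rw [← QuotientGroup.out_eq' x, ← QuotientGroup.out_eq' y, h2]
      apply QuotientGroup.eq.2
      rw [inv_mul_cancel_left]
      exact Subgroup.zpow_mem_zpowers _ _
    rw [this]
  · exact h1

theorem smul_pts (g : H) (A : AxQ S) (x : H) :
    g * x ∈ (axC S (g • A)).pts ↔ x ∈ (axC S A).pts := by
  rw [axPts_eq S (g • A) (g * A.2.out) (smul_coe S g A)]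
  have h0 : axC S A = (S.C A.1).tr A.2.out := rfl
  rw [h0, Chain.mem_pts_tr, Chain.mem_pts_tr]
  have : (g * A.2.out)⁻¹ * (g * x) = (A.2.out)⁻¹ * x := by group
  rw [this]
  rfl

theorem axC_P (A : AxQ S) (i : ℤ) :
    (axC S A).P (i + S.per A.1) = axR S A * (axC S A).P i := by
  simp only [axC, axR, Chain.tr]
  rw [S.P_per]
  group

/-- the rotation system -/
noncomputable def rotSys (h : SCHyp a d δ κ η M U E) : RotSys H (AxQ S) where
  r := axR S
  ρ := axρ S
  D := axD S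
  pts A := (axC S A).pts
  θ := 7
  lam := 508
  L := 999
  r_smul g A := by
    rw [axR_eq S (g • A) (g * A.2.out) (smul_coe S g A)]
    have h1 : (g • A).1 = A.1 := rfl
    simp only [h1, axR]
    group
  r_fix A := by
    have h1 : (axR S A • A) = ⟨A.1, axR S A • A.2⟩ := rfl
    rw [h1]
    have h2 : axR S A • A.2 = A.2 := by
      conv_lhs => rw [← QuotientGroup.out_eq' A.2]
      conv_rhs => rw [← QuotientGroup.out_eq' A.2]
      apply QuotientGroup.eq.2
      simp only [axR, smul_eq_mul]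
      have : (A.2.out * S.r A.1 * (A.2.out)⁻¹ * A.2.out)⁻¹ * A.2.out = (S.r A.1)⁻¹ := by group
      rw [this]
      exact Subgroup.inv_mem _ (Subgroup.mem_zpowers _)
    rw [h2]
  ρ_smul g A x := by
    simp only [axρ]
    congr 1
    ext n
    constructor
    · rintro ⟨y, hy, hn⟩
      refine ⟨g⁻¹ * y, ?_, ?_⟩
      · rw [← smul_pts S g A, mul_inv_cancel_left]; exact hy
      · rw [hn, ← h.geo.inv g⁻¹ (g * x) y, inv_mul_cancel_left]
    · rintro ⟨y, hy, hn⟩
      exact ⟨g * y, (smul_pts S g A y).2 hy, by rw [hn, h.geo.inv]⟩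
  D_smul g A x y := by
    obtain ⟨c, hc⟩ := axPos_eq S h.toChHyp (g • A) (g * A.2.out) (smul_coe S g A)
    simp only [axD]
    rw [hc, hc]
    have h1 : (g • A).1 = A.1 := rfl
    have h2 : ∀ z, ((S.C (g • A).1).tr (g * A.2.out)).pos (g * z) = (axC S A).pos z := by
      intro z
      rw [Chain.tr_pos', h1]
      simp only [axC]
      rw [Chain.tr_pos']
      congr 1
      group
    rw [h2, h2]
    congr 1
    ring
  pts_ne A := pts_ne' _
  D_self A x := by simp [axD]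
  D_symm A x y := abs_sub_comm _ _
  D_tri A x y z := abs_sub_le _ _ _
  beh A B x hAB := Chain.beh h.toChHyp (axC S A) (axC S B) (ax_ne S h hAB) (ax_ne S h hAB.symm) x
  rad A B x hAB hρ b hb := by
    by_contra hcon
    push Not at hcon
    obtain ⟨y, hy, hyb⟩ := Chain.rad h.toChHyp (axC S A) (axC S B) (ax_ne S h hAB) x
      ⟨b, hb, by simp only [axD] at hcon; omega⟩
    obtain ⟨b0, hb0, hb1⟩ := axρ_mem S h.geo B x
    have h1 := axρ_le S h.geo A x y hy
    have h2 := hyb b0 hb0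
    omega
  short A B x hAB hb := by
    obtain ⟨b, hb, hb2⟩ := hb
    obtain ⟨b0, hb0, hb1⟩ := axρ_mem S h.geo B x
    have h1 := ax_ne S h hAB b hb b0 hb0
    simp only [axD] at hb2
    have hper := S.per_ge A.1
    have hper' := S.per_le A.1
    have hP : ∀ i, (axC S A).P (i + (S.per A.1 : ℕ)) = axR S A * (axC S A).P i := axC_P S A
    have hm : ∀ i, (axC S A).m (i + (S.per A.1 : ℕ)) = (axC S A).m i := fun i => S.m_per A.1 i
    have hs : ∀ i (k : ℕ), k ≤ S.per A.1 → ∑ l ∈ Finset.range k, |(axC S A).m (i + l)| ≤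
        (k + 1) * U := fun i k hk => S.m_sum A.1 i k hk
    have h3 : 504 ≤ |(axC S A).pos x - (axC S A).pos b0| := by
      have := abs_sub_le ((axC S A).pos x) ((axC S A).pos b0) ((axC S A).pos b)
      rw [abs_sub_comm ((axC S A).pos b0)] at this
      omega
    rcases le_abs.1 h3 with h4 | h4
    · refine ⟨-1, ?_⟩
      have h5 := Chain.shorten h.toChHyp (axC S A) h.hE5 h.hU h.hMU hper hper' hP hm hs
        (x := b0) (z := x) (by omega)
      have h6 : d (axR S A * b0) x = d (axR S A ^ (-1 : ℤ) * x) b0 := by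
        rw [h.geo.symm, ← h.geo.inv (axR S A) (axR S A ^ (-1 : ℤ) * x) b0]
        simp
      rw [h6, h.geo.symm b0 x] at h5
      have h7 := axρ_le S h.geo B (axR S A ^ (-1 : ℤ) * x) b0 hb0
      omega
    · refine ⟨1, ?_⟩
      have h5 := Chain.shorten h.toChHyp (axC S A) h.hE5 h.hU h.hMU hper hper' hP hm hs
        (x := x) (z := b0) (by omega)
      have h7 := axρ_le S h.geo B (axR S A ^ (1 : ℤ) * x) b0 hb0
      rw [zpow_one] at h7 ⊢
      omega
  rot A x k hk := by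
    have hP : ∀ i, (axC S A).P (i + (S.per A.1 : ℕ)) = axR S A * (axC S A).P i := axC_P S A
    have hm : ∀ i, (axC S A).m (i + (S.per A.1 : ℕ)) = (axC S A).m i := fun i => S.m_per A.1 i
    simp only [axD]
    rw [Chain.pos_rot_zpow h.toChHyp (axC S A) hP hm]
    have h1 : (axC S A).pos x - ((axC S A).pos x + k * (S.per A.1 : ℕ)) =
        -(k * (S.per A.1 : ℕ)) := by ring
    rw [h1, abs_neg, abs_mul]
    have h2 : 1 ≤ |k| := Int.one_le_abs hk
    have h3 : (999 : ℤ) ≤ |((S.per A.1 : ℕ) : ℤ)| := by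
      have := S.per_ge A.1
      rw [abs_of_nonneg (by positivity)]
      exact_mod_cast this
    nlinarith
  θ0 := by norm_num
  hlam := by norm_num
  hL := by norm_num

end Rot

theorem axsys_of {ι : Type} (h : SCHyp a d δ κ η M U E) (S : RelSys a d η M U ι) :
    ∃ X : AxSys a d η M U (Subgroup.normalClosure (Set.range S.r)),
      X.Ax = {p | ∃ g q, p = ((S.C q).tr g, g * S.r q * g⁻¹, S.per q)} := by
  refine ⟨{
    Ax := {p | ∃ g q, p = ((S.C q).tr g, g * S.r q * g⁻¹, S.per q)}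
    tr := ?_
    per_ge := ?_
    per_le := ?_
    mem := ?_
    P_per := ?_
    m_per := ?_
    m_sum := ?_
    overlap := ?_
    visible := ?_ }, rfl⟩
  · rintro A r p k ⟨g, q, hp⟩
    simp only [Prod.mk.injEq] at hp
    obtain ⟨rfl, rfl, rfl⟩ := hp
    refine ⟨k * g, q, ?_⟩
    rw [Chain.tr_tr]
    congr 2
    group
  · rintro A r p ⟨g, q, hp⟩
    simp only [Prod.mk.injEq] at hp
    obtain ⟨rfl, rfl, rfl⟩ := hp
    exact S.per_ge q
  · rintro A r p ⟨g, q, hp⟩
    simp only [Prod.mk.injEq] at hp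
    obtain ⟨rfl, rfl, rfl⟩ := hp
    exact S.per_le q
  · rintro A r p ⟨g, q, hp⟩
    simp only [Prod.mk.injEq] at hp
    obtain ⟨rfl, rfl, rfl⟩ := hp
    exact Subgroup.normalClosure_normal.conj_mem _
      (Subgroup.subset_normalClosure (Set.mem_range_self q)) _
  · rintro A r p i ⟨g, q, hp⟩
    simp only [Prod.mk.injEq] at hp
    obtain ⟨rfl, rfl, rfl⟩ := hp
    simp only [Chain.tr]
    rw [S.P_per]
    group
  · rintro A r p i ⟨g, q, hp⟩
    simp only [Prod.mk.injEq] at hp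
    obtain ⟨rfl, rfl, rfl⟩ := hp
    exact S.m_per q i
  · rintro A r p i k ⟨g, q, hp⟩ hk
    simp only [Prod.mk.injEq] at hp
    obtain ⟨rfl, rfl, rfl⟩ := hp
    exact S.m_sum q i k hk
  · rintro A r p B s p' ⟨g, q, hp⟩ ⟨g', q', hp'⟩
    simp only [Prod.mk.injEq] at hp hp'
    obtain ⟨rfl, rfl, rfl⟩ := hp
    obtain ⟨rfl, rfl, rfl⟩ := hp'
    rcases axes_overlap h S q q' g g' with ⟨t, h1, h2⟩ | h1
    · left
      subst h1
      have h3 : S.r q ^ t * S.r q = S.r q * S.r q ^ t := by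
        rw [← zpow_add_one, ← zpow_one_add, add_comm]
      refine ⟨?_, rfl, t, fun i => ?_⟩
      · rw [h2]
        calc g * S.r q * g⁻¹ = g * (S.r q * S.r q ^ t) * (g * S.r q ^ t)⁻¹ := by group
          _ = g * (S.r q ^ t * S.r q) * (g * S.r q ^ t)⁻¹ := by rw [h3]
          _ = g * S.r q ^ t * S.r q * (g * S.r q ^ t)⁻¹ := by simp only [mul_assoc]
      · simp only [Chain.tr]
        rw [h2, conj_zpow]
        group
    · right
      exact h1
  · intro g hg hg1 x
    have hg' : g ∈ Subgroup.closure (Set.range (rotSys S h).r) := by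
      refine Subgroup.closure_mono ?_ hg
      intro y hy
      rw [Group.mem_conjugatesOfSet_iff] at hy
      obtain ⟨z, ⟨q, rfl⟩, hz⟩ := hy
      obtain ⟨c, rfl⟩ := isConj_iff.1 hz
      exact ⟨⟨q, (c : H ⧸ Subgroup.zpowers (S.r q))⟩, axR_eq S ⟨q, _⟩ c rfl⟩
    obtain ⟨A, hA⟩ := (rotSys S h).greendlinger hg' hg1 x
    refine ⟨axC S A, axR S A, S.per A.1, ⟨A.2.out, A.1, rfl⟩, ?_⟩
    have : (rotSys S h).L - 12 * (rotSys S h).θ = 915 := rfl
    rw [this] at hA
    exact hA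

end Pool.Agent.LibSCQ
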