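import Mathlib

/-!
Small cancellation quotients of hyperbolic groups: basic definitions.

`H` is a group with a left-invariant integer valued geodesic metric `d`, `a b : H`. The lines are
the cosets `g⟨a⟩`.
-/

set_option autoImplicit false

namespace Pool.Agent.LibSCQ

/-- A left-invariant, integer valued, geodesic metric on a group. -/
structure Geo {H : Type} [Group H] (d : H → H → ℤ) : Prop where
  self : ∀ x, d x x = 0
  eq : ∀ x y, d x y = 0 → x = y
  nonneg : ∀ x y, 0 ≤ d x y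
  symm : ∀ x y, d x y = d y x
  tri : ∀ x y z, d x z ≤ d x y + d y z
  inv : ∀ g x y, d (g * x) (g * y) = d x y
  geod : ∀ x y (k : ℤ), 0 ≤ k → k ≤ d x y → ∃ z, d x z = k ∧ d z y = d x y - k

/-- The four point condition with constant `δ`. -/
def Hyp {X : Type} (d : X → X → ℤ) (δ : ℤ) : Prop :=
  ∀ x y z w, d x z + d y w ≤ d x y + d z w + δ ∨ d x z + d y w ≤ d x w + d y z + δ

/-- `d` is a `δ`-hyperbolic geodesic metric and `⟨a⟩` is a geodesic line. -/
structure Lin {H : Type} [Group H] (a : H) (d : H → H → ℤ) (δ : ℤ) : Prop where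
  geo : Geo d
  δ0 : 0 ≤ δ
  hyp : Hyp d δ
  line : ∀ k : ℤ, d 1 (a ^ k) = |k|

/-- `Lin`, and the nearest point projections of a line to another line have diameter at most
`κ`. -/
structure Par {H : Type} [Group H] (a : H) (d : H → H → ℤ) (δ κ : ℤ) : Prop
    extends Lin a d δ where
  κ0 : 0 ≤ κ
  par : ∀ g, g ∉ Subgroup.zpowers a → ∀ i j s t : ℤ,
    (∀ u : ℤ, d (g * a ^ i) (a ^ s) ≤ d (g * a ^ i) (a ^ u)) →
    (∀ u : ℤ, d (g * a ^ j) (a ^ t) ≤ d (g * a ^ j) (a ^ u)) → |s - t| ≤ κ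

/-- The word `b u b² u ⋯ b^1000 u`. -/
def fw {H : Type} [Group H] (b u : H) : H :=
  ((List.range 1000).map fun k => b ^ (k + 1) * u).prod

/-- The word `b^1001 u b^1002 u ⋯ b^2000 u`. -/
def gw {H : Type} [Group H] (b u : H) : H :=
  ((List.range 1000).map fun k => b ^ (k + 1001) * u).prod

/-- The properties of a group that are preserved by the small cancellation step:
`δ` is the hyperbolicity constant, `κ` bounds the nearest point projections of one line to another,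
`D` is the exceptional set of exponents. -/
structure Good {H : Type} [Group H] (a b : H) (d : H → H → ℤ) (δ κ : ℤ) (D : Set ℤ) : Prop
    extends Par a d δ κ where
  b_le : d 1 b ≤ 1
  jsep : ∀ k l : ℤ, |k| ≤ 2000 → |l| ≤ 2000 → ∀ x y : ℤ, b ^ k = a ^ x * b ^ l * a ^ y → k = l
  ball : ∀ h, d 1 h ≤ 1 → h = 1 ∨ h = a ∨ h = a⁻¹ ∨ h = b ∨ h = b⁻¹
  tf : ∀ (h : H) (p : ℕ), 0 < p → h ^ p = 1 → h = 1
  dset : ∀ m : ℤ, fw b (a ^ m) ∈ Subgroup.zpowers a → m ∈ D

/-- The set of exponents of a power of `a` nearest to `h`. -/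
def near {H : Type} [Group H] (a : H) (d : H → H → ℤ) (h : H) : Set ℤ :=
  {s | ∀ u : ℤ, d h (a ^ s) ≤ d h (a ^ u)}

/-- The least exponent of a power of `a` nearest to `h`. -/
noncomputable def tau {H : Type} [Group H] (a : H) (d : H → H → ℤ) (h : H) : ℤ :=
  sInf (near a d h)

/-- A chain of lines: `P i` is the point where the `i`-th line is entered, it is left at
`P i * a ^ m i`. -/
structure Chain {H : Type} [Group H] (a : H) (d : H → H → ℤ) (η M : ℤ) where
  P : ℤ → H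
  m : ℤ → ℤ
  e : ℤ → H
  step : ∀ i, P (i + 1) = P i * a ^ m i * e i
  e_not : ∀ i, e i ∉ Subgroup.zpowers a
  e_le : ∀ i, d 1 (e i) ≤ η
  m_ge : ∀ i, M ≤ |m i|

namespace Chain

variable {H : Type} [Group H] {a : H} {d : H → H → ℤ} {η M : ℤ}

/-- the position of the projection of `x` to the `i`-th line; `P i` has position `0` -/
noncomputable def t (C : Chain a d η M) (i : ℤ) (x : H) : ℤ := tau a d ((C.P i)⁻¹ * x)

/-- the lines of the chain before or around `x` -/
def lft (C : Chain a d η M) (x : H) : Set ℤ := {i | |C.t i x - C.m i| ≤ |C.t i x|}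

/-- the position of `x` along the chain -/
noncomputable def pos (C : Chain a d η M) (x : H) : ℤ := sSup (C.lft x)

/-- the union of the lines of the chain -/
def pts (C : Chain a d η M) : Set H := {x | ∃ i k : ℤ, x = C.P i * a ^ k}

/-- translate of a chain -/
def tr (g : H) (C : Chain a d η M) : Chain a d η M where
  P i := g * C.P i
  m := C.m
  e := C.e
  step i := by rw [C.step]; group
  e_not := C.e_not
  e_le := C.e_le
  m_ge := C.m_ge

end Chain

/-- A system of relators: for every `q` a relator `r q` with a periodic chain. -/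
structure RelSys {H : Type} [Group H] (a : H) (d : H → H → ℤ) (η M U : ℤ) (ι : Type) where
  C : ι → Chain a d η M
  r : ι → H
  per : ι → ℕ
  per_ge : ∀ q, 999 ≤ per q
  per_le : ∀ q, per q ≤ 1000
  P_per : ∀ q i, (C q).P (i + per q) = r q * (C q).P i
  m_per : ∀ q i, (C q).m (i + per q) = (C q).m i
  m_sum : ∀ q i (k : ℕ), k ≤ per q → ∑ l ∈ Finset.range k, |(C q).m (i + l)| ≤ (k + 1) * U
  exc : ι → ℤ → Prop
  exc_sep : ∀ q i j, exc q i → exc q j → i ≠ j → 3 ≤ |i - j|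
  js : ∀ q q' i i' (x y : ℤ), ¬ exc q i → ¬ exc q' i' → (C q).e i = a ^ x * (C q').e i' * a ^ y →
    q = q' ∧ (∃ t : ℤ, i = i' + t * per q) ∧ x = 0 ∧ y = 0
  js' : ∀ q q' i i' (x y : ℤ), ¬ exc q i → ¬ exc q' i' →
    (C q).e i ≠ a ^ x * ((C q').e i')⁻¹ * a ^ y

/-- The axes of a normal subgroup `N`: triples of a chain, a rotation and a period. -/
structure AxSys {H : Type} [Group H] (a : H) (d : H → H → ℤ) (η M U : ℤ) (N : Subgroup H) where
  Ax : Set (Chain a d η M × H × ℕ)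
  tr : ∀ A r p g, (A, r, p) ∈ Ax → (A.tr g, g * r * g⁻¹, p) ∈ Ax
  per_ge : ∀ A r p, (A, r, p) ∈ Ax → 999 ≤ p
  per_le : ∀ A r p, (A, r, p) ∈ Ax → p ≤ 1000
  mem : ∀ A r p, (A, r, p) ∈ Ax → r ∈ N
  P_per : ∀ A r p i, (A, r, p) ∈ Ax → A.P (i + p) = r * A.P i
  m_per : ∀ A r p i, (A, r, p) ∈ Ax → A.m (i + p) = A.m i
  m_sum : ∀ A r p i (k : ℕ), (A, r, p) ∈ Ax → k ≤ p →
    ∑ l ∈ Finset.range k, |A.m (i + l)| ≤ (k + 1) * U
  overlap : ∀ A r p B s q, (A, r, p) ∈ Ax → (B, s, q) ∈ Ax →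
    (r = s ∧ p = q ∧ ∃ t : ℤ, ∀ i, B.P i = r ^ t * A.P i) ∨
      ∀ x ∈ B.pts, ∀ y ∈ B.pts, |A.pos x - A.pos y| ≤ 5
  visible : ∀ g ∈ N, g ≠ 1 → ∀ x, ∃ A r p, (A, r, p) ∈ Ax ∧ 915 ≤ |A.pos x - A.pos (g * x)|

/-- The distance modulo `N`. -/
noncomputable def dq {H : Type} [Group H] (d : H → H → ℤ) (N : Subgroup H) (x y : H) : ℤ :=
  sInf {k | ∃ g ∈ N, k = d x (g * y)}

end Pool.Agent.LibSCQ
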