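import Pool.Agent.LibSCQ.Defs

/-!
TASK 12. Groups that are hyperbolic at infinitely many scales are lacunary hyperbolic.
-/

set_option autoImplicit false

namespace Pool.Agent.LibSCQ

open Filter Topology

namespace ConeAux

/-! ### Word length -/

section WordLen

variable {G : Type} [Group G] {S : Set G}

theorem wordLen_spec (hS : Subgroup.closure S = ⊤) (g : G) :
    ∃ l : List G, l.length = wordLen S g ∧ (∀ x ∈ l, x ∈ S ∨ x⁻¹ ∈ S) ∧ l.prod = g := by
  have hne : {n | ∃ l : List G, l.length = n ∧ (∀ x ∈ l, x ∈ S ∨ x⁻¹ ∈ S) ∧ l.prod = g}.Nonempty := by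
    have hg : g ∈ Subgroup.closure S := by rw [hS]; trivial
    rw [← Subgroup.mem_toSubmonoid, Subgroup.closure_toSubmonoid] at hg
    obtain ⟨l, hl, hp⟩ := Submonoid.exists_list_of_mem_closure hg
    exact ⟨l.length, l, rfl, fun x hx => by
      rcases hl x hx with h | h
      · exact Or.inl h
      · exact Or.inr h, hp⟩
  exact Nat.sInf_mem hne

theorem wordLen_le (l : List G) (hl : ∀ x ∈ l, x ∈ S ∨ x⁻¹ ∈ S) :
    wordLen S l.prod ≤ l.length := Nat.sInf_le ⟨l, rfl, hl, rfl⟩

theorem wordLen_one : wordLen S (1 : G) = 0 := by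
  have := wordLen_le (S := S) ([] : List G) (by simp)
  simpa using this

theorem wordLen_mul (hS : Subgroup.closure S = ⊤) (g h : G) :
    wordLen S (g * h) ≤ wordLen S g + wordLen S h := by
  obtain ⟨l, hl, hl2, hl3⟩ := wordLen_spec hS g
  obtain ⟨m, hm, hm2, hm3⟩ := wordLen_spec hS h
  have := wordLen_le (S := S) (l ++ m) (by
    intro x hx
    rcases List.mem_append.1 hx with h | h
    · exact hl2 x h
    · exact hm2 x h)
  rw [List.prod_append, hl3, hm3, List.length_append, hl, hm] at this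
  exact this

theorem wordLen_inv_le (hS : Subgroup.closure S = ⊤) (g : G) :
    wordLen S g⁻¹ ≤ wordLen S g := by
  obtain ⟨l, hl, hl2, hl3⟩ := wordLen_spec hS g
  have := wordLen_le (S := S) ((l.map fun x => x⁻¹).reverse) (by
    intro x hx
    rw [List.mem_reverse, List.mem_map] at hx
    obtain ⟨y, hy, rfl⟩ := hx
    rcases hl2 y hy with h | h
    · right; simpa using h
    · left; exact h)
  rw [← List.prod_inv_reverse, hl3] at this
  simpa [hl] using this

theorem wordLen_inv (hS : Subgroup.closure S = ⊤) (g : G) :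
    wordLen S g⁻¹ = wordLen S g := by
  refine le_antisymm (wordLen_inv_le hS g) ?_
  have := wordLen_inv_le hS g⁻¹
  simpa using this

/-- A geodesic path of group elements. -/
theorem exists_geo (hS : Subgroup.closure S = ⊤) (x y : G) :
    ∃ p : ℕ → G, p 0 = x ∧ p (wordLen S (x⁻¹ * y)) = y ∧
      ∀ i j : ℕ, i ≤ j → j ≤ wordLen S (x⁻¹ * y) →
        wordLen S ((p i)⁻¹ * p j) = j - i ∧ wordLen S ((p j)⁻¹ * p i) = j - i := by
  obtain ⟨l, hl, hl2, hl3⟩ := wordLen_spec hS (x⁻¹ * y)
  refine ⟨fun i => x * (l.take i).prod, by simp, ?_, ?_⟩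
  · simp only
    rw [← hl, List.take_length, hl3]
    group
  · intro i j hij hj
    have key : wordLen S ((x * (l.take i).prod)⁻¹ * (x * (l.take j).prod)) = j - i := by
      have e1 : (l.take j).prod = (l.take i).prod * ((l.take j).drop i).prod := by
        rw [← List.prod_append]
        congr 1
        have : l.take i = (l.take j).take i := by
          rw [List.take_take, min_eq_left hij]
        rw [this, List.take_append_drop]
      have e2 : (x * (l.take i).prod)⁻¹ * (x * (l.take j).prod) = ((l.take j).drop i).prod := by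
        rw [e1]; group
      rw [e2]
      have h1 : wordLen S ((l.take j).drop i).prod ≤ j - i := by
        refine (wordLen_le _ ?_).trans ?_
        · intro z hz
          exact hl2 z (List.mem_of_mem_take (List.mem_of_mem_drop hz))
        · rw [List.length_drop, List.length_take, hl, min_eq_left hj]
      have h2 : wordLen S (l.take i).prod ≤ i := by
        refine (wordLen_le _ ?_).trans ?_
        · intro z hz
          exact hl2 z (List.mem_of_mem_take hz)
        · rw [List.length_take]; exact min_le_left _ _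
      have h3 : wordLen S (l.drop j).prod ≤ l.length - j := by
        refine (wordLen_le _ ?_).trans ?_
        · intro z hz
          exact hl2 z (List.mem_of_mem_drop hz)
        · rw [List.length_drop]
      have e3 : x⁻¹ * y = (l.take i).prod * ((l.take j).drop i).prod * (l.drop j).prod := by
        rw [← e1, ← List.prod_append, List.take_append_drop, hl3]
      have h4 : wordLen S (x⁻¹ * y) ≤ i + wordLen S ((l.take j).drop i).prod + (l.length - j) := by
        calc wordLen S (x⁻¹ * y)
            ≤ wordLen S ((l.take i).prod * ((l.take j).drop i).prod) + wordLen S (l.drop j).prod := by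
              conv_lhs => rw [e3]
              exact wordLen_mul hS _ _
          _ ≤ wordLen S (l.take i).prod + wordLen S ((l.take j).drop i).prod
                + wordLen S (l.drop j).prod := by
              gcongr
              exact wordLen_mul hS _ _
          _ ≤ _ := by gcongr
      rw [hl] at h4
      omega
    refine ⟨key, ?_⟩
    have := wordLen_inv hS ((x * (l.take i).prod)⁻¹ * (x * (l.take j).prod))
    rw [key, mul_inv_rev, inv_inv] at this
    exact this

end WordLen

/-! ### Real trees -/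

theorem cross {X : Type} [MetricSpace X] (γ : ℝ → X) (P h : ℝ → ℝ) (α β t : ℝ) (hαβ : α ≤ β)
    (hγ : ContinuousOn γ (Set.Icc α β)) (hP : ContinuousOn P (Set.Icc α β)) (hh0 : ∀ u, 0 ≤ h u)
    (hne : ∀ u ∈ Set.Icc α β, ∀ u' ∈ Set.Icc α β, P u ≠ P u' → h u ≤ dist (γ u) (γ u'))
    (h1 : P α ≤ t) (h2 : t < P β) : ∃ u ∈ Set.Icc α β, P u = t ∧ h u = 0 := by
  have hKc : IsCompact {u ∈ Set.Icc α β | P u ≤ t} := by
    have : IsClosed {u ∈ Set.Icc α β | P u ≤ t} :=
      IsClosed.isClosed_le isClosed_Icc hP continuousOn_const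
    exact isCompact_Icc.of_isClosed_subset this (fun u hu => hu.1)
  have hKn : {u ∈ Set.Icc α β | P u ≤ t}.Nonempty := ⟨α, ⟨le_refl _, hαβ⟩, h1⟩
  obtain ⟨v, hvK, hvmax⟩ := hKc.exists_isGreatest hKn
  have hvI : v ∈ Set.Icc α β := hvK.1
  have hPv : P v ≤ t := hvK.2
  have hvβ : v < β := by
    rcases lt_or_eq_of_le hvI.2 with h | h
    · exact h
    · rw [h] at hPv; exact absurd h2 (not_lt.2 hPv)
  have hPvt : P v = t := by
    have hsub : Set.Icc v β ⊆ Set.Icc α β := Set.Icc_subset_Icc hvI.1 le_rfl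
    have := intermediate_value_Icc hvβ.le (hP.mono hsub)
    obtain ⟨u, hu, hut⟩ := this ⟨hPv, h2.le⟩
    have huK : u ∈ {u ∈ Set.Icc α β | P u ≤ t} := ⟨hsub hu, hut.le⟩
    have : u = v := le_antisymm (hvmax huK) hu.1
    rw [← this]; exact hut
  refine ⟨v, hvI, hPvt, ?_⟩
  by_contra hcon
  have hpos : 0 < h v := lt_of_le_of_ne (hh0 v) (Ne.symm hcon)
  have hc := Metric.continuousOn_iff.1 hγ v hvI (h v) hpos
  obtain ⟨δ, hδ, hc⟩ := hc
  have hu1 : v < min (v + δ / 2) β := lt_min (by linarith) hvβ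
  have huI : min (v + δ / 2) β ∈ Set.Icc α β := ⟨hvI.1.trans hu1.le, min_le_right _ _⟩
  have hd : dist (min (v + δ / 2) β) v < δ := by
    rw [Real.dist_eq, abs_of_pos (by linarith)]
    have := min_le_left (v + δ / 2) β
    linarith
  have h3 := hc _ huI hd
  have h4 : P v ≠ P (min (v + δ / 2) β) := by
    intro he
    have : min (v + δ / 2) β ∈ {u ∈ Set.Icc α β | P u ≤ t} := ⟨huI, by rw [← he, hPvt]⟩
    exact absurd (hvmax this) (not_le.2 hu1)
  have h5 := hne v hvI _ huI h4
  rw [dist_comm] at h3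
  linarith

theorem isRTree_of {X : Type} [MetricSpace X]
    (H1 : ∀ x y : X, ∃ f : ℝ → X, f 0 = x ∧ f (dist x y) = y ∧
      (∀ s ∈ Set.Icc 0 (dist x y), ∀ t ∈ Set.Icc 0 (dist x y), dist (f s) (f t) = |s - t|))
    (H2 : ∀ x y z w : X, dist x z + dist y w ≤
      max (dist x y + dist z w) (dist x w + dist y z)) : IsRTree X := by
  intro x y
  obtain ⟨f, hf0, hf1, hf⟩ := H1 x y
  refine ⟨f, hf0, hf1, hf, ?_⟩
  intro γ hγ hinj hγ0 hγ1
  set D := dist x y with hD
  have hD0 : 0 ≤ D := dist_nonneg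
  -- projection and height
  let p : X → ℝ := fun z => (dist x z + D - dist y z) / 2
  let ht : X → ℝ := fun z => (dist x z + dist y z - D) / 2
  have hpc : Continuous p := by fun_prop
  have hhc : Continuous ht := by fun_prop
  have hht0 : ∀ z, 0 ≤ ht z := by
    intro z
    have := dist_triangle x z y
    simp only [ht]
    rw [dist_comm z y] at this
    linarith
  have hp0 : ∀ z, p z ∈ Set.Icc 0 D := by
    intro z
    have h1 := dist_triangle y x z
    have h2 := dist_triangle x y z
    rw [dist_comm y x] at h1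
    constructor
    · simp only [p]; linarith
    · simp only [p]; linarith
  have hfp : ∀ z, ht z = 0 → z = f (p z) := by
    intro z hz
    have hq := hf 0 ⟨le_rfl, hD0⟩ (p z) (hp0 z)
    have hq' := hf D ⟨hD0, le_rfl⟩ (p z) (hp0 z)
    rw [hf0, zero_sub, abs_neg, abs_of_nonneg (hp0 z).1] at hq
    rw [hf1, abs_of_nonneg (by linarith [(hp0 z).2])] at hq'
    have h4 := H2 x z y (f (p z))
    have e1 : dist x z = p z := by
      have : dist x z = p z + ht z := by simp only [p, ht]; ring
      rw [this, hz, add_zero]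
    have e2 : dist y z = D - p z := by
      have : dist y z = D - p z + ht z := by simp only [p, ht]; ring
      rw [this, hz, add_zero]
    rw [hq, hq', e1, dist_comm z y, e2] at h4
    have h5 : D + dist z (f (p z)) ≤ D := by
      rw [hD]
      refine h4.trans ?_
      rw [← hD]
      apply max_le <;> linarith
    have h6 : dist z (f (p z)) ≤ 0 := by linarith
    exact dist_le_zero.1 h6
  have hsep : ∀ z w, p z ≠ p w → ht z ≤ dist z w := by
    intro z w hzw
    have hw := hht0 w
    rcases lt_or_gt_of_ne hzw with hlt | hlt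
    · -- p z < p w
      have h4 := H2 x y w z
      rw [← hD] at h4
      simp only [p] at hlt
      simp only [ht] at hw ⊢
      rcases le_max_iff.1 h4 with h5 | h5
      · rw [dist_comm w z] at h5; linarith
      · linarith
    · have h4 := H2 x y z w
      rw [← hD] at h4
      simp only [p] at hlt
      simp only [ht] at hw ⊢
      rcases le_max_iff.1 h4 with h5 | h5
      · linarith
      · linarith
  have hpx : p x = 0 := by simp only [p, dist_self]; rw [dist_comm y x, ← hD]; ring
  have hpy : p y = D := by simp only [p, dist_self]; rw [← hD]; ring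
  have hhx : ht x = 0 := by simp only [ht, dist_self]; rw [dist_comm y x, ← hD]; ring
  have hhy : ht y = 0 := by simp only [ht, dist_self]; rw [← hD]; ring
  have hPc : ContinuousOn (fun u => p (γ u)) (Set.Icc 0 1) := hpc.comp_continuousOn hγ
  have hHc : ContinuousOn (fun u => ht (γ u)) (Set.Icc 0 1) := hhc.comp_continuousOn hγ
  apply Set.Subset.antisymm
  · -- image of γ in the geodesic
    rintro _ ⟨u0, hu0, rfl⟩
    by_cases hz : ht (γ u0) = 0
    · exact ⟨p (γ u0), hp0 _, (hfp _ hz).symm⟩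
    exfalso
    have hA : IsCompact {u ∈ Set.Icc 0 u0 | ht (γ u) = 0} := by
      have hc : IsClosed {u ∈ Set.Icc 0 u0 | ht (γ u) = 0} := by
        have hcc : ContinuousOn (fun u => ht (γ u)) (Set.Icc 0 u0) :=
          hHc.mono (Set.Icc_subset_Icc le_rfl hu0.2)
        have := hcc.preimage_isClosed_of_isClosed isClosed_Icc (isClosed_singleton (x := (0:ℝ)))
        exact this
      exact isCompact_Icc.of_isClosed_subset hc (fun u hu => hu.1)
    have hB : IsCompact {u ∈ Set.Icc u0 1 | ht (γ u) = 0} := by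
      have hc : IsClosed {u ∈ Set.Icc u0 1 | ht (γ u) = 0} := by
        have hcc : ContinuousOn (fun u => ht (γ u)) (Set.Icc u0 1) :=
          hHc.mono (Set.Icc_subset_Icc hu0.1 le_rfl)
        have := hcc.preimage_isClosed_of_isClosed isClosed_Icc (isClosed_singleton (x := (0:ℝ)))
        exact this
      exact isCompact_Icc.of_isClosed_subset hc (fun u hu => hu.1)
    obtain ⟨u1, hu1, hu1max⟩ := hA.exists_isGreatest ⟨0, ⟨le_rfl, hu0.1⟩, by rw [hγ0]; exact hhx⟩
    obtain ⟨u2, hu2, hu2min⟩ := hB.exists_isLeast ⟨1, ⟨hu0.2, le_rfl⟩, by rw [hγ1]; exact hhy⟩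
    have hu1' : u1 < u0 := lt_of_le_of_ne hu1.1.2 (by rintro rfl; exact hz hu1.2)
    have hu2' : u0 < u2 := lt_of_le_of_ne hu2.1.1 (by rintro rfl; exact hz hu2.2)
    have h12 : u1 < u2 := hu1'.trans hu2'
    have hI : Set.Icc u1 u2 ⊆ Set.Icc 0 1 := Set.Icc_subset_Icc hu1.1.1 hu2.1.2
    have hne12 : p (γ u1) ≠ p (γ u2) := by
      intro he
      have e1 := hfp _ hu1.2
      have e2 := hfp _ hu2.2
      have : γ u1 = γ u2 := by rw [e1, e2, he]
      have := hinj (hI ⟨le_rfl, h12.le⟩) (hI ⟨h12.le, le_rfl⟩) this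
      exact absurd this h12.ne
    have hfin : ∀ u ∈ Set.Icc u1 u2, ht (γ u) = 0 → u = u1 ∨ u = u2 := by
      intro u hu hh
      rcases le_total u u0 with hle | hle
      · left
        exact le_antisymm (hu1max ⟨⟨(hI hu).1, hle⟩, hh⟩) hu.1
      · right
        exact le_antisymm hu.2 (hu2min ⟨⟨hle, (hI hu).2⟩, hh⟩)
    rcases lt_or_gt_of_ne hne12 with hlt | hlt
    · obtain ⟨u, hu, hPu, hhu⟩ := cross γ (fun u => p (γ u)) (fun u => ht (γ u)) u1 u2
        ((p (γ u1) + p (γ u2)) / 2) h12.le (hγ.mono hI) (hPc.mono hI) (fun u => hht0 _)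
        (fun u _ u' _ hne => hsep _ _ hne) (by linarith) (by linarith)
      rcases hfin u hu hhu with rfl | rfl
      · linarith
      · linarith
    · obtain ⟨u, hu, hPu, hhu⟩ := cross γ (fun u => -p (γ u)) (fun u => ht (γ u)) u1 u2
        (-((p (γ u1) + p (γ u2)) / 2)) h12.le (hγ.mono hI) ((hPc.mono hI).neg) (fun u => hht0 _)
        (fun u _ u' _ hne => hsep _ _ (fun he => hne (by rw [he]))) (by linarith) (by linarith)
      rcases hfin u hu hhu with rfl | rfl
      · linarith
      · linarith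
  · rintro _ ⟨t, ht', rfl⟩
    rcases lt_or_eq_of_le ht'.2 with hlt | heq
    · obtain ⟨u, hu, hPu, hhu⟩ := cross γ (fun u => p (γ u)) (fun u => ht (γ u)) 0 1 t zero_le_one
        hγ hPc (fun u => hht0 _) (fun u _ u' _ hne => hsep _ _ hne)
        (by rw [hγ0, hpx]; exact ht'.1) (by rw [hγ1, hpy]; exact hlt)
      refine ⟨u, hu, ?_⟩
      rw [hfp _ hhu]
      rw [hPu]
    · refine ⟨1, ⟨zero_le_one, le_rfl⟩, ?_⟩
      rw [hγ1, heq, hf1]

/-! ### Ultralimits -/

theorem exists_lim (ω : Ultrafilter ℕ) (u : ℕ → ℝ) (C : ℝ)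
    (h : ∀ᶠ n in (ω : Filter ℕ), 0 ≤ u n ∧ u n ≤ C) : ∃ a, Tendsto u ω (𝓝 a) := by
  have hm : Set.Icc 0 C ∈ ω.map u := by
    rw [Ultrafilter.mem_map]
    exact h
  obtain ⟨a, _, ha⟩ := isCompact_Icc.ultrafilter_le_nhds' (ω.map u) hm
  exact ⟨a, ha⟩

end ConeAux

open ConeAux

/-- If at the scales `s j` the four point condition with constant `δ j = o(s j)` holds in balls of
radius `R j` with `s j = o(R j)` then the group is lacunary hyperbolic. -/
theorem lacunary_of {G : Type} [Group G] (S : Finset G) (hS : Subgroup.closure (S : Set G) = ⊤)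
    (s δ R : ℕ → ℝ) (hs : Tendsto s atTop atTop)
    (hδ : Tendsto (fun j => δ j / s j) atTop (𝓝 0))
    (hR : Tendsto (fun j => R j / s j) atTop atTop)
    (h : ∀ j, ∀ x y z w : G, (wordLen (S : Set G) x : ℝ) ≤ R j → (wordLen (S : Set G) y : ℝ) ≤ R j →
      (wordLen (S : Set G) z : ℝ) ≤ R j → (wordLen (S : Set G) w : ℝ) ≤ R j →
      (wordLen (S : Set G) (x⁻¹ * z) : ℝ) + wordLen (S : Set G) (y⁻¹ * w) ≤
        max ((wordLen (S : Set G) (x⁻¹ * y) : ℝ) + wordLen (S : Set G) (z⁻¹ * w))
          ((wordLen (S : Set G) (x⁻¹ * w) : ℝ) + wordLen (S : Set G) (y⁻¹ * z)) + δ j) :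
    LacunaryHyperbolic G := by
  classical
  set L : G → ℕ := wordLen (S : Set G) with hL
  let ω : Ultrafilter ℕ := hyperfilter ℕ
  have hω : (ω : Filter ℕ) ≤ cofinite := hyperfilter_le_cofinite
  have hω' : (ω : Filter ℕ) ≤ atTop := by rw [← Nat.cofinite_eq_atTop]; exact hω
  have hs' : Tendsto s ω atTop := hs.mono_left hω'
  have hδ' : Tendsto (fun j => δ j / s j) ω (𝓝 0) := hδ.mono_left hω'
  have hR' : Tendsto (fun j => R j / s j) ω atTop := hR.mono_left hω'
  have hpos : ∀ᶠ n in (ω : Filter ℕ), 0 < s n := hs'.eventually_gt_atTop 0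
  let P := {x : ℕ → G // ∃ C : ℝ, ∀ᶠ n in (ω : Filter ℕ), (L (x n) : ℝ) ≤ C * s n}
  have hmul : ∀ g k : G, (L (g * k) : ℝ) ≤ L g + L k := fun g k => by
    exact_mod_cast wordLen_mul hS g k
  have hinv : ∀ g : G, L g⁻¹ = L g := wordLen_inv hS
  have htri : ∀ a b c : G, (L (a⁻¹ * c) : ℝ) ≤ L (a⁻¹ * b) + L (b⁻¹ * c) := fun a b c => by
    have := hmul (a⁻¹ * b) (b⁻¹ * c)
    have e : a⁻¹ * b * (b⁻¹ * c) = a⁻¹ * c := by group
    rwa [e] at this
  have hsym : ∀ a b : G, L (a⁻¹ * b) = L (b⁻¹ * a) := fun a b => by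
    rw [← hinv (a⁻¹ * b)]; congr 1; group
  -- limits of distances exist
  have hlim : ∀ x y : P, ∃ a : ℝ,
      Tendsto (fun n => (L ((x.1 n)⁻¹ * y.1 n) : ℝ) / s n) ω (𝓝 a) := by
    rintro ⟨x, C, hx⟩ ⟨y, C', hy⟩
    refine exists_lim ω _ (C + C') ?_
    filter_upwards [hx, hy, hpos] with n h1 h2 h3
    refine ⟨by positivity, ?_⟩
    rw [div_le_iff₀ h3]
    have := hmul (x n)⁻¹ (y n)
    rw [hinv] at this
    linarith
  choose dst hdst using hlim
  have huniq : ∀ (x y : P) (a : ℝ),
      Tendsto (fun n => (L ((x.1 n)⁻¹ * y.1 n) : ℝ) / s n) ω (𝓝 a) → dst x y = a :=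
    fun x y a ha => tendsto_nhds_unique (hdst x y) ha
  let inst : PseudoMetricSpace P :=
    { dist := dst
      dist_self := fun x => huniq x x 0 (by
        have : (fun n => (L ((x.1 n)⁻¹ * x.1 n) : ℝ) / s n) = fun _ => (0 : ℝ) := by
          funext n
          rw [inv_mul_cancel, hL, wordLen_one]
          simp
        rw [this]
        exact tendsto_const_nhds)
      dist_comm := fun x y => huniq x y _ (by
        refine (hdst y x).congr fun n => ?_
        rw [hsym])
      dist_triangle := fun x y z => by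
        refine le_of_tendsto_of_tendsto (hdst x z) ((hdst x y).add (hdst y z)) ?_
        filter_upwards [hpos] with n hn
        rw [← add_div]
        gcongr
        exact htri _ _ _ }
  let X := SeparationQuotient P
  let π : P → X := SeparationQuotient.mk
  have hπd : ∀ x y : P, dist (π x) (π y) = dst x y := fun x y => SeparationQuotient.dist_mk x y
  have hπs : Function.Surjective π := SeparationQuotient.surjective_mk
  refine ⟨S, hS, ω, s, hω, hs, X, inferInstance, ⟨π, hπs, ?_⟩, ?_⟩
  · intro x y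
    rw [hπd]
    exact hdst x y
  refine isRTree_of ?_ ?_
  · intro x' y'
    obtain ⟨x, rfl⟩ := hπs x'
    obtain ⟨y, rfl⟩ := hπs y'
    rw [hπd]
    choose p hp0 hp1 hp using fun n => exists_geo hS (x.1 n) (y.1 n)
    set N : ℕ → ℕ := fun n => L ((x.1 n)⁻¹ * y.1 n) with hN
    have hNl : Tendsto (fun n => (N n : ℝ) / s n) ω (𝓝 (dst x y)) := hdst x y
    have hD0 : 0 ≤ dst x y := by
      rw [← hπd]; exact dist_nonneg
    let k : ℝ → ℕ → ℕ := fun t n => min ⌊t * s n⌋₊ (N n)
    have hkN : ∀ t n, k t n ≤ N n := fun t n => min_le_right _ _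
    have hk : ∀ t ∈ Set.Icc 0 (dst x y), Tendsto (fun n => (k t n : ℝ) / s n) ω (𝓝 t) := by
      intro t ht
      have h1 : Tendsto (fun n => (⌊t * s n⌋₊ : ℝ) / s n) ω (𝓝 t) :=
        (tendsto_nat_floor_mul_div_atTop ht.1).comp hs'
      have h2 := h1.min hNl
      rw [min_eq_left ht.2] at h2
      refine h2.congr' ?_
      filter_upwards [hpos] with n hn
      simp only [k]
      rw [Nat.cast_min, ← min_div_div_right hn.le]
    have hdp : ∀ n i j, i ≤ N n → j ≤ N n →
        (L ((p n i)⁻¹ * p n j) : ℝ) = |(i : ℝ) - j| := by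
      intro n i j hi hj
      rcases le_total i j with hij | hij
      · have := (hp n i j hij hj).1
        rw [hL, this, Nat.cast_sub hij, abs_of_nonpos (by
          have : (i : ℝ) ≤ j := by exact_mod_cast hij
          linarith)]
        ring
      · have := (hp n j i hij hi).2
        rw [hL, this, Nat.cast_sub hij, abs_of_nonneg (by
          have : (j : ℝ) ≤ i := by exact_mod_cast hij
          linarith)]
    have hmem : ∀ t, ∃ C : ℝ, ∀ᶠ n in (ω : Filter ℕ), (L (p n (k t n)) : ℝ) ≤ C * s n := by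
      intro t
      obtain ⟨C, hC⟩ := x.2
      obtain ⟨C', hC'⟩ := y.2
      refine ⟨2 * C + C', ?_⟩
      filter_upwards [hC, hC', hpos] with n h1 h2 h3
      have h4 := hmul (x.1 n) ((x.1 n)⁻¹ * p n (k t n))
      rw [mul_inv_cancel_left] at h4
      have h5 := hdp n 0 (k t n) (Nat.zero_le _) (hkN t n)
      rw [hp0] at h5
      have h6 : |((0 : ℕ) : ℝ) - (k t n : ℝ)| = k t n := by
        rw [Nat.cast_zero, zero_sub, abs_neg, abs_of_nonneg (Nat.cast_nonneg _)]
      rw [h6] at h5
      have h7 : (k t n : ℝ) ≤ N n := by exact_mod_cast hkN t n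
      have h8 := hmul (x.1 n)⁻¹ (y.1 n)
      rw [hinv] at h8
      have h9 : (N n : ℝ) = L ((x.1 n)⁻¹ * y.1 n) := rfl
      linarith
    let f : ℝ → P := fun t => ⟨fun n => p n (k t n), hmem t⟩
    have hfd : ∀ t ∈ Set.Icc 0 (dst x y), ∀ t' ∈ Set.Icc 0 (dst x y),
        dist (π (f t)) (π (f t')) = |t - t'| := by
      intro t ht t' ht'
      rw [hπd]
      apply huniq
      have h1 := ((hk t ht).sub (hk t' ht')).abs
      refine h1.congr' ?_
      filter_upwards [hpos] with n hn
      simp only [f]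
      rw [hdp n _ _ (hkN t n) (hkN t' n), ← sub_div, abs_div, abs_of_pos hn]
    have hf0 : π (f 0) = π x := by
      congr 1
      apply Subtype.ext
      funext n
      simp only [f, k, zero_mul, Nat.floor_zero, Nat.zero_le, min_eq_left, hp0]
    have hfD : π (f (dst x y)) = π y := by
      rw [← dist_eq_zero, hπd]
      apply huniq
      have h1 := (hNl.sub (hk (dst x y) ⟨hD0, le_rfl⟩)).abs
      rw [sub_self, abs_zero] at h1
      refine h1.congr' ?_
      filter_upwards [hpos] with n hn
      simp only [f]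
      have h2 := hdp n (k (dst x y) n) (N n) (hkN _ n) le_rfl
      have h3 : p n (N n) = y.1 n := hp1 n
      rw [h3] at h2
      rw [h2, ← sub_div, abs_div, abs_of_pos hn, abs_sub_comm]
    exact ⟨fun t => π (f t), hf0, hfD, hfd⟩
  · intro x' y' z' w'
    obtain ⟨x, rfl⟩ := hπs x'
    obtain ⟨y, rfl⟩ := hπs y'
    obtain ⟨z, rfl⟩ := hπs z'
    obtain ⟨w, rfl⟩ := hπs w'
    simp only [hπd]
    have hball : ∀ v : P, ∀ᶠ n in (ω : Filter ℕ), (L (v.1 n) : ℝ) ≤ R n := by
      intro v
      obtain ⟨C, hC⟩ := v.2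
      filter_upwards [hC, hpos, hR'.eventually_ge_atTop C] with n h1 h2 h3
      rw [le_div_iff₀ h2] at h3
      exact h1.trans h3
    have hl1 := (hdst x z).add (hdst y w)
    have hl2 := ((((hdst x y).add (hdst z w)).max ((hdst x w).add (hdst y z))).add hδ')
    rw [add_zero] at hl2
    refine le_of_tendsto_of_tendsto hl1 hl2 ?_
    filter_upwards [hball x, hball y, hball z, hball w, hpos] with n hx hy hz hw hn
    have h1 := h n _ _ _ _ hx hy hz hw
    rw [← add_div, ← add_div, ← add_div, max_div_div_right hn.le, ← add_div]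
    gcongr

end Pool.Agent.LibSCQ
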