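import Pool.Agent.LibSCQ.Base

/-!
The presentation of the group. Words in `a, a⁻¹, b, b⁻¹` are coded by natural numbers: the empty
word has code `0`, if `w` has code `c` then `w a`, `w a⁻¹`, `w b`, `w b⁻¹` have codes
`4 c + 1`, `4 c + 2`, `4 c + 3`, `4 c + 4`.
-/

set_option autoImplicit false

namespace Pool.Agent.LibSCQ

/-- the letters -/
def ltr {G : Type} [Group G] (a b : G) (i : ℕ) : G :=
  if i = 0 then a else if i = 1 then a⁻¹ else if i = 2 then b else b⁻¹

/-- the element represented by the word with a given code -/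
def wd {G : Type} [Group G] (a b : G) : ℕ → G
  | 0 => 1
  | n + 1 => wd a b (n / 4) * ltr a b (n % 4)
termination_by n => n
decreasing_by omega

/-- the exponents in the relators -/
def nn (j : ℕ) : ℕ := 10 ^ (12 * 3 ^ j)

/-- the right hand side of the `j`-th relation of the second kind: `a ^ (i ^ 2)` for `j = 2 i`, the
word with code `i` for `j = 2 i + 1`. -/
def tgt {G : Type} [Group G] (a b : G) (j : ℕ) : G :=
  if j % 2 = 0 then a ^ (j / 2) ^ 2 else wd a b (j / 2)

/-- the free group of rank two -/
abbrev F2 : Type := FreeGroup (Fin 2)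

/-- the generators -/
def gx : F2 := FreeGroup.of 0
/-- the generators -/
def gy : F2 := FreeGroup.of 1

/-- the relators `fw(y, x^n_j) x^{-j}` and `gw(y, x^n_j) w_j⁻¹` for `j ∈ J` -/
def rels (J : Set ℕ) : Set F2 :=
  {w | ∃ j ∈ J, w = fw gy (gx ^ nn j) * (gx ^ j)⁻¹ ∨ w = gw gy (gx ^ nn j) * (tgt gx gy j)⁻¹}

/-- the normal closure of the relators -/
def NJ (J : Set ℕ) : Subgroup F2 := Subgroup.normalClosure (rels J)

instance (J : Set ℕ) : (NJ J).Normal := Subgroup.normalClosure_normal

/-- the group given by the relators in `J` -/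
abbrev GJ (J : Set ℕ) : Type := F2 ⧸ NJ J

end Pool.Agent.LibSCQ
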