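import Pool.Agent.LibSCQ.FOArith
import Pool.Agent.LibSCQ.Pres

/-!
TASK 13c. The criterion for QFA.
-/

set_option autoImplicit false

namespace Pool.Agent.LibSCQ

namespace Crit

/-! ### The predicates -/

section preds

variable {K : Type} [Group K] (a b : K)

/-- `u` commutes with `a` -/
def Zp (u : K) : Prop := u * a = a * u

/-- exceptional elements -/
def Dp (u : K) : Prop := Zp a u ∧ Zp a (fw b u)

/-- natural numbers -/
def Np (p : K) : Prop := ∃ u, Dp a b u ∧ fw b u = p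

/-- order -/
def Le (p q : K) : Prop := Np a b (p⁻¹ * q)

/-- the graph of the sequence -/
def Ep (p h : K) : Prop := ∃ u, (Dp a b u ∧ fw b u = p) ∧ gw b u = h

/-- squares -/
def Sp (p q : K) : Prop := Np a b p ∧ Ep a b (p ^ 2) q

/-- words -/
def Wp (p h : K) : Prop := Np a b p ∧ Ep a b (p ^ 2 * a) h

/-- words with a code at most `M` -/
def Bp (M h : K) : Prop := ∃ p, Le a b p M ∧ Wp a b p h

/-- squares of integers -/
def Sq (x q : K) : Prop := (Np a b x ∧ Sp a b x q) ∨ (Np a b x⁻¹ ∧ Sp a b x⁻¹ q)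

/-- multiplication of integers -/
def Mp (x y z : K) : Prop :=
  (Zp a x ∧ Zp a y ∧ Zp a z) ∧ ∃ q1, Sq a b x q1 ∧ ∃ q2, Sq a b y q2 ∧
    Sq a b (x * y) (q1 * q2 * z ^ 2)

end preds

/-! ### Definability -/

section ud

variable {α : Type} {P : ∀ (G : Type) [Group G], (α → G) → Prop}
  {f g h k l : ∀ (G : Type) [Group G], (α → G) → G}

theorem wk (hf : UTerm f) : UTerm (α := Option α) fun G _ v => f G (fun i => v (some i)) := by
  obtain ⟨t, ht⟩ := hf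
  refine ⟨t.relabel some, fun G _ v => ?_⟩
  rw [FirstOrder.Language.Term.realize_relabel]
  exact ht G _

theorem udZ (hf : UTerm f) (hg : UTerm g) : UDef fun G _ (v : α → G) => Zp (f G v) (g G v) :=
  UDef.eq (hg.mul hf) (hf.mul hg)

theorem udD (hf : UTerm f) (hg : UTerm g) (hh : UTerm h) :
    UDef fun G _ (v : α → G) => Dp (f G v) (g G v) (h G v) :=
  UDef.and (udZ hf hh) (udZ hf (UTerm.fw hg hh))

theorem udN (hf : UTerm f) (hg : UTerm g) (hh : UTerm h) :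
    UDef fun G _ (v : α → G) => Np (f G v) (g G v) (h G v) :=
  UDef.ex' (R := fun G _ v x => Dp (f G v) (g G v) x ∧ fw (g G v) x = h G v)
    (UDef.and (udD (wk hf) (wk hg) (UTerm.var none))
      (UDef.eq (UTerm.fw (wk hg) (UTerm.var none)) (wk hh)))

theorem udLe (hf : UTerm f) (hg : UTerm g) (hh : UTerm h) (hk : UTerm k) :
    UDef fun G _ (v : α → G) => Le (f G v) (g G v) (h G v) (k G v) :=
  udN hf hg (hh.inv.mul hk)

theorem udE (hf : UTerm f) (hg : UTerm g) (hh : UTerm h) (hk : UTerm k) :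
    UDef fun G _ (v : α → G) => Ep (f G v) (g G v) (h G v) (k G v) :=
  UDef.ex' (R := fun G _ v x => (Dp (f G v) (g G v) x ∧ fw (g G v) x = h G v) ∧
      gw (g G v) x = k G v)
    (UDef.and (UDef.and (udD (wk hf) (wk hg) (UTerm.var none))
      (UDef.eq (UTerm.fw (wk hg) (UTerm.var none)) (wk hh)))
      (UDef.eq (UTerm.gw (wk hg) (UTerm.var none)) (wk hk)))

theorem udS (hf : UTerm f) (hg : UTerm g) (hh : UTerm h) (hk : UTerm k) :
    UDef fun G _ (v : α → G) => Sp (f G v) (g G v) (h G v) (k G v) :=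
  UDef.and (udN hf hg hh) (udE hf hg (hh.pow 2) hk)

theorem udW (hf : UTerm f) (hg : UTerm g) (hh : UTerm h) (hk : UTerm k) :
    UDef fun G _ (v : α → G) => Wp (f G v) (g G v) (h G v) (k G v) :=
  UDef.and (udN hf hg hh) (udE hf hg ((hh.pow 2).mul hf) hk)

theorem udB (hf : UTerm f) (hg : UTerm g) (hh : UTerm h) (hk : UTerm k) :
    UDef fun G _ (v : α → G) => Bp (f G v) (g G v) (h G v) (k G v) :=
  UDef.ex' (R := fun G _ v x => Le (f G v) (g G v) x (h G v) ∧ Wp (f G v) (g G v) x (k G v))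
    (UDef.and (udLe (wk hf) (wk hg) (UTerm.var none) (wk hh))
      (udW (wk hf) (wk hg) (UTerm.var none) (wk hk)))

theorem udSq (hf : UTerm f) (hg : UTerm g) (hh : UTerm h) (hk : UTerm k) :
    UDef fun G _ (v : α → G) => Sq (f G v) (g G v) (h G v) (k G v) :=
  UDef.or (UDef.and (udN hf hg hh) (udS hf hg hh hk))
    (UDef.and (udN hf hg hh.inv) (udS hf hg hh.inv hk))

theorem udM (hf : UTerm f) (hg : UTerm g) (hh : UTerm h) (hk : UTerm k) (hl : UTerm l) :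
    UDef fun G _ (v : α → G) => Mp (f G v) (g G v) (h G v) (k G v) (l G v) := by
  refine UDef.and (UDef.and (udZ hf hh) (UDef.and (udZ hf hk) (udZ hf hl))) ?_
  refine UDef.ex' (R := fun G _ v q1 => Sq (f G v) (g G v) (h G v) q1 ∧ ∃ q2,
    Sq (f G v) (g G v) (k G v) q2 ∧
    Sq (f G v) (g G v) (h G v * k G v) (q1 * q2 * (l G v) ^ 2)) ?_
  refine UDef.and (udSq (wk hf) (wk hg) (wk hh) (UTerm.var none)) ?_
  refine UDef.ex' (R := fun G _ v q2 => 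
    Sq (f G (fun i => v (some i))) (g G (fun i => v (some i))) (k G (fun i => v (some i))) q2 ∧
    Sq (f G (fun i => v (some i))) (g G (fun i => v (some i)))
      (h G (fun i => v (some i)) * k G (fun i => v (some i)))
      ((v none) * q2 * (l G (fun i => v (some i))) ^ 2)) ?_
  refine UDef.and (udSq (wk (wk hf)) (wk (wk hg)) (wk (wk hk)) (UTerm.var none)) ?_
  exact udSq (wk (wk hf)) (wk (wk hg)) ((wk (wk hh)).mul (wk (wk hk)))
    (((UTerm.var (some none)).mul (UTerm.var none)).mul ((wk (wk hl)).pow 2))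

end ud

/-- the axioms; `x` is a tuple of four universally quantified variables -/
def AxBody (Q : ∀ (G : Type) [Group G], (Fin 3 → G) → Prop) (K : Type) [Group K] (a b : K)
    (x : Fin 4 → K) : Prop :=
  (Zp a (x 0) → Zp a (x 1) → x 0 * x 1 = x 1 * x 0) ∧
  (Np a b 1) ∧
  (Np a b (x 0) → Np a b (x 1) → Np a b (x 0 * x 1)) ∧
  (Np a b (x 0) → Np a b (x 0)⁻¹ → x 0 = 1) ∧
  (Zp a (x 0) → (Np a b (x 0) ∨ Np a b (x 0)⁻¹)) ∧
  (Np a b (x 0) → Zp a (x 0)) ∧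
  (Np a b a) ∧
  (¬ a = 1) ∧
  (Np a b (x 0) → ¬ x 0 = 1 → Np a b (x 0 * a⁻¹)) ∧
  (Dp a b (x 0) → Dp a b (x 1) → fw b (x 0) = fw b (x 1) → x 0 = x 1) ∧
  (Dp a b (x 0) → (Np a b (x 0) ∧ Le a b (fw b (x 0)) (x 0))) ∧
  (Dp a b (x 0) → Dp a b (x 1) → Le a b (fw b (x 0)) (fw b (x 1)) → Le a b (x 0) (x 1)) ∧
  (Sp a b 1 1) ∧
  (Sp a b (x 0) (x 1) → (Np a b (x 1) ∧ Sp a b (x 0 * a) (x 1 * x 0 ^ 2 * a))) ∧
  (Np a b (x 0) → ∃ q, Sp a b (x 0) q) ∧
  (Sp a b (x 0) (x 1) → Sp a b (x 2) (x 3) → Le a b (x 0) (x 2) → Le a b (x 1) (x 3)) ∧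
  (Wp a b 1 1) ∧
  (Wp a b (x 0) (x 1) → (Wp a b (x 0 ^ 4 * a) (x 1 * a) ∧ Wp a b (x 0 ^ 4 * a ^ 2) (x 1 * a⁻¹) ∧
    Wp a b (x 0 ^ 4 * a ^ 3) (x 1 * b) ∧ Wp a b (x 0 ^ 4 * a ^ 4) (x 1 * b⁻¹))) ∧
  (∃ p, Wp a b p (x 0)) ∧
  (Np a b (x 0) → ∃ h, Wp a b (x 0) h) ∧
  (Np a b (x 0) → Bp a b (x 0) (x 1) → Bp a b (x 0) (x 2) → Sp a b (x 0 ^ 2 * a) (x 3) →
    Bp a b (x 3) (x 1 * x 2)) ∧
  (Dp a b (x 0) → Dp a b (x 1) → fw b (x 1) = fw b (x 0) * a → Sp a b (x 0 ^ 2 * a) (x 2) →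
    Le a b (x 2) (x 1)) ∧
  (Wp a b (x 0) (x 1) → Np a b (x 1) → Le a b (x 1) (x 0)) ∧
  (Np a b (x 0) → (Wp a b (x 0) 1 ↔ Q K ![a, b, x 0]))

theorem UDef.alls {α β : Type} [Finite β]
    {R : ∀ (G : Type) [Group G], (α → G) → (β → G) → Prop}
    (hR : UDef (α := α ⊕ β) fun G _ v => R G (fun i => v (Sum.inl i)) (fun i => v (Sum.inr i))) :
    UDef fun G _ (v : α → G) => ∀ x : β → G, R G v x := by
  have h := UDef.not (UDef.exs (R := fun G _ v x => ¬ R G v x) (UDef.not hR))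
  simpa only [not_exists, not_not] using h

theorem udAx (Q : ∀ (G : Type) [Group G], (Fin 3 → G) → Prop) (hQ : UDef Q) :
    UDef (α := (Empty ⊕ Fin 2) ⊕ Fin 4) fun G _ v =>
      AxBody Q G (v (Sum.inl (Sum.inr 0))) (v (Sum.inl (Sum.inr 1))) (fun i => v (Sum.inr i)) := by
  set α := (Empty ⊕ Fin 2) ⊕ Fin 4
  have ha : UTerm (α := α) fun G _ v => v (Sum.inl (Sum.inr 0)) := UTerm.var _
  have hb : UTerm (α := α) fun G _ v => v (Sum.inl (Sum.inr 1)) := UTerm.var _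
  have h0 : UTerm (α := α) fun G _ v => v (Sum.inr 0) := UTerm.var _
  have h1 : UTerm (α := α) fun G _ v => v (Sum.inr 1) := UTerm.var _
  have h2 : UTerm (α := α) fun G _ v => v (Sum.inr 2) := UTerm.var _
  have h3 : UTerm (α := α) fun G _ v => v (Sum.inr 3) := UTerm.var _
  have ho : UTerm (α := α) fun G _ v => (1 : G) := UTerm.one
  unfold AxBody
  refine UDef.and ?_ <| UDef.and ?_ <| UDef.and ?_ <| UDef.and ?_ <| UDef.and ?_ <| UDef.and ?_ <|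
    UDef.and ?_ <| UDef.and ?_ <| UDef.and ?_ <| UDef.and ?_ <| UDef.and ?_ <| UDef.and ?_ <|
    UDef.and ?_ <| UDef.and ?_ <| UDef.and ?_ <| UDef.and ?_ <| UDef.and ?_ <| UDef.and ?_ <|
    UDef.and ?_ <| UDef.and ?_ <| UDef.and ?_ <| UDef.and ?_ <| UDef.and ?_ ?_
  · exact UDef.imp (udZ ha h0) (UDef.imp (udZ ha h1) (UDef.eq (h0.mul h1) (h1.mul h0)))
  · exact udN ha hb ho
  · exact UDef.imp (udN ha hb h0) (UDef.imp (udN ha hb h1) (udN ha hb (h0.mul h1)))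
  · exact UDef.imp (udN ha hb h0) (UDef.imp (udN ha hb h0.inv) (UDef.eq h0 ho))
  · exact UDef.imp (udZ ha h0) (UDef.or (udN ha hb h0) (udN ha hb h0.inv))
  · exact UDef.imp (udN ha hb h0) (udZ ha h0)
  · exact udN ha hb ha
  · exact UDef.not (UDef.eq ha ho)
  · exact UDef.imp (udN ha hb h0) (UDef.imp (UDef.not (UDef.eq h0 ho)) (udN ha hb (h0.mul ha.inv)))
  · exact UDef.imp (udD ha hb h0) (UDef.imp (udD ha hb h1)
      (UDef.imp (UDef.eq (UTerm.fw hb h0) (UTerm.fw hb h1)) (UDef.eq h0 h1)))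
  · exact UDef.imp (udD ha hb h0) (UDef.and (udN ha hb h0) (udLe ha hb (UTerm.fw hb h0) h0))
  · exact UDef.imp (udD ha hb h0) (UDef.imp (udD ha hb h1)
      (UDef.imp (udLe ha hb (UTerm.fw hb h0) (UTerm.fw hb h1)) (udLe ha hb h0 h1)))
  · exact udS ha hb ho ho
  · exact UDef.imp (udS ha hb h0 h1) (UDef.and (udN ha hb h1)
      (udS ha hb (h0.mul ha) ((h1.mul (h0.pow 2)).mul ha)))
  · exact UDef.imp (udN ha hb h0) (UDef.ex' (R := fun G _ v x =>
      Sp (v (Sum.inl (Sum.inr 0))) (v (Sum.inl (Sum.inr 1))) (v (Sum.inr 0)) x)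
      (udS (wk ha) (wk hb) (wk h0) (UTerm.var none)))
  · exact UDef.imp (udS ha hb h0 h1) (UDef.imp (udS ha hb h2 h3)
      (UDef.imp (udLe ha hb h0 h2) (udLe ha hb h1 h3)))
  · exact udW ha hb ho ho
  · exact UDef.imp (udW ha hb h0 h1) (UDef.and
      (udW ha hb ((h0.pow 4).mul ha) (h1.mul ha)) (UDef.and
      (udW ha hb ((h0.pow 4).mul (ha.pow 2)) (h1.mul ha.inv)) (UDef.and
      (udW ha hb ((h0.pow 4).mul (ha.pow 3)) (h1.mul hb))
      (udW ha hb ((h0.pow 4).mul (ha.pow 4)) (h1.mul hb.inv)))))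
  · exact UDef.ex' (R := fun G _ v x =>
      Wp (v (Sum.inl (Sum.inr 0))) (v (Sum.inl (Sum.inr 1))) x (v (Sum.inr 0)))
      (udW (wk ha) (wk hb) (UTerm.var none) (wk h0))
  · exact UDef.imp (udN ha hb h0) (UDef.ex' (R := fun G _ v x =>
      Wp (v (Sum.inl (Sum.inr 0))) (v (Sum.inl (Sum.inr 1))) (v (Sum.inr 0)) x)
      (udW (wk ha) (wk hb) (wk h0) (UTerm.var none)))
  · exact UDef.imp (udN ha hb h0) (UDef.imp (udB ha hb h0 h1) (UDef.imp (udB ha hb h0 h2)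
      (UDef.imp (udS ha hb ((h0.pow 2).mul ha) h3) (udB ha hb h3 (h1.mul h2)))))
  · exact UDef.imp (udD ha hb h0) (UDef.imp (udD ha hb h1)
      (UDef.imp (UDef.eq (UTerm.fw hb h1) ((UTerm.fw hb h0).mul ha))
      (UDef.imp (udS ha hb ((h0.pow 2).mul ha) h2) (udLe ha hb h2 h1))))
  · exact UDef.imp (udW ha hb h0 h1) (UDef.imp (udN ha hb h1) (udLe ha hb h1 h0))
  · refine UDef.imp (udN ha hb h0) (UDef.iff (udW ha hb h0 ho) ?_)
    have hs : ∀ i : Fin 3, UTerm (α := α)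
        ((![fun G _ v => v (Sum.inl (Sum.inr 0)), fun G _ v => v (Sum.inl (Sum.inr 1)),
          fun G _ v => v (Sum.inr 0)] : Fin 3 → ∀ (G : Type) [Group G], (α → G) → G) i) := by
      intro i
      fin_cases i
      · exact ha
      · exact hb
      · exact h0
    have h := UDef.subst hQ hs
    convert h using 6 with G _ v i
    fin_cases i <;> rfl

/-! ### Words -/

section words

variable {K : Type} [Group K] (a b : K)

theorem wd_zero : wd a b 0 = 1 := by rw [wd]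

theorem wd_succ (n : ℕ) : wd a b (n + 1) = wd a b (n / 4) * ltr a b (n % 4) := by rw [wd]

theorem wd_a (i : ℕ) : wd a b (4 * i + 1) = wd a b i * a := by
  rw [wd_succ, show 4 * i / 4 = i by omega, show 4 * i % 4 = 0 by omega]
  simp [ltr]

theorem wd_a' (i : ℕ) : wd a b (4 * i + 2) = wd a b i * a⁻¹ := by
  rw [show 4 * i + 2 = (4 * i + 1) + 1 by omega, wd_succ, show (4 * i + 1) / 4 = i by omega,
    show (4 * i + 1) % 4 = 1 by omega]
  simp [ltr]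

theorem wd_b (i : ℕ) : wd a b (4 * i + 3) = wd a b i * b := by
  rw [show 4 * i + 3 = (4 * i + 2) + 1 by omega, wd_succ, show (4 * i + 2) / 4 = i by omega,
    show (4 * i + 2) % 4 = 2 by omega]
  simp [ltr]

theorem wd_b' (i : ℕ) : wd a b (4 * i + 4) = wd a b i * b⁻¹ := by
  rw [show 4 * i + 4 = (4 * i + 3) + 1 by omega, wd_succ, show (4 * i + 3) / 4 = i by omega,
    show (4 * i + 3) % 4 = 3 by omega]
  simp [ltr]

/-- induction along the coding -/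
theorem wd_ind {P : ℕ → Prop} (h0 : P 0) (h : ∀ i c, c < 4 → P i → P (4 * i + c + 1)) :
    ∀ i, P i := by
  intro i
  induction i using Nat.strong_induction_on with
  | _ i ih =>
    rcases i with _ | n
    · exact h0
    · have := h (n / 4) (n % 4) (by omega) (ih _ (by omega))
      rwa [show 4 * (n / 4) + n % 4 + 1 = n + 1 by omega] at this

theorem wd_mul (i i' : ℕ) : ∃ i'', i'' ≤ i * (3 * i' + 1) + i' ∧
    wd a b i'' = wd a b i * wd a b i' := by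
  induction i' using wd_ind with
  | h0 => exact ⟨i, by simp, by simp [wd_zero]⟩
  | h k c hc ih =>
    obtain ⟨j, hj, hj'⟩ := ih
    refine ⟨4 * j + c + 1, ?_, ?_⟩
    · have h1 : i * (3 * (4 * k + c + 1) + 1) = 4 * (i * (3 * k + 1)) + i * (3 * c) := by ring
      rw [h1]
      nlinarith [Nat.zero_le (i * (3 * c))]
    · rw [wd_succ, wd_succ, show (4 * j + c) / 4 = j by omega, show (4 * j + c) % 4 = c by omega,
        show (4 * k + c) / 4 = k by omega, show (4 * k + c) % 4 = c by omega, hj', mul_assoc]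

theorem wd_surj (h : Subgroup.closure {a, b} = ⊤) (g : K) : ∃ i, wd a b i = g := by
  have hg : g ∈ Subgroup.closure {a, b} := by rw [h]; trivial
  induction hg using Subgroup.closure_induction_right with
  | one => exact ⟨0, wd_zero a b⟩
  | mul_right x hx y hy ih =>
    obtain ⟨i, hi⟩ := ih
    rcases hy with rfl | hy
    · exact ⟨4 * i + 1, by rw [wd_a, hi]⟩
    · rw [Set.mem_singleton_iff] at hy
      subst hy
      exact ⟨4 * i + 3, by rw [wd_b, hi]⟩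
  | mul_inv_cancel x hx y hy ih =>
    obtain ⟨i, hi⟩ := ih
    rcases hy with rfl | hy
    · exact ⟨4 * i + 2, by rw [wd_a', hi]⟩
    · rw [Set.mem_singleton_iff] at hy
      subst hy
      exact ⟨4 * i + 4, by rw [wd_b', hi]⟩

theorem map_wd {L : Type} [Group L] (φ : K →* L) (i : ℕ) :
    φ (wd a b i) = wd (φ a) (φ b) i := by
  induction i using wd_ind with
  | h0 => simp [wd_zero]
  | h k c hc ih =>
    rw [wd_succ, wd_succ, show (4 * k + c) / 4 = k by omega, map_mul, ih]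
    congr 1
    unfold ltr
    split_ifs <;> simp

end words

/-! ### Consequences of standardness -/

section std

variable {K : Type} [Group K] {a b : K}

theorem pow_inj_of (hinj : ∀ k : ℤ, a ^ k = 1 → k = 0) {i j : ℤ} (h : a ^ i = a ^ j) : i = j := by
  have := hinj (i - j) (by rw [zpow_sub, h]; group)
  omega

theorem npow_inj_of (hinj : ∀ k : ℤ, a ^ k = 1 → k = 0) {i j : ℕ} (h : a ^ i = a ^ j) : i = j := by
  have := pow_inj_of hinj (i := i) (j := j) (by simpa using h)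
  omega

theorem mp_std (hinj : ∀ k : ℤ, a ^ k = 1 → k = 0)
    (hN : ∀ p, Np a b p ↔ ∃ i : ℕ, p = a ^ i)
    (hS : ∀ p q, Sp a b p q ↔ ∃ i : ℕ, p = a ^ i ∧ q = a ^ (i ^ 2))
    (hZ : ∀ z, Zp a z ↔ ∃ k : ℤ, z = a ^ k) (i j : ℤ) (z : K) :
    Mp a b (a ^ i) (a ^ j) z ↔ z = a ^ (i * j) := by
  have hSq : ∀ (i : ℤ) (q : K), Sq a b (a ^ i) q ↔ q = a ^ (i ^ 2) := by
    intro i q
    constructor
    · rintro (⟨-, h⟩ | ⟨-, h⟩)
      · obtain ⟨k, hk, rfl⟩ := (hS _ _).1 h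
        have : i = k := pow_inj_of hinj (by simpa using hk)
        subst this
        exact_mod_cast rfl
      · obtain ⟨k, hk, rfl⟩ := (hS _ _).1 h
        have : -i = k := pow_inj_of hinj (by simpa using hk)
        have h2 : i ^ 2 = ((k ^ 2 : ℕ) : ℤ) := by
          push_cast
          rw [← this]; ring
        rw [h2, zpow_natCast]
    · rintro rfl
      obtain ⟨k, hk | hk⟩ := Int.eq_nat_or_neg i
      · left
        subst hk
        refine ⟨(hN _).2 ⟨k, by simp⟩, (hS _ _).2 ⟨k, by simp, ?_⟩⟩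
        exact_mod_cast rfl
      · right
        subst hk
        refine ⟨(hN _).2 ⟨k, by simp⟩, (hS _ _).2 ⟨k, by simp, ?_⟩⟩
        rw [neg_sq]
        exact_mod_cast rfl
  constructor
  · rintro ⟨⟨-, -, hz⟩, q1, h1, q2, h2, h3⟩
    obtain ⟨k, rfl⟩ := (hZ _).1 hz
    rw [hSq] at h1 h2
    subst h1 h2
    rw [← zpow_add, hSq, ← zpow_natCast, ← zpow_mul, ← zpow_add, ← zpow_add] at h3
    have := pow_inj_of hinj h3
    congr 1
    push_cast at this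
    nlinarith
  · rintro rfl
    refine ⟨⟨(hZ _).2 ⟨_, rfl⟩, (hZ _).2 ⟨_, rfl⟩, (hZ _).2 ⟨_, rfl⟩⟩, _, (hSq _ _).2 rfl, _,
      (hSq _ _).2 rfl, ?_⟩
    rw [← zpow_add, hSq, ← zpow_natCast, ← zpow_mul, ← zpow_add, ← zpow_add]
    congr 1
    push_cast
    ring

end std

/-! ### The group satisfies the axioms -/

section G

variable {G : Type} [Group G] {a b : G} {n : ℕ → ℕ}

theorem g_facts (h1 : ∀ j, fw b (a ^ n j) = a ^ j) (h2 : ∀ j, gw b (a ^ n j) = tgt a b j)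
    (hinj : ∀ k : ℤ, a ^ k = 1 → k = 0) (hcent : ∀ g, g * a = a * g → g ∈ Subgroup.zpowers a)
    (hD : ∀ m : ℤ, fw b (a ^ m) ∈ Subgroup.zpowers a → ∃ j, m = n j) :
    (∀ z, Zp a z ↔ ∃ k : ℤ, z = a ^ k) ∧ (∀ u, Dp a b u ↔ ∃ j, u = a ^ n j) ∧
    (∀ p, Np a b p ↔ ∃ i : ℕ, p = a ^ i) ∧
    (∀ p q, Sp a b p q ↔ ∃ i : ℕ, p = a ^ i ∧ q = a ^ (i ^ 2)) ∧
    (∀ p q, Wp a b p q ↔ ∃ i : ℕ, p = a ^ i ∧ q = wd a b i) := by
  have hZ : ∀ z, Zp a z ↔ ∃ k : ℤ, z = a ^ k := by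
    intro z
    constructor
    · intro h
      obtain ⟨k, hk⟩ := Subgroup.mem_zpowers_iff.1 (hcent z h)
      exact ⟨k, hk.symm⟩
    · rintro ⟨k, rfl⟩
      exact (Commute.refl a).zpow_left k
  have hDD : ∀ u, Dp a b u ↔ ∃ j, u = a ^ n j := by
    intro u
    constructor
    · rintro ⟨h, h'⟩
      obtain ⟨m, rfl⟩ := (hZ u).1 h
      obtain ⟨j, hj⟩ := hD m (hcent _ h')
      exact ⟨j, by rw [hj, zpow_natCast]⟩
    · rintro ⟨j, rfl⟩
      refine ⟨(hZ _).2 ⟨n j, by simp⟩, ?_⟩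
      rw [h1]
      exact (hZ _).2 ⟨j, by simp⟩
  have hN : ∀ p, Np a b p ↔ ∃ i : ℕ, p = a ^ i := by
    intro p
    constructor
    · rintro ⟨u, hu, rfl⟩
      obtain ⟨j, rfl⟩ := (hDD _).1 hu
      exact ⟨j, h1 j⟩
    · rintro ⟨i, rfl⟩
      exact ⟨a ^ n i, (hDD _).2 ⟨i, rfl⟩, h1 i⟩
  have hE : ∀ p h, Ep a b p h ↔ ∃ j, p = a ^ j ∧ h = tgt a b j := by
    intro p h
    constructor
    · rintro ⟨u, ⟨hu, rfl⟩, rfl⟩
      obtain ⟨j, rfl⟩ := (hDD _).1 hu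
      exact ⟨j, h1 j, h2 j⟩
    · rintro ⟨j, rfl, rfl⟩
      exact ⟨a ^ n j, ⟨(hDD _).2 ⟨j, rfl⟩, h1 j⟩, h2 j⟩
  refine ⟨hZ, hDD, hN, ?_, ?_⟩
  · intro p q
    constructor
    · rintro ⟨hp, hE'⟩
      obtain ⟨i, rfl⟩ := (hN _).1 hp
      obtain ⟨j, hj, rfl⟩ := (hE _ _).1 hE'
      refine ⟨i, rfl, ?_⟩
      rw [← pow_mul] at hj
      have := npow_inj_of hinj hj
      subst this
      rw [tgt, if_pos (by omega), show i * 2 / 2 = i by omega]
    · rintro ⟨i, rfl, rfl⟩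
      refine ⟨(hN _).2 ⟨i, rfl⟩, (hE _ _).2 ⟨2 * i, by rw [← pow_mul, mul_comm], ?_⟩⟩
      rw [tgt, if_pos (by omega), show 2 * i / 2 = i by omega]
  · intro p q
    constructor
    · rintro ⟨hp, hE'⟩
      obtain ⟨i, rfl⟩ := (hN _).1 hp
      obtain ⟨j, hj, rfl⟩ := (hE _ _).1 hE'
      refine ⟨i, rfl, ?_⟩
      rw [← pow_mul, ← pow_succ] at hj
      have := npow_inj_of hinj hj
      subst this
      rw [tgt, if_neg (by omega), show (i * 2 + 1) / 2 = i by omega]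
    · rintro ⟨i, rfl, rfl⟩
      refine ⟨(hN _).2 ⟨i, rfl⟩, (hE _ _).2 ⟨2 * i + 1, ?_, ?_⟩⟩
      · rw [← pow_mul, ← pow_succ, mul_comm]
      · rw [tgt, if_neg (by omega), show (2 * i + 1) / 2 = i by omega]

theorem ax_G (hgen : Subgroup.closure {a, b} = ⊤)
    (h1 : ∀ j, fw b (a ^ n j) = a ^ j) (h2 : ∀ j, gw b (a ^ n j) = tgt a b j)
    (hinj : ∀ k : ℤ, a ^ k = 1 → k = 0) (hcent : ∀ g, g * a = a * g → g ∈ Subgroup.zpowers a)
    (hD : ∀ m : ℤ, fw b (a ^ m) ∈ Subgroup.zpowers a → ∃ j, m = n j)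
    (hlen : ∀ (i : ℕ) (t : ℤ), wd a b i = a ^ t → t ≤ i)
    (hgrow : ∀ j, (2 * n j + 1) ^ 2 ≤ n (j + 1)) (hn0 : ∀ j, j ≤ n j)
    (Q : ∀ (G : Type) [Group G], (Fin 3 → G) → Prop)
    (hQ : ∀ i : ℕ, Q G ![a, b, a ^ i] ↔ wd a b i = 1) (x : Fin 4 → G) : AxBody Q G a b x := by
  obtain ⟨hZ, hDD, hN, hS, hW⟩ := g_facts h1 h2 hinj hcent hD
  have hnm : Monotone n := by
    apply monotone_nat_of_le_succ
    intro j
    have := hgrow j
    nlinarith
  have hLe : ∀ i j : ℕ, Le a b (a ^ i) (a ^ j) ↔ i ≤ j := by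
    intro i j
    unfold Le
    rw [hN]
    constructor
    · rintro ⟨k, hk⟩
      have : a ^ j = a ^ (i + k) := by rw [pow_add, ← hk]; group
      have := npow_inj_of hinj this
      omega
    · intro h
      obtain ⟨k, rfl⟩ := Nat.exists_eq_add_of_le h
      exact ⟨k, by rw [pow_add]; group⟩
  have hB : ∀ (m : ℕ) h, Bp a b (a ^ m) h ↔ ∃ i, i ≤ m ∧ h = wd a b i := by
    intro m h
    constructor
    · rintro ⟨p, hp, hw⟩
      obtain ⟨i, rfl, rfl⟩ := (hW _ _).1 hw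
      exact ⟨i, (hLe _ _).1 hp, rfl⟩
    · rintro ⟨i, hi, rfl⟩
      exact ⟨a ^ i, (hLe _ _).2 hi, (hW _ _).2 ⟨i, rfl, rfl⟩⟩
  have hfinj : ∀ j k, (fw b (a ^ n j) = fw b (a ^ n k) → j = k) := by
    intro j k h
    rw [h1, h1] at h
    exact npow_inj_of hinj h
  refine ⟨?_, ?_, ?_, ?_, ?_, ?_, ?_, ?_, ?_, ?_, ?_, ?_, ?_, ?_, ?_, ?_, ?_, ?_, ?_, ?_, ?_, ?_,
    ?_, ?_⟩
  · intro ha hb
    obtain ⟨i, hi⟩ := (hZ _).1 ha
    obtain ⟨j, hj⟩ := (hZ _).1 hb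
    rw [hi, hj]
    exact (Commute.refl a).zpow_zpow i j
  · exact (hN _).2 ⟨0, by simp⟩
  · intro ha hb
    obtain ⟨i, hi⟩ := (hN _).1 ha
    obtain ⟨j, hj⟩ := (hN _).1 hb
    exact (hN _).2 ⟨i + j, by rw [hi, hj, pow_add]⟩
  · intro ha hb
    obtain ⟨i, hi⟩ := (hN _).1 ha
    obtain ⟨j, hj⟩ := (hN _).1 hb
    have : a ^ (i + j) = a ^ 0 := by
      rw [pow_add, ← hi, ← hj]; simp
    have := npow_inj_of hinj this
    rw [hi, show i = 0 by omega, pow_zero]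
  · intro ha
    obtain ⟨i, hi⟩ := (hZ _).1 ha
    rcases Int.eq_nat_or_neg i with ⟨k, hk | hk⟩
    · left
      exact (hN _).2 ⟨k, by rw [hi, hk]; simp⟩
    · right
      exact (hN _).2 ⟨k, by rw [hi, hk]; simp⟩
  · intro ha
    obtain ⟨i, hi⟩ := (hN _).1 ha
    exact (hZ _).2 ⟨i, by rw [hi]; simp⟩
  · exact (hN _).2 ⟨1, by simp⟩
  · intro h
    have := hinj 1 (by simpa using h)
    omega
  · intro ha hb
    obtain ⟨i, hi⟩ := (hN _).1 ha
    rcases i with _ | i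
    · exact absurd (by simpa using hi) hb
    · exact (hN _).2 ⟨i, by rw [hi, pow_succ]; group⟩
  · intro ha hb h
    obtain ⟨i, hi⟩ := (hDD _).1 ha
    obtain ⟨j, hj⟩ := (hDD _).1 hb
    rw [hi, hj] at h ⊢
    rw [hfinj _ _ h]
  · intro ha
    obtain ⟨i, hi⟩ := (hDD _).1 ha
    rw [hi, h1, hLe]
    exact ⟨(hN _).2 ⟨n i, rfl⟩, hn0 i⟩
  · intro ha hb h
    obtain ⟨i, hi⟩ := (hDD _).1 ha
    obtain ⟨j, hj⟩ := (hDD _).1 hb
    rw [hi, hj, h1, h1, hLe] at h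
    rw [hi, hj, hLe]
    exact hnm h
  · exact (hS _ _).2 ⟨0, by simp, by simp⟩
  · intro h
    obtain ⟨i, hi, hj⟩ := (hS _ _).1 h
    rw [hi, hj]
    refine ⟨(hN _).2 ⟨_, rfl⟩, (hS _ _).2 ⟨i + 1, by rw [pow_succ], ?_⟩⟩
    rw [← pow_mul, ← pow_add, ← pow_succ]
    congr 1
    ring
  · intro h
    obtain ⟨i, hi⟩ := (hN _).1 h
    exact ⟨a ^ (i ^ 2), (hS _ _).2 ⟨i, hi, rfl⟩⟩
  · intro ha hb h
    obtain ⟨i, hi, hi'⟩ := (hS _ _).1 ha
    obtain ⟨j, hj, hj'⟩ := (hS _ _).1 hb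
    rw [hi, hj, hLe] at h
    rw [hi', hj', hLe]
    exact Nat.pow_le_pow_left h 2
  · exact (hW _ _).2 ⟨0, by simp, by simp [wd_zero]⟩
  · intro h
    obtain ⟨i, hi, hi'⟩ := (hW _ _).1 h
    rw [hi, hi']
    refine ⟨(hW _ _).2 ⟨4 * i + 1, ?_, (wd_a _ _ _).symm⟩,
      (hW _ _).2 ⟨4 * i + 2, ?_, (wd_a' _ _ _).symm⟩,
      (hW _ _).2 ⟨4 * i + 3, ?_, (wd_b _ _ _).symm⟩,
      (hW _ _).2 ⟨4 * i + 4, ?_, (wd_b' _ _ _).symm⟩⟩
    · rw [← pow_mul, ← pow_succ, mul_comm]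
    · rw [← pow_mul, ← pow_add, mul_comm]
    · rw [← pow_mul, ← pow_add, mul_comm]
    · rw [← pow_mul, ← pow_add, mul_comm]
  · obtain ⟨i, hi⟩ := wd_surj a b hgen (x 0)
    exact ⟨a ^ i, (hW _ _).2 ⟨i, rfl, hi.symm⟩⟩
  · intro h
    obtain ⟨i, hi⟩ := (hN _).1 h
    exact ⟨wd a b i, (hW _ _).2 ⟨i, hi, rfl⟩⟩
  · intro hm hb hb' hs
    obtain ⟨m, hm⟩ := (hN _).1 hm
    rw [hm] at hb hb' hs
    obtain ⟨i, hi, hi'⟩ := (hB _ _).1 hb
    obtain ⟨j, hj, hj'⟩ := (hB _ _).1 hb'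
    obtain ⟨k, hk, hk'⟩ := (hS _ _).1 hs
    rw [← pow_mul, ← pow_succ] at hk
    have hk2 := npow_inj_of hinj hk
    subst hk2
    rw [hk', hB]
    obtain ⟨l, hl, hl'⟩ := wd_mul a b i j
    refine ⟨l, hl.trans ?_, by rw [hi', hj', hl']⟩
    calc i * (3 * j + 1) + j ≤ m * (3 * m + 1) + m := by gcongr
      _ ≤ (m * 2 + 1) ^ 2 := by nlinarith
  · intro ha hb h hs
    obtain ⟨i, hi⟩ := (hDD _).1 ha
    obtain ⟨j, hj⟩ := (hDD _).1 hb
    rw [hi, hj, h1, h1, ← pow_succ] at h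
    have h' := npow_inj_of hinj h
    subst h'
    rw [hi] at hs
    obtain ⟨k, hk, hk'⟩ := (hS _ _).1 hs
    rw [← pow_mul, ← pow_succ] at hk
    have hk2 := npow_inj_of hinj hk
    subst hk2
    rw [hk', hj, hLe]
    have := hgrow i
    rwa [mul_comm (n i)]
  · intro ha hb
    obtain ⟨i, hi, hi'⟩ := (hW _ _).1 ha
    obtain ⟨j, hj⟩ := (hN _).1 hb
    rw [hi, hj, hLe]
    have := hlen i j (by rw [← hi', hj]; simp)
    omega
  · intro ha
    obtain ⟨i, hi⟩ := (hN _).1 ha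
    rw [hi, hQ, hW]
    constructor
    · rintro ⟨j, hj, hj'⟩
      rw [npow_inj_of hinj hj, ← hj']
    · intro h
      exact ⟨i, rfl, h.symm⟩

end G

/-! ### A finitely generated group that satisfies the axioms -/

/-- the axioms -/
structure Ax (Q : ∀ (G : Type) [Group G], (Fin 3 → G) → Prop) (K : Type) [Group K] (a b : K) :
    Prop where
  comm : ∀ x y, Zp a x → Zp a y → x * y = y * x
  one : Np a b 1
  mul : ∀ x y, Np a b x → Np a b y → Np a b (x * y)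
  anti : ∀ x, Np a b x → Np a b x⁻¹ → x = 1
  tot : ∀ x, Zp a x → (Np a b x ∨ Np a b x⁻¹)
  nz : ∀ x, Np a b x → Zp a x
  na : Np a b a
  a1 : ¬ a = 1
  pred : ∀ x, Np a b x → ¬ x = 1 → Np a b (x * a⁻¹)
  dinj : ∀ u v, Dp a b u → Dp a b v → fw b u = fw b v → u = v
  dn : ∀ u, Dp a b u → (Np a b u ∧ Le a b (fw b u) u)
  dmono : ∀ u v, Dp a b u → Dp a b v → Le a b (fw b u) (fw b v) → Le a b u v
  s1 : Sp a b 1 1
  ss : ∀ x y, Sp a b x y → (Np a b y ∧ Sp a b (x * a) (y * x ^ 2 * a))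
  sex : ∀ x, Np a b x → ∃ q, Sp a b x q
  smono : ∀ x y x' y', Sp a b x y → Sp a b x' y' → Le a b x x' → Le a b y y'
  w1 : Wp a b 1 1
  ws : ∀ x y, Wp a b x y → (Wp a b (x ^ 4 * a) (y * a) ∧ Wp a b (x ^ 4 * a ^ 2) (y * a⁻¹) ∧
    Wp a b (x ^ 4 * a ^ 3) (y * b) ∧ Wp a b (x ^ 4 * a ^ 4) (y * b⁻¹))
  wsurj : ∀ h, ∃ p, Wp a b p h
  wex : ∀ p, Np a b p → ∃ h, Wp a b p h
  bmul : ∀ m h h' q, Np a b m → Bp a b m h → Bp a b m h' → Sp a b (m ^ 2 * a) q →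
    Bp a b q (h * h')
  grow : ∀ u v q, Dp a b u → Dp a b v → fw b v = fw b u * a → Sp a b (u ^ 2 * a) q → Le a b q v
  wlen : ∀ p t, Wp a b p t → Np a b t → Le a b t p
  wq : ∀ p, Np a b p → (Wp a b p 1 ↔ Q K ![a, b, p])

theorem Ax.of {Q : ∀ (G : Type) [Group G], (Fin 3 → G) → Prop} {K : Type} [Group K] {a b : K}
    (h : ∀ x, AxBody Q K a b x) : Ax Q K a b where
  comm x y := (h ![x, y, 1, 1]).1
  one := (h ![1, 1, 1, 1]).2.1
  mul x y := (h ![x, y, 1, 1]).2.2.1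
  anti x := (h ![x, 1, 1, 1]).2.2.2.1
  tot x := (h ![x, 1, 1, 1]).2.2.2.2.1
  nz x := (h ![x, 1, 1, 1]).2.2.2.2.2.1
  na := (h ![1, 1, 1, 1]).2.2.2.2.2.2.1
  a1 := (h ![1, 1, 1, 1]).2.2.2.2.2.2.2.1
  pred x := (h ![x, 1, 1, 1]).2.2.2.2.2.2.2.2.1
  dinj x y := (h ![x, y, 1, 1]).2.2.2.2.2.2.2.2.2.1
  dn x := (h ![x, 1, 1, 1]).2.2.2.2.2.2.2.2.2.2.1
  dmono x y := (h ![x, y, 1, 1]).2.2.2.2.2.2.2.2.2.2.2.1
  s1 := (h ![1, 1, 1, 1]).2.2.2.2.2.2.2.2.2.2.2.2.1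
  ss x y := (h ![x, y, 1, 1]).2.2.2.2.2.2.2.2.2.2.2.2.2.1
  sex x := (h ![x, 1, 1, 1]).2.2.2.2.2.2.2.2.2.2.2.2.2.2.1
  smono x y x' y' := (h ![x, y, x', y']).2.2.2.2.2.2.2.2.2.2.2.2.2.2.2.1
  w1 := (h ![1, 1, 1, 1]).2.2.2.2.2.2.2.2.2.2.2.2.2.2.2.2.1
  ws x y := (h ![x, y, 1, 1]).2.2.2.2.2.2.2.2.2.2.2.2.2.2.2.2.2.1
  wsurj x := (h ![x, 1, 1, 1]).2.2.2.2.2.2.2.2.2.2.2.2.2.2.2.2.2.2.1
  wex x := (h ![x, 1, 1, 1]).2.2.2.2.2.2.2.2.2.2.2.2.2.2.2.2.2.2.2.1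
  bmul m x y q := (h ![m, x, y, q]).2.2.2.2.2.2.2.2.2.2.2.2.2.2.2.2.2.2.2.2.1
  grow u v q := (h ![u, v, q, 1]).2.2.2.2.2.2.2.2.2.2.2.2.2.2.2.2.2.2.2.2.2.1
  wlen p t := (h ![p, t, 1, 1]).2.2.2.2.2.2.2.2.2.2.2.2.2.2.2.2.2.2.2.2.2.2.1
  wq p := (h ![p, 1, 1, 1]).2.2.2.2.2.2.2.2.2.2.2.2.2.2.2.2.2.2.2.2.2.2.2

namespace Ax

variable {Q : ∀ (G : Type) [Group G], (Fin 3 → G) → Prop} {K : Type} [Group K] {a b : K}

theorem ncomm (A : Ax Q K a b) {x y : K} (hx : Np a b x) (hy : Np a b y) : x * y = y * x :=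
  A.comm x y (A.nz x hx) (A.nz y hy)

theorem na_inv (A : Ax Q K a b) : ¬ Np a b a⁻¹ := fun h => A.a1 (A.anti a A.na h)

theorem npow (A : Ax Q K a b) {x : K} (hx : Np a b x) (i : ℕ) : Np a b (x ^ i) := by
  induction i with
  | zero => simpa using A.one
  | succ i ih => rw [pow_succ]; exact A.mul _ _ ih hx

theorem le_refl (A : Ax Q K a b) (x : K) : Le a b x x := by
  unfold Le; simpa using A.one

theorem le_trans (A : Ax Q K a b) {x y z : K} (h : Le a b x y) (h' : Le a b y z) :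
    Le a b x z := by
  have := A.mul _ _ h h'
  unfold Le
  convert this using 1
  group

theorem s_fun (A : Ax Q K a b) {p q q' : K} (h : Sp a b p q) (h' : Sp a b p q') : q = q' := by
  obtain ⟨-, u, ⟨hu, hu'⟩, rfl⟩ := h
  obtain ⟨-, v, ⟨hv, hv'⟩, rfl⟩ := h'
  rw [A.dinj u v hu hv (hu'.trans hv'.symm)]

theorem w_fun (A : Ax Q K a b) {p q q' : K} (h : Wp a b p q) (h' : Wp a b p q') : q = q' := by
  obtain ⟨-, u, ⟨hu, hu'⟩, rfl⟩ := h
  obtain ⟨-, v, ⟨hv, hv'⟩, rfl⟩ := h'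
  rw [A.dinj u v hu hv (hu'.trans hv'.symm)]

theorem s_pow (A : Ax Q K a b) (i : ℕ) : Sp a b (a ^ i) (a ^ (i ^ 2)) := by
  induction i with
  | zero => simpa using A.s1
  | succ i ih =>
    have := (A.ss _ _ ih).2
    rw [← pow_succ, ← pow_mul, ← pow_add, ← pow_succ] at this
    convert this using 2
    ring

theorem w_pow (A : Ax Q K a b) (i : ℕ) : Wp a b (a ^ i) (wd a b i) := by
  induction i using wd_ind with
  | h0 => simpa [wd_zero] using A.w1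
  | h k c hc ih =>
    obtain ⟨w1, w2, w3, w4⟩ := A.ws _ _ ih
    rw [← pow_mul, ← pow_succ, mul_comm k] at w1
    rw [← pow_mul, ← pow_add, mul_comm k] at w2 w3 w4
    have : c = 0 ∨ c = 1 ∨ c = 2 ∨ c = 3 := by omega
    rcases this with rfl | rfl | rfl | rfl
    · rw [add_zero, wd_a]; exact w1
    · rw [add_assoc, wd_a']; exact w2
    · rw [add_assoc, wd_b]; exact w3
    · rw [add_assoc, wd_b']; exact w4

theorem np_of_le (A : Ax Q K a b) {x y : K} (hx : Np a b x) (h : Le a b x y) : Np a b y := by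
  have := A.mul _ _ hx h
  simpa using this

theorem le_mul_right (A : Ax Q K a b) {x y : K} (hy : Np a b y) : Le a b x (x * y) := by
  unfold Le; simpa using hy

theorem le_mul_left (A : Ax Q K a b) {x y : K} (hx : Np a b x) (hy : Np a b y) :
    Le a b x (y * x) := by
  rw [A.ncomm hy hx]; exact A.le_mul_right hy

/-- the upper bound `M` -/
theorem exists_bound (A : Ax Q K a b) {ν : K} (hν : Np a b ν) (hlt : ∀ i : ℕ, Le a b (a ^ i) ν)
    (T : Set K) (hT : T.Finite) :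
    ∃ m, Np a b m ∧ (∀ i : ℕ, Le a b (a ^ i) m) ∧ ∀ c ∈ T, Bp a b m c := by
  induction T, hT using Set.Finite.induction_on with
  | empty => exact ⟨ν, hν, hlt, by simp⟩
  | @insert c T hc hT ih =>
    obtain ⟨m, hm, hm', hmT⟩ := ih
    obtain ⟨p, hp⟩ := A.wsurj c
    have hpN : Np a b p := hp.1
    refine ⟨m * p, A.mul _ _ hm hpN, fun i => A.le_trans (hm' i) (A.le_mul_right hpN), ?_⟩
    intro d hd
    rcases hd with rfl | hd
    · exact ⟨p, A.le_mul_left hpN hm, hp⟩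
    · obtain ⟨q, hq, hq'⟩ := hmT d hd
      exact ⟨q, A.le_trans hq (A.le_mul_right hpN), hq'⟩

theorem standard (A : Ax Q K a b) (hfg : Group.FG K) (p : K) (hp : Np a b p) :
    ∃ i : ℕ, p = a ^ i := by
  by_contra hcon
  push Not at hcon
  -- `p` is an infinite element
  have hlt : ∀ i : ℕ, Le a b (a ^ i) p := by
    intro i
    induction i with
    | zero => unfold Le; simpa using hp
    | succ i ih =>
      have h1 : ¬ (a ^ i)⁻¹ * p = 1 := by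
        intro h
        exact hcon i (by rw [inv_mul_eq_one] at h; exact h.symm)
      have h2 := A.pred _ ih h1
      unfold Le
      convert h2 using 1
      rw [pow_succ, mul_inv_rev]
      have h3 : a⁻¹ * (a ^ i)⁻¹ = (a ^ i)⁻¹ * a⁻¹ := by group
      have h4 : a⁻¹ * p = p * a⁻¹ := by
        have := A.ncomm hp A.na
        have h5 : a⁻¹ * (p * a) * a⁻¹ = a⁻¹ * (a * p) * a⁻¹ := by rw [this]
        simpa [mul_assoc] using h5
      rw [h3, mul_assoc, h4, mul_assoc]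
  -- generators
  obtain ⟨T, hT⟩ := hfg.out
  obtain ⟨m, hm, hm', hmT⟩ := A.exists_bound hp hlt ((T : Set K) ∪ (T : Set K)⁻¹)
    (T.finite_toSet.union T.finite_toSet.inv)
  -- the sequence of bounds
  have hnext : ∀ x : {x // Np a b x}, ∃ y : {x // Np a b x}, Sp a b (x.1 ^ 2 * a) y.1 := by
    rintro ⟨x, hx⟩
    obtain ⟨q, hq⟩ := A.sex _ (A.mul _ _ (A.npow hx 2) A.na)
    exact ⟨⟨q, (A.ss _ _ hq).1⟩, hq⟩
  choose nx hnx using hnext
  let M : ℕ → {x // Np a b x} := fun k => nx^[k] ⟨m, hm⟩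
  have hM0 : (M 0).1 = m := rfl
  have hMS : ∀ k, Sp a b ((M k).1 ^ 2 * a) (M (k + 1)).1 := by
    intro k
    have : M (k + 1) = nx (M k) := Function.iterate_succ_apply' nx k _
    rw [this]
    exact hnx _
  have hone : ∀ k, Bp a b (M k).1 1 := by
    intro k
    refine ⟨1, ?_, A.w1⟩
    unfold Le; simpa using (M k).2
  have hstep : ∀ k h, Bp a b (M k).1 h → Bp a b (M (k + 1)).1 h := by
    intro k h hh
    have := A.bmul _ _ _ _ (M k).2 hh (hone k) (hMS k)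
    rwa [mul_one] at this
  have hmono : ∀ k l h, Bp a b (M k).1 h → Bp a b (M (k + l)).1 h := by
    intro k l h hh
    induction l with
    | zero => exact hh
    | succ l ih => exact hstep _ _ ih
  let B : Submonoid K :=
    { carrier := {h | ∃ k, Bp a b (M k).1 h}
      one_mem' := ⟨0, hone 0⟩
      mul_mem' := by
        rintro x y ⟨k, hk⟩ ⟨l, hl⟩
        refine ⟨k + l + 1, A.bmul _ _ _ _ (M (k + l)).2 (hmono _ _ _ hk) ?_ (hMS _)⟩
        rw [add_comm k l]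
        exact hmono _ _ _ hl }
  have hB : ∀ h, ∃ k, Bp a b (M k).1 h := by
    intro h
    have h1 : h ∈ Submonoid.closure ((T : Set K) ∪ (T : Set K)⁻¹) := by
      rw [← Subgroup.closure_toSubmonoid, hT]; trivial
    have h2 : Submonoid.closure ((T : Set K) ∪ (T : Set K)⁻¹) ≤ B := by
      rw [Submonoid.closure_le]
      intro c hc
      exact ⟨0, hmT c hc⟩
    exact h2 h1
  -- the comparison sequence
  have hv : ∀ k : ℕ, ∃ u, Dp a b u ∧ fw b u = m * a ^ k := fun k => A.mul _ _ hm (A.npow A.na k)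
  choose v hvD hvf using hv
  have hMv : ∀ k, Le a b (M k).1 (v k) := by
    intro k
    induction k with
    | zero =>
      have := (A.dn _ (hvD 0)).2
      rw [hvf] at this
      simpa [hM0] using this
    | succ k ih =>
      have hvN := (A.dn _ (hvD k)).1
      obtain ⟨q, hq⟩ := A.sex _ (A.mul _ _ (A.npow hvN 2) A.na)
      have h1 : Le a b ((M k).1 ^ 2 * a) (v k ^ 2 * a) := by
        have h2 : Np a b (((M k).1⁻¹ * v k) ^ 2) := A.npow ih 2
        unfold Le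
        convert h2 using 1
        have c1 : Commute (M k).1 (v k) := A.ncomm (M k).2 hvN
        have c2 : Commute (M k).1 a := A.ncomm (M k).2 A.na
        have c3 : Commute (v k) a := A.ncomm hvN A.na
        rw [(c1.inv_left).mul_pow, mul_inv_rev, inv_pow]
        have c4 : Commute (((M k).1 ^ 2)⁻¹ * v k ^ 2) a :=
          ((c2.pow_left 2).inv_left).mul_left (c3.pow_left 2)
        calc a⁻¹ * ((M k).1 ^ 2)⁻¹ * (v k ^ 2 * a)
            = a⁻¹ * ((((M k).1 ^ 2)⁻¹ * v k ^ 2) * a) := by simp only [mul_assoc]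
          _ = a⁻¹ * (a * (((M k).1 ^ 2)⁻¹ * v k ^ 2)) := by rw [c4.eq]
          _ = _ := by simp
      have h3 := A.smono _ _ _ _ (hMS k) hq h1
      have h4 := A.grow (v k) (v (k + 1)) q (hvD k) (hvD (k + 1))
        (by rw [hvf, hvf, pow_succ, mul_assoc]) hq
      exact A.le_trans h3 h4
  obtain ⟨R, hRD, hRf⟩ : ∃ u, Dp a b u ∧ fw b u = m * m := A.mul _ _ hm hm
  have hvR : ∀ k, Le a b (v k) R := by
    intro k
    refine A.dmono _ _ (hvD k) hRD ?_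
    rw [hvf, hRf]
    have := hm' k
    unfold Le at this ⊢
    convert this using 1
    group
  have hRN : Np a b R := (A.dn _ hRD).1
  obtain ⟨k, p', hp', hw⟩ := hB (R * a)
  have h1 : Le a b p' R := A.le_trans hp' (A.le_trans (hMv k) (hvR k))
  have h2 : Le a b (R * a) p' := A.wlen _ _ hw (A.mul _ _ hRN A.na)
  have h3 := A.le_trans h2 h1
  apply A.na_inv
  unfold Le at h3
  convert h3 using 1
  group

theorem facts (A : Ax Q K a b) (hfg : Group.FG K) :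
    (∀ k : ℤ, a ^ k = 1 → k = 0) ∧ (∀ z, Zp a z ↔ ∃ k : ℤ, z = a ^ k) ∧
    (∀ p, Np a b p ↔ ∃ i : ℕ, p = a ^ i) ∧
    (∀ p q, Sp a b p q ↔ ∃ i : ℕ, p = a ^ i ∧ q = a ^ (i ^ 2)) ∧
    (∀ p q, Wp a b p q ↔ ∃ i : ℕ, p = a ^ i ∧ q = wd a b i) := by
  have hN : ∀ p, Np a b p ↔ ∃ i : ℕ, p = a ^ i := by
    intro p
    refine ⟨A.standard hfg p, ?_⟩
    rintro ⟨i, rfl⟩
    exact A.npow A.na i
  have hpos : ∀ k : ℕ, a ^ (k + 1) ≠ 1 := by
    intro k hk
    apply A.na_inv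
    have : a⁻¹ = a ^ k := by
      rw [inv_eq_iff_mul_eq_one, ← pow_succ']; exact hk
    rw [this]
    exact A.npow A.na k
  refine ⟨?_, ?_, hN, ?_, ?_⟩
  · intro k hk
    obtain ⟨i, rfl | rfl⟩ := Int.eq_nat_or_neg k
    · rcases i with _ | i
      · rfl
      · exact absurd (by exact_mod_cast hk) (hpos i)
    · rcases i with _ | i
      · rfl
      · rw [zpow_neg, inv_eq_one] at hk
        exact absurd (by exact_mod_cast hk) (hpos i)
  · intro z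
    constructor
    · intro h
      rcases A.tot z h with h | h
      · obtain ⟨i, rfl⟩ := (hN _).1 h
        exact ⟨i, by simp⟩
      · obtain ⟨i, hi⟩ := (hN _).1 h
        exact ⟨-i, by rw [zpow_neg, zpow_natCast, ← hi, inv_inv]⟩
    · rintro ⟨k, rfl⟩
      exact (Commute.refl a).zpow_left k
  · intro p q
    constructor
    · intro h
      obtain ⟨i, rfl⟩ := (hN _).1 h.1
      exact ⟨i, rfl, A.s_fun h (A.s_pow i)⟩
    · rintro ⟨i, rfl, rfl⟩
      exact A.s_pow i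
  · intro p q
    constructor
    · intro h
      obtain ⟨i, rfl⟩ := (hN _).1 h.1
      exact ⟨i, rfl, A.w_fun h (A.w_pow i)⟩
    · rintro ⟨i, rfl, rfl⟩
      exact A.w_pow i

end Ax

end Crit

open Crit in
theorem qfa_of {G : Type} [Group G] (a b : G) (n : ℕ → ℕ)
    (hgen : Subgroup.closure {a, b} = ⊤)
    (h1 : ∀ j, fw b (a ^ n j) = a ^ j) (h2 : ∀ j, gw b (a ^ n j) = tgt a b j)
    (hinj : ∀ k : ℤ, a ^ k = 1 → k = 0) (hcent : ∀ g, g * a = a * g → g ∈ Subgroup.zpowers a)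
    (hD : ∀ m : ℤ, fw b (a ^ m) ∈ Subgroup.zpowers a → ∃ j, m = n j)
    (hlen : ∀ (i : ℕ) (t : ℤ), wd a b i = a ^ t → t ≤ i)
    (hgrow : ∀ j, (2 * n j + 1) ^ 2 ≤ n (j + 1)) (hn0 : ∀ j, j ≤ n j)
    (hre : REPred fun i : ℕ => wd a b i = 1) : QFA G := by
  obtain ⟨Q, hQ, hQ'⟩ := re_udef {i | wd a b i = 1} hre
    (fun G _ v => Np (v 0) (v 1) (v 2)) (udN (UTerm.var 0) (UTerm.var 1) (UTerm.var 2))
    (fun G _ v => Mp (v 0) (v 1) (v 2) (v 3) (v 4))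
    (udM (UTerm.var 0) (UTerm.var 1) (UTerm.var 2) (UTerm.var 3) (UTerm.var 4))
  have hax := udAx Q hQ
  have hs1 : UDef (α := Empty) fun G _ _ => ∃ ab : Fin 2 → G, ∀ x : Fin 4 → G,
      AxBody Q G (ab 0) (ab 1) x :=
    UDef.exs (R := fun G _ _ ab => ∀ x : Fin 4 → G, AxBody Q G (ab 0) (ab 1) x)
      (UDef.alls (R := fun G _ v x => AxBody Q G (v (Sum.inr 0)) (v (Sum.inr 1)) x) hax)
  obtain ⟨σ, hσ⟩ := UDef.sentence hs1
  -- `G` satisfies the axioms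
  obtain ⟨gZ, -, gN, gS, gW⟩ := g_facts h1 h2 hinj hcent hD
  have hQG : ∀ i : ℕ, Q G ![a, b, a ^ i] ↔ wd a b i = 1 := by
    intro i
    exact hQ' G a b hinj gN (mp_std hinj gN gS gZ) i
  refine ⟨σ, (hσ G).2 ⟨![a, b], fun x => ax_G hgen h1 h2 hinj hcent hD hlen hgrow hn0 Q hQG x⟩, ?_⟩
  intro H _ hfg hH
  obtain ⟨ab, hab⟩ := (hσ H).1 hH
  set a' := ab 0
  set b' := ab 1
  have A : Ax Q H a' b' := Ax.of hab
  obtain ⟨hinj', hZ', hN', hS', hW'⟩ := A.facts hfg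
  have hwd : ∀ i, wd a' b' i = 1 ↔ wd a b i = 1 := by
    intro i
    have e1 := A.wq _ ((hN' _).2 ⟨i, rfl⟩)
    have e2 := hQ' H a' b' hinj' hN' (mp_std hinj' hN' hS' hZ') i
    rw [e2, hW'] at e1
    constructor
    · intro h
      exact e1.1 ⟨i, rfl, h.symm⟩
    · intro h
      obtain ⟨j, hj, hj'⟩ := e1.2 h
      rw [npow_inj_of hinj' hj, ← hj']
  let φ : F2 →* G := FreeGroup.lift ![a, b]
  let ψ : F2 →* H := FreeGroup.lift ![a', b']
  have hφ : ∀ i, φ (wd gx gy i) = wd a b i := by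
    intro i
    rw [map_wd]
    congr 1 <;> simp [φ, gx, gy]
  have hψ : ∀ i, ψ (wd gx gy i) = wd a' b' i := by
    intro i
    rw [map_wd]
    congr 1 <;> simp [ψ, gx, gy]
  have hF : Subgroup.closure ({gx, gy} : Set F2) = ⊤ := by
    have : ({gx, gy} : Set F2) = Set.range (FreeGroup.of : Fin 2 → F2) := by
      ext x
      simp [gx, gy, Fin.exists_fin_two, eq_comm]
    rw [this, FreeGroup.closure_range_of]
  have hφs : Function.Surjective φ := by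
    intro g
    obtain ⟨i, hi⟩ := wd_surj a b hgen g
    exact ⟨wd gx gy i, by rw [hφ, hi]⟩
  have hψs : Function.Surjective ψ := by
    intro g
    obtain ⟨p, hp⟩ := A.wsurj g
    obtain ⟨i, -, hi⟩ := (hW' _ _).1 hp
    exact ⟨wd gx gy i, by rw [hψ, hi]⟩
  have hker : ψ.ker = φ.ker := by
    ext w
    obtain ⟨i, rfl⟩ := wd_surj gx gy hF w
    rw [MonoidHom.mem_ker, MonoidHom.mem_ker, hφ, hψ]
    exact hwd i
  exact ⟨((QuotientGroup.quotientKerEquivOfSurjective ψ hψs).symm.trans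
    (QuotientGroup.quotientMulEquivOfEq hker)).trans
    (QuotientGroup.quotientKerEquivOfSurjective φ hφs)⟩

end Pool.Agent.LibSCQ
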