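import Mathlib

/-!
Definitions used in the statement: the language of groups, QFA groups, asymptotic cones, real
trees, lacunary hyperbolic groups.
-/

set_option autoImplicit false

namespace Pool.Agent.LibSCQ

open Filter Topology

/-- The function symbols of the language of groups. -/
inductive GrpFn : ℕ → Type
  | one : GrpFn 0
  | inv : GrpFn 1
  | mul : GrpFn 2

/-- The language of groups: the identity, inversion and multiplication. -/
def LGrp : FirstOrder.Language := ⟨GrpFn, fun _ => Empty⟩

/-- A group as a structure in the language of groups. -/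
instance grpStr (G : Type) [Group G] : LGrp.Structure G where
  funMap := fun {n} f x => match n, f with
    | 0, GrpFn.one => 1
    | 1, GrpFn.inv => (x 0)⁻¹
    | 2, GrpFn.mul => x 0 * x 1
  RelMap := fun r _ => r.elim

/-- `G` is quasi-finitely-axiomatizable: some sentence `σ` in the language of groups holds in `G`
and every finitely generated group in which `σ` holds is isomorphic to `G`. -/
def QFA (G : Type) [Group G] : Prop :=
  ∃ σ : LGrp.Sentence, G ⊨ σ ∧
    ∀ (H : Type) [Group H], Group.FG H → H ⊨ σ → Nonempty (H ≃* G)

/-- The length of a shortest word in the elements of `S` and their inverses that represents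
`g`. -/
noncomputable def wordLen {G : Type} [Group G] (S : Set G) (g : G) : ℕ :=
  sInf {n | ∃ l : List G, l.length = n ∧ (∀ x ∈ l, x ∈ S ∨ x⁻¹ ∈ S) ∧ l.prod = g}

/-- `X` is the asymptotic cone of `G` with the word metric of `S`, for the ultrafilter `ω` and the
scaling sequence `s`: its points are the sequences `x` in `G` for which `|x n| / s n` is bounded,
and the distance of the points given by `x` and `y` is the limit along `ω` of
`|(x n)⁻¹ (y n)| / s n`. -/
def IsCone {G : Type} [Group G] (S : Set G) (ω : Ultrafilter ℕ) (s : ℕ → ℝ)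
    (X : Type) [MetricSpace X] : Prop :=
  ∃ π : {x : ℕ → G // ∃ C : ℝ, ∀ᶠ n in (ω : Filter ℕ), (wordLen S (x n) : ℝ) ≤ C * s n} → X,
    Function.Surjective π ∧
      ∀ x y, Tendsto (fun n => (wordLen S ((x.1 n)⁻¹ * y.1 n) : ℝ) / s n) ω
        (𝓝 (dist (π x) (π y)))

/-- `X` is a real tree: any two points are joined by a geodesic segment, and this segment is the
image of every injective path between the two points. -/
def IsRTree (X : Type) [MetricSpace X] : Prop :=
  ∀ x y : X, ∃ f : ℝ → X, f 0 = x ∧ f (dist x y) = y ∧
    (∀ s ∈ Set.Icc 0 (dist x y), ∀ t ∈ Set.Icc 0 (dist x y), dist (f s) (f t) = |s - t|) ∧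
    ∀ γ : ℝ → X, ContinuousOn γ (Set.Icc 0 1) → Set.InjOn γ (Set.Icc 0 1) → γ 0 = x → γ 1 = y →
      γ '' Set.Icc 0 1 = f '' Set.Icc 0 (dist x y)

/-- `G` is lacunary hyperbolic: it is generated by a finite set `S` and for some non-principal
ultrafilter and some scaling sequence tending to infinity its asymptotic cone with respect to the
word metric of `S` is a real tree. -/
def LacunaryHyperbolic (G : Type) [Group G] : Prop :=
  ∃ S : Finset G, Subgroup.closure (S : Set G) = ⊤ ∧
    ∃ (ω : Ultrafilter ℕ) (s : ℕ → ℝ), (ω : Filter ℕ) ≤ cofinite ∧ Tendsto s atTop atTop ∧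
      ∃ (X : Type) (_ : MetricSpace X), IsCone (S : Set G) ω s X ∧ IsRTree X

end Pool.Agent.LibSCQ
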