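import Pool.Agent.LibSCQ.Base
import Pool.Agent.LibSCQ.Defs

/-!
TASK 13a. Predicates on tuples of elements that are definable by one first-order formula in all
groups; closure properties.
-/

set_option autoImplicit false

namespace Pool.Agent.LibSCQ

/-- The predicate `P` is defined in all groups by one formula. -/
def UDef {α : Type} (P : ∀ (G : Type) [Group G], (α → G) → Prop) : Prop :=
  ∃ φ : LGrp.Formula α, ∀ (G : Type) [Group G] (v : α → G), φ.Realize v ↔ P G v

/-- The function `f` is given in all groups by one term. -/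
def UTerm {α : Type} (f : ∀ (G : Type) [Group G], (α → G) → G) : Prop :=
  ∃ t : LGrp.Term α, ∀ (G : Type) [Group G] (v : α → G), t.realize v = f G v

variable {α : Type} {P Q : ∀ (G : Type) [Group G], (α → G) → Prop}
  {f g : ∀ (G : Type) [Group G], (α → G) → G}

theorem UTerm.var (i : α) : UTerm fun G _ (v : α → G) => v i := by
  exact ⟨FirstOrder.Language.Term.var i, fun G _ v => rfl⟩

theorem UTerm.one : UTerm fun G _ (_ : α → G) => (1 : G) := by
  refine ⟨FirstOrder.Language.Term.func (L := LGrp) (l := 0) GrpFn.one Fin.elim0, fun G _ v => ?_⟩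
  rfl

theorem UTerm.mul (hf : UTerm f) (hg : UTerm g) : UTerm fun G _ (v : α → G) => f G v * g G v := by
  obtain ⟨s, hs⟩ := hf
  obtain ⟨t, ht⟩ := hg
  refine ⟨FirstOrder.Language.Term.func (L := LGrp) (l := 2) GrpFn.mul ![s, t], fun G _ v => ?_⟩
  change FirstOrder.Language.Term.realize v s * FirstOrder.Language.Term.realize v t = f G v * g G v
  rw [← hs G v, ← ht G v]

theorem UTerm.inv (hf : UTerm f) : UTerm fun G _ (v : α → G) => (f G v)⁻¹ := by
  obtain ⟨s, hs⟩ := hf
  refine ⟨FirstOrder.Language.Term.func (L := LGrp) (l := 1) GrpFn.inv ![s], fun G _ v => ?_⟩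
  change (FirstOrder.Language.Term.realize v s)⁻¹ = (f G v)⁻¹
  rw [← hs G v]

theorem UTerm.pow (hf : UTerm f) (n : ℕ) : UTerm fun G _ (v : α → G) => f G v ^ n := by
  induction n with
  | zero =>
    obtain ⟨t, ht⟩ := UTerm.one (α := α)
    exact ⟨t, fun G _ v => (ht G v).trans (pow_zero _).symm⟩
  | succ n ih =>
    obtain ⟨t, ht⟩ := UTerm.mul ih hf
    exact ⟨t, fun G _ v => (ht G v).trans (pow_succ _ _).symm⟩

theorem UTerm.prodMap {F : ℕ → ∀ (G : Type) [Group G], (α → G) → G} (hF : ∀ k, UTerm (F k))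
    (l : List ℕ) : UTerm fun G _ (v : α → G) => (l.map fun k => F k G v).prod := by
  induction l with
  | nil =>
    obtain ⟨t, ht⟩ := UTerm.one (α := α)
    exact ⟨t, fun G _ v => (ht G v).trans rfl⟩
  | cons k l ih =>
    obtain ⟨t, ht⟩ := UTerm.mul (hF k) ih
    exact ⟨t, fun G _ v => (ht G v).trans (List.prod_cons).symm⟩

theorem UTerm.fw (hf : UTerm f) (hg : UTerm g) :
    UTerm fun G _ (v : α → G) => Pool.Agent.LibSCQ.fw (f G v) (g G v) := by
  simp only [Pool.Agent.LibSCQ.fw]
  exact UTerm.prodMap (fun k => UTerm.mul (UTerm.pow hf (k + 1)) hg) (List.range 1000)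

theorem UTerm.gw (hf : UTerm f) (hg : UTerm g) :
    UTerm fun G _ (v : α → G) => Pool.Agent.LibSCQ.gw (f G v) (g G v) := by
  simp only [Pool.Agent.LibSCQ.gw]
  exact UTerm.prodMap (fun k => UTerm.mul (UTerm.pow hf (k + 1001)) hg) (List.range 1000)

theorem UDef.eq (hf : UTerm f) (hg : UTerm g) : UDef fun G _ (v : α → G) => f G v = g G v := by
  obtain ⟨s, hs⟩ := hf
  obtain ⟨t, ht⟩ := hg
  refine ⟨s.equal t, fun G _ v => ?_⟩
  rw [FirstOrder.Language.Formula.realize_equal, hs, ht]

theorem UDef.and (hP : UDef P) (hQ : UDef Q) : UDef fun G _ (v : α → G) => P G v ∧ Q G v := by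
  obtain ⟨φ, hφ⟩ := hP
  obtain ⟨ψ, hψ⟩ := hQ
  refine ⟨φ ⊓ ψ, fun G _ v => ?_⟩
  rw [FirstOrder.Language.Formula.realize_inf, hφ, hψ]

theorem UDef.or (hP : UDef P) (hQ : UDef Q) : UDef fun G _ (v : α → G) => P G v ∨ Q G v := by
  obtain ⟨φ, hφ⟩ := hP
  obtain ⟨ψ, hψ⟩ := hQ
  refine ⟨φ ⊔ ψ, fun G _ v => ?_⟩
  rw [FirstOrder.Language.Formula.realize_sup, hφ, hψ]

theorem UDef.not (hP : UDef P) : UDef fun G _ (v : α → G) => ¬ P G v := by
  obtain ⟨φ, hφ⟩ := hP
  refine ⟨φ.not, fun G _ v => ?_⟩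
  rw [FirstOrder.Language.Formula.realize_not, hφ]

theorem UDef.imp (hP : UDef P) (hQ : UDef Q) : UDef fun G _ (v : α → G) => P G v → Q G v := by
  obtain ⟨φ, hφ⟩ := hP
  obtain ⟨ψ, hψ⟩ := hQ
  refine ⟨φ.imp ψ, fun G _ v => ?_⟩
  rw [FirstOrder.Language.Formula.realize_imp, hφ, hψ]

theorem UDef.iff (hP : UDef P) (hQ : UDef Q) : UDef fun G _ (v : α → G) => (P G v ↔ Q G v) := by
  obtain ⟨φ, hφ⟩ := hP
  obtain ⟨ψ, hψ⟩ := hQ
  refine ⟨φ.iff ψ, fun G _ v => ?_⟩
  rw [FirstOrder.Language.Formula.realize_iff, hφ, hψ]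

/-- existential quantifier over the new variable `none` -/
theorem UDef.ex {R : ∀ (G : Type) [Group G], (Option α → G) → Prop} (hR : UDef R) :
    UDef fun G _ (v : α → G) => ∃ x : G, R G fun i => Option.elim i x v := by
  obtain ⟨φ, hφ⟩ := hR
  let r : Option α → α ⊕ Unit := fun i => Option.elim i (Sum.inr ()) Sum.inl
  refine ⟨(φ.relabel r).iExs Unit, fun G _ v => ?_⟩
  rw [FirstOrder.Language.Formula.realize_iExs]
  constructor
  · rintro ⟨x, hx⟩
    rw [FirstOrder.Language.Formula.realize_relabel, hφ] at hx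
    refine ⟨x (), ?_⟩
    convert hx using 2
    rename_i i
    cases i <;> rfl
  · rintro ⟨x, hx⟩
    refine ⟨fun _ => x, ?_⟩
    rw [FirstOrder.Language.Formula.realize_relabel, hφ]
    convert hx using 2
    rename_i i
    cases i <;> rfl

/-- universal quantifier over the new variable `none` -/
theorem UDef.all {R : ∀ (G : Type) [Group G], (Option α → G) → Prop} (hR : UDef R) :
    UDef fun G _ (v : α → G) => ∀ x : G, R G fun i => Option.elim i x v := by
  obtain ⟨φ, hφ⟩ := UDef.not (UDef.ex (UDef.not hR))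
  refine ⟨φ, fun G _ v => ?_⟩
  rw [hφ]
  simp only [not_exists, not_not]

/-- substitution of terms -/
theorem UDef.subst {β : Type} {R : ∀ (G : Type) [Group G], (β → G) → Prop} (hR : UDef R)
    {s : β → ∀ (G : Type) [Group G], (α → G) → G} (hs : ∀ b, UTerm (s b)) :
    UDef fun G _ (v : α → G) => R G fun b => s b G v := by
  obtain ⟨φ, hφ⟩ := hR
  choose t ht using hs
  refine ⟨FirstOrder.Language.BoundedFormula.subst φ t, fun G _ v => ?_⟩
  refine Iff.trans ?_ (hφ G fun b => s b G v)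
  unfold FirstOrder.Language.Formula.Realize
  rw [FirstOrder.Language.BoundedFormula.realize_subst]
  simp only [ht]

/-- quantifiers for predicates with an explicit bound variable -/
theorem UDef.ex' {R : ∀ (G : Type) [Group G], (α → G) → G → Prop}
    (hR : UDef (α := Option α) fun G _ v => R G (fun i => v (some i)) (v none)) :
    UDef fun G _ (v : α → G) => ∃ x : G, R G v x := by
  exact UDef.ex hR

theorem UDef.all' {R : ∀ (G : Type) [Group G], (α → G) → G → Prop}
    (hR : UDef (α := Option α) fun G _ v => R G (fun i => v (some i)) (v none)) :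
    UDef fun G _ (v : α → G) => ∀ x : G, R G v x := by
  exact UDef.all hR

/-- finitely many existential quantifiers -/
theorem UDef.exs {β : Type} [Finite β] {R : ∀ (G : Type) [Group G], (α → G) → (β → G) → Prop}
    (hR : UDef (α := α ⊕ β) fun G _ v => R G (fun i => v (Sum.inl i)) (fun i => v (Sum.inr i))) :
    UDef fun G _ (v : α → G) => ∃ x : β → G, R G v x := by
  obtain ⟨φ, hφ⟩ := hR
  refine ⟨φ.iExs β, fun G _ v => ?_⟩
  rw [FirstOrder.Language.Formula.realize_iExs]
  simp only [hφ, Sum.elim_inl, Sum.elim_inr]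

/-- sentences -/
theorem UDef.sentence {P : ∀ (G : Type) [Group G], (Empty → G) → Prop} (hP : UDef P) :
    ∃ σ : LGrp.Sentence, ∀ (G : Type) [Group G], G ⊨ σ ↔ P G (fun e => e.elim) := by
  obtain ⟨φ, hφ⟩ := hP
  refine ⟨φ, fun G _ => ?_⟩
  rw [← hφ]
  unfold FirstOrder.Language.Sentence.Realize
  rw [show (default : Empty → G) = fun e => e.elim from funext fun e => e.elim]

end Pool.Agent.LibSCQ
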