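import Pool.Agent.LibSCQ.FO
import Pool.Agent.LibMRDP.Partrec

/-!
TASK 13b. Recursively enumerable sets are uniformly definable in groups with an interpretation of
arithmetic.
-/

set_option autoImplicit false

namespace Pool.Agent.LibSCQ

theorem UDef.congr {α : Type} {P Q : ∀ (G : Type) [Group G], (α → G) → Prop} (hP : UDef P)
    (h : ∀ (G : Type) [Group G] (v : α → G), P G v ↔ Q G v) : UDef Q := by
  obtain ⟨φ, hφ⟩ := hP
  exact ⟨φ, fun G _ v => (hφ G v).trans (h G v)⟩

theorem UDef.allFin {α β : Type} [Finite β] {R : β → ∀ (G : Type) [Group G], (α → G) → Prop}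
    (h : ∀ b, UDef (R b)) : UDef fun G _ (v : α → G) => ∀ b, R b G v := by
  choose φ hφ using h
  refine ⟨FirstOrder.Language.Formula.iInf φ, fun G _ v => ?_⟩
  rw [FirstOrder.Language.Formula.realize_iInf]
  exact forall_congr' fun b => hφ b G v

theorem UTerm.zpow {α : Type} {f : ∀ (G : Type) [Group G], (α → G) → G} (hf : UTerm f) (n : ℤ) :
    UTerm fun G _ (v : α → G) => f G v ^ n := by
  obtain ⟨m, rfl | rfl⟩ := n.eq_nat_or_neg
  · simp only [zpow_natCast]
    exact hf.pow m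
  · simp only [zpow_neg, zpow_natCast]
    exact (hf.pow m).inv

/-- predicates of five arguments -/
theorem UDef.app5 {α : Type} {M : ∀ (G : Type) [Group G], (Fin 5 → G) → Prop} (hM : UDef M)
    {f0 f1 f2 f3 f4 : ∀ (G : Type) [Group G], (α → G) → G} (h0 : UTerm f0) (h1 : UTerm f1)
    (h2 : UTerm f2) (h3 : UTerm f3) (h4 : UTerm f4) :
    UDef fun G _ (v : α → G) => M G ![f0 G v, f1 G v, f2 G v, f3 G v, f4 G v] := by
  have h := hM.subst (s := fun b : Fin 5 => match b with
    | 0 => f0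
    | 1 => f1
    | 2 => f2
    | 3 => f3
    | 4 => f4) (fun b => by fin_cases b <;> assumption)
  refine h.congr fun G _ v => ?_
  have : (fun b : Fin 5 => (match b with
    | 0 => f0
    | 1 => f1
    | 2 => f2
    | 3 => f3
    | 4 => f4 : ∀ (G : Type) [Group G], (α → G) → G) G v) =
      ![f0 G v, f1 G v, f2 G v, f3 G v, f4 G v] := by
    funext b
    fin_cases b <;> rfl
  rw [this]

/-- predicates of three arguments -/
theorem UDef.app3 {α : Type} {M : ∀ (G : Type) [Group G], (Fin 3 → G) → Prop} (hM : UDef M)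
    {f0 f1 f2 : ∀ (G : Type) [Group G], (α → G) → G} (h0 : UTerm f0) (h1 : UTerm f1)
    (h2 : UTerm f2) :
    UDef fun G _ (v : α → G) => M G ![f0 G v, f1 G v, f2 G v] := by
  have h := hM.subst (s := fun b : Fin 3 => match b with
    | 0 => f0
    | 1 => f1
    | 2 => f2) (fun b => by fin_cases b <;> assumption)
  refine h.congr fun G _ v => ?_
  have : (fun b : Fin 3 => (match b with
    | 0 => f0
    | 1 => f1
    | 2 => f2 : ∀ (G : Type) [Group G], (α → G) → G) G v) =
      ![f0 G v, f1 G v, f2 G v] := by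
    funext b
    fin_cases b <;> rfl
  rw [this]

/-- substitution in a predicate with three distinguished variables -/
theorem UDef.appP {α γ : Type} {M : ∀ (G : Type) [Group G], (Fin 3 ⊕ γ → G) → Prop} (hM : UDef M)
    {f0 f1 f2 : ∀ (G : Type) [Group G], (α → G) → G}
    {e : γ → ∀ (G : Type) [Group G], (α → G) → G} (h0 : UTerm f0) (h1 : UTerm f1)
    (h2 : UTerm f2) (he : ∀ c, UTerm (e c)) :
    UDef fun G _ (v : α → G) => M G (Sum.elim ![f0 G v, f1 G v, f2 G v] fun c => e c G v) := by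
  have h := hM.subst (s := fun b : Fin 3 ⊕ γ => match b with
    | Sum.inl 0 => f0
    | Sum.inl 1 => f1
    | Sum.inl 2 => f2
    | Sum.inr c => e c) (fun b => by
      rcases b with b | c
      · fin_cases b <;> assumption
      · exact he c)
  refine h.congr fun G _ v => ?_
  have : (fun b : Fin 3 ⊕ γ => (match b with
    | Sum.inl 0 => f0
    | Sum.inl 1 => f1
    | Sum.inl 2 => f2
    | Sum.inr c => e c : ∀ (G : Type) [Group G], (α → G) → G) G v) =
      Sum.elim ![f0 G v, f1 G v, f2 G v] fun c => e c G v := by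
    funext b
    rcases b with b | c
    · fin_cases b <;> rfl
    · rfl
  rw [this]

/-- The graph of an integer polynomial is uniformly definable. The variables are `a`, `b`, the
value `z`, and the arguments. -/
theorem poly_udef (Mp : ∀ (G : Type) [Group G], (Fin 5 → G) → Prop) (hM : UDef Mp) {γ : Type}
    (f : (γ → ℕ) → ℤ) (hf : IsPoly f) :
    ∃ P : ∀ (G : Type) [Group G], (Fin 3 ⊕ γ → G) → Prop, UDef P ∧
      ∀ (G : Type) [Group G] (a b : G),
        (∀ (i j : ℤ) (z : G), Mp G ![a, b, a ^ i, a ^ j, z] ↔ z = a ^ (i * j)) →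
        ∀ (z : G) (x : γ → ℕ), P G (Sum.elim ![a, b, z] fun c => a ^ x c) ↔ z = a ^ (f x) := by
  induction hf with
  | proj i =>
    refine ⟨fun G _ v => v (Sum.inl 2) = v (Sum.inr i),
      UDef.eq (UTerm.var _) (UTerm.var _), fun G _ a b _ z x => ?_⟩
    simp
  | const n =>
    refine ⟨fun G _ v => v (Sum.inl 2) = v (Sum.inl 0) ^ n,
      UDef.eq (UTerm.var _) ((UTerm.var _).zpow n), fun G _ a b _ z x => ?_⟩
    simp
  | @sub f g _ _ ihf ihg =>
    obtain ⟨P, hP, hP2⟩ := ihf
    obtain ⟨Q, hQ, hQ2⟩ := ihg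
    refine ⟨fun G _ v => ∃ z1 z2 : G,
      P G (Sum.elim ![v (Sum.inl 0), v (Sum.inl 1), z1] fun c => v (Sum.inr c)) ∧
      Q G (Sum.elim ![v (Sum.inl 0), v (Sum.inl 1), z2] fun c => v (Sum.inr c)) ∧
      v (Sum.inl 2) = z1 * z2⁻¹, ?_, fun G _ a b hMp z x => ?_⟩
    · refine UDef.ex' (R := fun G _ v z1 => ∃ z2 : G,
        P G (Sum.elim ![v (Sum.inl 0), v (Sum.inl 1), z1] fun c => v (Sum.inr c)) ∧
        Q G (Sum.elim ![v (Sum.inl 0), v (Sum.inl 1), z2] fun c => v (Sum.inr c)) ∧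
        v (Sum.inl 2) = z1 * z2⁻¹) ?_
      refine UDef.ex' (R := fun G _ v z2 =>
        P G (Sum.elim ![v (some (Sum.inl 0)), v (some (Sum.inl 1)), v none]
          fun c => v (some (Sum.inr c))) ∧
        Q G (Sum.elim ![v (some (Sum.inl 0)), v (some (Sum.inl 1)), z2]
          fun c => v (some (Sum.inr c))) ∧
        v (some (Sum.inl 2)) = v none * z2⁻¹) ?_
      refine (UDef.appP hP (UTerm.var _) (UTerm.var _) (UTerm.var _) fun c => UTerm.var _).and
        ((UDef.appP hQ (UTerm.var _) (UTerm.var _) (UTerm.var _) fun c => UTerm.var _).and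
          (UDef.eq (UTerm.var _) ((UTerm.var _).mul (UTerm.var _).inv)))
    · simp only [Sum.elim_inl, Sum.elim_inr]
      constructor
      · rintro ⟨z1, z2, h1, h2, h3⟩
        have e1 := (hP2 G a b hMp z1 x).1 h1
        have e2 := (hQ2 G a b hMp z2 x).1 h2
        have e3 : z = z1 * z2⁻¹ := h3
        rw [e3, e1, e2, zpow_sub]
      · rintro rfl
        refine ⟨a ^ f x, a ^ g x, (hP2 G a b hMp _ x).2 rfl, (hQ2 G a b hMp _ x).2 rfl, ?_⟩
        show a ^ (f x - g x) = _
        rw [zpow_sub]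
  | @mul f g _ _ ihf ihg =>
    obtain ⟨P, hP, hP2⟩ := ihf
    obtain ⟨Q, hQ, hQ2⟩ := ihg
    refine ⟨fun G _ v => ∃ z1 z2 : G,
      P G (Sum.elim ![v (Sum.inl 0), v (Sum.inl 1), z1] fun c => v (Sum.inr c)) ∧
      Q G (Sum.elim ![v (Sum.inl 0), v (Sum.inl 1), z2] fun c => v (Sum.inr c)) ∧
      Mp G ![v (Sum.inl 0), v (Sum.inl 1), z1, z2, v (Sum.inl 2)], ?_,
      fun G _ a b hMp z x => ?_⟩
    · refine UDef.ex' (R := fun G _ v z1 => ∃ z2 : G,
        P G (Sum.elim ![v (Sum.inl 0), v (Sum.inl 1), z1] fun c => v (Sum.inr c)) ∧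
        Q G (Sum.elim ![v (Sum.inl 0), v (Sum.inl 1), z2] fun c => v (Sum.inr c)) ∧
        Mp G ![v (Sum.inl 0), v (Sum.inl 1), z1, z2, v (Sum.inl 2)]) ?_
      refine UDef.ex' (R := fun G _ v z2 =>
        P G (Sum.elim ![v (some (Sum.inl 0)), v (some (Sum.inl 1)), v none]
          fun c => v (some (Sum.inr c))) ∧
        Q G (Sum.elim ![v (some (Sum.inl 0)), v (some (Sum.inl 1)), z2]
          fun c => v (some (Sum.inr c))) ∧
        Mp G ![v (some (Sum.inl 0)), v (some (Sum.inl 1)), v none, z2, v (some (Sum.inl 2))]) ?_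
      refine (UDef.appP hP (UTerm.var _) (UTerm.var _) (UTerm.var _) fun c => UTerm.var _).and
        ((UDef.appP hQ (UTerm.var _) (UTerm.var _) (UTerm.var _) fun c => UTerm.var _).and
          (UDef.app5 hM (UTerm.var _) (UTerm.var _) (UTerm.var _) (UTerm.var _) (UTerm.var _)))
    · simp only [Sum.elim_inl, Sum.elim_inr]
      constructor
      · rintro ⟨z1, z2, h1, h2, h3⟩
        have e1 := (hP2 G a b hMp z1 x).1 h1
        have e2 := (hQ2 G a b hMp z2 x).1 h2
        subst e1 e2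
        exact (hMp _ _ _).1 h3
      · rintro rfl
        exact ⟨a ^ f x, a ^ g x, (hP2 G a b hMp _ x).2 rfl, (hQ2 G a b hMp _ x).2 rfl,
          (hMp _ _ _).2 rfl⟩

/-- a recursively enumerable set is Diophantine, with finitely many dummies -/
theorem re_poly (S : Set ℕ) (hS : REPred fun i => i ∈ S) :
    ∃ (β : Type) (_ : Finite β) (p : Poly (Unit ⊕ β)), ∀ i : ℕ,
      i ∈ S ↔ ∃ t : β → ℕ, p (Sum.elim (fun _ => i) t) = 0 := by
  let F : ℕ →. ℕ := fun i => (Part.assert (i ∈ S) fun _ => Part.some ()).map fun _ => 0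
  have hF : Partrec F := Partrec.map hS (Computable.const 0).to₂
  have hdom : ∀ i, (∃ y, y ∈ F i) ↔ i ∈ S := by
    intro i
    simp only [F, Part.mem_map_iff, Part.mem_assert_iff]
    constructor
    · rintro ⟨y, u, ⟨h, -⟩, -⟩
      exact h
    · intro h
      exact ⟨0, (), ⟨h, Part.mem_some _⟩, rfl⟩
  have hGD := Pool.Agent.LibMRDP.partrec_dioph (Partrec.nat_iff.1 hF)
  have hD : Dioph {v : Unit → ℕ | ∃ y, y ∈ F (v ())} := by
    apply Pool.Agent.LibMRDP.ex_nat (R := fun (v : Unit → ℕ) y => y ∈ F (v ()))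
    exact hGD.app (Pool.Agent.LibMRDP.up (Dioph.proj_dioph ())) Pool.Agent.LibMRDP.new
  obtain ⟨β, hβ, p, hp⟩ := Pool.Agent.LibMRDP.finite_dummies hD
  refine ⟨β, hβ, p, fun i => ?_⟩
  rw [← hdom i]
  exact hp fun _ => i

theorem re_udef (S : Set ℕ) (hS : REPred fun i => i ∈ S)
    (Np : ∀ (G : Type) [Group G], (Fin 3 → G) → Prop) (hN : UDef Np)
    (Mp : ∀ (G : Type) [Group G], (Fin 5 → G) → Prop) (hM : UDef Mp) :
    ∃ Q : ∀ (G : Type) [Group G], (Fin 3 → G) → Prop, UDef Q ∧
      ∀ (G : Type) [Group G] (a b : G), (∀ k : ℤ, a ^ k = 1 → k = 0) →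
        (∀ p, Np G ![a, b, p] ↔ ∃ i : ℕ, p = a ^ i) →
        (∀ (i j : ℤ) (z : G), Mp G ![a, b, a ^ i, a ^ j, z] ↔ z = a ^ (i * j)) →
        ∀ i : ℕ, Q G ![a, b, a ^ i] ↔ i ∈ S := by
  obtain ⟨β, hβ, p, hp⟩ := re_poly S hS
  obtain ⟨P, hP, hP2⟩ := poly_udef Mp hM (fun x => p x) p.isPoly
  refine ⟨fun G _ v => ∃ t : β → G, (∀ c, Np G ![v 0, v 1, t c]) ∧
    P G (Sum.elim ![v 0, v 1, 1] fun c => Sum.elim (fun _ => v 2) t c), ?_,
    fun G _ a b hinj hNp hMp i => ?_⟩
  · refine UDef.exs (R := fun G _ v t => (∀ c, Np G ![v 0, v 1, t c]) ∧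
      P G (Sum.elim ![v 0, v 1, 1] fun c => Sum.elim (fun _ => v 2) t c)) ?_
    refine (UDef.allFin fun c => UDef.app3 hN (UTerm.var _) (UTerm.var _) (UTerm.var _)).and ?_
    have := UDef.appP (α := Fin 3 ⊕ β) (e := fun c => match c with
      | Sum.inl _ => fun G _ v => v (Sum.inl 2)
      | Sum.inr c => fun G _ v => v (Sum.inr c)) hP (UTerm.var (Sum.inl 0)) (UTerm.var (Sum.inl 1))
      UTerm.one (fun c => by rcases c with c | c <;> exact UTerm.var _)
    refine this.congr fun G _ v => ?_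
    have h2 : (fun c : Unit ⊕ β => (match c with
      | Sum.inl _ => fun G _ v => v (Sum.inl 2)
      | Sum.inr c => fun G _ v => v (Sum.inr c) : ∀ (G : Type) [Group G],
        (Fin 3 ⊕ β → G) → G) G v) =
        fun c => Sum.elim (fun _ => v (Sum.inl 2)) (fun i => v (Sum.inr i)) c := by
      funext c
      rcases c with c | c <;> rfl
    rw [h2]
  · rw [hp i]
    constructor
    · rintro ⟨t, ht, hPt⟩
      choose u hu using fun c => (hNp _).1 (ht c)
      refine ⟨u, ?_⟩
      have h1 : (fun c => Sum.elim (fun _ : Unit => a ^ i) t c) =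
          fun c => a ^ (Sum.elim (fun _ : Unit => i) u c) := by
        funext c
        rcases c with c | c
        · rfl
        · exact hu c
      have h2 := hPt
      simp only [Matrix.cons_val_zero, Matrix.cons_val_one, Matrix.cons_val] at h2
      rw [h1] at h2
      have h3 := (hP2 G a b hMp 1 _).1 h2
      exact hinj _ h3.symm
    · rintro ⟨u, hu⟩
      refine ⟨fun c => a ^ u c, fun c => (hNp _).2 ⟨u c, rfl⟩, ?_⟩
      have h1 : (fun c => Sum.elim (fun _ : Unit => a ^ i) (fun c => a ^ u c) c) =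
          fun c => a ^ (Sum.elim (fun _ : Unit => i) u c) := by
        funext c
        rcases c with c | c <;> rfl
      simp only [Matrix.cons_val_zero, Matrix.cons_val_one, Matrix.cons_val]
      rw [h1]
      rw [hP2 G a b hMp 1 _, hu, zpow_zero]

end Pool.Agent.LibSCQ
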