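import Pool.Agent.LibSCQ.Pres

/-!
TASK 14. The word problem of the group is recursively enumerable.

`w` lies in the normal closure of the relators iff `w` is a product of conjugates of relators and
their inverses; words are lists over `Fin 2 × Bool` and reduction is primitive recursive.
-/

set_option autoImplicit false

namespace Pool.Agent.LibSCQ

open Primrec

/-- words in the letters of the free group -/
abbrev Wd : Type := List (Fin 2 × Bool)

theorem primrec_reduce : Primrec (FreeGroup.reduce : Wd → Wd) := by
  have h : Primrec₂ (fun (_ : Wd) (p : (Fin 2 × Bool) × Wd × Wd) =>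
      (List.casesOn p.2.2 [p.1] fun hd2 tl2 =>
        if p.1.1 = hd2.1 ∧ p.1.2 = not hd2.2 then tl2 else p.1 :: hd2 :: tl2 : Wd)) := by
    refine Primrec.list_casesOn (h := fun (q : Wd × ((Fin 2 × Bool) × Wd × Wd)) r =>
      if q.2.1.1 = r.1.1 ∧ q.2.1.2 = not r.1.2 then r.2 else q.2.1 :: r.1 :: r.2) ?_ ?_ ?_
    · exact snd.comp (snd.comp snd)
    · exact list_cons.comp (fst.comp snd) (const [])
    · refine Primrec.ite ?_ ?_ ?_
      · refine PrimrecPred.and ?_ ?_
        · refine Primrec.eq.comp ?_ ?_
          · exact fst.comp (fst.comp (snd.comp fst))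
          · exact fst.comp (fst.comp snd)
        · refine Primrec.eq.comp ?_ ?_
          · exact snd.comp (fst.comp (snd.comp fst))
          · exact Primrec.not.comp (snd.comp (fst.comp snd))
      · exact snd.comp snd
      · exact list_cons.comp (fst.comp (snd.comp fst))
          (list_cons.comp (fst.comp snd) (snd.comp snd))
  refine (Primrec.list_rec (f := fun l : Wd => l) (g := fun _ => []) Primrec.id (const []) h).of_eq ?_
  intro l
  rfl

theorem primrec_invRev : Primrec (FreeGroup.invRev : Wd → Wd) := by
  refine (list_reverse.comp (list_map (g := fun (_ : Wd) (b : Fin 2 × Bool) => (b.1, !b.2))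
    Primrec.id ?_)).of_eq ?_
  · exact (Primrec.pair (fst.comp snd) (Primrec.not.comp (snd.comp snd))).to₂
  · intro l; rfl

/-- a power of a letter -/
def rep (x : Fin 2 × Bool) (n : ℕ) : Wd := (List.range n).map fun _ => x

theorem primrec_rep (x : Fin 2 × Bool) : Primrec (rep x) := by
  refine list_map list_range (g := fun (_ _ : ℕ) => x) ?_
  exact (const x).to₂

theorem mk_append (u v : Wd) : FreeGroup.mk (u ++ v) = FreeGroup.mk u * FreeGroup.mk v :=
  FreeGroup.mul_mk.symm

theorem mk_rep (i : Fin 2) (n : ℕ) : FreeGroup.mk (rep (i, true) n) = FreeGroup.of i ^ n := by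
  induction n with
  | zero => rfl
  | succ n ih =>
    have : rep (i, true) (n + 1) = rep (i, true) n ++ [(i, true)] := by
      simp [rep, List.range_succ]
    rw [this, mk_append, ih, pow_succ]
    rfl

theorem re_exists {α : Type} [Primcodable α] {R : ℕ → α → Prop} [∀ i c, Decidable (R i c)]
    (hR : Primrec₂ fun i c => decide (R i c)) : REPred fun i => ∃ c, R i c := by
  have h : Primrec₂ (fun (i n : ℕ) => (Encodable.decode (α := α) n).elim false
      fun c => decide (R i c)) := by
    have h2 : Primrec₂ (fun (i n : ℕ) => (Encodable.decode (α := α) n).casesOn false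
      fun c => decide (R i c) : ℕ → ℕ → Bool) := by
      refine Primrec.option_casesOn (o := fun p : ℕ × ℕ => Encodable.decode (α := α) p.2)
        (f := fun _ => false) (g := fun (p : ℕ × ℕ) (c : α) => decide (R p.1 c)) ?_ ?_ ?_
      · exact Primrec.decode.comp snd
      · exact const false
      · exact hR.comp (fst.comp fst) snd
    refine h2.of_eq ?_
    intro i n
    cases Encodable.decode (α := α) n <;> rfl
  have h3 := Partrec.rfind (p := fun (i : ℕ) (n : ℕ) => (Part.some
    ((Encodable.decode (α := α) n).elim false fun c => decide (R i c)))) h.to_comp.partrec₂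
  refine (h3.dom_re).of_eq ?_
  intro i
  rw [Nat.rfind_dom']
  constructor
  · rintro ⟨n, hn, -⟩
    rw [Part.mem_some_iff] at hn
    cases hd : Encodable.decode (α := α) n with
    | none => rw [hd] at hn; simp at hn
    | some c =>
      rw [hd] at hn
      exact ⟨c, by simpa using hn.symm⟩
  · rintro ⟨c, hc⟩
    refine ⟨Encodable.encode c, ?_, fun _ => trivial⟩
    rw [Part.mem_some_iff, Encodable.encodek]
    simpa using hc

/-- the letter with a given code -/
def lw (i : ℕ) : Fin 2 × Bool :=
  if i = 0 then (0, true) else if i = 1 then (0, false) else if i = 2 then (1, true) else (1, false)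

/-- the word with a given code -/
def ww : ℕ → Wd
  | 0 => []
  | n + 1 => ww (n / 4) ++ [lw (n % 4)]
termination_by n => n
decreasing_by omega

theorem mk_lw (i : ℕ) : FreeGroup.mk [lw i] = ltr gx gy i := by
  unfold lw ltr
  split_ifs <;> rfl

theorem mk_ww (n : ℕ) : FreeGroup.mk (ww n) = wd gx gy n := by
  induction n using Nat.strong_induction_on with
  | _ n ih =>
    cases n with
    | zero => rw [ww, wd]; rfl
    | succ n => rw [ww, wd, mk_append, ih (n / 4) (by omega), mk_lw]

theorem primrec_lw : Primrec lw := by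
  refine Primrec.ite (Primrec.eq.comp Primrec.id (const 0)) (const _) ?_
  refine Primrec.ite (Primrec.eq.comp Primrec.id (const 1)) (const _) ?_
  exact Primrec.ite (Primrec.eq.comp Primrec.id (const 2)) (const _) (const _)

theorem primrec_ww : Primrec ww := by
  have h : Primrec₂ (fun (_ : Unit) (l : List Wd) =>
      (Nat.casesOn l.length (some []) fun n => (l[n / 4]?).map fun w => w ++ [lw (n % 4)] :
        Option Wd)) := by
    refine Primrec.nat_casesOn (f := fun p : Unit × List Wd => p.2.length)
      (g := fun _ => some [])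
      (h := fun (p : Unit × List Wd) n => (p.2[n / 4]?).map fun w => w ++ [lw (n % 4)]) ?_ ?_ ?_
    · exact list_length.comp snd
    · exact const _
    · refine Primrec.option_map (f := fun q : (Unit × List Wd) × ℕ => q.1.2[q.2 / 4]?)
        (g := fun (q : (Unit × List Wd) × ℕ) w => w ++ [lw (q.2 % 4)]) ?_ ?_
      · exact list_getElem?.comp (snd.comp fst) (nat_div.comp snd (const 4))
      · exact list_append.comp snd (list_cons.comp
          (primrec_lw.comp (nat_mod.comp (snd.comp fst) (const 4))) (const []))
  have h2 : Primrec₂ (fun (_ : Unit) (n : ℕ) => ww n) := by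
    refine Primrec.nat_strong_rec _ h ?_
    intro a n
    cases n with
    | zero => simp [ww]
    | succ n =>
      have h3 : n / 4 < n + 1 := by omega
      simp only [List.length_map, List.length_range]
      rw [List.getElem?_map, List.getElem?_range h3, ww]
      rfl
  exact h2.comp (const ()) Primrec.id

theorem primrec_pow : Primrec₂ (fun a b : ℕ => a ^ b) := by
  refine (Primrec.nat_rec (f := fun _ : ℕ => 1) (g := fun (a : ℕ) (p : ℕ × ℕ) => p.2 * a)
    (const 1) ?_).of_eq ?_
  · exact nat_mul.comp (snd.comp snd) fst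
  · intro a n
    induction n with
    | zero => simp
    | succ n ih => simp only [pow_succ] at ih ⊢; rw [← ih]

theorem primrec_nn : Primrec nn :=
  primrec_pow.comp (const 10) (nat_mul.comp (const 12) (primrec_pow.comp (const 3) Primrec.id))

/-- the word on the right hand side of the second relation -/
def tw (j : ℕ) : Wd := if j % 2 = 0 then rep (0, true) ((j / 2) ^ 2) else ww (j / 2)

theorem mk_tw (j : ℕ) : FreeGroup.mk (tw j) = tgt gx gy j := by
  unfold tw tgt
  split_ifs
  · rw [mk_rep]; rfl
  · rw [mk_ww]

theorem primrec_tw : Primrec tw := by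
  refine Primrec.ite (Primrec.eq.comp (nat_mod.comp Primrec.id (const 2)) (const 0)) ?_ ?_
  · exact (primrec_rep _).comp (primrec_pow.comp (nat_div.comp Primrec.id (const 2)) (const 2))
  · exact primrec_ww.comp (nat_div.comp Primrec.id (const 2))

/-- the words `fw`, `gw` -/
def fgw (c : ℕ) (j : ℕ) : Wd :=
  (List.range 1000).flatMap fun k => rep (1, true) (k + c) ++ rep (0, true) (nn j)

theorem primrec_fgw (c : ℕ) : Primrec (fgw c) := by
  refine Primrec.list_flatMap (f := fun _ : ℕ => List.range 1000)
    (g := fun (j k : ℕ) => rep (1, true) (k + c) ++ rep (0, true) (nn j)) (const _) ?_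
  exact list_append.comp ((primrec_rep _).comp (nat_add.comp snd (const c)))
    ((primrec_rep _).comp (primrec_nn.comp fst))

theorem mk_flatMap {β : Type} (l : List β) (f : β → Wd) :
    FreeGroup.mk (l.flatMap f) = (l.map fun b => FreeGroup.mk (f b)).prod := by
  induction l with
  | nil => rfl
  | cons b l ih => rw [List.flatMap_cons, mk_append, ih, List.map_cons, List.prod_cons]

theorem mk_fgw (c j : ℕ) : FreeGroup.mk (fgw c j) =
    ((List.range 1000).map fun k => gy ^ (k + c) * gx ^ nn j).prod := by
  rw [fgw, mk_flatMap]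
  congr 2
  funext k
  rw [mk_append, mk_rep, mk_rep]
  rfl

/-- the relators -/
def relw (p : ℕ × Bool) : Wd :=
  bif p.2 then fgw 1 p.1 ++ FreeGroup.invRev (rep (0, true) p.1)
    else fgw 1001 p.1 ++ FreeGroup.invRev (tw p.1)

theorem primrec_relw : Primrec relw := by
  refine Primrec.cond snd ?_ ?_
  · exact list_append.comp ((primrec_fgw 1).comp fst)
      (primrec_invRev.comp ((primrec_rep _).comp fst))
  · exact list_append.comp ((primrec_fgw 1001).comp fst)
      (primrec_invRev.comp (primrec_tw.comp fst))

theorem mk_repx (n : ℕ) : FreeGroup.mk (rep (0, true) n) = gx ^ n := mk_rep 0 n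

theorem mk_relw_true (j : ℕ) :
    FreeGroup.mk (relw (j, true)) = fw gy (gx ^ nn j) * (gx ^ j)⁻¹ := by
  rw [relw, cond_true, mk_append, ← FreeGroup.inv_mk, mk_repx, mk_fgw, fw]

theorem mk_relw_false (j : ℕ) :
    FreeGroup.mk (relw (j, false)) = gw gy (gx ^ nn j) * (tgt gx gy j)⁻¹ := by
  rw [relw, cond_false, mk_append, ← FreeGroup.inv_mk, mk_tw, mk_fgw, gw]

theorem rels_univ : rels Set.univ = Set.range fun p : ℕ × Bool => FreeGroup.mk (relw p) := by
  ext w
  constructor
  · rintro ⟨j, -, h | h⟩
    · exact ⟨(j, true), by rw [h]; exact mk_relw_true j⟩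
    · exact ⟨(j, false), by rw [h]; exact mk_relw_false j⟩
  · rintro ⟨⟨j, b⟩, rfl⟩
    refine ⟨j, trivial, ?_⟩
    cases b with
    | true => exact Or.inl (mk_relw_true j)
    | false => exact Or.inr (mk_relw_false j)

/-- a conjugate of a relator or of the inverse of a relator -/
def stw (s : Wd × (ℕ × Bool) × Bool) : Wd :=
  s.1 ++ (bif s.2.2 then relw s.2.1 else FreeGroup.invRev (relw s.2.1)) ++ FreeGroup.invRev s.1

theorem primrec_stw : Primrec stw := by
  refine list_append.comp (list_append.comp fst (Primrec.cond (snd.comp snd) ?_ ?_))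
    (primrec_invRev.comp fst)
  · exact primrec_relw.comp (fst.comp snd)
  · exact primrec_invRev.comp (primrec_relw.comp (fst.comp snd))

/-- the product of conjugates -/
def cw (c : List (Wd × (ℕ × Bool) × Bool)) : Wd := c.flatMap stw

theorem primrec_cw : Primrec cw :=
  Primrec.list_flatMap (f := fun c : List (Wd × (ℕ × Bool) × Bool) => c) (g := fun _ s => stw s)
    Primrec.id (primrec_stw.comp snd)

theorem mk_stw (s : Wd × (ℕ × Bool) × Bool) : FreeGroup.mk (stw s) = FreeGroup.mk s.1 *
    (if s.2.2 then FreeGroup.mk (relw s.2.1) else (FreeGroup.mk (relw s.2.1))⁻¹) *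
      (FreeGroup.mk s.1)⁻¹ := by
  obtain ⟨u, p, b⟩ := s
  rw [stw, mk_append, mk_append, ← FreeGroup.inv_mk]
  cases b with
  | true => rfl
  | false => rw [cond_false, ← FreeGroup.inv_mk]; rfl

/-- the normal closure of the relators -/
def KK : Subgroup F2 where
  carrier := Set.range fun c => FreeGroup.mk (cw c)
  one_mem' := ⟨[], rfl⟩
  mul_mem' := by
    rintro _ _ ⟨c, rfl⟩ ⟨d, rfl⟩
    exact ⟨c ++ d, by simp only [cw, List.flatMap_append, mk_append]⟩
  inv_mem' := by
    rintro _ ⟨c, rfl⟩
    induction c with
    | nil => exact ⟨[], by simp [cw]⟩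
    | cons s c ih =>
      obtain ⟨d, hd⟩ := ih
      refine ⟨d ++ [(s.1, s.2.1, !s.2.2)], ?_⟩
      simp only [cw, List.flatMap_append, List.flatMap_cons, List.flatMap_nil, List.append_nil,
        mk_append] at hd ⊢
      rw [hd, mul_inv_rev]
      congr 1
      rw [mk_stw, mk_stw]
      obtain ⟨u, p, b⟩ := s
      cases b <;> simp

theorem mem_KK {x : F2} : x ∈ KK ↔ ∃ c, FreeGroup.mk (cw c) = x := Iff.rfl

instance : KK.Normal := by
  refine ⟨?_⟩
  intro x hx g
  obtain ⟨c, rfl⟩ := mem_KK.1 hx
  clear hx
  induction c with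
  | nil =>
    have h0 : FreeGroup.mk (cw []) = (1 : F2) := rfl
    exact ⟨[], by rw [h0]; simp [h0]⟩
  | cons s c ih =>
    have h1 : g * FreeGroup.mk (cw (s :: c)) * g⁻¹ =
        (g * FreeGroup.mk (stw s) * g⁻¹) * (g * FreeGroup.mk (cw c) * g⁻¹) := by
      simp only [cw, List.flatMap_cons, mk_append]
      group
    rw [h1]
    refine KK.mul_mem ?_ ih
    refine mem_KK.2 ⟨[(g.toWord ++ s.1, s.2)], ?_⟩
    simp only [cw, List.flatMap_cons, List.flatMap_nil, List.append_nil]
    rw [mk_stw, mk_stw, mk_append, FreeGroup.mk_toWord]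
    simp only [mul_assoc, mul_inv_rev]

theorem KK_eq : NJ Set.univ = KK := by
  apply le_antisymm
  · refine Subgroup.normalClosure_le_normal ?_
    rw [rels_univ]
    rintro _ ⟨p, rfl⟩
    refine mem_KK.2 ⟨[([], p, true)], ?_⟩
    simp [cw, stw, FreeGroup.invRev]
  · intro x hx
    obtain ⟨c, rfl⟩ := mem_KK.1 hx
    clear hx
    induction c with
    | nil => exact Subgroup.one_mem _
    | cons s c ih =>
      have h1 : FreeGroup.mk (cw (s :: c)) = FreeGroup.mk (stw s) * FreeGroup.mk (cw c) := by
        simp only [cw, List.flatMap_cons, mk_append]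
      rw [h1]
      refine Subgroup.mul_mem _ ?_ ih
      rw [mk_stw]
      refine Subgroup.Normal.conj_mem inferInstance _ ?_ _
      have h2 : FreeGroup.mk (relw s.2.1) ∈ NJ Set.univ :=
        Subgroup.subset_normalClosure (by rw [rels_univ]; exact ⟨_, rfl⟩)
      split_ifs
      · exact h2
      · exact Subgroup.inv_mem _ h2

/-- the word problem is recursively enumerable -/
theorem re_wp : REPred fun i : ℕ => wd gx gy i ∈ NJ Set.univ := by
  have h : Primrec₂ (fun (i : ℕ) (c : List (Wd × (ℕ × Bool) × Bool)) =>
      decide (FreeGroup.reduce (cw c) = FreeGroup.reduce (ww i))) := by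
    have h1 : PrimrecRel (fun (i : ℕ) (c : List (Wd × (ℕ × Bool) × Bool)) =>
        FreeGroup.reduce (cw c) = FreeGroup.reduce (ww i)) :=
      Primrec.eq.comp (primrec_reduce.comp (primrec_cw.comp snd))
        (primrec_reduce.comp (primrec_ww.comp fst))
    exact h1.decide
  refine (re_exists h).of_eq ?_
  intro i
  rw [KK_eq, mem_KK]
  refine exists_congr fun c => ?_
  rw [← mk_ww]
  exact ⟨FreeGroup.reduce.exact, FreeGroup.reduce.sound⟩

end Pool.Agent.LibSCQ
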