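import Pool.Agent.LibSCQ.Tower
import Pool.Agent.LibSCQ.Crit
import Pool.Agent.LibSCQ.Cone
import Pool.Agent.LibSCQ.RE

/-!
The final theorem.
-/

set_option autoImplicit false

namespace Pool.Agent.LibSCQ

open Filter Topology

theorem nn_zero : nn 0 = 10 ^ 12 := by norm_num [nn]

theorem nn_succ (j : ℕ) : nn (j + 1) = nn j ^ 3 := by
  unfold nn
  rw [← pow_mul]
  congr 1
  ring

theorem nn_ge (j : ℕ) : 10 ^ 12 ≤ nn j := by
  induction j with
  | zero => rw [nn_zero]
  | succ j ih =>
    rw [nn_succ]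
    calc 10 ^ 12 ≤ nn j := ih
      _ = nn j ^ 1 := (pow_one _).symm
      _ ≤ nn j ^ 3 := Nat.pow_le_pow_right (by omega) (by norm_num)

theorem nn_grow (j : ℕ) : (2 * nn j + 1) ^ 2 ≤ nn (j + 1) := by
  rw [nn_succ]
  have h := nn_ge j
  have h9 : 9 ≤ nn j := le_trans (by norm_num) h
  calc (2 * nn j + 1) ^ 2 ≤ (3 * nn j) ^ 2 := Nat.pow_le_pow_left (by omega) 2
    _ = 9 * nn j ^ 2 := by ring
    _ ≤ nn j * nn j ^ 2 := Nat.mul_le_mul_right _ h9
    _ = nn j ^ 3 := by ring

theorem le_nn (j : ℕ) : j ≤ nn j := by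
  induction j with
  | zero => exact Nat.zero_le _
  | succ j ih =>
    have h1 := nn_grow j
    have h2 := nn_ge j
    nlinarith

theorem ltr_map {G H : Type} [Group G] [Group H] (φ : G →* H) (a b : G) (i : ℕ) :
    φ (ltr a b i) = ltr (φ a) (φ b) i := by
  unfold ltr
  split_ifs <;> simp

theorem wd_map {G H : Type} [Group G] [Group H] (φ : G →* H) (a b : G) (i : ℕ) :
    φ (wd a b i) = wd (φ a) (φ b) i := by
  induction i using Nat.strong_induction_on with
  | _ i ih =>
    cases i with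
    | zero => simp [wd]
    | succ n =>
      rw [wd, wd, map_mul, ih (n / 4) (by omega), ltr_map]

theorem gg_re : REPred fun i : ℕ => wd (im Set.univ gx) (im Set.univ gy) i = 1 := by
  have h : (fun i : ℕ => wd (im Set.univ gx) (im Set.univ gy) i = 1)
      = fun i : ℕ => wd gx gy i ∈ NJ Set.univ := by
    funext i
    have := wd_map (QuotientGroup.mk' (NJ Set.univ)) gx gy i
    have e : wd (im Set.univ gx) (im Set.univ gy) i = im Set.univ (wd gx gy i) := this.symm
    rw [e]
    exact propext (QuotientGroup.eq_one_iff _)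
  rw [h]
  exact re_wp

theorem gg_qfa : QFA GG :=
  qfa_of (im Set.univ gx) (im Set.univ gy) nn gg_gen gg_rel1 gg_rel2 gg_inj gg_cent gg_D gg_len
    nn_grow le_nn gg_re

theorem nn_tendsto : Tendsto (fun j => (nn j : ℝ)) atTop atTop := by
  refine tendsto_atTop_mono (fun j => ?_) tendsto_natCast_atTop_atTop
  exact_mod_cast le_nn j

open Classical in
theorem gg_lacunary : LacunaryHyperbolic GG := by
  have hS : ((({im Set.univ gx, im Set.univ gy} : Finset GG) : Set GG)) =
      {im Set.univ gx, im Set.univ gy} := by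
    simp
  have hpos : ∀ j, (0 : ℝ) < nn j := fun j => by
    have := nn_ge j
    exact_mod_cast (by omega : 0 < nn j)
  refine lacunary_of ({im Set.univ gx, im Set.univ gy} : Finset GG) (by rw [hS]; exact gg_gen)
    (fun j => (nn j : ℝ) ^ 2) (fun j => 5000 * (nn j : ℝ)) (fun j => (nn (j + 1) : ℝ)) ?_ ?_ ?_ ?_
  · exact (tendsto_pow_atTop (by norm_num)).comp nn_tendsto
  · have h : (fun j => 5000 * (nn j : ℝ) / (nn j : ℝ) ^ 2) = fun j => 5000 * ((nn j : ℝ))⁻¹ := by
      funext j
      have := (hpos j).ne'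
      field_simp
    rw [h]
    have := (tendsto_inv_atTop_zero.comp nn_tendsto).const_mul (5000 : ℝ)
    simpa using this
  · have h : (fun j => (nn (j + 1) : ℝ) / (nn j : ℝ) ^ 2) = fun j => (nn j : ℝ) := by
      funext j
      have := (hpos j).ne'
      rw [nn_succ]
      push_cast
      field_simp
    rw [h]
    exact nn_tendsto
  · intro j x y z w hx hy hz hw
    rw [hS] at hx hy hz hw ⊢
    have h := gg_four (j + 1) x y z w (by exact_mod_cast hx) (by exact_mod_cast hy)
      (by exact_mod_cast hz) (by exact_mod_cast hw)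
    have e : dl (j + 1) = 5000 * (nn j : ℤ) := rfl
    rw [e] at h
    exact_mod_cast h

theorem main : ∃ (G : Type) (_ : Group G), Group.FG G ∧ ¬ IsCyclic G ∧
    (∀ (g : G) (n : ℕ), 0 < n → g ^ n = 1 → g = 1) ∧ LacunaryHyperbolic G ∧ QFA G := by
  refine ⟨GG, inferInstance, ?_, gg_not_cyclic, gg_tf, gg_lacunary, gg_qfa⟩
  rw [Group.fg_iff]
  exact ⟨{im Set.univ gx, im Set.univ gy}, gg_gen, Set.toFinite _⟩

end Pool.Agent.LibSCQ
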