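import Pool.Agent.LibSCQ.Chain

/-!
TASK 3. Overlap of two chains.
-/

set_option autoImplicit false

namespace Pool.Agent.LibSCQ

variable {H : Type} [Group H] {a : H} {d : H → H → ℤ} {δ κ η M E : ℤ}

namespace Chain

theorem exit_entry (h : ChHyp a d δ κ η M E) (B : Chain a d η M) (i : ℤ) :
    d (B.P i * a ^ B.m i) (B.P (i + 1)) ≤ η := by
  rw [B.step]
  have := h.geo.inv (B.P i * a ^ B.m i) 1 (B.e i)
  rw [mul_one] at this
  rw [this]
  exact B.e_le i

/-- a chunk of `n + 1` lines of `B` has a small projection to another line -/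
theorem chunk (h : ChHyp a d δ κ η M E) (B : Chain a d η M) (g : H)
    (hg : ∀ i, g⁻¹ * B.P i ∉ Subgroup.zpowers a) (i : ℤ) (n : ℕ) (k l : ℤ) :
    |tau a d (g⁻¹ * (B.P i * a ^ k)) - tau a d (g⁻¹ * (B.P (i + n) * a ^ l))|
      ≤ (n + 1) * κ + n * (η + 5 * δ + 2) := by
  have hpar : ∀ j k l : ℤ, |tau a d (g⁻¹ * (B.P j * a ^ k)) - tau a d (g⁻¹ * (B.P j * a ^ l))| ≤ κ := by
    intro j k l
    have := h.toPar.tau_par (hg j) k l
    rwa [mul_assoc, mul_assoc] at this
  induction n generalizing l with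
  | zero =>
    have := hpar i k l
    simpa using this
  | succ n ih =>
    have h1 := ih (B.m (i + n))
    have h2 := h.toPar.toLin.lip (g⁻¹ * (B.P (i + n) * a ^ B.m (i + n))) (g⁻¹ * B.P (i + n + 1))
    rw [h.geo.inv] at h2
    have h3 := exit_entry h B (i + n)
    have h4 := hpar (i + n + 1) 0 l
    rw [zpow_zero, mul_one] at h4
    have e1 : i + ((n + 1 : ℕ) : ℤ) = i + n + 1 := by push_cast; ring
    rw [e1]
    have e2 : ((n + 1 : ℕ) : ℤ) = n + 1 := by push_cast; ring
    rw [e2]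
    have h5 := abs_sub_le (tau a d (g⁻¹ * (B.P i * a ^ k)))
      (tau a d (g⁻¹ * (B.P (i + n) * a ^ B.m (i + n)))) (tau a d (g⁻¹ * (B.P (i + n + 1) * a ^ l)))
    have h6 := abs_sub_le (tau a d (g⁻¹ * (B.P (i + n) * a ^ B.m (i + n))))
      (tau a d (g⁻¹ * B.P (i + n + 1))) (tau a d (g⁻¹ * (B.P (i + n + 1) * a ^ l)))
    nlinarith

/-- If a line `g⟨a⟩` is not a line of the chain `B` then the projection of `B` to this line is
small. -/
theorem proj_small (h : ChHyp a d δ κ η M E) (B : Chain a d η M) (g : H)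
    (hg : ∀ i, g⁻¹ * B.P i ∉ Subgroup.zpowers a) {x y : H} (hx : x ∈ B.pts) (hy : y ∈ B.pts) :
    |tau a d (g⁻¹ * x) - tau a d (g⁻¹ * y)| ≤ 34 * E := by
  have hδ := h.δ0
  have hκ := h.κ0
  have hη := h.η0
  have hE := h.hE
  have hM := h.hM
  set v := B.pos g with hv
  -- far lines on the right
  have hR : ∀ j : ℤ, v + 2 < j → ∀ k l : ℤ,
      |tau a d (g⁻¹ * (B.P j * a ^ k)) - tau a d (g⁻¹ * (B.P (v + 2) * a ^ l))| ≤ κ + 7 * δ + 3 := by
    intro j hj k l
    rcases h.toPar.beh (hg (v + 2)) (B.P j * a ^ k) with h1 | h1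
    · exact h1 l
    · exfalso
      have h2 := h1 0
      rw [zpow_zero, mul_one] at h2
      have h3 := B.ord_left h hj k
      have h4 : |B.t (v + 2) g| ≤ 14 * E := by
        apply B.t_gt h
        rw [← hv]
      have h5 := B.m_ge (v + 2)
      simp only [Chain.t] at h3 h4
      rw [abs_le] at h2 h3 h4
      rcases abs_cases (B.m (v + 2)) with h6 | h6 <;> omega
  -- far lines on the left
  have hL : ∀ j : ℤ, j < v - 1 → ∀ k l : ℤ,
      |tau a d (g⁻¹ * (B.P j * a ^ k)) - tau a d (g⁻¹ * (B.P (v - 1) * a ^ l))| ≤ κ + 7 * δ + 3 := by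
    intro j hj k l
    rcases h.toPar.beh (hg (v - 1)) (B.P j * a ^ k) with h1 | h1
    · exact h1 l
    · exfalso
      have h2 := h1 0
      rw [zpow_zero, mul_one] at h2
      have h3 := B.ord_right h hj k
      have h4 : |B.t (v - 1) g - B.m (v - 1)| ≤ 14 * E := by
        apply B.t_lt h
        rw [← hv]; omega
      have h5 := B.m_ge (v - 1)
      simp only [Chain.t] at h3 h4
      rw [abs_le] at h2 h3 h4
      rcases abs_cases (B.m (v - 1)) with h6 | h6 <;> omega
  have hmid : ∀ i k : ℤ, ∃ k' : ℤ,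
      |tau a d (g⁻¹ * (B.P i * a ^ k)) -
        tau a d (g⁻¹ * (B.P (max (v - 1) (min i (v + 2))) * a ^ k'))| ≤ κ + 7 * δ + 3 := by
    intro i k
    rcases lt_or_ge i (v - 1) with h1 | h1
    · refine ⟨0, ?_⟩
      rw [show max (v - 1) (min i (v + 2)) = v - 1 by omega]
      exact hL i h1 k 0
    · rcases lt_or_ge (v + 2) i with h2 | h2
      · refine ⟨0, ?_⟩
        rw [show max (v - 1) (min i (v + 2)) = v + 2 by omega]
        exact hR i h2 k 0
      · refine ⟨k, ?_⟩
        rw [show max (v - 1) (min i (v + 2)) = i by omega, sub_self, abs_zero]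
        omega
  -- ordered version
  have main : ∀ i k j l : ℤ, i ≤ j →
      |tau a d (g⁻¹ * (B.P i * a ^ k)) - tau a d (g⁻¹ * (B.P j * a ^ l))| ≤ 34 * E := by
    intro i k j l hij
    obtain ⟨k', hk'⟩ := hmid i k
    obtain ⟨l', hl'⟩ := hmid j l
    set i' := max (v - 1) (min i (v + 2)) with hi'
    set j' := max (v - 1) (min j (v + 2)) with hj'
    obtain ⟨n, hn⟩ : ∃ n : ℕ, j' = i' + n := ⟨(j' - i').toNat, by omega⟩
    have hn3 : (n : ℤ) ≤ 3 := by omega
    have h1 := chunk h B g hg i' n k' l'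
    rw [← hn] at h1
    have h2 : ((n : ℤ) + 1) * κ + n * (η + 5 * δ + 2) ≤ 4 * κ + 3 * (η + 5 * δ + 2) := by
      have : 0 ≤ (n : ℤ) := Int.natCast_nonneg n
      nlinarith
    rw [abs_le] at hk' hl' h1 ⊢
    constructor <;> omega
  obtain ⟨i, k, rfl⟩ := hx
  obtain ⟨j, l, rfl⟩ := hy
  rcases le_total i j with hij | hij
  · exact main i k j l hij
  · rw [abs_sub_comm]
    exact main j l i k hij

theorem proj_small' (h : ChHyp a d δ κ η M E) (A B : Chain a d η M) {x y : H} (hx : x ∈ B.pts)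
    (hy : y ∈ B.pts) {j : ℤ} (h1 : |A.t j x| ≤ 14 * E) (h2 : |A.t j y - A.m j| ≤ 14 * E) :
    ∃ i, (A.P j)⁻¹ * B.P i ∈ Subgroup.zpowers a := by
  by_contra hcon
  push Not at hcon
  have h3 := proj_small h B (A.P j) hcon hx hy
  have hE := h.hE
  have hδ := h.δ0
  have hκ := h.κ0
  have hη := h.η0
  have hM := h.hM
  have h5 := A.m_ge j
  simp only [Chain.t] at h1 h2
  rw [abs_le] at h1 h2 h3
  rcases abs_cases (A.m j) with h6 | h6 <;> omega

/-- If `B` crosses the lines of `A` from `A.pos x + 2` to `A.pos y - 1` then these lines are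
consecutive lines of `B`. -/
theorem run_lines (h : ChHyp a d δ κ η M E) (A B : Chain a d η M) {x y : H} (hx : x ∈ B.pts)
    (hy : y ∈ B.pts) :
    ∃ s u : ℤ, (s = 1 ∨ s = -1) ∧ ∀ j, A.pos x + 2 ≤ j → j + 1 ≤ A.pos y →
      (A.P j)⁻¹ * B.P (u + s * j) ∈ Subgroup.zpowers a := by
  have hδ := h.δ0
  have hκ := h.κ0
  have hη := h.η0
  have hE := h.hE
  have hM := h.hM
  have hex : ∀ j, ∃ i, A.pos x + 2 ≤ j → j + 1 ≤ A.pos y →
      (A.P j)⁻¹ * B.P i ∈ Subgroup.zpowers a := by
    intro j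
    by_cases h1 : A.pos x + 2 ≤ j
    · by_cases h2 : j + 1 ≤ A.pos y
      · obtain ⟨i, hi⟩ := proj_small' h A B hx hy (A.t_gt h h1) (A.t_lt h (by omega : j < A.pos y))
        exact ⟨i, fun _ _ => hi⟩
      · exact ⟨0, fun _ h3 => absurd h3 h2⟩
    · exact ⟨0, fun h3 => absurd h3 h1⟩
  choose σ hσ using hex
  have hinj : ∀ j j', A.pos x + 2 ≤ j → j + 1 ≤ A.pos y → A.pos x + 2 ≤ j' → j' + 1 ≤ A.pos y →
      j ≠ j' → σ j ≠ σ j' := by
    intro j j' h1 h2 h3 h4 hne heq
    apply A.line_ne h hne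
    have h5 := hσ j h1 h2
    have h6 := hσ j' h3 h4
    rw [← heq] at h6
    have := Subgroup.mul_mem _ h5 (Subgroup.inv_mem _ h6)
    simpa [mul_assoc] using this
  have hstep : ∀ j, A.pos x + 2 ≤ j → j + 2 ≤ A.pos y → σ (j + 1) = σ j + 1 ∨ σ (j + 1) = σ j - 1 := by
    intro j h1 h2
    by_contra hcon
    push Not at hcon
    have hne := hinj j (j + 1) h1 (by omega) (by omega) (by omega) (by omega)
    -- points of the two lines
    obtain ⟨p, hp⟩ := Subgroup.mem_zpowers_iff.1 (hσ j h1 (by omega))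
    obtain ⟨q, hq⟩ := Subgroup.mem_zpowers_iff.1 (hσ (j + 1) (by omega) (by omega))
    have hQ : A.P j * a ^ A.m j = B.P (σ j) * a ^ (A.m j - p) := by
      have : B.P (σ j) = A.P j * a ^ p := by rw [hp]; group
      rw [this, mul_assoc, ← zpow_add]
      congr 2; ring
    have hP : A.P (j + 1) = B.P (σ (j + 1)) * a ^ (-q) := by
      have : B.P (σ (j + 1)) = A.P (j + 1) * a ^ q := by rw [hq]; group
      rw [this, mul_assoc, ← zpow_add]
      simp
    have hd := exit_entry h A j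
    -- a line of `B` strictly between
    rcases lt_or_ge (σ j) (σ (j + 1)) with hlt | hge
    · set v := σ j + 1 with hv
      have h3 := B.ord_right h (show σ j < v by omega) (A.m j - p)
      have h4 := B.ord_left h (show v < σ (j + 1) by omega) (-q)
      rw [← hQ] at h3
      rw [← hP] at h4
      have h5 := h.toPar.toLin.lip ((B.P v)⁻¹ * (A.P j * a ^ A.m j)) ((B.P v)⁻¹ * A.P (j + 1))
      rw [h.geo.inv] at h5
      have h6 := B.m_ge v
      simp only [Chain.t] at h3 h4
      rw [abs_le] at h3 h4 h5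
      rcases abs_cases (B.m v) with h6 | h6 <;> omega
    · set v := σ j - 1 with hv
      have h3 := B.ord_left h (show v < σ j by omega) (A.m j - p)
      have h4 := B.ord_right h (show σ (j + 1) < v by omega) (-q)
      rw [← hQ] at h3
      rw [← hP] at h4
      have h5 := h.toPar.toLin.lip ((B.P v)⁻¹ * (A.P j * a ^ A.m j)) ((B.P v)⁻¹ * A.P (j + 1))
      rw [h.geo.inv] at h5
      have h6 := B.m_ge v
      simp only [Chain.t] at h3 h4
      rw [abs_le] at h3 h4 h5
      rcases abs_cases (B.m v) with h6 | h6 <;> omega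
  -- constant sign
  set lo := A.pos x + 2 with hlo
  by_cases hlong : lo + 2 ≤ A.pos y
  · set s := σ (lo + 1) - σ lo with hs
    have hs1 : s = 1 ∨ s = -1 := by
      rcases hstep lo le_rfl hlong with h1 | h1 <;> omega
    refine ⟨s, σ lo - s * lo, hs1, ?_⟩
    have key : ∀ n : ℕ, lo + n + 1 ≤ A.pos y → σ (lo + n) = σ lo + s * n ∧
        (lo + n + 2 ≤ A.pos y → σ (lo + n + 1) = σ lo + s * (n + 1)) := by
      intro n
      induction n with
      | zero =>
        intro _
        refine ⟨by simp, fun _ => ?_⟩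
        simp only [Nat.cast_zero, add_zero]
        omega
      | succ n ih =>
        intro hn
        push_cast at hn
        obtain ⟨ih1, ih2⟩ := ih (by omega)
        have ih3 := ih2 (by omega)
        have e1 : lo + ((n + 1 : ℕ) : ℤ) = lo + n + 1 := by push_cast; ring
        rw [e1]
        refine ⟨by rw [ih3]; push_cast; ring, fun h4 => ?_⟩
        have h5 := hstep (lo + n + 1) (by omega) (by omega)
        have h6 := hinj (lo + n) (lo + n + 1 + 1) (by omega) (by omega) (by omega) (by omega)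
          (by omega)
        rw [ih3] at h5
        rw [ih1] at h6
        push_cast
        rcases hs1 with h7 | h7 <;> rw [h7] at h5 h6 ⊢ <;> omega
    intro j h1 h2
    have h3 := (key (j - lo).toNat (by omega)).1
    have e1 : ((j - lo).toNat : ℤ) = j - lo := by omega
    rw [e1, show lo + (j - lo) = j by ring] at h3
    have h4 := hσ j h1 h2
    rw [h3] at h4
    convert h4 using 3
    ring
  · refine ⟨1, σ lo - lo, Or.inl rfl, ?_⟩
    intro j h1 h2
    have hj : j = lo := by omega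
    subst hj
    have h4 := hσ lo h1 h2
    convert h4 using 3
    ring

/-- If `A` and `B` have small overlap then the chains satisfy the Behrstock inequality. -/
theorem beh (h : ChHyp a d δ κ η M E) (A B : Chain a d η M)
    (hAB : ∀ x ∈ B.pts, ∀ y ∈ B.pts, |A.pos x - A.pos y| ≤ 5)
    (hBA : ∀ x ∈ A.pts, ∀ y ∈ A.pts, |B.pos x - B.pos y| ≤ 5) (x : H) :
    (∀ b ∈ B.pts, |A.pos x - A.pos b| ≤ 7) ∨ (∀ y ∈ A.pts, |B.pos x - B.pos y| ≤ 7) := by
  have hδ := h.δ0
  have hκ := h.κ0
  have hη := h.η0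
  have hE := h.hE
  have hM := h.hM
  by_contra hcon
  push Not at hcon
  obtain ⟨⟨b0, hb0, hb1⟩, ⟨y0, hy0, hy1⟩⟩ := hcon
  apply absurd hy1
  rw [not_lt]
  have fin : ∀ j : ℤ, (∀ b ∈ B.pts, 35 * E < |A.t j x - A.t j b|) → |B.pos x - B.pos y0| ≤ 7 := by
    intro j hj
    have hline : ∀ i, (A.P j)⁻¹ * B.P i ∉ Subgroup.zpowers a := by
      intro i hi
      obtain ⟨p, hp⟩ := Subgroup.mem_zpowers_iff.1 hi
      have hb : A.P j * a ^ A.t j x ∈ B.pts := by
        refine ⟨i, A.t j x - p, ?_⟩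
        have : B.P i = A.P j * a ^ p := by rw [hp]; group
        rw [this, mul_assoc, ← zpow_add]
        congr 2; ring
      have h1 := hj _ hb
      have h2 : A.t j (A.P j * a ^ A.t j x) = A.t j x := by
        have h3 := h.toPar.toLin.tau_zpow (A.t j x)
        rw [show A.t j (A.P j * a ^ A.t j x) = tau a d ((A.P j)⁻¹ * (A.P j * a ^ A.t j x)) from rfl,
          inv_mul_cancel_left]
        exact h3
      rw [h2, sub_self, abs_zero] at h1
      omega
    have h1 : ∀ i, |B.t i x - B.t i (A.P j)| ≤ κ + 7 * δ + 3 := by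
      intro i
      rcases h.toPar.beh (hline i) x with h1 | h1
      · exfalso
        have h2 := h1 0
        have h3 := hj (B.P i * a ^ (0 : ℤ)) ⟨i, 0, rfl⟩
        simp only [Chain.t] at h3
        omega
      · have h2 := h1 0
        rw [zpow_zero, mul_one] at h2
        exact h2
    have h2 : |B.pos x - B.pos (A.P j)| ≤ 1 := by
      apply B.pos_close h
      intro i
      have := h1 i
      omega
    have h3 := hBA (A.P j) ⟨j, 0, by simp⟩ y0 hy0
    rw [abs_le] at h2 h3 ⊢
    constructor <;> omega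
  rcases lt_or_ge (A.pos x) (A.pos b0) with hlt | hge
  · apply fin (A.pos x + 2)
    intro b hb
    have h1 := hAB b0 hb0 b hb
    have h2 : A.pos x + 2 < A.pos b := by
      rcases abs_cases (A.pos x - A.pos b0) with h3 | h3 <;>
      rcases abs_cases (A.pos b0 - A.pos b) with h4 | h4 <;> omega
    have h3 := A.t_gt h (le_refl (A.pos x + 2))
    have h4 := A.t_lt h h2
    have h5 := A.m_ge (A.pos x + 2)
    rw [abs_le] at h3 h4
    rcases abs_cases (A.m (A.pos x + 2)) with h6 | h6 <;>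
    rcases abs_cases (A.t (A.pos x + 2) x - A.t (A.pos x + 2) b) with h7 | h7 <;> omega
  · apply fin (A.pos x - 1)
    intro b hb
    have h1 := hAB b0 hb0 b hb
    have h2 : A.pos b + 2 ≤ A.pos x - 1 := by
      rcases abs_cases (A.pos x - A.pos b0) with h3 | h3 <;>
      rcases abs_cases (A.pos b0 - A.pos b) with h4 | h4 <;> omega
    have h3 := A.t_gt h h2
    have h4 := A.t_lt h (show A.pos x - 1 < A.pos x by omega)
    have h5 := A.m_ge (A.pos x - 1)
    rw [abs_le] at h3 h4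
    rcases abs_cases (A.m (A.pos x - 1)) with h6 | h6 <;>
    rcases abs_cases (A.t (A.pos x - 1) x - A.t (A.pos x - 1) b) with h7 | h7 <;> omega

/-- If the projections of `x` and of `B` to `A` are distant then `A` is closer to `x` than `B`. -/
theorem rad (h : ChHyp a d δ κ η M E) (A B : Chain a d η M)
    (hAB : ∀ x ∈ B.pts, ∀ y ∈ B.pts, |A.pos x - A.pos y| ≤ 5) (x : H)
    (hx : ∃ b ∈ B.pts, 8 ≤ |A.pos x - A.pos b|) : ∃ y ∈ A.pts, ∀ b ∈ B.pts, d x y < d x b := by
  have hδ := h.δ0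
  have hκ := h.κ0
  have hη := h.η0
  have hE := h.hE
  have hM := h.hM
  obtain ⟨b0, hb0, h8⟩ := hx
  rcases lt_or_ge (A.pos x) (A.pos b0) with hlt | hge
  · refine ⟨A.P (A.pos x + 2), ⟨A.pos x + 2, 0, by simp⟩, ?_⟩
    intro b hb
    have h1 := hAB b0 hb0 b hb
    have h2 : A.pos x + 2 + 1 ≤ A.pos b := by
      rcases abs_cases (A.pos x - A.pos b0) with h3 | h3 <;>
      rcases abs_cases (A.pos b0 - A.pos b) with h4 | h4 <;> omega
    have h3 := A.pass h le_rfl h2
    have h4 := A.m_ge (A.pos x + 2)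
    have h5 := h.geo.nonneg (A.P (A.pos x + 2) * a ^ A.m (A.pos x + 2)) b
    omega
  · refine ⟨A.P (A.pos x - 1) * a ^ A.m (A.pos x - 1), ⟨A.pos x - 1, _, rfl⟩, ?_⟩
    intro b hb
    have h1 := hAB b0 hb0 b hb
    have h2 : A.pos b + 2 ≤ A.pos x - 1 := by
      rcases abs_cases (A.pos x - A.pos b0) with h3 | h3 <;>
      rcases abs_cases (A.pos b0 - A.pos b) with h4 | h4 <;> omega
    have h3 := A.pass h h2 (by omega : A.pos x - 1 + 1 ≤ A.pos x)
    have h4 := A.m_ge (A.pos x - 1)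
    have h5 := h.geo.nonneg b (A.P (A.pos x - 1))
    rw [h.geo.symm x b, h.geo.symm x]
    omega

end Chain

end Pool.Agent.LibSCQ
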