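import Pool.Agent.LibSCQ.Axes

/-!
TASK 6a. The metric on the quotient.
-/

set_option autoImplicit false

namespace Pool.Agent.LibSCQ

variable {H : Type} [Group H] {a b : H} {d : H → H → ℤ} {δ κ η M U E : ℤ} {N : Subgroup H}

/-- the metric on the quotient group -/
noncomputable def dbar (d : H → H → ℤ) (N : Subgroup H) (x y : H ⧸ N) : ℤ := dq d N x.out y.out

/-- pairs whose distance does not decrease in the quotient -/
def IsMin (d : H → H → ℤ) (N : Subgroup H) (x y : H) : Prop := d x y = dq d N x y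

section basic

theorem dq_bdd (h : Geo d) (x y : H) : BddBelow {k | ∃ g ∈ N, k = d x (g * y)} :=
  ⟨0, by rintro _ ⟨g, _, rfl⟩; exact h.nonneg _ _⟩

theorem dq_ne (x y : H) : {k | ∃ g ∈ N, k = d x (g * y)}.Nonempty :=
  ⟨d x (1 * y), 1, N.one_mem, rfl⟩

theorem dq_le (h : Geo d) {g : H} (hg : g ∈ N) (x y : H) : dq d N x y ≤ d x (g * y) := by
  exact csInf_le (dq_bdd h x y) ⟨g, hg, rfl⟩

theorem dq_le' (h : Geo d) (x y : H) : dq d N x y ≤ d x y := by
  have := dq_le h N.one_mem x y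
  rwa [one_mul] at this

theorem dq_mem (h : Geo d) (x y : H) : ∃ g ∈ N, dq d N x y = d x (g * y) := by
  obtain ⟨g, hg, h1⟩ := Int.csInf_mem (dq_ne (d := d) (N := N) x y) (dq_bdd h x y)
  exact ⟨g, hg, h1⟩

theorem dq_nonneg (h : Geo d) (x y : H) : 0 ≤ dq d N x y := by
  obtain ⟨g, _, h1⟩ := dq_mem (N := N) h x y
  rw [h1]
  exact h.nonneg _ _

theorem dq_symm (h : Geo d) (x y : H) : dq d N x y = dq d N y x := by
  have key : ∀ x y : H, dq d N y x ≤ dq d N x y := by
    intro x y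
    obtain ⟨g, hg, h1⟩ := dq_mem (N := N) h x y
    rw [h1]
    have h2 := dq_le h (N.inv_mem hg) y x
    have h3 : d y (g⁻¹ * x) = d x (g * y) := by
      rw [h.symm, ← h.inv g (g⁻¹ * x) y, mul_inv_cancel_left]
    rwa [h3] at h2
  exact le_antisymm (key y x) (key x y)

theorem dq_right (h : Geo d) {g : H} (hg : g ∈ N) (x y : H) : dq d N x (g * y) = dq d N x y := by
  have key : ∀ (g : H), g ∈ N → ∀ y : H, dq d N x y ≤ dq d N x (g * y) := by
    intro g hg y
    obtain ⟨g', hg', h1⟩ := dq_mem (N := N) h x (g * y)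
    rw [h1, ← mul_assoc]
    exact dq_le h (N.mul_mem hg' hg) x y
  refine le_antisymm ?_ (key g hg y)
  have h1 := key g⁻¹ (N.inv_mem hg) (g * y)
  rwa [inv_mul_cancel_left] at h1

theorem dq_left (h : Geo d) {g : H} (hg : g ∈ N) (x y : H) : dq d N (g * x) y = dq d N x y := by
  rw [dq_symm h, dq_right h hg, dq_symm h]

theorem dq_tri (h : Geo d) (x y z : H) : dq d N x z ≤ dq d N x y + dq d N y z := by
  obtain ⟨g1, hg1, h1⟩ := dq_mem (N := N) h x y
  obtain ⟨g2, hg2, h2⟩ := dq_mem (N := N) h y z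
  rw [h1, h2]
  refine (dq_le h (N.mul_mem hg1 hg2) x z).trans ((h.tri x (g1 * y) _).trans ?_)
  rw [mul_assoc, h.inv]

theorem dq_inv [N.Normal] (h : Geo d) (g x y : H) : dq d N (g * x) (g * y) = dq d N x y := by
  have key : ∀ g x y : H, dq d N (g * x) (g * y) ≤ dq d N x y := by
    intro g x y
    obtain ⟨n, hn, h1⟩ := dq_mem (N := N) h x y
    have h2 := dq_le h (‹N.Normal›.conj_mem n hn g) (g * x) (g * y)
    have h3 : g * n * g⁻¹ * (g * y) = g * (n * y) := by group
    rw [h3, h.inv] at h2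
    rwa [h1]
  refine le_antisymm (key g x y) ?_
  have h1 := key g⁻¹ (g * x) (g * y)
  rwa [inv_mul_cancel_left, inv_mul_cancel_left] at h1

theorem dbar_mk [N.Normal] (h : Geo d) (x y : H) :
    dbar d N (QuotientGroup.mk x) (QuotientGroup.mk y) = dq d N x y := by
  have key : ∀ x : H, ∃ n ∈ N, (QuotientGroup.mk x : H ⧸ N).out = n * x := by
    intro x
    obtain ⟨n, hn⟩ := QuotientGroup.mk_out_eq_mul N x
    refine ⟨x * n * x⁻¹, ‹N.Normal›.conj_mem n n.2 x, ?_⟩
    rw [hn]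
    group
  obtain ⟨n, hn, h1⟩ := key x
  obtain ⟨m, hm, h2⟩ := key y
  rw [dbar, h1, h2, dq_left h hn, dq_right h hm]

theorem geo_bar [N.Normal] (h : Geo d) : Geo (dbar d N) := by
  have hs : ∀ x : H ⧸ N, ∃ y : H, (QuotientGroup.mk y : H ⧸ N) = x := fun x =>
    QuotientGroup.mk_surjective x
  refine ⟨?_, ?_, ?_, ?_, ?_, ?_, ?_⟩
  · intro x
    obtain ⟨x, rfl⟩ := hs x
    rw [dbar_mk h]
    refine le_antisymm ?_ (dq_nonneg h x x)
    have := dq_le' (N := N) h x x
    rwa [h.self] at this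
  · intro x y hxy
    obtain ⟨x, rfl⟩ := hs x
    obtain ⟨y, rfl⟩ := hs y
    rw [dbar_mk h] at hxy
    obtain ⟨g, hg, h1⟩ := dq_mem (N := N) h x y
    rw [hxy] at h1
    have h2 := h.eq _ _ h1.symm
    rw [h2, QuotientGroup.mk_mul, (QuotientGroup.eq_one_iff g).2 hg, one_mul]
  · intro x y
    obtain ⟨x, rfl⟩ := hs x
    obtain ⟨y, rfl⟩ := hs y
    rw [dbar_mk h]
    exact dq_nonneg h x y
  · intro x y
    obtain ⟨x, rfl⟩ := hs x
    obtain ⟨y, rfl⟩ := hs y
    rw [dbar_mk h, dbar_mk h]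
    exact dq_symm h x y
  · intro x y z
    obtain ⟨x, rfl⟩ := hs x
    obtain ⟨y, rfl⟩ := hs y
    obtain ⟨z, rfl⟩ := hs z
    rw [dbar_mk h, dbar_mk h, dbar_mk h]
    exact dq_tri h x y z
  · intro g x y
    obtain ⟨g, rfl⟩ := hs g
    obtain ⟨x, rfl⟩ := hs x
    obtain ⟨y, rfl⟩ := hs y
    rw [← QuotientGroup.mk_mul, ← QuotientGroup.mk_mul, dbar_mk h, dbar_mk h]
    exact dq_inv h g x y
  · intro x y k hk hk'
    obtain ⟨x, rfl⟩ := hs x
    obtain ⟨y, rfl⟩ := hs y
    rw [dbar_mk h] at hk'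
    obtain ⟨g, hg, h1⟩ := dq_mem (N := N) h x y
    rw [h1] at hk'
    obtain ⟨z, hz1, hz2⟩ := h.geod x (g * y) k hk hk'
    refine ⟨QuotientGroup.mk z, ?_⟩
    rw [dbar_mk h, dbar_mk h, dbar_mk h]
    have h2 := dq_le' (N := N) h x z
    have h3 := dq_le h hg z y
    have h4 := dq_tri (N := N) h x z y
    constructor <;> omega

/-- a pair can be moved to a minimal pair -/
theorem exists_min (h : Geo d) (x y : H) :
    ∃ g ∈ N, IsMin d N x (g * y) ∧ d x (g * y) = dq d N x y := by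
  obtain ⟨g, hg, h1⟩ := dq_mem (N := N) h x y
  refine ⟨g, hg, ?_, h1.symm⟩
  rw [IsMin, dq_right h hg, h1]

theorem min_left (h : Geo d) {x y w : H} (hxy : IsMin d N x y) (hw : d x w + d w y = d x y) :
    IsMin d N x w := by
  have h1 := dq_le' (N := N) h x w
  have h2 := dq_le' (N := N) h w y
  have h3 := dq_tri (N := N) h x w y
  unfold IsMin at *
  omega

theorem min_right (h : Geo d) {x y w : H} (hxy : IsMin d N x y) (hw : d x w + d w y = d x y) :
    IsMin d N w y := by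
  have h1 := dq_le' (N := N) h x w
  have h2 := dq_le' (N := N) h w y
  have h3 := dq_tri (N := N) h x w y
  unfold IsMin at *
  omega

theorem min_symm (h : Geo d) {x y : H} (hxy : IsMin d N x y) : IsMin d N y x := by
  unfold IsMin at *
  rw [h.symm, dq_symm h, hxy]

theorem min_mul (h : Geo d) {g x y : H} (hg : g ∈ N) (hxy : IsMin d N x y) :
    IsMin d N (g * x) (g * y) := by
  unfold IsMin at *
  rw [h.inv, dq_left h hg, dq_right h hg, hxy]

end basic

section axes

theorem SCHyp.pos (h : SCHyp a d δ κ η M U E) : 1 ≤ E ∧ 500000 ≤ M ∧ M ≤ U ∧ η ≤ E := by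
  have h1 := h.hE
  have h2 := h.η0
  have h3 := h.κ0
  have h4 := h.δ0
  have h5 := h.hE5
  have h6 := h.hMU
  refine ⟨?_, ?_, h6, ?_⟩ <;> omega

/-- minimal pairs have bounded displacement along all axes (`Chain.shorten`) -/
theorem AxSys.disp (h : SCHyp a d δ κ η M U E) (X : AxSys a d η M U N) {A : Chain a d η M} {r : H}
    {p : ℕ} (hA : (A, r, p) ∈ X.Ax) {x y : H} (hxy : IsMin d N x y) :
    |A.pos x - A.pos y| ≤ 502 := by
  have hr := X.mem A r p hA
  have key : ∀ x y : H, IsMin d N x y → A.pos y ≤ A.pos x + 502 := by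
    intro x y hxy
    by_contra hcon
    have h1 := Chain.shorten h.toChHyp A h.hE5 h.hU h.hMU (X.per_ge A r p hA) (X.per_le A r p hA)
      (fun i => X.P_per A r p i hA) (fun i => X.m_per A r p i hA)
      (fun i k hk => X.m_sum A r p i k hA hk) (x := x) (z := y) (by omega)
    have h2 := dq_le' (N := N) h.geo (r * x) y
    rw [dq_left h.geo hr] at h2
    unfold IsMin at hxy
    omega
  have h1 := key x y hxy
  have h2 := key y x (min_symm h.geo hxy)
  rw [abs_le]
  constructor <;> omega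

/-- elements of `N` move points far away -/
theorem AxSys.inj (h : SCHyp a d δ κ η M U E) (X : AxSys a d η M U N) {g : H} (hg : g ∈ N)
    (h1 : g ≠ 1) (x : H) : 200 * M ≤ d x (g * x) := by
  obtain ⟨A, r, p, hA, h2⟩ := X.visible g hg h1 x
  have h3 := Chain.pos_lip h.toChHyp A x (g * x)
  obtain ⟨_, h4, _, _⟩ := h.pos
  have h5 : M * 913 ≤ M * (|A.pos x - A.pos (g * x)| - 2) :=
    mul_le_mul_of_nonneg_left (by omega) (by omega)
  omega

theorem AxSys.line_bar (h : SCHyp a d δ κ η M U E) (X : AxSys a d η M U N) (k : ℤ) :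
    dq d N 1 (a ^ k) = |k| := by
  obtain ⟨g, hg, h1⟩ := dq_mem (N := N) h.geo 1 (a ^ k)
  by_cases hg1 : g = 1
  · rw [h1, hg1, one_mul, h.line]
  · exfalso
    obtain ⟨A, r, p, hA, h2⟩ := X.visible g hg hg1 (a ^ k)
    have h3 := Chain.pos_coset h.toChHyp A 1 0 k
    rw [one_mul, one_mul, zpow_zero] at h3
    have h4 : IsMin d N 1 (g * a ^ k) := by
      rw [IsMin, dq_right h.geo hg, h1]
    have h5 := X.disp h hA h4
    have h6 := abs_le.1 h3
    have h7 := abs_le.1 h5
    rcases le_abs.1 h2 with h8 | h8 <;> omega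

theorem d_zpow_le (h : Geo d) (hb : d 1 b ≤ 1) (k : ℤ) : d 1 (b ^ k) ≤ |k| := by
  have key : ∀ n : ℕ, d 1 (b ^ n) ≤ n := by
    intro n
    induction n with
    | zero => rw [pow_zero, h.self]; rfl
    | succ n ih =>
      have h1 := h.tri 1 (b ^ n) (b ^ (n + 1))
      have h2 := h.inv (b ^ n) 1 b
      rw [mul_one, ← pow_succ] at h2
      push_cast
      omega
  rcases le_total 0 k with hk | hk
  · obtain ⟨n, rfl⟩ := Int.eq_ofNat_of_zero_le hk
    rw [zpow_natCast, abs_of_nonneg hk]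
    exact key n
  · obtain ⟨n, hn⟩ := Int.eq_ofNat_of_zero_le (neg_nonneg.2 hk)
    obtain rfl : k = -n := by omega
    rw [zpow_neg, zpow_natCast, abs_neg, Nat.abs_cast]
    have h1 := h.inv (b ^ n) 1 (b ^ n)⁻¹
    rw [mul_one, mul_inv_cancel, h.symm] at h1
    rw [← h1]
    exact key n

theorem AxSys.jsep_bar (h : SCHyp a d δ κ η M U E) (X : AxSys a d η M U N) (hb : d 1 b ≤ 1)
    (hM : 100000 ≤ M)
    (hj : ∀ k l : ℤ, |k| ≤ 2000 → |l| ≤ 2000 → ∀ x y : ℤ, b ^ k = a ^ x * b ^ l * a ^ y → k = l)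
    {g : H} (hg : g ∈ N) {k l x y : ℤ} (hk : |k| ≤ 2000) (hl : |l| ≤ 2000)
    (he : g * b ^ k = a ^ x * b ^ l * a ^ y) : k = l := by
  by_cases hg1 : g = 1
  · rw [hg1, one_mul] at he
    exact hj k l hk hl x y he
  · exfalso
    obtain ⟨A, r, p, hA, h2⟩ := X.visible g hg hg1 (b ^ k)
    have k1 := d_zpow_le h.geo hb k
    have k2 := d_zpow_le h.geo hb l
    have h3 := Chain.pos_near h.toChHyp A (x := 1) (y := b ^ k) (by omega)
    have h4 := Chain.pos_coset h.toChHyp A 1 0 x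
    rw [one_mul, one_mul, zpow_zero] at h4
    have k3 := h.geo.inv (a ^ x) 1 (b ^ l)
    rw [mul_one] at k3
    have h5 := Chain.pos_near h.toChHyp A (x := a ^ x) (y := a ^ x * b ^ l) (by omega)
    have h6 := Chain.pos_coset h.toChHyp A (a ^ x * b ^ l) 0 y
    rw [zpow_zero, mul_one, ← he] at h6
    have h3' := abs_le.1 h3
    have h4' := abs_le.1 h4
    have h5' := abs_le.1 h5
    have h6' := abs_le.1 h6
    rcases le_abs.1 h2 with h8 | h8 <;> omega

/-- points of the same position that are passed from both sides are close -/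
theorem AxSys.bridge (h : SCHyp a d δ κ η M U E) (X : AxSys a d η M U N) {A : Chain a d η M} {r : H}
    {p : ℕ} (hA : (A, r, p) ∈ X.Ax) {x z z' y : H} (hz : |A.pos z - A.pos z'| ≤ 1)
    (hx : A.pos x + 3 ≤ A.pos z) (hy : A.pos z' + 3 ≤ A.pos y) :
    d z z' ≤ d x z + d z' y + 5 * U := by
  obtain ⟨e1, e2, e3, e4⟩ := h.pos
  have hz' := abs_le.1 hz
  have h1 := Chain.pass h.toChHyp A (j := A.pos z - 1) (x := x) (y := z) (by omega) (by omega)
  have h2 := Chain.pass h.toChHyp A (j := A.pos z' + 2) (x := z') (y := y) (by omega) (by omega)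
  have h3 := h.geo.nonneg x (A.P (A.pos z - 1))
  have h4 := abs_nonneg (A.m (A.pos z - 1))
  have h5 := abs_nonneg (A.m (A.pos z' + 2))
  have h6 := h.geo.nonneg (A.P (A.pos z' + 2) * a ^ A.m (A.pos z' + 2)) y
  obtain ⟨n, hn⟩ := Int.eq_ofNat_of_zero_le (show 0 ≤ A.pos z' + 2 - A.pos z by omega)
  have hn3 : n ≤ 3 := by omega
  have h7 := Chain.upper h.toChHyp A (A.pos z) n
  have h8 := X.m_sum A r p (A.pos z) n hA (by have := X.per_ge A r p hA; omega)
  have hn' : A.pos z + (n : ℤ) = A.pos z' + 2 := by omega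
  rw [hn'] at h7
  have h9 : ((n : ℤ) + 1) * U ≤ 4 * U := mul_le_mul_of_nonneg_right (by omega) (by omega)
  have h10 : (n : ℤ) * η ≤ 3 * η := mul_le_mul_of_nonneg_right (by omega) h.η0
  have h11 : d (A.P (A.pos z - 1) * a ^ A.m (A.pos z - 1)) (A.P (A.pos z)) ≤ η := by
    have h12 := A.step (A.pos z - 1)
    rw [sub_add_cancel] at h12
    have h13 := h.geo.inv (A.P (A.pos z - 1) * a ^ A.m (A.pos z - 1)) 1 (A.e (A.pos z - 1))
    rw [mul_one, ← h12] at h13
    rw [h13]
    exact A.e_le _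
  have h14 := h.geo.tri z (A.P (A.pos z - 1) * a ^ A.m (A.pos z - 1)) z'
  have h15 := h.geo.tri (A.P (A.pos z - 1) * a ^ A.m (A.pos z - 1)) (A.P (A.pos z)) z'
  have h16 := h.geo.tri (A.P (A.pos z)) (A.P (A.pos z' + 2)) z'
  have h17 := h.geo.symm z (A.P (A.pos z - 1) * a ^ A.m (A.pos z - 1))
  have h18 := h.geo.symm (A.P (A.pos z' + 2)) z'
  have h19 := h.hE5
  omega

/-- `⟨a⟩ ∩ N` is trivial and cosets stay distinct up to `N`: if `g a^i` and `a^s` are within `Δ`
modulo `N`, and also `g a^j` and `a^t`, and `g` is not in `N ⟨a⟩`, then `s` and `t` are close. -/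
theorem AxSys.par_lift (h : SCHyp a d δ κ η M U E) (X : AxSys a d η M U N) [N.Normal] {g : H}
    (hg : ∀ k : ℤ, g * a ^ k ∉ N) {i j s t Δ : ℤ} (h1 : dq d N (a ^ s) (g * a ^ i) ≤ Δ)
    (h2 : dq d N (a ^ t) (g * a ^ j) ≤ Δ) : |s - t| ≤ 4 * Δ + 6 * U + κ := by
  obtain ⟨e1, e2, e3, e4⟩ := h.pos
  -- the case where the first pair is minimal
  have key : ∀ g : H, (∀ k : ℤ, g * a ^ k ∉ N) → IsMin d N (a ^ s) (g * a ^ i) →
      d (a ^ s) (g * a ^ i) ≤ Δ → dq d N (a ^ t) (g * a ^ j) ≤ Δ →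
      |s - t| ≤ 4 * Δ + 6 * U + κ := by
    intro g hg hmin h1 h2
    rw [dq_symm h.geo] at h2
    obtain ⟨g', hg', hmin', h3⟩ := exists_min (N := N) h.geo (g * a ^ j) (a ^ t)
    by_cases hg1 : g' = 1
    · rw [hg1, one_mul] at h3
      have hgz : g ∉ Subgroup.zpowers a := by
        rintro ⟨k, hk⟩
        apply hg (-k)
        have hk' : a ^ k = g := hk
        rw [← hk', ← zpow_add, add_neg_cancel, zpow_zero]
        exact N.one_mem
      have h4 := h.tau_near (g * a ^ i) s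
      have h5 := h.tau_near (g * a ^ j) t
      have h6 := h.tau_par hgz i j
      have h7 := h.geo.symm (a ^ s) (g * a ^ i)
      have h4' := abs_le.1 h4
      have h5' := abs_le.1 h5
      have h6' := abs_le.1 h6
      rw [abs_le]
      constructor <;> omega
    · obtain ⟨A, r, p, hA, h4⟩ := X.visible g' hg' hg1 (a ^ t)
      have h5 := Chain.pos_coset h.toChHyp A 1 s t
      rw [one_mul, one_mul] at h5
      have h6 := Chain.pos_coset h.toChHyp A g i j
      have h7 := X.disp h hA hmin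
      have h8 := X.disp h hA hmin'
      have h5' := abs_le.1 h5
      have h6' := abs_le.1 h6
      have h7' := abs_le.1 h7
      have h8' := abs_le.1 h8
      have h9 : d (g * a ^ i) (g * a ^ j) ≤ 2 * Δ + 5 * U := by
        rcases le_abs.1 h4 with h10 | h10
        · have h11 := X.bridge h hA (x := g' * a ^ t) (z := g * a ^ j) (z' := g * a ^ i)
            (y := a ^ s) (by rw [abs_sub_comm]; exact h6) (by omega) (by omega)
          have h12 := h.geo.symm (g * a ^ i) (g * a ^ j)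
          have h13 := h.geo.symm (g' * a ^ t) (g * a ^ j)
          have h14 := h.geo.symm (g * a ^ i) (a ^ s)
          omega
        · have h11 := X.bridge h hA (x := a ^ s) (z := g * a ^ i) (z' := g * a ^ j)
            (y := g' * a ^ t) h6 (by omega) (by omega)
          omega
      have h10 : dq d N (a ^ s) (a ^ t) = |s - t| := by
        have h11 := dq_inv (N := N) h.geo (a ^ s) 1 (a ^ (t - s))
        rw [mul_one, ← zpow_add, add_sub_cancel, X.line_bar h, abs_sub_comm] at h11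
        exact h11
      have h11 := dq_tri (N := N) h.geo (a ^ s) (g * a ^ i) (a ^ t)
      have h12 := dq_tri (N := N) h.geo (g * a ^ i) (g * a ^ j) (a ^ t)
      have h13 := dq_le' (N := N) h.geo (a ^ s) (g * a ^ i)
      have h14 := dq_le' (N := N) h.geo (g * a ^ i) (g * a ^ j)
      have h15 := h.κ0
      omega
  obtain ⟨g1, hg1, hmin, h3⟩ := exists_min (N := N) h.geo (a ^ s) (g * a ^ i)
  rw [← mul_assoc] at hmin h3
  refine key (g1 * g) (fun k hk => hg k ?_) hmin (by omega) ?_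
  · have h4 := N.mul_mem (N.inv_mem hg1) hk
    rwa [mul_assoc, inv_mul_cancel_left] at h4
  · rw [mul_assoc, dq_right h.geo hg1]
    exact h2

end axes

end Pool.Agent.LibSCQ
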