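import Pool.Agent.LibSCQ.Axes

/-!
TASK 5. The relators of one step: `fw b (a ^ n) = a ^ c` and `gw b (a ^ n) = w`.
-/

set_option autoImplicit false

namespace Pool.Agent.LibSCQ

/-- the hypotheses for one step of the construction -/
structure StepHyp {H : Type} [Group H] (a b : H) (d : H → H → ℤ) (δ κ : ℤ) (D : Set ℤ)
    (n E c : ℤ) (w : H) : Prop extends Good a b d δ κ D where
  hE : δ + κ + d 1 w + |c| + 3000 ≤ E
  hn : 1000000 * E ≤ n

/-- the normal closure of the relators -/
def NC {H : Type} [Group H] (a b : H) (n c : ℤ) (w : H) : Subgroup H :=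
  Subgroup.normalClosure {fw b (a ^ n) * (a ^ c)⁻¹, gw b (a ^ n) * w⁻¹}

instance {H : Type} [Group H] (a b : H) (n c : ℤ) (w : H) : (NC a b n c w).Normal :=
  Subgroup.normalClosure_normal

variable {H : Type} [Group H] {a b : H} {d : H → H → ℤ} {δ κ : ℤ} {D : Set ℤ} {n E c : ℤ} {w : H}

/-- the parameters are those of a small cancellation quotient -/
theorem StepHyp.sc (h : StepHyp a b d δ κ D n E c w) :
    SCHyp a d δ κ (d 1 w + 2001) (n - E) (n + E) E := by
  have h1 := h.hE
  have h2 := h.hn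
  have h3 := h.δ0
  have h4 := h.κ0
  have h5 := h.geo.nonneg 1 w
  have h6 := abs_nonneg c
  exact { h.toPar with
    η0 := by omega
    hE := by omega
    hM := by omega
    hE5 := by omega
    hU := by omega
    hMU := by omega }

/-! ### periodic chains -/

section per

/-- the points of one period of a periodic chain -/
def pbase (a p0 : H) (e : ℕ → H) (m : ℕ → ℤ) : ℕ → H
  | 0 => p0
  | k + 1 => pbase a p0 e m k * a ^ m k * e k

theorem pbase_succ (a p0 : H) (e : ℕ → H) (m : ℕ → ℤ) (k : ℕ) :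
    pbase a p0 e m (k + 1) = pbase a p0 e m k * a ^ m k * e k := rfl

variable {η M : ℤ}

/-- the periodic chain with given period -/
def pchain (a : H) (d : H → H → ℤ) (η M : ℤ) (K : ℕ) (hK : 0 < K) (p0 : H) (e : ℕ → H) (m : ℕ → ℤ)
    (h1 : ∀ k < K, e k ∉ Subgroup.zpowers a) (h2 : ∀ k < K, d 1 (e k) ≤ η)
    (h3 : ∀ k < K, M ≤ |m k|) : Chain a d η M where
  P i := (pbase a p0 e m K * p0⁻¹) ^ (i / (K : ℤ)) * pbase a p0 e m (i % (K : ℤ)).toNat
  m i := m (i % (K : ℤ)).toNat
  e i := e (i % (K : ℤ)).toNat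
  step i := by
    have hK' : (0 : ℤ) < K := by exact_mod_cast hK
    have hr0 := Int.emod_nonneg i hK'.ne'
    have hr1 := Int.emod_lt_of_pos i hK'
    have hdm := Int.mul_ediv_add_emod i K
    by_cases hc : i % (K : ℤ) + 1 < K
    · have e1 : (i + 1) / (K : ℤ) = i / K := by
        have := (Int.ediv_emod_unique (a := i + 1) (b := (K : ℤ)) (r := i % K + 1) (q := i / K)
          hK').2 ⟨by linarith, by omega, hc⟩
        exact this.1
      have e2 : (i + 1) % (K : ℤ) = i % K + 1 := by
        have := (Int.ediv_emod_unique (a := i + 1) (b := (K : ℤ)) (r := i % K + 1) (q := i / K)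
          hK').2 ⟨by linarith, by omega, hc⟩
        exact this.2
      have e3 : (i % (K : ℤ) + 1).toNat = (i % (K : ℤ)).toNat + 1 := by omega
      rw [e1, e2, e3]
      simp only [pbase, mul_assoc]
    · have e1 : (i + 1) / (K : ℤ) = i / K + 1 := by
        have := (Int.ediv_emod_unique (a := i + 1) (b := (K : ℤ)) (r := 0) (q := i / K + 1)
          hK').2 ⟨by linarith, le_refl _, hK'⟩
        exact this.1
      have e2 : (i + 1) % (K : ℤ) = 0 := by
        have := (Int.ediv_emod_unique (a := i + 1) (b := (K : ℤ)) (r := 0) (q := i / K + 1)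
          hK').2 ⟨by linarith, le_refl _, hK'⟩
        exact this.2
      have e3 : pbase a p0 e m K = pbase a p0 e m (i % (K : ℤ)).toNat *
          a ^ m (i % (K : ℤ)).toNat * e (i % (K : ℤ)).toNat := by
        have : K = (i % (K : ℤ)).toNat + 1 := by omega
        conv_lhs => rw [this]
        rfl
      rw [e1, e2, zpow_add_one]
      simp only [Int.toNat_zero, pbase]
      rw [mul_assoc ((pbase a p0 e m K * p0⁻¹) ^ (i / (K : ℤ))), inv_mul_cancel_right, e3]
      simp only [mul_assoc]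
  e_not i := h1 _ (by
    have hK' : (0 : ℤ) < K := by exact_mod_cast hK
    have hr0 := Int.emod_nonneg i hK'.ne'
    have hr1 := Int.emod_lt_of_pos i hK'
    omega)
  e_le i := h2 _ (by
    have hK' : (0 : ℤ) < K := by exact_mod_cast hK
    have hr0 := Int.emod_nonneg i hK'.ne'
    have hr1 := Int.emod_lt_of_pos i hK'
    omega)
  m_ge i := h3 _ (by
    have hK' : (0 : ℤ) < K := by exact_mod_cast hK
    have hr0 := Int.emod_nonneg i hK'.ne'
    have hr1 := Int.emod_lt_of_pos i hK'
    omega)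

theorem toNat_emod_lt (i : ℤ) {K : ℕ} (hK : 0 < K) : (i % (K : ℤ)).toNat < K := by
  have hK' : (0 : ℤ) < K := by exact_mod_cast hK
  have hr0 := Int.emod_nonneg i hK'.ne'
  have hr1 := Int.emod_lt_of_pos i hK'
  omega

theorem eq_add_of_toNat {i j : ℤ} {K : ℕ} (hK : 0 < K)
    (h : (i % (K : ℤ)).toNat = (j % (K : ℤ)).toNat) : ∃ t : ℤ, i = j + t * K := by
  have hK' : (0 : ℤ) < K := by exact_mod_cast hK
  have hr0 := Int.emod_nonneg i hK'.ne'
  have hr1 := Int.emod_nonneg j hK'.ne'
  have h2 : i % (K : ℤ) = j % (K : ℤ) := by omega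
  refine ⟨i / K - j / K, ?_⟩
  have h3 := Int.mul_ediv_add_emod i K
  have h4 := Int.mul_ediv_add_emod j K
  rw [h2] at h3
  linear_combination h4 - h3

/-- sums of travels over at most one period -/
theorem sum_period {K : ℕ} (hK : 0 < K) (m : ℕ → ℤ) {U : ℤ} (hU : 0 ≤ U)
    (h1 : ∀ k < K, k + 1 < K → |m k| ≤ U) (h2 : ∀ k < K, |m k| ≤ 2 * U) (i : ℤ) (k : ℕ)
    (hk : k ≤ K) :
    ∑ l ∈ Finset.range k, |m ((i + l) % (K : ℤ)).toNat| ≤ (k + 1) * U := by
  classical
  have hK' : (0 : ℤ) < K := by exact_mod_cast hK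
  have key : ∀ l ∈ Finset.range k, |m ((i + l) % (K : ℤ)).toNat| ≤
      U + if ((i + l) % (K : ℤ)).toNat + 1 = K then U else 0 := by
    intro l _
    have hlt := toNat_emod_lt (i + l) hK
    split_ifs with hc
    · have := h2 _ hlt; linarith
    · have := h1 _ hlt (by omega); linarith
  refine (Finset.sum_le_sum key).trans ?_
  rw [Finset.sum_add_distrib, Finset.sum_const, Finset.card_range, ← Finset.sum_filter,
    Finset.sum_const, nsmul_eq_mul, nsmul_eq_mul]
  have hc : (Finset.filter (fun l : ℕ => ((i + l) % (K : ℤ)).toNat + 1 = K)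
      (Finset.range k)).card ≤ 1 := by
    rw [Finset.card_le_one]
    intro x hx y hy
    rw [Finset.mem_filter, Finset.mem_range] at hx hy
    have hx1 := Int.emod_nonneg (i + x) hK'.ne'
    have hy1 := Int.emod_nonneg (i + y) hK'.ne'
    have e1 : (i + x) % (K : ℤ) = (i + y) % (K : ℤ) := by omega
    have e2 : (K : ℤ) ∣ (x : ℤ) - y := by
      have h := Int.ModEq.dvd (a := i + y) (b := i + x) (n := K) e1.symm
      simpa using h
    obtain ⟨q, hq⟩ := e2
    have hxk : (x : ℤ) < K := by exact_mod_cast hx.1.trans_le hk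
    have hyk : (y : ℤ) < K := by exact_mod_cast hy.1.trans_le hk
    have : q = 0 := by
      by_contra hne
      rcases lt_or_gt_of_ne hne with h0 | h0
      · have : (K : ℤ) * q ≤ K * (-1) := mul_le_mul_of_nonneg_left (by omega) hK'.le
        omega
      · have : (K : ℤ) * 1 ≤ K * q := mul_le_mul_of_nonneg_left (by omega) hK'.le
        omega
    rw [this] at hq
    omega
  have hc' : ((Finset.filter (fun l : ℕ => ((i + l) % (K : ℤ)).toNat + 1 = K)
      (Finset.range k)).card : ℤ) ≤ 1 := by exact_mod_cast hc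
  nlinarith

end per


/-! ### powers of `b` -/

theorem StepHyp.pow_ne (h : StepHyp a b d δ κ D n E c w) {k : ℕ} (hk : 0 < k) (hk' : k ≤ 2000) :
    b ^ k ∉ Subgroup.zpowers a := by
  rintro ⟨x, hx⟩
  have := h.jsep k 0 (by rw [abs_of_nonneg (by positivity)]; exact_mod_cast hk') (by norm_num) x 0
    (by simp only [zpow_natCast, zpow_zero, mul_one]; exact hx.symm)
  omega

theorem Geo.mul_le {d : H → H → ℤ} (h : Geo d) (x y : H) : d 1 (x * y) ≤ d 1 x + d 1 y := by
  have h1 := h.tri 1 x (x * y)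
  have h2 := h.inv x 1 y
  rw [mul_one] at h2
  linarith

theorem Geo.inv_eq {d : H → H → ℤ} (h : Geo d) (x : H) : d 1 x⁻¹ = d 1 x := by
  have h2 := h.inv x 1 x⁻¹
  rw [mul_one, mul_inv_cancel] at h2
  rw [← h2, h.symm]

theorem Geo.pow_le {d : H → H → ℤ} (h : Geo d) (x : H) (k : ℕ) : d 1 (x ^ k) ≤ k * d 1 x := by
  induction k with
  | zero => simp [h.self]
  | succ k ih =>
    rw [pow_succ]
    have := h.mul_le (x ^ k) x
    push_cast
    linarith

theorem StepHyp.pow_le (h : StepHyp a b d δ κ D n E c w) (k : ℕ) : d 1 (b ^ k) ≤ k := by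
  have h1 := h.geo.pow_le b k
  have h2 := h.b_le
  have h3 : (0 : ℤ) ≤ k := by positivity
  nlinarith

/-- two junctions that are positive powers of `b` -/
theorem StepHyp.jpos (h : StepHyp a b d δ κ D n E c w) {k l : ℕ} (hk : 0 < k) (hk' : k ≤ 2000)
    (hl' : l ≤ 2000) {x y : ℤ} (hxy : b ^ k = a ^ x * b ^ l * a ^ y) :
    k = l ∧ x = 0 ∧ y = 0 := by
  have e1 : (k : ℤ) = l := by
    refine h.jsep k l ?_ ?_ x y ?_
    · rw [abs_of_nonneg (by positivity)]; exact_mod_cast hk'
    · rw [abs_of_nonneg (by positivity)]; exact_mod_cast hl'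
    · simpa only [zpow_natCast] using hxy
  have e2 : k = l := by exact_mod_cast e1
  subst e2
  have e3 : a ^ (-x) * b ^ k = b ^ k * a ^ y := by
    rw [zpow_neg]
    nth_rewrite 1 [hxy]
    group
  have := h.toPar.malnormal (h.pow_ne hk hk') e3
  exact ⟨rfl, by omega, this.2⟩

theorem StepHyp.jneg (h : StepHyp a b d δ κ D n E c w) {k l : ℕ} (hk : 0 < k) (hk' : k ≤ 2000)
    (hl' : l ≤ 2000) (x y : ℤ) : b ^ k ≠ a ^ x * (b ^ l)⁻¹ * a ^ y := by
  intro hxy
  have e1 : (k : ℤ) = -l := by
    refine h.jsep k (-l) ?_ ?_ x y ?_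
    · rw [abs_of_nonneg (by positivity)]; exact_mod_cast hk'
    · rw [abs_neg, abs_of_nonneg (by positivity)]; exact_mod_cast hl'
    · simpa only [zpow_neg, zpow_natCast] using hxy
  omega

/-! ### the words `fw` and `gw` -/

/-- partial products -/
def pw (b u : H) (s N : ℕ) : H := ((List.range N).map fun k => b ^ (k + s) * u).prod

theorem pw_succ (b u : H) (s N : ℕ) : pw b u s (N + 1) = pw b u s N * (b ^ (N + s) * u) := by
  simp [pw, List.range_succ]

theorem fw_eq (b u : H) : fw b u = pw b u 1 1000 := rfl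

theorem gw_eq (b u : H) : gw b u = pw b u 1001 1000 := rfl

theorem pbase_pw (b u : H) (s N : ℕ) (e : ℕ → H) (m : ℕ → ℤ) (hu : ∀ k < N, a ^ m k = u)
    (he : ∀ k < N, e k = b ^ (k + 1 + s)) : pbase a (b ^ s) e m N = pw b u s N * b ^ (N + s) := by
  induction N with
  | zero => simp [pbase, pw]
  | succ N ih =>
    rw [pbase, ih (fun k hk => hu k (by omega)) (fun k hk => he k (by omega)),
      hu N (by omega), he N (by omega), pw_succ]
    simp only [mul_assoc]

/-! ### the chain of the word `f` -/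

/-- the exponents of the junctions of the chain of `f` -/
def ef (k : ℕ) : ℕ := if k = 999 then 1 else k + 2

/-- the travels of the chain of `f` -/
def mf (m c : ℤ) (k : ℕ) : ℤ := if k = 999 then m - c else m

theorem ef_pos (k : ℕ) : 0 < ef k := by unfold ef; split_ifs <;> omega

theorem ef_le {k : ℕ} (hk : k < 1000) : ef k ≤ 1000 := by unfold ef; split_ifs <;> omega

theorem ef_inj {k l : ℕ} (hk : k < 1000) (hl : l < 1000) (h : ef k = ef l) : k = l := by
  unfold ef at h; split_ifs at h <;> omega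

theorem pbase_f (a b : H) (m c : ℤ) :
    pbase a b (fun k => b ^ ef k) (mf m c) 999 = pw b (a ^ m) 1 999 * b ^ 1000 := by
  have := pbase_pw (a := a) b (a ^ m) 1 999 (fun k => b ^ ef k) (mf m c)
    (fun k hk => by unfold mf; rw [if_neg (by omega)])
    (fun k hk => by unfold ef; rw [if_neg (by omega)])
  rw [pow_one] at this
  exact this

theorem pbase_f' (a b : H) (m c : ℤ) :
    pbase a b (fun k => b ^ ef k) (mf m c) 1000 * b⁻¹ = fw b (a ^ m) * (a ^ c)⁻¹ := by
  have e1 : pbase a b (fun k => b ^ ef k) (mf m c) 1000 =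
      pbase a b (fun k => b ^ ef k) (mf m c) 999 * a ^ mf m c 999 * b ^ ef 999 := rfl
  have e2 : pw b (a ^ m) 1 1000 = pw b (a ^ m) 1 999 * (b ^ 1000 * a ^ m) :=
    pw_succ b (a ^ m) 1 999
  rw [e1, pbase_f, fw_eq, e2]
  simp only [ef, mf, if_true, pow_one, mul_inv_cancel_right, zpow_sub]
  simp only [mul_assoc]

/-- the chain of `f` with travel `m` -/
def fchain (h : StepHyp a b d δ κ D n E c w) (m c' M : ℤ) (h1 : M ≤ |m|) (h2 : M ≤ |m - c'|) :
    Chain a d (d 1 w + 2001) M :=
  pchain a d _ M 1000 (by norm_num) b (fun k => b ^ ef k) (mf m c')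
    (fun k hk => h.pow_ne (ef_pos k) ((ef_le hk).trans (by norm_num)))
    (fun k hk => (h.pow_le _).trans (by
      have := h.geo.nonneg 1 w
      have h3 : ((ef k : ℕ) : ℤ) ≤ 1000 := by exact_mod_cast ef_le hk
      linarith))
    (fun k _ => by unfold mf; split_ifs <;> assumption)


/-! ### the chain of the word `g` -/

/-- the data of the chain of `g` -/
structure GData {H : Type} [Group H] (a b : H) (d : H → H → ℤ) (n E : ℤ) (w : H) where
  K : ℕ
  p0 : H
  e : ℕ → H
  m : ℕ → ℤ
  x : ℕ → Prop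
  ex : ℕ → ℕ
  K1 : 999 ≤ K
  K2 : K ≤ 1000
  e_not : ∀ k < K, e k ∉ Subgroup.zpowers a
  e_le : ∀ k < K, d 1 (e k) ≤ d 1 w + 2001
  m_ge : ∀ k < K, n - E ≤ |m k|
  m_le : ∀ k < K, k + 1 < K → |m k| ≤ n + E
  m_le2 : ∀ k < K, |m k| ≤ 2 * (n + E)
  x_last : ∀ k < K, x k → k + 1 = K
  e_eq : ∀ k < K, ¬ x k → e k = b ^ ex k ∧ 1001 ≤ ex k ∧ ex k ≤ 2000
  ex_inj : ∀ k < K, ∀ l < K, ¬ x k → ¬ x l → ex k = ex l → k = l
  r_eq : pbase a p0 e m K * p0⁻¹ = gw b (a ^ n) * w⁻¹

theorem StepHyp.gdata (h : StepHyp a b d δ κ D n E c w) : Nonempty (GData a b d n E w) := by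
  have h1 := h.hE
  have h2 := h.hn
  have h3 := h.δ0
  have h4 := h.κ0
  have h5 := h.geo.nonneg 1 w
  have h6 := abs_nonneg c
  have hn0 : 0 ≤ n := by omega
  have hu1 : d 1 (w⁻¹ * b ^ 1001) ≤ d 1 w + 1001 := by
    have := h.geo.mul_le w⁻¹ (b ^ 1001)
    have h8 := h.pow_le 1001
    rw [h.geo.inv_eq] at this
    push_cast at h8
    linarith
  by_cases hu : w⁻¹ * b ^ 1001 ∈ Subgroup.zpowers a
  · obtain ⟨s, hs⟩ := hu
    beta_reduce at hs
    have hs1 : |s| ≤ d 1 w + 1001 := by rw [← h.line s, hs]; exact hu1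
    have hs2 := abs_le.1 hs1
    have key : ∀ N ≤ 998, pbase a (b ^ 1001 * a ^ n * b ^ 1002)
        (fun k => if k = 998 then b ^ 1002 else b ^ (k + 1003))
        (fun k => if k = 998 then 2 * n + s else n) N =
        pw b (a ^ n) 1001 (N + 1) * b ^ (N + 1002) := by
      intro N
      induction N with
      | zero => intro _; simp [pbase, pw]
      | succ N ih =>
        intro hN
        rw [pbase, ih (by omega), pw_succ b (a ^ n) 1001 (N + 1)]
        simp only [show ¬ N = 998 by omega, if_false, mul_assoc,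
          show N + 1 + 1001 = N + 1002 by omega, show N + 1 + 1002 = N + 1003 by omega]
    refine ⟨⟨999, b ^ 1001 * a ^ n * b ^ 1002, fun k => if k = 998 then b ^ 1002 else b ^ (k + 1003),
      fun k => if k = 998 then 2 * n + s else n, fun _ => False,
      fun k => if k = 998 then 1002 else k + 1003, le_refl _, by norm_num, ?_, ?_, ?_, ?_, ?_,
      ?_, ?_, ?_, ?_⟩⟩
    · intro k hk
      split_ifs
      · exact h.pow_ne (by norm_num) (by norm_num)
      · exact h.pow_ne (by omega) (by omega)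
    · intro k hk
      split_ifs
      · have := h.pow_le 1002
        push_cast at this
        linarith
      · have := h.pow_le (k + 1003)
        push_cast at this
        omega
    · intro k hk
      split_ifs
      · rw [abs_of_nonneg (by omega)]; omega
      · rw [abs_of_nonneg (by omega)]; omega
    · intro k hk hk'
      rw [if_neg (by omega), abs_of_nonneg (by omega)]
      omega
    · intro k hk
      split_ifs
      · rw [abs_of_nonneg (by omega)]; omega
      · rw [abs_of_nonneg (by omega)]; omega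
    · intro k hk hx
      exact hx.elim
    · intro k hk _
      split_ifs
      · exact ⟨rfl, by norm_num, by norm_num⟩
      · exact ⟨rfl, by omega, by omega⟩
    · intro k hk l hl _ _ hkl
      beta_reduce at hkl
      split_ifs at hkl <;> omega
    · have e1 : pbase a (b ^ 1001 * a ^ n * b ^ 1002)
        (fun k => if k = 998 then b ^ 1002 else b ^ (k + 1003))
        (fun k => if k = 998 then 2 * n + s else n) 999 =
        pbase a (b ^ 1001 * a ^ n * b ^ 1002)
        (fun k => if k = 998 then b ^ 1002 else b ^ (k + 1003))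
        (fun k => if k = 998 then 2 * n + s else n) 998 * a ^ (2 * n + s) * b ^ 1002 := by
        have e0 := pbase_succ a (b ^ 1001 * a ^ n * b ^ 1002)
          (fun k => if k = 998 then b ^ 1002 else b ^ (k + 1003))
          (fun k => if k = 998 then 2 * n + s else n) 998
        rw [if_pos rfl, if_pos rfl] at e0
        exact e0
      have e2 : pw b (a ^ n) 1001 1000 = pw b (a ^ n) 1001 999 * (b ^ 2000 * a ^ n) :=
        pw_succ b (a ^ n) 1001 999
      have e3 : a ^ (2 * n + s) = a ^ n * a ^ s * a ^ n := by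
        rw [← zpow_add, ← zpow_add, show n + s + n = 2 * n + s by ring]
      rw [hs] at e3
      rw [e1, key 998 le_rfl, gw_eq, e2, e3]
      simp only [Nat.reduceAdd, mul_inv_rev, mul_assoc, mul_inv_cancel_left, mul_inv_cancel,
        mul_one]
  · have key : pbase a (b ^ 1001) (fun k => if k = 999 then w⁻¹ * b ^ 1001 else b ^ (k + 1002))
        (fun _ => n) 999 = pw b (a ^ n) 1001 999 * b ^ 2000 :=
      pbase_pw (a := a) b (a ^ n) 1001 999
        (fun k => if k = 999 then w⁻¹ * b ^ 1001 else b ^ (k + 1002)) (fun _ => n)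
        (fun k hk => rfl) (fun k hk => by
          rw [if_neg (by omega)])
    refine ⟨⟨1000, b ^ 1001, fun k => if k = 999 then w⁻¹ * b ^ 1001 else b ^ (k + 1002),
      fun _ => n, fun k => k = 999, fun k => k + 1002, by norm_num, le_refl _, ?_, ?_, ?_, ?_, ?_,
      ?_, ?_, ?_, ?_⟩⟩
    · intro k hk
      split_ifs
      · exact hu
      · exact h.pow_ne (by omega) (by omega)
    · intro k hk
      split_ifs
      · linarith
      · have := h.pow_le (k + 1002)
        push_cast at this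
        omega
    · intro k hk
      rw [abs_of_nonneg (by omega)]; omega
    · intro k hk hk'
      rw [abs_of_nonneg (by omega)]
      omega
    · intro k hk
      rw [abs_of_nonneg (by omega)]; omega
    · intro k hk hx
      omega
    · intro k hk hx
      beta_reduce at hx
      rw [if_neg hx]
      exact ⟨rfl, by omega, by omega⟩
    · intro k hk l hl _ _ hkl
      beta_reduce at hkl
      omega
    · have e1 : pbase a (b ^ 1001) (fun k => if k = 999 then w⁻¹ * b ^ 1001 else b ^ (k + 1002))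
        (fun _ => n) 1000 = pbase a (b ^ 1001)
        (fun k => if k = 999 then w⁻¹ * b ^ 1001 else b ^ (k + 1002))
        (fun _ => n) 999 * a ^ n * (w⁻¹ * b ^ 1001) := by
        have e0 := pbase_succ a (b ^ 1001)
          (fun k => if k = 999 then w⁻¹ * b ^ 1001 else b ^ (k + 1002)) (fun _ => n) 999
        rw [if_pos rfl] at e0
        exact e0
      have e2 : pw b (a ^ n) 1001 1000 = pw b (a ^ n) 1001 999 * (b ^ 2000 * a ^ n) :=
        pw_succ b (a ^ n) 1001 999
      rw [e1, key, gw_eq, e2]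
      simp only [mul_assoc, mul_inv_cancel, mul_one]


/-! ### the system of relators -/

theorem pchain_P_per {η M : ℤ} (K : ℕ) (hK : 0 < K) (p0 : H) (e : ℕ → H) (m : ℕ → ℤ)
    (h1 : ∀ k < K, e k ∉ Subgroup.zpowers a) (h2 : ∀ k < K, d 1 (e k) ≤ η)
    (h3 : ∀ k < K, M ≤ |m k|) (i : ℤ) :
    (pchain a d η M K hK p0 e m h1 h2 h3).P (i + K) =
      pbase a p0 e m K * p0⁻¹ * (pchain a d η M K hK p0 e m h1 h2 h3).P i := by
  have hK' : (K : ℤ) ≠ 0 := by exact_mod_cast hK.ne'
  have e1 : (i + K) / (K : ℤ) = i / K + 1 := by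
    have := Int.add_mul_ediv_right i 1 hK'
    rwa [one_mul] at this
  have e2 : (i + K) % (K : ℤ) = i % K := by
    have := Int.add_mul_emod_self_right i 1 (K : ℤ)
    rwa [one_mul] at this
  simp only [pchain]
  rw [e1, e2, add_comm (i / (K : ℤ)) 1, zpow_one_add]
  simp only [mul_assoc]

theorem pchain_m_per {η M : ℤ} (K : ℕ) (hK : 0 < K) (p0 : H) (e : ℕ → H) (m : ℕ → ℤ)
    (h1 : ∀ k < K, e k ∉ Subgroup.zpowers a) (h2 : ∀ k < K, d 1 (e k) ≤ η)
    (h3 : ∀ k < K, M ≤ |m k|) (i : ℤ) :
    (pchain a d η M K hK p0 e m h1 h2 h3).m (i + K) =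
      (pchain a d η M K hK p0 e m h1 h2 h3).m i := by
  have e2 : (i + K) % (K : ℤ) = i % K := by
    have := Int.add_mul_emod_self_right i 1 (K : ℤ)
    rwa [one_mul] at this
  simp only [pchain]
  rw [e2]

/-- the chain of `g` -/
def gchain (G : GData a b d n E w) : Chain a d (d 1 w + 2001) (n - E) :=
  pchain a d _ _ G.K (by have := G.K1; omega) G.p0 G.e G.m G.e_not G.e_le G.m_ge

theorem mf_abs (h : StepHyp a b d δ κ D n E c w) (k : ℕ) : |mf n c k| ≤ n + E := by
  have h1 := h.hE
  have h2 := h.hn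
  have h3 := h.δ0
  have h4 := h.κ0
  have h5 := h.geo.nonneg 1 w
  have h6 := abs_nonneg c
  have h7 := abs_le.1 (le_refl |c|)
  unfold mf
  split_ifs
  · rw [abs_of_nonneg (by omega)]; omega
  · rw [abs_of_nonneg (by omega)]; omega

/-- the two relators -/
def rsys (h : StepHyp a b d δ κ D n E c w) (G : GData a b d n E w) (h1 : n - E ≤ |n|)
    (h2 : n - E ≤ |n - c|) : RelSys a d (d 1 w + 2001) (n - E) (n + E) Bool where
  C q := match q with
    | false => fchain h n c (n - E) h1 h2
    | true => gchain G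
  r q := match q with
    | false => fw b (a ^ n) * (a ^ c)⁻¹
    | true => gw b (a ^ n) * w⁻¹
  per q := match q with
    | false => 1000
    | true => G.K
  per_ge := by
    rintro (_ | _)
    · norm_num
    · exact G.K1
  per_le := by
    rintro (_ | _)
    · norm_num
    · exact G.K2
  P_per := by
    rintro (_ | _) i
    · have := pchain_P_per (a := a) (d := d) 1000 (by norm_num) b (fun k => b ^ ef k) (mf n c)
        (fun k hk => h.pow_ne (ef_pos k) ((ef_le hk).trans (by norm_num)))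
        (fun k hk => (h.pow_le _).trans (by
          have := h.geo.nonneg 1 w
          have h3 : ((ef k : ℕ) : ℤ) ≤ 1000 := by exact_mod_cast ef_le hk
          linarith) : ∀ k < 1000, d 1 (b ^ ef k) ≤ d 1 w + 2001)
        (fun k _ => by unfold mf; split_ifs <;> assumption : ∀ k < 1000, n - E ≤ |mf n c k|) i
      rw [pbase_f'] at this
      exact this
    · have := pchain_P_per (a := a) (d := d) G.K (by have := G.K1; omega) G.p0 G.e G.m G.e_not
        G.e_le G.m_ge i
      rw [G.r_eq] at this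
      exact this
  m_per := by
    rintro (_ | _) i
    · exact pchain_m_per (a := a) (d := d) 1000 _ b _ _ _ _ _ i
    · exact pchain_m_per (a := a) (d := d) G.K _ _ _ _ _ _ _ i
  m_sum := by
    have h1 := h.hE
    have h2 := h.hn
    have h3 := h.δ0
    have h4 := h.κ0
    have h5 := h.geo.nonneg 1 w
    have h6 := abs_nonneg c
    rintro (_ | _) i k hk
    · exact sum_period (K := 1000) (by norm_num) (mf n c) (by omega)
        (fun k _ _ => mf_abs h k) (fun k _ => (mf_abs h k).trans (by omega)) i k hk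
    · exact sum_period (K := G.K) (by have := G.K1; omega) G.m (by omega)
        G.m_le G.m_le2 i k hk
  exc q i := match q with
    | false => False
    | true => G.x (i % (G.K : ℤ)).toNat
  exc_sep := by
    rintro (_ | _) i j hi hj hij
    · exact hi.elim
    · have hK : 0 < G.K := by have := G.K1; omega
      have hi' := G.x_last _ (toNat_emod_lt i hK) hi
      have hj' := G.x_last _ (toNat_emod_lt j hK) hj
      obtain ⟨t, ht⟩ := eq_add_of_toNat (i := i) (j := j) hK (by omega)
      have ht0 : t ≠ 0 := by rintro rfl; apply hij; rw [ht]; ring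
      have hK3 := G.K1
      have : (3 : ℤ) ≤ |t| * G.K := by
        have := Int.one_le_abs ht0
        have h9 : (999 : ℤ) ≤ G.K := by exact_mod_cast hK3
        nlinarith
      rw [ht, add_sub_cancel_left, abs_mul, Nat.abs_cast]
      exact this
  js := by
    rintro (_ | _) (_ | _) i i' x y hi hi' hxy
    · have hk := toNat_emod_lt i (K := 1000) (by norm_num)
      have hk' := toNat_emod_lt i' (K := 1000) (by norm_num)
      obtain ⟨e1, e2, e3⟩ := h.jpos (ef_pos _) ((ef_le hk).trans (by norm_num))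
        ((ef_le hk').trans (by norm_num)) hxy
      exact ⟨rfl, eq_add_of_toNat (by norm_num) (ef_inj hk hk' e1), e2, e3⟩
    · exfalso
      have hk := toNat_emod_lt i (K := 1000) (by norm_num)
      have hk' := toNat_emod_lt i' (K := G.K) (by have := G.K1; omega)
      obtain ⟨g1, g2, g3⟩ := G.e_eq _ hk' hi'
      have hxy' : b ^ ef (i % ((1000 : ℕ) : ℤ)).toNat =
        a ^ x * G.e (i' % (G.K : ℤ)).toNat * a ^ y := hxy
      rw [g1] at hxy'
      obtain ⟨e1, e2, e3⟩ := h.jpos (ef_pos _) ((ef_le hk).trans (by norm_num)) g3 hxy'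
      have := ef_le hk
      omega
    · exfalso
      have hk := toNat_emod_lt i (K := G.K) (by have := G.K1; omega)
      have hk' := toNat_emod_lt i' (K := 1000) (by norm_num)
      obtain ⟨g1, g2, g3⟩ := G.e_eq _ hk hi
      have hxy' : G.e (i % (G.K : ℤ)).toNat =
        a ^ x * b ^ ef (i' % ((1000 : ℕ) : ℤ)).toNat * a ^ y := hxy
      rw [g1] at hxy'
      obtain ⟨e1, e2, e3⟩ := h.jpos (by omega) g3 ((ef_le hk').trans (by norm_num)) hxy'
      have := ef_le hk'
      omega
    · have hK : 0 < G.K := by have := G.K1; omega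
      have hk := toNat_emod_lt i hK
      have hk' := toNat_emod_lt i' hK
      obtain ⟨g1, g2, g3⟩ := G.e_eq _ hk hi
      obtain ⟨g1', g2', g3'⟩ := G.e_eq _ hk' hi'
      have hxy' : G.e (i % (G.K : ℤ)).toNat =
        a ^ x * G.e (i' % (G.K : ℤ)).toNat * a ^ y := hxy
      rw [g1, g1'] at hxy'
      obtain ⟨e1, e2, e3⟩ := h.jpos (by omega) g3 g3' hxy'
      exact ⟨rfl, eq_add_of_toNat hK (G.ex_inj _ hk _ hk' hi hi' e1), e2, e3⟩
  js' := by
    rintro (_ | _) (_ | _) i i' x y hi hi'
    · have hk := toNat_emod_lt i (K := 1000) (by norm_num)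
      have hk' := toNat_emod_lt i' (K := 1000) (by norm_num)
      exact h.jneg (ef_pos _) ((ef_le hk).trans (by norm_num))
        ((ef_le hk').trans (by norm_num)) x y
    · intro hxy
      have hk := toNat_emod_lt i (K := 1000) (by norm_num)
      have hk' := toNat_emod_lt i' (K := G.K) (by have := G.K1; omega)
      obtain ⟨g1, g2, g3⟩ := G.e_eq _ hk' hi'
      have hxy' : b ^ ef (i % ((1000 : ℕ) : ℤ)).toNat =
        a ^ x * (G.e (i' % (G.K : ℤ)).toNat)⁻¹ * a ^ y := hxy
      rw [g1] at hxy'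
      exact h.jneg (ef_pos _) ((ef_le hk).trans (by norm_num)) g3 x y hxy'
    · intro hxy
      have hk := toNat_emod_lt i (K := G.K) (by have := G.K1; omega)
      have hk' := toNat_emod_lt i' (K := 1000) (by norm_num)
      obtain ⟨g1, g2, g3⟩ := G.e_eq _ hk hi
      have hxy' : G.e (i % (G.K : ℤ)).toNat =
        a ^ x * (b ^ ef (i' % ((1000 : ℕ) : ℤ)).toNat)⁻¹ * a ^ y := hxy
      rw [g1] at hxy'
      exact h.jneg (by omega) g3 ((ef_le hk').trans (by norm_num)) x y hxy'
    · intro hxy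
      have hK : 0 < G.K := by have := G.K1; omega
      have hk := toNat_emod_lt i hK
      have hk' := toNat_emod_lt i' hK
      obtain ⟨g1, g2, g3⟩ := G.e_eq _ hk hi
      obtain ⟨g1', g2', g3'⟩ := G.e_eq _ hk' hi'
      have hxy' : G.e (i % (G.K : ℤ)).toNat =
        a ^ x * (G.e (i' % (G.K : ℤ)).toNat)⁻¹ * a ^ y := hxy
      rw [g1, g1'] at hxy'
      exact h.jneg (by omega) g3 g3' x y hxy'


/-! ### separation of the axes from the path `a ^ t, fw b (a ^ m)` -/

/-- the same chain with a weaker bound for the travels -/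
def Chain.weaken {η M M' : ℤ} (A : Chain a d η M) (hM : M' ≤ M) : Chain a d η M' where
  P := A.P
  m := A.m
  e := A.e
  step := A.step
  e_not := A.e_not
  e_le := A.e_le
  m_ge := fun i => hM.trans (A.m_ge i)

theorem Chain.weaken_pos {η M M' : ℤ} (A : Chain a d η M) (hM : M' ≤ M) (x : H) :
    (A.weaken hM).pos x = A.pos x := rfl

theorem pw_le (h : StepHyp a b d δ κ D n E c w) (u : H) (s N : ℕ) :
    d 1 (pw b u s N) ≤ N * (N + s + d 1 u) := by
  have hu := h.geo.nonneg 1 u
  induction N with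
  | zero => simp [pw, h.geo.self]
  | succ N ih =>
    rw [pw_succ]
    have h1 := h.geo.mul_le (pw b u s N) (b ^ (N + s) * u)
    have h2 := h.geo.mul_le (b ^ (N + s)) u
    have h3 := h.pow_le (N + s)
    push_cast at h3 ⊢
    have h4 : (0 : ℤ) ≤ N := by positivity
    nlinarith

/-- the points of the chain `Z` -/
theorem fchain_zero (h : StepHyp a b d δ κ D n E c w) (m M : ℤ) (h1 : M ≤ |m|)
    (h2 : M ≤ |m - 0|) (t : ℤ) : a ^ t ∈ (fchain h m 0 M h1 h2).pts := by
  refine ⟨-1, m + t, ?_⟩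
  have e0 := (fchain h m 0 M h1 h2).step (-1)
  have e1 : (fchain h m 0 M h1 h2).P (-1 + 1) = b := by
    show (_ * _) ^ (((-1 : ℤ) + 1) / ((1000 : ℕ) : ℤ)) *
      pbase a b (fun k => b ^ ef k) (mf m 0) (((-1 : ℤ) + 1) % ((1000 : ℕ) : ℤ)).toNat = b
    rw [show ((-1 : ℤ) + 1) / ((1000 : ℕ) : ℤ) = 0 by norm_num,
      show (((-1 : ℤ) + 1) % ((1000 : ℕ) : ℤ)).toNat = 0 by norm_num, zpow_zero, one_mul]
    rfl
  have e9 : ((-1 : ℤ) % ((1000 : ℕ) : ℤ)).toNat = 999 := by rfl
  have e2 : (fchain h m 0 M h1 h2).m (-1) = m := by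
    show mf m 0 ((-1 : ℤ) % ((1000 : ℕ) : ℤ)).toNat = m
    rw [e9, mf, if_pos rfl, sub_zero]
  have e3 : (fchain h m 0 M h1 h2).e (-1) = b := by
    show b ^ ef ((-1 : ℤ) % ((1000 : ℕ) : ℤ)).toNat = b
    rw [e9, ef, if_pos rfl, pow_one]
  rw [e1, e2, e3] at e0
  have e4 : (fchain h m 0 M h1 h2).P (-1) * a ^ m = 1 := by
    exact mul_eq_right.1 e0.symm
  rw [zpow_add, ← mul_assoc, e4, one_mul]

theorem fchain_last (h : StepHyp a b d δ κ D n E c w) (m M : ℤ) (h1 : M ≤ |m|)
    (h2 : M ≤ |m - 0|) : fw b (a ^ m) ∈ (fchain h m 0 M h1 h2).pts := by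
  refine ⟨999, m, ?_⟩
  have e1 : (fchain h m 0 M h1 h2).P 999 = pbase a b (fun k => b ^ ef k) (mf m 0) 999 := by
    show (_ * _) ^ ((999 : ℤ) / ((1000 : ℕ) : ℤ)) *
      pbase a b (fun k => b ^ ef k) (mf m 0) ((999 : ℤ) % ((1000 : ℕ) : ℤ)).toNat = _
    rw [show (999 : ℤ) / ((1000 : ℕ) : ℤ) = 0 by norm_num,
      show ((999 : ℤ) % ((1000 : ℕ) : ℤ)).toNat = 999 from rfl, zpow_zero, one_mul]
  rw [e1, pbase_f, mul_assoc]
  exact pw_succ b (a ^ m) 1 999

/-- comparison of a junction of `A` with a junction of `Z` -/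
theorem junction (h : StepHyp a b d δ κ D n E c w) {M M' : ℤ}
    (A : Chain a d (d 1 w + 2001) M) (m : ℤ) (h1 : M' ≤ |m|) (h2 : M' ≤ |m - 0|)
    {j s u : ℤ} (hs : s = 1 ∨ s = -1)
    (hj : (A.P j)⁻¹ * (fchain h m 0 M' h1 h2).P (u + s * j) ∈ Subgroup.zpowers a)
    (hj' : (A.P (j + 1))⁻¹ * (fchain h m 0 M' h1 h2).P (u + s * (j + 1)) ∈ Subgroup.zpowers a)
    {k : ℕ} (hk : 0 < k) (hk' : k ≤ 2000) (he : A.e j = b ^ k) :
    s = 1 ∧ k ≤ 1000 ∧ (fchain h m 0 M' h1 h2).P (u + (j + 1)) = A.P (j + 1) ∧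
      (fchain h m 0 M' h1 h2).P (u + j) * a ^ m = A.P j * a ^ A.m j := by
  obtain ⟨x, hx⟩ := hj
  obtain ⟨y, hy⟩ := hj'
  beta_reduce at hx hy
  set Z := fchain h m 0 M' h1 h2 with hZ
  have hx' : Z.P (u + s * j) = A.P j * a ^ x := by rw [hx]; group
  have hy' : Z.P (u + s * (j + 1)) = A.P (j + 1) * a ^ y := by rw [hy]; group
  have hA := A.step j
  have hZm : ∀ i, Z.m i = m := by
    intro i
    show mf m 0 _ = m
    unfold mf
    split_ifs <;> simp
  have hZe : ∀ i : ℤ, Z.e i = b ^ ef (i % ((1000 : ℕ) : ℤ)).toNat := fun i => rfl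
  rcases hs with rfl | rfl
  · have hs := Z.step (u + 1 * j)
    rw [show u + 1 * j + 1 = u + 1 * (j + 1) by ring, hy', hx', hA, hZm, hZe, he] at hs
    have hlt := toNat_emod_lt (u + 1 * j) (K := 1000) (by norm_num)
    have e1 : b ^ k = a ^ (x + m - A.m j) * b ^ ef ((u + 1 * j) % ((1000 : ℕ) : ℤ)).toNat *
        a ^ (-y) := by
      have : b ^ k = a ^ (-A.m j) * (A.P j)⁻¹ * (A.P j * a ^ A.m j * b ^ k * a ^ y) * a ^ (-y) := by
        group
      rw [this, hs]
      group
    obtain ⟨q1, q2, q3⟩ := h.jpos hk hk' ((ef_le hlt).trans (by norm_num)) e1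
    refine ⟨rfl, by rw [q1]; exact ef_le hlt, ?_, ?_⟩
    · rw [show u + (j + 1) = u + 1 * (j + 1) by ring, hy', show y = 0 by omega, zpow_zero, mul_one]
    · rw [show u + j = u + 1 * j by ring, hx', mul_assoc, ← zpow_add,
        show x + m = A.m j by omega]
  · exfalso
    have hs := Z.step (u + -1 * (j + 1))
    rw [show u + -1 * (j + 1) + 1 = u + -1 * j by ring, hy', hx', hA, hZm, hZe, he] at hs
    have hlt := toNat_emod_lt (u + -1 * (j + 1)) (K := 1000) (by norm_num)
    have e1 : b ^ k = a ^ (x - A.m j) *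
        (b ^ ef ((u + -1 * (j + 1)) % ((1000 : ℕ) : ℤ)).toNat)⁻¹ * a ^ (-m - y) := by
      have : b ^ k = a ^ (-A.m j) * (A.P j)⁻¹ * (A.P j * a ^ A.m j * b ^ k * a ^ y * a ^ m *
        b ^ ef ((u + -1 * (j + 1)) % ((1000 : ℕ) : ℤ)).toNat) *
        (b ^ ef ((u + -1 * (j + 1)) % ((1000 : ℕ) : ℤ)).toNat)⁻¹ * a ^ (-m) * a ^ (-y) := by
        group
      rw [this, ← hs]
      group
    exact h.jneg hk hk' ((ef_le hlt).trans (by norm_num)) _ _ e1


/-- the separation statement -/
theorem rsys_sep (h : StepHyp a b d δ κ D n E c w) (G : GData a b d n E w) (h1 : n - E ≤ |n|)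
    (h2 : n - E ≤ |n - c|) (q : Bool) (g : H) (m t : ℤ)
    (hpos : 20 ≤ |(((rsys h G h1 h2).C q).tr g).pos (a ^ t) -
      (((rsys h G h1 h2).C q).tr g).pos (fw b (a ^ m))|) : m = n := by
  have c1 := h.hE
  have c2 := h.hn
  have c3 := h.δ0
  have c4 := h.κ0
  have c5 := h.geo.nonneg 1 w
  have c6 := abs_nonneg c
  have hsc := h.sc
  set A := ((rsys h G h1 h2).C q).tr g with hA
  by_cases hm : 5000 * |m| < n
  · exfalso
    have e1 := Chain.pos_coset hsc.toChHyp A 1 t 0
    rw [zpow_zero, one_mul, one_mul] at e1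
    have e2 : |A.pos 1 - A.pos (fw b (a ^ m))| ≤ 1 := by
      apply Chain.pos_near hsc.toChHyp A
      have e3 := pw_le h (a ^ m) 1 1000
      rw [h.line, ← fw_eq] at e3
      push_cast at e3
      omega
    have e3 := abs_sub_le (A.pos (a ^ t)) (A.pos 1) (A.pos (fw b (a ^ m)))
    omega
  · push Not at hm
    have hm1 : 100 * E ≤ |m| := by omega
    have hm2 : 100 * E ≤ |m - 0| := by rwa [sub_zero]
    have hw : 100 * E ≤ n - E := by omega
    set Z := fchain h m 0 (100 * E) hm1 hm2 with hZ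
    have hch : ChHyp a d δ κ (d 1 w + 2001) (100 * E) E :=
      { hsc.toChHyp with hM := le_refl _ }
    have ht : a ^ t ∈ Z.pts := fchain_zero h m _ hm1 hm2 t
    have hf : fw b (a ^ m) ∈ Z.pts := fchain_last h m _ hm1 hm2
    -- consecutive common lines
    have key : ∃ s u p : ℤ, (s = 1 ∨ s = -1) ∧ ∀ j, p ≤ j → j ≤ p + 10 →
        (A.P j)⁻¹ * Z.P (u + s * j) ∈ Subgroup.zpowers a := by
      rcases le_total (A.pos (a ^ t)) (A.pos (fw b (a ^ m))) with hle | hle
      · rw [abs_of_nonpos (by omega)] at hpos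
        obtain ⟨s, u, hs, hj⟩ := Chain.run_lines hch (A.weaken hw) Z ht hf
        refine ⟨s, u, A.pos (a ^ t) + 2, hs, fun j hj1 hj2 => hj j hj1 ?_⟩
        rw [Chain.weaken_pos]
        omega
      · rw [abs_of_nonneg (by omega)] at hpos
        obtain ⟨s, u, hs, hj⟩ := Chain.run_lines hch (A.weaken hw) Z hf ht
        refine ⟨s, u, A.pos (fw b (a ^ m)) + 2, hs, fun j hj1 hj2 => hj j hj1 ?_⟩
        rw [Chain.weaken_pos]
        omega
    obtain ⟨s, u, p, hs, hp⟩ := key
    rcases q with _ | _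
    · -- the relator `f`
      have hAe : ∀ j : ℤ, A.e j = b ^ ef (j % ((1000 : ℕ) : ℤ)).toNat := fun j => rfl
      have hAm : ∀ j : ℤ, A.m j = mf n c (j % ((1000 : ℕ) : ℤ)).toNat := fun j => rfl
      have step : ∀ j, p ≤ j → j + 2 ≤ p + 10 → A.m (j + 1) = m := by
        intro j hj1 hj2
        have hk := toNat_emod_lt j (K := 1000) (by norm_num)
        have hk' := toNat_emod_lt (j + 1) (K := 1000) (by norm_num)
        obtain ⟨_, _, r1, _⟩ := junction h A m hm1 hm2 hs (hp j hj1 (by omega))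
          (hp (j + 1) (by omega) (by omega)) (ef_pos _) ((ef_le hk).trans (by norm_num)) (hAe j)
        obtain ⟨_, _, _, r2⟩ := junction h A m hm1 hm2 hs (hp (j + 1) (by omega) (by omega))
          (hp (j + 1 + 1) (by omega) (by omega)) (ef_pos _) ((ef_le hk').trans (by norm_num))
          (hAe (j + 1))
        rw [r1] at r2
        have r3 := mul_left_cancel r2
        have r4 := h.toLin.dline m (A.m (j + 1))
        rw [r3, h.geo.self] at r4
        have r5 := abs_eq_zero.1 r4.symm
        omega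
      by_cases hc : ((p + 1) % ((1000 : ℕ) : ℤ)).toNat = 999
      · have r := step (p + 1) (by omega) (by omega)
        rw [hAm, mf, if_neg] at r
        · exact r.symm
        · intro h0
          have h1000 : ((1000 : ℕ) : ℤ) = 1000 := rfl
          rw [h1000] at hc h0
          omega
      · have r := step p (by omega) (by omega)
        rw [hAm, mf, if_neg hc] at r
        exact r.symm
    · -- the relator `g`
      exfalso
      have hK : 0 < G.K := by have := G.K1; omega
      have hAe : ∀ j : ℤ, A.e j = G.e (j % (G.K : ℤ)).toNat := fun j => rfl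
      have step : ∀ j, p ≤ j → j + 1 ≤ p + 10 → G.x (j % (G.K : ℤ)).toNat := by
        intro j hj1 hj2
        by_contra hx
        obtain ⟨g1, g2, g3⟩ := G.e_eq _ (toNat_emod_lt j hK) hx
        obtain ⟨_, r1, _, _⟩ := junction h A m hm1 hm2 hs (hp j hj1 (by omega))
          (hp (j + 1) (by omega) (by omega)) (by omega) g3 ((hAe j).trans g1)
        omega
      have hx1 := G.x_last _ (toNat_emod_lt p hK) (step p (by omega) (by omega))
      have hx2 := G.x_last _ (toNat_emod_lt (p + 1) hK) (step (p + 1) (by omega) (by omega))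
      obtain ⟨r, hr⟩ := eq_add_of_toNat (i := p + 1) (j := p) hK (by omega)
      have hK1 : (999 : ℤ) ≤ G.K := by exact_mod_cast G.K1
      have hr0 : r * G.K = 1 := by omega
      have := Int.isUnit_iff.1 (IsUnit.of_mul_eq_one_right r hr0)
      omega

/-- the two relators form a system of relators; `false` is the relator `f`, `true` the relator
`g`. The last statement says that a long overlap with a path `a ^ t, fw b (a ^ m)` is only possible
for `m = n`. -/
theorem StepHyp.relsys (h : StepHyp a b d δ κ D n E c w) :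
    ∃ S : RelSys a d (d 1 w + 2001) (n - E) (n + E) Bool,
      Set.range S.r = {fw b (a ^ n) * (a ^ c)⁻¹, gw b (a ^ n) * w⁻¹} ∧
      ∀ (q : Bool) (g : H) (m t : ℤ),
        20 ≤ |((S.C q).tr g).pos (a ^ t) - ((S.C q).tr g).pos (fw b (a ^ m))| → m = n := by
  have c1 := h.hE
  have c2 := h.hn
  have c3 := h.δ0
  have c4 := h.κ0
  have c5 := h.geo.nonneg 1 w
  have c6 := abs_nonneg c
  have c7 := abs_le.1 (le_refl |c|)
  have h1 : n - E ≤ |n| := by rw [abs_of_nonneg (by omega)]; omega
  have h2 : n - E ≤ |n - c| := by rw [abs_of_nonneg (by omega)]; omega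
  obtain ⟨G⟩ := h.gdata
  refine ⟨rsys h G h1 h2, ?_, fun q g m t hpos => rsys_sep h G h1 h2 q g m t hpos⟩
  ext x
  simp only [Set.mem_range, Bool.exists_bool, Set.mem_insert_iff, Set.mem_singleton_iff, rsys]
  constructor
  · rintro (h | h)
    · exact Or.inl h.symm
    · exact Or.inr h.symm
  · rintro (h | h)
    · exact Or.inl h.symm
    · exact Or.inr h.symm

theorem StepHyp.axsys (h : StepHyp a b d δ κ D n E c w) :
    ∃ X : AxSys a d (d 1 w + 2001) (n - E) (n + E) (NC a b n c w),
      ∀ A r p, (A, r, p) ∈ X.Ax → ∀ m t : ℤ, 20 ≤ |A.pos (a ^ t) - A.pos (fw b (a ^ m))| →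
        m = n := by
  obtain ⟨S, hr, hsep⟩ := h.relsys
  obtain ⟨X, hX⟩ := axsys_of h.sc S
  have hNC : NC a b n c w = Subgroup.normalClosure (Set.range S.r) := by rw [NC, hr]
  rw [hNC]
  refine ⟨X, fun A r p hA m t hpos => ?_⟩
  rw [hX] at hA
  obtain ⟨g, q, hgq⟩ := hA
  have hA' : A = (S.C q).tr g := congrArg Prod.fst hgq
  subst hA'
  exact hsep q g m t hpos

end Pool.Agent.LibSCQ
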