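import Pool.Agent.LibSCQ.Quot

/-!
TASK 7a. Slimness of triangles in the quotient: configurations.
-/

set_option autoImplicit false

namespace Pool.Agent.LibSCQ

variable {H : Type} [Group H] {a b : H} {d : H → H → ℤ} {δ κ η M U E : ℤ} {N : Subgroup H}

/-- a point close to an entry point of a line of the chain -/
def NearAx (E : ℤ) (A : Chain a d η M) (x : H) : Prop := ∃ j, d x (A.P j) ≤ 62 * E

/-- two points that agree or are close to points `A.P j`, `A.P j'` of an axis with
`|j - j'| ≤ 501` -/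
def Gap (E : ℤ) (X : AxSys a d η M U N) (x y : H) : Prop :=
  x = y ∨ ∃ A r p, (A, r, p) ∈ X.Ax ∧ ∃ j j' : ℤ, d x (A.P j) ≤ 62 * E ∧ d y (A.P j') ≤ 62 * E ∧
    |j - j'| ≤ 501

/-- A configuration: `k` sides `(u i, v i)`, `i < k`, from `p = u 0` to `g p = v (k - 1)`. -/
structure Conf (E : ℤ) (X : AxSys a d η M U N) (T : H → Prop) (p g : H) (k : ℕ)
    (u v : ℕ → H) : Prop where
  k3 : 3 ≤ k
  k4 : k ≤ 4
  g_mem : g ∈ N
  start : u 0 = p
  stop : v (k - 1) = g * p
  min : ∀ i < k, IsMin d N (u i) (v i)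
  gap : ∀ i, i + 1 < k → Gap E X (v i) (u (i + 1))
  mid : ∀ i, 0 < i → i + 1 < k → ∀ x, d (u i) x + d x (v i) = d (u i) (v i) → T x
  far : d p (v 0) + d (u (k - 1)) (g * p) ≤ dq d N (v 0) (u (k - 1))

theorem SCHyp.consts (h : SCHyp a d δ κ η M U E) : 0 ≤ δ ∧ 0 ≤ η ∧ δ + 1 ≤ E ∧ η + 1 ≤ E ∧
    500000 * E ≤ M ∧ M ≤ U ∧ 10000 * (U - M) ≤ M := by
  have h1 := h.δ0
  have h2 := h.κ0
  have h3 := h.η0
  have h4 := h.hE
  have h5 := h.hE5
  have h6 := h.hU
  have h7 := h.hMU
  refine ⟨h1, h3, ?_, ?_, h5, h7, h6⟩ <;> linarith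

theorem AxSys.dPP_aux (h : SCHyp a d δ κ η M U E) (X : AxSys a d η M U N) {A : Chain a d η M} {r : H}
    {p : ℕ} (hA : (A, r, p) ∈ X.Ax) {j j' n : ℤ} (hn : n ≤ 999) (hjj : j ≤ j')
    (hj : j' - j ≤ n) : d (A.P j) (A.P j') ≤ (n + 1) * U + n * η := by
  obtain ⟨-, hη, -, hηE, hEM, hMU, -⟩ := h.consts
  obtain ⟨m, hm⟩ := Int.eq_ofNat_of_zero_le (sub_nonneg.2 hjj)
  have hm' : j' = j + m := by linarith
  have hmn : (m : ℤ) ≤ n := by linarith
  have hp := X.per_ge A r p hA
  have h1 := Chain.upper h.toChHyp A j m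
  have h2 := X.m_sum A r p j m hA (by omega)
  rw [hm']
  have hU : 0 ≤ U := by linarith
  have h3 : ((m : ℤ) + 1) * U ≤ (n + 1) * U := mul_le_mul_of_nonneg_right (by linarith) hU
  have h4 : (m : ℤ) * η ≤ n * η := mul_le_mul_of_nonneg_right hmn hη
  linarith

theorem AxSys.dPP (h : SCHyp a d δ κ η M U E) (X : AxSys a d η M U N) {A : Chain a d η M} {r : H}
    {p : ℕ} (hA : (A, r, p) ∈ X.Ax) {j j' n : ℤ} (hn : n ≤ 999)
    (hj : |j - j'| ≤ n) : d (A.P j) (A.P j') ≤ (n + 1) * U + n * η := by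
  rw [abs_le] at hj
  rcases le_total j j' with hjj | hjj
  · exact X.dPP_aux h hA hn hjj (by linarith)
  · rw [h.geo.symm]
    exact X.dPP_aux h hA hn hjj (by linarith)

theorem gap_le (h : SCHyp a d δ κ η M U E) (X : AxSys a d η M U N) {x y : H} (hxy : Gap E X x y) :
    d x y ≤ 503 * U := by
  obtain ⟨-, hη, -, hηE, hEM, hMU, -⟩ := h.consts
  rcases hxy with rfl | ⟨A, r, p, hA, j, j', hx, hy, hj⟩
  · rw [h.geo.self]
    linarith
  · have h1 := X.dPP h hA (by norm_num) hj
    have h2 := h.geo.tri x (A.P j) y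
    have h3 := h.geo.tri (A.P j) (A.P j') y
    rw [h.geo.symm] at hy
    linarith

theorem AxSys.rot_zpow (X : AxSys a d η M U N) {A : Chain a d η M} {r : H}
    {p : ℕ} (hA : (A, r, p) ∈ X.Ax) (t i : ℤ) : A.P (i + t * p) = r ^ t * A.P i := by
  induction t with
  | zero => simp
  | succ n ih =>
    have e : i + ((n : ℤ) + 1) * p = (i + n * p) + p := by ring
    rw [e, X.P_per A r p _ hA, ih, zpow_add_one, ← mul_assoc]
    congr 1
    exact (Commute.self_zpow r n).eq
  | pred n ih =>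
    have e := X.P_per A r p (i + (-(n : ℤ) - 1) * p) hA
    have e2 : i + (-(n : ℤ) - 1) * p + p = i + -(n : ℤ) * p := by ring
    rw [e2, ih] at e
    have e3 : A.P (i + (-(n : ℤ) - 1) * p) = r⁻¹ * (r ^ (-(n : ℤ)) * A.P i) := by
      rw [e]; group
    rw [e3, ← mul_assoc]
    congr 1
    rw [zpow_sub_one]
    exact (((Commute.refl r).zpow_left (-(n : ℤ))).inv_right.eq).symm

theorem exists_shift (j j' : ℤ) (p : ℕ) (h1 : 1 ≤ p) (h2 : p ≤ 1000) :
    ∃ t : ℤ, |j - (j' + t * p)| ≤ 500 := by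
  refine ⟨(j - j' + (p : ℤ) / 2) / p, ?_⟩
  have hp : (0 : ℤ) < p := by exact_mod_cast h1
  have hp2 : (p : ℤ) ≤ 1000 := by exact_mod_cast h2
  have e1 := Int.emod_nonneg (j - j' + (p : ℤ) / 2) hp.ne'
  have e2 := Int.emod_lt_of_pos (j - j' + (p : ℤ) / 2) hp
  have e3 := Int.mul_ediv_add_emod (j - j' + (p : ℤ) / 2) p
  set q := (j - j' + (p : ℤ) / 2) / p with hq
  set s := (j - j' + (p : ℤ) / 2) % p with hs
  rw [abs_le, mul_comm q]
  constructor <;> omega

theorem AxSys.dq_near (h : SCHyp a d δ κ η M U E) (X : AxSys a d η M U N) {A : Chain a d η M} {r : H}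
    {p : ℕ} (hA : (A, r, p) ∈ X.Ax) {x y : H} (hx : NearAx E A x) (hy : NearAx E A y) :
    dq d N x y ≤ 503 * U := by
  obtain ⟨-, hη, -, hηE, hEM, hMU, -⟩ := h.consts
  obtain ⟨j, hj⟩ := hx
  obtain ⟨j', hj'⟩ := hy
  obtain ⟨t, ht⟩ := exists_shift j j' p (by have := X.per_ge A r p hA; omega) (X.per_le A r p hA)
  have hr : r ^ t ∈ N := N.zpow_mem (X.mem A r p hA) t
  have h1 := dq_le h.geo hr x y
  have h2 := h.geo.tri x (A.P j) (r ^ t * y)
  have h3 := h.geo.tri (A.P j) (A.P (j' + t * p)) (r ^ t * y)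
  have h4 := X.dPP h hA (n := 500) (by norm_num) ht
  have h5 : d (A.P (j' + t * p)) (r ^ t * y) = d y (A.P j') := by
    rw [X.rot_zpow hA, h.geo.inv, h.geo.symm]
  linarith

theorem far_le (h : Geo d) {p v0 um q y0 y1 : H} (hfar : d p v0 + d um q ≤ dq d N v0 um)
    (h0 : d p y0 + d y0 v0 = d p v0) (h1 : d um y1 + d y1 q = d um q) :
    d p y0 + d y1 q ≤ dq d N y0 y1 := by
  have e1 := dq_tri (N := N) h v0 y0 um
  have e2 := dq_tri (N := N) h y0 y1 um
  have e3 := dq_le' (N := N) h v0 y0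
  have e4 := dq_le' (N := N) h y1 um
  have e5 := h.symm v0 y0
  have e6 := h.symm y1 um
  linarith

/-! ### sides and gaps -/

theorem pos_of_near (h : SCHyp a d δ κ η M U E) (A : Chain a d η M) {w : H} {j : ℤ}
    (hw : d w (A.P j) ≤ 62 * E) : |A.pos w - (j - 1)| ≤ 1 := by
  obtain ⟨-, hη, -, hηE, hEM, hMU, -⟩ := h.consts
  rw [← Chain.pos_P h.toChHyp A j]
  exact Chain.pos_near h.toChHyp A (by linarith)

theorem near_end (h : SCHyp a d δ κ η M U E) (A : Chain a d η M) {x y : H}
    (hxy : 3 ≤ |A.pos x - A.pos y|) :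
    ∃ w j, d x w + d w y = d x y ∧ |j - A.pos y| ≤ 2 ∧ d w (A.P j) ≤ 62 * E := by
  rcases le_abs.1 hxy with h1 | h1
  · obtain ⟨w, hw, hwj⟩ := Chain.pass_near h.toChHyp A (j := A.pos y + 2) (x := y) (y := x)
      le_rfl (by linarith)
    refine ⟨w, A.pos y + 2, ?_, by simp, hwj⟩
    rw [h.geo.symm x w, h.geo.symm w y, h.geo.symm x y]
    linarith
  · obtain ⟨w, hw, hwj⟩ := Chain.pass_near h.toChHyp A (j := A.pos y - 1) (x := x) (y := y)
      (by linarith) (by linarith)
    exact ⟨w, A.pos y - 1, hw, by simp, hwj⟩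

/-- the side `(x, y)` contains a point near the axis -/
def NearSide (E : ℤ) (A : Chain a d η M) (x y : H) : Prop :=
  ∃ w, d x w + d w y = d x y ∧ NearAx E A w

theorem disp_not_near (h : SCHyp a d δ κ η M U E) (A : Chain a d η M) {x y : H}
    (hn : ¬ NearSide E A x y) : |A.pos x - A.pos y| ≤ 2 := by
  by_contra hc
  obtain ⟨w, j, hw, -, hwj⟩ := near_end h A (x := x) (y := y) (by omega)
  exact hn ⟨w, hw, j, hwj⟩

theorem disp_only_right (h : SCHyp a d δ κ η M U E) (A : Chain a d η M) {x y : H}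
    (ho : ∀ w, d x w + d w y = d x y → NearAx E A w → w = y) : |A.pos x - A.pos y| ≤ 4 := by
  by_contra hc
  obtain ⟨w, j, hw, hj, hwj⟩ := near_end h A (x := y) (y := x) (by rw [abs_sub_comm]; omega)
  have hw' : d x w + d w y = d x y := by
    rw [h.geo.symm x w, h.geo.symm w y, h.geo.symm x y]
    linarith
  have := ho w hw' ⟨j, hwj⟩
  have hp := pos_of_near h A hwj
  rw [this] at hp
  rw [abs_le] at hj hp
  apply hc
  rw [abs_le]
  constructor <;> omega

theorem disp_only_left (h : SCHyp a d δ κ η M U E) (A : Chain a d η M) {x y : H}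
    (ho : ∀ w, d x w + d w y = d x y → NearAx E A w → w = x) : |A.pos x - A.pos y| ≤ 4 := by
  rw [abs_sub_comm]
  refine disp_only_right h A fun w hw hn => ho w ?_ hn
  rw [h.geo.symm x w, h.geo.symm w y, h.geo.symm x y]
  linarith

theorem gap_pos (h : SCHyp a d δ κ η M U E) (X : AxSys a d η M U N) {A : Chain a d η M} {r : H}
    {p : ℕ} (hA : (A, r, p) ∈ X.Ax) {x y : H} (hxy : Gap E X x y) :
    |A.pos x - A.pos y| ≤ 7 ∨ (NearAx E A x ∧ NearAx E A y ∧ |A.pos x - A.pos y| ≤ 505) := by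
  obtain ⟨-, hη, -, hηE, hEM, hMU, -⟩ := h.consts
  rcases hxy with rfl | ⟨B, s, q, hB, j, j', hx, hy, hj⟩
  · left; simp
  · rcases X.overlap A r p B s q hA hB with ⟨-, -, t, ht⟩ | hov
    · right
      have hx' : d x (A.P (j + t * p)) ≤ 62 * E := by rw [X.rot_zpow hA, ← ht]; exact hx
      have hy' : d y (A.P (j' + t * p)) ≤ 62 * E := by rw [X.rot_zpow hA, ← ht]; exact hy
      refine ⟨⟨_, hx'⟩, ⟨_, hy'⟩, ?_⟩
      have h1 := pos_of_near h A hx'
      have h2 := pos_of_near h A hy'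
      rw [abs_le] at h1 h2 hj ⊢
      constructor <;> linarith
    · left
      have h1 := Chain.pos_near h.toChHyp A (x := x) (y := B.P j) (by linarith)
      have h2 := Chain.pos_near h.toChHyp A (x := y) (y := B.P j') (by linarith)
      have h3 := hov (B.P j) ⟨j, 0, by simp⟩ (B.P j') ⟨j', 0, by simp⟩
      rw [abs_le] at h1 h2 h3 ⊢
      constructor <;> linarith

theorem Gap.mul (h : Geo d) {X : AxSys a d η M U N} {x y : H} (hxy : Gap E X x y) (ρ : H) :
    Gap E X (ρ * x) (ρ * y) := by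
  rcases hxy with rfl | ⟨A, r, p, hA, j, j', hx, hy, hj⟩
  · exact Or.inl rfl
  · refine Or.inr ⟨A.tr ρ, _, p, X.tr A r p ρ hA, j, j', ?_, ?_, hj⟩
    · change d (ρ * x) (ρ * A.P j) ≤ _
      rwa [h.inv]
    · change d (ρ * y) (ρ * A.P j') ≤ _
      rwa [h.inv]

/-! ### the trivial element -/

theorem slim1 (h : Lin a d δ) {x y p : H} (z : H) (hp : d x p + d p y = d x y) :
    (∃ q, d x q + d q z = d x z ∧ d p q ≤ 2 * δ) ∨ (∃ q, d z q + d q y = d z y ∧ d p q ≤ 2 * δ) := by
  have h4 := h.hyp x z y p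
  have e1 := h.geo.symm z p
  have e2 := h.geo.symm y p
  have e3 := h.geo.symm z y
  rcases h4 with h4 | h4
  · left
    obtain ⟨w, hw, hwp⟩ := h.between x z p δ (by linarith)
    refine ⟨w, hw, ?_⟩
    rw [h.geo.symm]
    linarith
  · right
    obtain ⟨w, hw, hwp⟩ := h.between z y p δ (by linarith)
    refine ⟨w, hw, ?_⟩
    rw [h.geo.symm]
    linarith

theorem Conf.close_one (h : SCHyp a d δ κ η M U E) (X : AxSys a d η M U N) {T : H → Prop}
    {p : H} {k : ℕ} {u v : ℕ → H}
    (C : Conf E X T p 1 k u v) : ∃ q, T q ∧ dq d N p q ≤ 1006 * U := by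
  obtain ⟨hδ, hη, hδE, hηE, hEM, hMU, -⟩ := h.consts
  have hL : Lin a d δ := h.toLin
  have hG := hL.geo
  -- `p` is between `v 0` and `u (k-1)`
  have hp : d (v 0) p + d p (u (k - 1)) = d (v 0) (u (k - 1)) := by
    have h1 := C.far
    rw [one_mul] at h1
    have h2 := dq_le' (N := N) hG (v 0) (u (k - 1))
    have h3 := hG.tri (v 0) p (u (k - 1))
    have h4 := hG.symm (v 0) p
    have h5 := hG.symm p (u (k - 1))
    linarith
  have fin : ∀ q, d p q ≤ 8 * δ → (∃ e, T e ∧ d q e ≤ 503 * U) →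
      ∃ q, T q ∧ dq d N p q ≤ 1006 * U := by
    rintro q hq ⟨e, he, hqe⟩
    refine ⟨e, he, ?_⟩
    have h1 := dq_le' (N := N) hG p e
    have h2 := hG.tri p q e
    linarith
  have side : ∀ i, 0 < i → i + 1 < k → ∀ q, d (u i) q + d q (v i) = d (u i) (v i) →
      ∃ e, T e ∧ d q e ≤ 503 * U := fun i h0 h1 q hq =>
    ⟨q, C.mid i h0 h1 q hq, by rw [hG.self]; linarith⟩
  have gapf : ∀ i, i + 1 < k → ∀ q, d (v i) q + d q (u (i + 1)) = d (v i) (u (i + 1)) →
      ∃ e, T e ∧ d q e ≤ 503 * U := by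
    intro i hi q hq
    have hg := gap_le h X (C.gap i hi)
    have n1 := hG.nonneg (v i) q
    have n2 := hG.nonneg q (u (i + 1))
    have e1 := hG.symm (v i) q
    rcases Nat.eq_zero_or_pos i with h0 | h0
    · subst h0
      refine ⟨u (0 + 1), C.mid 1 one_pos (by have := C.k3; omega) _ ?_, by linarith⟩
      rw [hG.self]; simp
    · refine ⟨v i, C.mid i h0 hi _ ?_, by linarith⟩
      rw [hG.self]; simp
  have tri : ∀ x y z : H, d x z ≤ d x y + d y z := hG.tri
  have hk := C.k3
  have hk4 := C.k4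
  rcases slim1 hL (u 1) hp with ⟨q1, hq1, hd1⟩ | ⟨q1, hq1, hd1⟩
  · exact fin q1 (by linarith) (gapf 0 (by omega) q1 hq1)
  rcases slim1 hL (v 1) hq1 with ⟨q2, hq2, hd2⟩ | ⟨q2, hq2, hd2⟩
  · exact fin q2 (by have := tri p q1 q2; linarith) (side 1 one_pos (by omega) q2 hq2)
  have hk34 : k = 3 ∨ k = 4 := by omega
  rcases hk34 with rfl | rfl
  · exact fin q2 (by have := tri p q1 q2; linarith) (gapf 1 (by omega) q2 hq2)
  rcases slim1 hL (u 2) hq2 with ⟨q3, hq3, hd3⟩ | ⟨q3, hq3, hd3⟩
  · exact fin q3 (by have := tri p q1 q2; have := tri p q2 q3; linarith) (gapf 1 (by omega) q3 hq3)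
  rcases slim1 hL (v 2) hq3 with ⟨q4, hq4, hd4⟩ | ⟨q4, hq4, hd4⟩
  · exact fin q4 (by have := tri p q1 q2; have := tri p q2 q3; have := tri p q3 q4; linarith)
      (side 2 (by omega) (by omega) q4 hq4)
  · exact fin q4 (by have := tri p q1 q2; have := tri p q2 q3; have := tri p q3 q4; linarith)
      (gapf 2 (by omega) q4 hq4)

/-! ### existence of extremal near points -/

theorem exists_first_near (h : Geo d) (A : Chain a d η M) {x y : H} (hn : NearSide E A x y) :
    ∃ w, d x w + d w y = d x y ∧ NearAx E A w ∧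
      ∀ w', d x w' + d w' y = d x y → NearAx E A w' → d x w ≤ d x w' := by
  obtain ⟨w₀, hw₀, hn₀⟩ := hn
  obtain ⟨m, ⟨w, ⟨hw, hnw⟩, hwm⟩, hmin⟩ := Int.exists_least_of_bdd
    (P := fun m => ∃ w, (d x w + d w y = d x y ∧ NearAx E A w) ∧ d x w = m)
    ⟨0, fun z ⟨w, _, hz⟩ => hz ▸ h.nonneg _ _⟩ ⟨_, w₀, ⟨hw₀, hn₀⟩, rfl⟩
  exact ⟨w, hw, hnw, fun w' hw' hn' => hwm ▸ hmin _ ⟨w', ⟨hw', hn'⟩, rfl⟩⟩

theorem exists_last_near (h : Geo d) (A : Chain a d η M) {x y : H} (hn : NearSide E A x y) :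
    ∃ w, d x w + d w y = d x y ∧ NearAx E A w ∧
      ∀ w', d x w' + d w' y = d x y → NearAx E A w' → d w y ≤ d w' y := by
  obtain ⟨w₀, hw₀, hn₀⟩ := hn
  obtain ⟨m, ⟨w, ⟨hw, hnw⟩, hwm⟩, hmin⟩ := Int.exists_least_of_bdd
    (P := fun m => ∃ w, (d x w + d w y = d x y ∧ NearAx E A w) ∧ d w y = m)
    ⟨0, fun z ⟨w, _, hz⟩ => hz ▸ h.nonneg _ _⟩ ⟨_, w₀, ⟨hw₀, hn₀⟩, rfl⟩
  exact ⟨w, hw, hnw, fun w' hw' hn' => hwm ▸ hmin _ ⟨w', ⟨hw', hn'⟩, rfl⟩⟩

/-! ### cutting a configuration -/

/-- the left ends of the sides after cutting between `w` (on side `i`) and `w'` (on side `i'`) -/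
def cu (u : ℕ → H) (ρ w' : H) (i i' : ℕ) (l : ℕ) : H :=
  if l ≤ i then u l else if l = i + 1 then ρ * w' else ρ * u (l + (i' - i - 1))

/-- the right ends of the sides after cutting -/
def cv (v : ℕ → H) (ρ w : H) (i i' : ℕ) (l : ℕ) : H :=
  if l < i then v l else if l = i then w else ρ * v (l + (i' - i - 1))

theorem cu_le {u : ℕ → H} {ρ w' : H} {i i' l : ℕ} (h : l ≤ i) : cu u ρ w' i i' l = u l := by
  simp [cu, h]

theorem cu_succ {u : ℕ → H} {ρ w' : H} {i i' : ℕ} : cu u ρ w' i i' (i + 1) = ρ * w' := by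
  simp [cu]

theorem cu_gt {u : ℕ → H} {ρ w' : H} {i i' l : ℕ} (h : i + 1 < l) :
    cu u ρ w' i i' l = ρ * u (l + (i' - i - 1)) := by
  have h1 : ¬ l ≤ i := by omega
  have h2 : l ≠ i + 1 := by omega
  simp [cu, h1, h2]

theorem cv_lt {v : ℕ → H} {ρ w : H} {i i' l : ℕ} (h : l < i) : cv v ρ w i i' l = v l := by
  simp [cv, h]

theorem cv_eq {v : ℕ → H} {ρ w : H} {i i' : ℕ} : cv v ρ w i i' i = w := by
  simp [cv]

theorem cv_gt {v : ℕ → H} {ρ w : H} {i i' l : ℕ} (h : i < l) :
    cv v ρ w i i' l = ρ * v (l + (i' - i - 1)) := by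
  have h1 : ¬ l < i := by omega
  have h2 : l ≠ i := by omega
  simp [cv, h1, h2]

theorem Conf.cut (h : SCHyp a d δ κ η M U E) (X : AxSys a d η M U N) [N.Normal] {T : H → Prop}
    (hT : ∀ g ∈ N, ∀ x, T x → T (g * x)) {p g : H} {k : ℕ} {u v : ℕ → H}
    (C : Conf E X T p g k u v) {A : Chain a d η M} {r : H} {q : ℕ} (hA : (A, r, q) ∈ X.Ax)
    {i i' : ℕ} (hii : i < i') (hk : i' < k) (hne : ¬ (i = 0 ∧ i' = k - 1)) {w w' : H}
    (hw : d (u i) w + d w (v i) = d (u i) (v i))
    (hw' : d (u i') w' + d w' (v i') = d (u i') (v i'))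
    (hnw : NearAx E A w) (hnw' : NearAx E A w') :
    ∃ ρ ∈ N, Conf E X T p (ρ * g) (k - (i' - i - 1)) (cu u ρ w' i i') (cv v ρ w i i') := by
  have hG : Geo d := h.geo
  have hk3 := C.k3
  have hk4 := C.k4
  obtain ⟨j, hj⟩ := hnw
  obtain ⟨j', hj'⟩ := hnw'
  obtain ⟨t, ht⟩ := exists_shift j j' q (by have := X.per_ge A r q hA; omega) (X.per_le A r q hA)
  set ρ : H := r ^ t with hρ
  have hρN : ρ ∈ N := N.zpow_mem (X.mem A r q hA) t
  have hρinv : ρ⁻¹ ∈ N := N.inv_mem hρN
  have es : i + 1 + (i' - i - 1) = i' := by omega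
  refine ⟨ρ, hρN, ?_⟩
  constructor
  · omega
  · omega
  · exact N.mul_mem hρN C.g_mem
  · rw [cu_le (Nat.zero_le _), C.start]
  · rw [cv_gt (by omega)]
    have : k - (i' - i - 1) - 1 + (i' - i - 1) = k - 1 := by omega
    rw [this, C.stop, mul_assoc]
  · intro l hl
    rcases lt_trichotomy l i with hli | hli | hli
    · rw [cu_le hli.le, cv_lt hli]
      exact C.min l (by omega)
    · subst hli
      rw [cu_le le_rfl, cv_eq]
      exact min_left hG (C.min l (by omega)) hw
    · rw [cv_gt hli]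
      rcases Nat.eq_or_lt_of_le (Nat.succ_le_of_lt hli) with hl1 | hl1
      · have hl1' : l = i + 1 := hl1.symm
        subst hl1'
        rw [cu_succ, es]
        exact min_mul hG hρN (min_right hG (C.min i' hk) hw')
      · rw [cu_gt hl1]
        exact min_mul hG hρN (C.min _ (by omega))
  · intro l hl
    rcases lt_trichotomy l i with hli | hli | hli
    · rw [cv_lt hli, cu_le (by omega)]
      exact C.gap l (by omega)
    · subst hli
      rw [cv_eq, cu_succ]
      refine Or.inr ⟨A, r, q, hA, j, j' + t * q, hj, ?_, ht.trans (by norm_num)⟩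
      rw [X.rot_zpow hA, hG.inv]
      exact hj'
    · rw [cv_gt hli, cu_gt (by omega)]
      have : l + 1 + (i' - i - 1) = (l + (i' - i - 1)) + 1 := by omega
      rw [this]
      exact (C.gap _ (by omega)).mul hG ρ
  · intro l hl0 hl x hx
    rcases lt_trichotomy l i with hli | hli | hli
    · rw [cu_le hli.le, cv_lt hli] at hx
      exact C.mid l hl0 (by omega) x hx
    · subst hli
      rw [cu_le le_rfl, cv_eq] at hx
      refine C.mid l hl0 (by omega) x ?_
      have t1 := hG.tri (u l) x (v l)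
      have t2 := hG.tri x w (v l)
      linarith
    · rw [cv_gt hli] at hx
      have hx1 : T (ρ⁻¹ * x) := by
        rcases Nat.eq_or_lt_of_le (Nat.succ_le_of_lt hli) with hl1 | hl1
        · have hl1' : l = i + 1 := hl1.symm
          subst hl1'
          rw [cu_succ, es] at hx
          refine C.mid i' (by omega) (by omega) _ ?_
          have e1 : d (ρ * w') x = d w' (ρ⁻¹ * x) := by
            rw [← hG.inv ρ w' (ρ⁻¹ * x), mul_inv_cancel_left]
          have e2 : d x (ρ * v i') = d (ρ⁻¹ * x) (v i') := by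
            rw [← hG.inv ρ (ρ⁻¹ * x) (v i'), mul_inv_cancel_left]
          rw [e1, e2, hG.inv] at hx
          have t1 := hG.tri (u i') (ρ⁻¹ * x) (v i')
          have t2 := hG.tri (u i') w' (ρ⁻¹ * x)
          linarith
        · rw [cu_gt hl1] at hx
          refine C.mid (l + (i' - i - 1)) (by omega) (by omega) _ ?_
          have e1 : d (ρ * u (l + (i' - i - 1))) x = d (u (l + (i' - i - 1))) (ρ⁻¹ * x) := by
            rw [← hG.inv ρ _ (ρ⁻¹ * x), mul_inv_cancel_left]
          have e2 : d x (ρ * v (l + (i' - i - 1))) = d (ρ⁻¹ * x) (v (l + (i' - i - 1))) := by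
            rw [← hG.inv ρ (ρ⁻¹ * x) _, mul_inv_cancel_left]
          rw [e1, e2, hG.inv] at hx
          exact hx
      have := hT ρ hρN _ hx1
      rwa [mul_inv_cancel_left] at this
  · -- far
    have h0 : d p (cv v ρ w i i' 0) + d (cv v ρ w i i' 0) (v 0) = d p (v 0) := by
      rcases Nat.eq_zero_or_pos i with hi | hi
      · subst hi
        rw [cv_eq, ← C.start]
        exact hw
      · rw [cv_lt hi, hG.self]
        simp
    obtain ⟨y1, hy1, hy1'⟩ : ∃ y1, cu u ρ w' i i' (k - (i' - i - 1) - 1) = ρ * y1 ∧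
        d (u (k - 1)) y1 + d y1 (g * p) = d (u (k - 1)) (g * p) := by
      by_cases hlast : i' = k - 1
      · refine ⟨w', ?_, ?_⟩
        · have : k - (i' - i - 1) - 1 = i + 1 := by omega
          rw [this, cu_succ]
        · rw [← C.stop, ← hlast]
          exact hw'
      · refine ⟨u (k - 1), ?_, ?_⟩
        · rw [cu_gt (by omega)]
          have : k - (i' - i - 1) - 1 + (i' - i - 1) = k - 1 := by omega
          rw [this]
        · rw [hG.self]
          simp
    rw [hy1, dq_right hG hρN, mul_assoc, hG.inv]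
    exact far_le hG C.far h0 hy1'

/-- the measure of a configuration -/
def meas (d : H → H → ℤ) (k : ℕ) (u v : ℕ → H) : ℤ := k + ∑ l ∈ Finset.range k, d (u l) (v l)

theorem meas_cut (hG : Geo d) {k : ℕ} (hk3 : 3 ≤ k) (hk4 : k ≤ 4) {u v : ℕ → H} {ρ : H}
    {i i' : ℕ} (hii : i < i') (hk : i' < k) {w w' : H}
    (hw : d (u i) w + d w (v i) = d (u i) (v i))
    (hw' : d (u i') w' + d w' (v i') = d (u i') (v i')) :
    meas d (k - (i' - i - 1)) (cu u ρ w' i i') (cv v ρ w i i') + ((i' - i - 1 : ℕ) : ℤ) +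
      d w (v i) + d (u i') w' ≤ meas d k u v := by
  have n0 := hG.nonneg (u 0) (v 0)
  have n1 := hG.nonneg (u 1) (v 1)
  have n2 := hG.nonneg (u 2) (v 2)
  have n3 := hG.nonneg (u 3) (v 3)
  interval_cases k <;> interval_cases i' <;> interval_cases i <;>
    simp only [meas, cu, cv, Finset.sum_range_succ, Finset.sum_range_zero] <;>
    simp [hG.inv] <;> linarith

/-! ### the main theorem -/

theorem total3 (f g : ℕ → ℤ) : |f 0 - g 2| ≤
    |f 0 - g 0| + |g 0 - f 1| + |f 1 - g 1| + |g 1 - f 2| + |f 2 - g 2| := by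
  have h1 := abs_sub_le (f 0) (g 0) (g 2)
  have h2 := abs_sub_le (g 0) (f 1) (g 2)
  have h3 := abs_sub_le (f 1) (g 1) (g 2)
  have h4 := abs_sub_le (g 1) (f 2) (g 2)
  linarith

theorem total4 (f g : ℕ → ℤ) : |f 0 - g 3| ≤
    |f 0 - g 0| + |g 0 - f 1| + |f 1 - g 1| + |g 1 - f 2| + |f 2 - g 2| + |g 2 - f 3| +
      |f 3 - g 3| := by
  have h1 := total3 f g
  have h2 := abs_sub_le (f 0) (g 2) (g 3)
  have h3 := abs_sub_le (g 2) (f 3) (g 3)
  linarith

/-- at most one near side: the displacement is small -/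
theorem few_near {k : ℕ} (hk3 : 3 ≤ k) (hk4 : k ≤ 4) (f g : ℕ → ℤ) (near : ℕ → Prop)
    (F1 : ∀ l < k, |f l - g l| ≤ 502) (F2 : ∀ l, ¬ near l → |f l - g l| ≤ 2)
    (F3 : ∀ l, l + 1 < k → |g l - f (l + 1)| ≤ 7)
    (hn : ∀ i i', i < i' → i' < k → near i → ¬ near i') : |f 0 - g (k - 1)| < 915 := by
  have hk : k = 3 ∨ k = 4 := by omega
  rcases hk with rfl | rfl
  · have t := total3 f g
    have g0 := F3 0 (by omega)
    have g1 := F3 1 (by omega)
    change |f 0 - g 2| < 915
    by_cases n0 : near 0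
    · have d0 := F1 0 (by omega)
      have d1 := F2 1 (hn 0 1 (by omega) (by omega) n0)
      have d2 := F2 2 (hn 0 2 (by omega) (by omega) n0)
      linarith
    · have d0 := F2 0 n0
      by_cases n1 : near 1
      · have d1 := F1 1 (by omega)
        have d2 := F2 2 (hn 1 2 (by omega) (by omega) n1)
        linarith
      · have d1 := F2 1 n1
        have d2 := F1 2 (by omega)
        linarith
  · have t := total4 f g
    have g0 := F3 0 (by omega)
    have g1 := F3 1 (by omega)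
    have g2 := F3 2 (by omega)
    change |f 0 - g 3| < 915
    by_cases n0 : near 0
    · have d0 := F1 0 (by omega)
      have d1 := F2 1 (hn 0 1 (by omega) (by omega) n0)
      have d2 := F2 2 (hn 0 2 (by omega) (by omega) n0)
      have d3 := F2 3 (hn 0 3 (by omega) (by omega) n0)
      linarith
    · have d0 := F2 0 n0
      by_cases n1 : near 1
      · have d1 := F1 1 (by omega)
        have d2 := F2 2 (hn 1 2 (by omega) (by omega) n1)
        have d3 := F2 3 (hn 1 3 (by omega) (by omega) n1)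
        linarith
      · have d1 := F2 1 n1
        by_cases n2 : near 2
        · have d2 := F1 2 (by omega)
          have d3 := F2 3 (hn 2 3 (by omega) (by omega) n2)
          linarith
        · have d2 := F2 2 n2
          have d3 := F1 3 (by omega)
          linarith

/-- all sides are short, and only one gap may be long -/
theorem one_gap {k : ℕ} (hk3 : 3 ≤ k) (hk4 : k ≤ 4) (f g : ℕ → ℤ) (i : ℕ) (hi : i + 1 < k)
    (F1 : ∀ l < k, |f l - g l| ≤ 4)
    (F3 : ∀ l, l + 1 < k → l ≠ i → |g l - f (l + 1)| ≤ 7)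
    (F4 : |g i - f (i + 1)| ≤ 505) : |f 0 - g (k - 1)| < 915 := by
  have hk : k = 3 ∨ k = 4 := by omega
  rcases hk with rfl | rfl
  · have t := total3 f g
    have d0 := F1 0 (by omega)
    have d1 := F1 1 (by omega)
    have d2 := F1 2 (by omega)
    change |f 0 - g 2| < 915
    have hi' : i = 0 ∨ i = 1 := by omega
    rcases hi' with rfl | rfl
    · have g1 := F3 1 (by omega) (by omega)
      simp only [Nat.zero_add, Nat.reduceAdd] at *
      linarith
    · have g0 := F3 0 (by omega) (by omega)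
      simp only [Nat.zero_add, Nat.reduceAdd] at *
      linarith
  · have t := total4 f g
    have d0 := F1 0 (by omega)
    have d1 := F1 1 (by omega)
    have d2 := F1 2 (by omega)
    have d3 := F1 3 (by omega)
    change |f 0 - g 3| < 915
    have hi' : i = 0 ∨ i = 1 ∨ i = 2 := by omega
    rcases hi' with rfl | rfl | rfl
    · have g1 := F3 1 (by omega) (by omega)
      have g2 := F3 2 (by omega) (by omega)
      simp only [Nat.zero_add, Nat.reduceAdd] at *
      linarith
    · have g0 := F3 0 (by omega) (by omega)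
      have g2 := F3 2 (by omega) (by omega)
      simp only [Nat.zero_add, Nat.reduceAdd] at *
      linarith
    · have g0 := F3 0 (by omega) (by omega)
      have g1 := F3 1 (by omega) (by omega)
      simp only [Nat.zero_add, Nat.reduceAdd] at *
      linarith

/-- middle sides and all gaps short: the outer sides are long and their inner ends are close -/
theorem outer_long {k : ℕ} (hk3 : 3 ≤ k) (hk4 : k ≤ 4) (f g : ℕ → ℤ)
    (F1 : ∀ l < k, |f l - g l| ≤ 502) (F2 : ∀ l, 0 < l → l + 1 < k → |f l - g l| ≤ 2)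
    (F3 : ∀ l, l + 1 < k → |g l - f (l + 1)| ≤ 7) (hv : 915 ≤ |f 0 - g (k - 1)|) :
    380 ≤ |f 0 - g 0| ∧ |g 0 - f (k - 1)| ≤ 25 ∧ 380 ≤ |g (k - 1) - f (k - 1)| := by
  have hk : k = 3 ∨ k = 4 := by omega
  rcases hk with rfl | rfl
  · have t := total3 f g
    have d0 := F1 0 (by omega)
    have d1 := F2 1 (by omega) (by omega)
    have d2 := F1 2 (by omega)
    have g0 := F3 0 (by omega)
    have g1 := F3 1 (by omega)
    change 915 ≤ |f 0 - g 2| at hv
    change 380 ≤ |f 0 - g 0| ∧ |g 0 - f 2| ≤ 25 ∧ 380 ≤ |g 2 - f 2|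
    have e := abs_sub_comm (g 2) (f 2)
    have s1 := abs_sub_le (g 0) (f 1) (f 2)
    have s2 := abs_sub_le (f 1) (g 1) (f 2)
    simp only [Nat.zero_add, Nat.reduceAdd] at *
    refine ⟨by linarith, by linarith, by linarith⟩
  · have t := total4 f g
    have d0 := F1 0 (by omega)
    have d1 := F2 1 (by omega) (by omega)
    have d2 := F2 2 (by omega) (by omega)
    have d3 := F1 3 (by omega)
    have g0 := F3 0 (by omega)
    have g1 := F3 1 (by omega)
    have g2 := F3 2 (by omega)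
    change 915 ≤ |f 0 - g 3| at hv
    change 380 ≤ |f 0 - g 0| ∧ |g 0 - f 3| ≤ 25 ∧ 380 ≤ |g 3 - f 3|
    have e := abs_sub_comm (g 3) (f 3)
    have s1 := abs_sub_le (g 0) (f 1) (f 3)
    have s2 := abs_sub_le (f 1) (g 1) (f 3)
    have s3 := abs_sub_le (g 1) (f 2) (f 3)
    have s4 := abs_sub_le (f 2) (g 2) (f 3)
    simp only [Nat.zero_add, Nat.reduceAdd] at *
    refine ⟨by linarith, by linarith, by linarith⟩

theorem Conf.close_aux (h : SCHyp a d δ κ η M U E) (X : AxSys a d η M U N) [N.Normal]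
    {T : H → Prop} (hT : ∀ g ∈ N, ∀ x, T x → T (g * x)) {p : H} (n : ℕ) :
    ∀ {g : H} {k : ℕ} {u v : ℕ → H}, Conf E X T p g k u v → meas d k u v ≤ n →
      ∃ q, T q ∧ dq d N p q ≤ 1006 * U := by
  classical
  obtain ⟨hδ, hη, hδE, hηE, hEM, hMU, hUM⟩ := h.consts
  have hG : Geo d := h.geo
  induction n with
  | zero =>
    intro g k u v C hm
    exfalso
    have h3 := C.k3
    have hs : 0 ≤ ∑ l ∈ Finset.range k, d (u l) (v l) :=
      Finset.sum_nonneg fun l _ => hG.nonneg _ _
    unfold meas at hm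
    push_cast at hm
    omega
  | succ n ih =>
    intro g k u v C hm
    by_cases hg1 : g = 1
    · subst hg1
      exact C.close_one h X
    obtain ⟨A, r, per, hA, hvis⟩ := X.visible g C.g_mem hg1 p
    have hk3 := C.k3
    have hk4 := C.k4
    obtain ⟨near, hnear⟩ : ∃ near : ℕ → Prop, ∀ l, near l ↔ NearSide E A (u l) (v l) :=
      ⟨_, fun _ => Iff.rfl⟩
    have F1 : ∀ l < k, |A.pos (u l) - A.pos (v l)| ≤ 502 := fun l hl => X.disp h hA (C.min l hl)
    have F2 : ∀ l, ¬ near l → |A.pos (u l) - A.pos (v l)| ≤ 2 := fun l hl =>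
      disp_not_near h A fun hn => hl ((hnear l).2 hn)
    have F3 : ∀ l, l + 1 < k → |A.pos (v l) - A.pos (u (l + 1))| ≤ 7 ∨
        (near l ∧ near (l + 1) ∧ |A.pos (v l) - A.pos (u (l + 1))| ≤ 505) := by
      intro l hl
      rcases gap_pos h X hA (C.gap l hl) with h1 | ⟨h1, h2, h3⟩
      · exact Or.inl h1
      · refine Or.inr ⟨(hnear l).2 ⟨_, ?_, h1⟩, (hnear _).2 ⟨_, ?_, h2⟩, h3⟩
        · rw [hG.self]; simp
        · rw [hG.self]; simp
    have hvis' : 915 ≤ |A.pos (u 0) - A.pos (v (k - 1))| := by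
      rw [C.start, C.stop]
      exact hvis
    by_cases h2 : ∃ i i', i < i' ∧ i' < k ∧ near i ∧ near i'
    swap
    · exfalso
      push Not at h2
      have F3' : ∀ l, l + 1 < k → |A.pos (v l) - A.pos (u (l + 1))| ≤ 7 := by
        intro l hl
        rcases F3 l hl with h1 | ⟨h1, h2', -⟩
        · exact h1
        · exact absurd h2' (h2 l (l + 1) (by omega) hl h1)
      have := few_near hk3 hk4 (fun l => A.pos (u l)) (fun l => A.pos (v l)) near F1 F2 F3'
        (fun i i' h1 h2' h3 => h2 i i' h1 h2' h3)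
      exact absurd hvis' (not_le.2 this)
    obtain ⟨i₀, i₁, h01, h1k, hn0, hn1⟩ := h2
    set S : Finset ℕ := (Finset.range k).filter near with hS
    have hi0S : i₀ ∈ S := by simp [hS, hn0]; omega
    have hi1S : i₁ ∈ S := by simp [hS, hn1, h1k]
    have hSne : S.Nonempty := ⟨i₀, hi0S⟩
    obtain ⟨i, hi⟩ : ∃ i, i = S.min' hSne := ⟨_, rfl⟩
    obtain ⟨i', hi'⟩ : ∃ i', i' = S.max' hSne := ⟨_, rfl⟩
    have hiS : i ∈ S := hi ▸ S.min'_mem hSne
    have hi'S : i' ∈ S := hi' ▸ S.max'_mem hSne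
    have hmin : ∀ l ∈ S, i ≤ l := fun l hl => hi ▸ S.min'_le l hl
    have hmax : ∀ l ∈ S, l ≤ i' := fun l hl => hi' ▸ S.le_max' l hl
    have hii : i < i' := lt_of_le_of_lt (hmin _ hi0S) (lt_of_lt_of_le h01 (hmax _ hi1S))
    have hi'k : i' < k := Finset.mem_range.1 (Finset.mem_filter.1 hi'S).1
    have hni : NearSide E A (u i) (v i) := (hnear i).1 (Finset.mem_filter.1 hiS).2
    have hni' : NearSide E A (u i') (v i') := (hnear i').1 (Finset.mem_filter.1 hi'S).2
    by_cases hne : i = 0 ∧ i' = k - 1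
    · obtain ⟨rfl, rfl⟩ := hne
      by_cases hmid : ∃ m, 0 < m ∧ m + 1 < k ∧ near m
      · -- a middle side is near
        obtain ⟨m, hm0, hmk, hnm⟩ := hmid
        obtain ⟨w3, hw3, hn3⟩ := (hnear m).1 hnm
        obtain ⟨w1, hw1, hnw1⟩ := hni
        obtain ⟨w2, hw2, hnw2⟩ := hni'
        refine ⟨w3, C.mid m hm0 hmk w3 hw3, ?_⟩
        have e1 := X.dq_near h hA hnw1 hnw2
        have e2 := X.dq_near h hA hnw1 hn3
        have e3 := far_le hG C.far (y0 := w1) (y1 := w2) (by rw [← C.start]; exact hw1)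
          (by rw [← C.stop]; exact hw2)
        have e4 := hG.nonneg w2 (g * p)
        have e5 := dq_tri (N := N) hG p w1 w3
        have e6 := dq_le' (N := N) hG p w1
        linarith
      · exfalso
        push Not at hmid
        have F2' : ∀ l, 0 < l → l + 1 < k → |A.pos (u l) - A.pos (v l)| ≤ 2 :=
          fun l h0 h1 => F2 l (hmid l h0 h1)
        have F3' : ∀ l, l + 1 < k → |A.pos (v l) - A.pos (u (l + 1))| ≤ 7 := by
          intro l hl
          rcases F3 l hl with h1 | ⟨h1, h2', -⟩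
          · exact h1
          · exfalso
            rcases Nat.eq_zero_or_pos l with h0 | h0
            · subst h0
              exact hmid (0 + 1) (by omega) (by omega) h2'
            · exact hmid l h0 hl h1
        obtain ⟨o1, o2, o3⟩ := outer_long hk3 hk4 (fun l => A.pos (u l)) (fun l => A.pos (v l))
          F1 F2' F3' hvis'
        obtain ⟨w1, j1, hw1, hj1, hwj1⟩ := near_end h A (x := u 0) (y := v 0) (by linarith)
        obtain ⟨w2, j2, hw2, hj2, hwj2⟩ := near_end h A (x := v (k - 1)) (y := u (k - 1))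
          (by linarith)
        have hw2' : d (u (k - 1)) w2 + d w2 (v (k - 1)) = d (u (k - 1)) (v (k - 1)) := by
          rw [hG.symm (u (k - 1)) w2, hG.symm w2 (v (k - 1)), hG.symm (u (k - 1)) (v (k - 1))]
          linarith
        have e3 := far_le hG C.far (y0 := w1) (y1 := w2) (by rw [← C.start]; exact hw1)
          (by rw [← C.stop]; exact hw2')
        have hjj : |j1 - j2| ≤ 29 := by
          change |A.pos (v 0) - A.pos (u (k - 1))| ≤ 25 at o2
          rw [abs_le] at hj1 hj2 o2 ⊢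
          constructor <;> linarith
        have e4 := X.dPP h hA (n := 29) (by norm_num) hjj
        have e5 := hG.tri w1 (A.P j1) w2
        have e6 := hG.tri (A.P j1) (A.P j2) w2
        have e7 := hG.symm w2 (A.P j2)
        have e8 := dq_le' (N := N) hG w1 w2
        have e9 := hG.nonneg w2 (g * p)
        have hp1 := pos_of_near h A hwj1
        have hp2 : 376 ≤ |A.pos p - A.pos w1| := by
          rw [← C.start]
          change 380 ≤ |A.pos (u 0) - A.pos (v 0)| at o1
          have t1 := abs_sub_le (A.pos (u 0)) (A.pos w1) (A.pos (v 0))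
          have t2 : |A.pos w1 - A.pos (v 0)| ≤ 4 := by
            rw [abs_le] at hj1 hp1 ⊢
            constructor <;> linarith
          linarith
        have hlip := Chain.pos_lip h.toChHyp A p w1
        have hMpos : 0 < M := by linarith
        have : M * 374 ≤ M * (|A.pos p - A.pos w1| - 2) :=
          mul_le_mul_of_nonneg_left (by linarith) hMpos.le
        linarith
    · -- cut
      obtain ⟨w, hw, hnw, hwmin⟩ := exists_first_near hG A hni
      obtain ⟨w', hw', hnw', hwmin'⟩ := exists_last_near hG A hni'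
      obtain ⟨ρ, hρ, C'⟩ := C.cut h X hT hA hii hi'k hne hw hw' hnw hnw'
      have hmc := meas_cut (ρ := ρ) hG hk3 hk4 hii hi'k hw hw'
      have n1 := hG.nonneg w (v i)
      have n2 := hG.nonneg (u i') w'
      by_cases hm' : meas d (k - (i' - i - 1)) (cu u ρ w' i i') (cv v ρ w i i') ≤ n
      · exact ih C' hm'
      · exfalso
        push_cast at hm
        have hz1 : ((i' - i - 1 : ℕ) : ℤ) = 0 := by omega
        have hz2 : d w (v i) = 0 := by omega
        have hz3 : d (u i') w' = 0 := by omega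
        have hi1 : i' = i + 1 := by omega
        have hwv : w = v i := hG.eq _ _ hz2
        have hwu : w' = u i' := (hG.eq _ _ hz3).symm
        have G1 : |A.pos (u i) - A.pos (v i)| ≤ 4 := by
          refine disp_only_right h A fun w'' h1 h2 => ?_
          have := hwmin w'' h1 h2
          rw [hwv] at this
          have n3 := hG.nonneg w'' (v i)
          exact hG.eq _ _ (by linarith)
        have G2 : |A.pos (u i') - A.pos (v i')| ≤ 4 := by
          refine disp_only_left h A fun w'' h1 h2 => ?_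
          have := hwmin' w'' h1 h2
          rw [hwu] at this
          have n3 := hG.nonneg (u i') w''
          exact (hG.eq _ _ (by linarith)).symm
        have F1' : ∀ l < k, |A.pos (u l) - A.pos (v l)| ≤ 4 := by
          intro l hl
          by_cases hln : near l
          · have hlS : l ∈ S := by simp [hS, hln, hl]
            have h1 := hmin l hlS
            have h2 := hmax l hlS
            rcases Nat.eq_or_lt_of_le h1 with h3 | h3
            · rw [← h3]; exact G1
            · have : l = i' := by omega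
              rw [this]; exact G2
          · exact (F2 l hln).trans (by norm_num)
        have F3' : ∀ l, l + 1 < k → l ≠ i → |A.pos (v l) - A.pos (u (l + 1))| ≤ 7 := by
          intro l hl hli
          rcases F3 l hl with h1 | ⟨h1, h2, -⟩
          · exact h1
          · exfalso
            have hlS : l ∈ S := by simp [hS, h1]; omega
            have hlS' : l + 1 ∈ S := by simp [hS, h2, hl]
            have := hmin l hlS
            have := hmax _ hlS'
            omega
        have F4 : |A.pos (v i) - A.pos (u (i + 1))| ≤ 505 := by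
          rcases F3 i (by omega) with h1 | ⟨-, -, h1⟩
          · linarith
          · exact h1
        have := one_gap hk3 hk4 (fun l => A.pos (u l)) (fun l => A.pos (v l)) i (by omega)
          F1' F3' F4
        exact absurd hvis' (not_le.2 this)

/-- In a configuration the point `p` is close (modulo `N`) to a point satisfying `T`. -/
theorem Conf.close (h : SCHyp a d δ κ η M U E) (X : AxSys a d η M U N) [N.Normal] {T : H → Prop}
    (hT : ∀ g ∈ N, ∀ x, T x → T (g * x)) {p g : H} {k : ℕ} {u v : ℕ → H}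
    (C : Conf E X T p g k u v) : ∃ q, T q ∧ dq d N p q ≤ 1006 * U := by
  refine Conf.close_aux h X hT (meas d k u v).toNat C ?_
  exact Int.self_le_toNat _

end Pool.Agent.LibSCQ
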