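import Pool.Agent.LibSCQ.Pres
import Pool.Agent.LibSCQ.Defs
import Pool.Agent.LibSCQ.Rel

/-!
TASK 11, part 1. Invariance under isomorphisms, the word metric, one step of the tower as a
quotient.
-/

set_option autoImplicit false

namespace Pool.Agent.LibSCQ

/-- the hyperbolicity constants -/
def dl : ℕ → ℤ
  | 0 => 10
  | j + 1 => 5000 * nn j

/-- the projection constants -/
def kp : ℕ → ℤ
  | 0 => 10
  | j + 1 => 150000 * nn j

/-- the image of a word in `GJ J` -/
abbrev im (J : Set ℕ) (x : F2) : GJ J := QuotientGroup.mk x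

theorem map_fw {H H' : Type} [Group H] [Group H'] (e : H →* H') (b u : H) :
    e (fw b u) = fw (e b) (e u) := by
  unfold fw
  rw [map_list_prod, List.map_map]
  simp only [Function.comp_def, map_mul, map_pow]

theorem map_gw {H H' : Type} [Group H] [Group H'] (e : H →* H') (b u : H) :
    e (gw b u) = gw (e b) (e u) := by
  unfold gw
  rw [map_list_prod, List.map_map]
  simp only [Function.comp_def, map_mul, map_pow]

/-- the properties of `Good` are invariant under isomorphisms -/
theorem Good.map {H H' : Type} [Group H] [Group H'] {a b : H} {d : H → H → ℤ} {δ κ : ℤ}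
    {D : Set ℤ} (h : Good a b d δ κ D) (e : H ≃* H') :
    Good (e a) (e b) (fun x y => d (e.symm x) (e.symm y)) δ κ D := by
  have hz : ∀ g : H', e.symm g ∈ Subgroup.zpowers a → g ∈ Subgroup.zpowers (e a) := by
    rintro g ⟨k, hk⟩
    refine ⟨k, ?_⟩
    have h1 : e (a ^ k) = g := by
      have : a ^ k = e.symm g := hk
      rw [this, MulEquiv.apply_symm_apply]
    simpa using h1
  have hz' : ∀ g : H', g ∈ Subgroup.zpowers (e a) → e.symm g ∈ Subgroup.zpowers a := by
    rintro g ⟨k, hk⟩
    refine ⟨k, ?_⟩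
    have h1 : (e a) ^ k = g := hk
    have h2 : a ^ k = e.symm ((e a) ^ k) := by simp
    show a ^ k = e.symm g
    rw [h2, h1]
  refine { geo := ?_, δ0 := h.δ0, hyp := ?_, line := ?_, κ0 := h.κ0, par := ?_, b_le := ?_,
           jsep := ?_, ball := ?_, tf := ?_, dset := ?_ }
  · refine ⟨fun x => h.geo.self _, fun x y hxy => ?_, fun x y => h.geo.nonneg _ _,
      fun x y => h.geo.symm _ _, fun x y z => h.geo.tri _ _ _, fun g x y => ?_, ?_⟩
    · exact e.symm.injective (h.geo.eq _ _ hxy)
    · simp only [map_mul]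
      exact h.geo.inv _ _ _
    · intro x y k hk hk'
      obtain ⟨z, hz1, hz2⟩ := h.geo.geod (e.symm x) (e.symm y) k hk hk'
      exact ⟨e z, by simpa using hz1, by simpa using hz2⟩
  · intro x y z w
    exact h.hyp _ _ _ _
  · intro k
    simp only [map_one, map_zpow, MulEquiv.symm_apply_apply]
    exact h.line k
  · intro g hg i j s t hs ht
    simp only [map_mul, map_zpow, MulEquiv.symm_apply_apply] at hs ht
    exact h.par (e.symm g) (fun hc => hg (hz g hc)) i j s t hs ht
  · simp only [map_one, MulEquiv.symm_apply_apply]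
    exact h.b_le
  · intro k l hk hl x y hxy
    refine h.jsep k l hk hl x y ?_
    have h1 := congrArg e.symm hxy
    simpa using h1
  · intro g hg
    simp only [map_one] at hg
    have h1 := h.ball _ hg
    simpa [MulEquiv.symm_apply_eq] using h1
  · intro g p hp hg
    have h1 := h.tf (e.symm g) p hp (by rw [← map_pow, hg, map_one])
    simpa using h1
  · intro m hm
    refine h.dset m ?_
    have h1 : e (fw b (a ^ m)) = fw (e b) ((e a) ^ m) := by
      have := map_fw e.toMonoidHom b (a ^ m)
      simpa using this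
    rw [← h1] at hm
    simpa using hz' _ hm

theorem wordLen_leA {G : Type} [Group G] {S : Set G} {g : G} {l : List G}
    (hl : ∀ x ∈ l, x ∈ S ∨ x⁻¹ ∈ S) (hg : l.prod = g) : wordLen S g ≤ l.length :=
  Nat.sInf_le ⟨l, rfl, hl, hg⟩

/-- a metric as in `Good` is the word metric -/
theorem Good.word {H : Type} [Group H] {a b : H} {d : H → H → ℤ} {δ κ : ℤ} {D : Set ℤ}
    (h : Good a b d δ κ D) (x y : H) : d x y = wordLen {a, b} (x⁻¹ * y) := by
  have hgeo := h.geo
  have hinv : d x y = d 1 (x⁻¹ * y) := by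
    have := hgeo.inv x⁻¹ x y
    rw [inv_mul_cancel] at this
    exact this.symm
  rw [hinv]
  generalize x⁻¹ * y = g
  have hneg : ∀ u : H, d 1 u⁻¹ = d 1 u := by
    intro u
    have := hgeo.inv u 1 u⁻¹
    rw [mul_one, mul_inv_cancel] at this
    rw [← this, hgeo.symm]
  have ha : d 1 a = 1 := by
    have := h.line 1
    simpa using this
  have hlet : ∀ u : H, (u ∈ ({a, b} : Set H) ∨ u⁻¹ ∈ ({a, b} : Set H)) → d 1 u ≤ 1 := by
    intro u hu
    rcases hu with (hu | hu) | (hu | hu)
    · rw [hu, ha]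
    · have hu' : u = b := hu
      rw [hu']
      exact h.b_le
    · rw [← hneg, hu, ha]
    · have hu' : u⁻¹ = b := hu
      rw [← hneg, hu']
      exact h.b_le
  have hup : ∀ l : List H, (∀ u ∈ l, u ∈ ({a, b} : Set H) ∨ u⁻¹ ∈ ({a, b} : Set H)) →
      d 1 l.prod ≤ l.length := by
    intro l
    induction l with
    | nil => intro _; simp [hgeo.self]
    | cons u l ih =>
      intro hl
      have h1 := ih (fun v hv => hl v (List.mem_cons_of_mem _ hv))
      have h2 := hlet u (hl u List.mem_cons_self)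
      have h3 := hgeo.tri 1 u (u * l.prod)
      have h4 := hgeo.inv u 1 l.prod
      rw [mul_one] at h4
      rw [List.prod_cons, List.length_cons]
      push_cast
      omega
  have hlow : ∀ (n : ℕ) (g : H), d 1 g = n → ∃ l : List H, l.length = n ∧
      (∀ u ∈ l, u ∈ ({a, b} : Set H) ∨ u⁻¹ ∈ ({a, b} : Set H)) ∧ l.prod = g := by
    intro n
    induction n with
    | zero =>
      intro g hg
      refine ⟨[], rfl, fun u hu => absurd hu List.not_mem_nil, ?_⟩
      have : (1 : H) = g := hgeo.eq _ _ (by simpa using hg)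
      simpa using this
    | succ n ih =>
      intro g hg
      obtain ⟨z, hz1, hz2⟩ := hgeo.geod 1 g n (by omega) (by rw [hg]; push_cast; omega)
      obtain ⟨l, hl1, hl2, hl3⟩ := ih z hz1
      have hz3 : d z g = 1 := by rw [hz2, hg]; push_cast; ring
      have hz4 : d 1 (z⁻¹ * g) = 1 := by
        have := hgeo.inv z⁻¹ z g
        rw [inv_mul_cancel] at this
        rw [this, hz3]
      have hb := h.ball (z⁻¹ * g) (by omega)
      have hne : z⁻¹ * g ≠ 1 := by
        intro hc
        rw [hc, hgeo.self] at hz4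
        omega
      refine ⟨l ++ [z⁻¹ * g], by simp [hl1], ?_, by simp [hl3]⟩
      intro u hu
      rw [List.mem_append, List.mem_singleton] at hu
      rcases hu with hu | hu
      · exact hl2 u hu
      · rw [hu]
        rcases hb with hb | hb | hb | hb | hb
        · exact absurd hb hne
        · rw [hb]; exact Or.inl (Or.inl rfl)
        · rw [hb]; exact Or.inr (Or.inl (inv_inv a))
        · rw [hb]; exact Or.inl (Or.inr rfl)
        · rw [hb]; exact Or.inr (Or.inr (inv_inv b))
  have hne : {n | ∃ l : List H, l.length = n ∧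
      (∀ u ∈ l, u ∈ ({a, b} : Set H) ∨ u⁻¹ ∈ ({a, b} : Set H)) ∧ l.prod = g}.Nonempty := by
    obtain ⟨n, hn⟩ := Int.eq_ofNat_of_zero_le (hgeo.nonneg 1 g)
    exact ⟨n, hlow n g hn⟩
  apply le_antisymm
  · obtain ⟨l, hl1, hl2, hl3⟩ := Nat.sInf_mem hne
    have := hup l hl2
    rw [hl3] at this
    rw [wordLen, ← hl1]
    exact this
  · obtain ⟨n, hn⟩ := Int.eq_ofNat_of_zero_le (hgeo.nonneg 1 g)
    obtain ⟨l, hl1, hl2, hl3⟩ := hlow n g hn
    have := wordLen_leA hl2 hl3
    rw [hn]
    omega

/-- the normal closure does not change if some relators are trivial -/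
theorem normalClosure_union_one {G : Type} [Group G] (S T : Set G) (hS : ∀ x ∈ S, x = 1) :
    Subgroup.normalClosure (S ∪ T) = Subgroup.normalClosure T := by
  apply le_antisymm
  · apply Subgroup.normalClosure_le_normal
    rintro x (hx | hx)
    · rw [hS x hx]
      exact one_mem _
    · exact Subgroup.subset_normalClosure hx
  · exact Subgroup.normalClosure_mono Set.subset_union_right

theorem rels_succ (k : ℕ) : rels (Set.Iio (k + 1)) = rels (Set.Iio k) ∪
    {fw gy (gx ^ nn k) * (gx ^ k)⁻¹, gw gy (gx ^ nn k) * (tgt gx gy k)⁻¹} := by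
  ext w
  constructor
  · rintro ⟨j, hj, hw⟩
    rcases Nat.lt_succ_iff_lt_or_eq.1 (show j < k + 1 from hj) with h | h
    · exact Or.inl ⟨j, h, hw⟩
    · subst h
      exact Or.inr hw
  · rintro (⟨j, hj, hw⟩ | hw)
    · exact ⟨j, Nat.lt_succ_of_lt (show j < k from hj), hw⟩
    · exact ⟨k, Nat.lt_succ_self k, hw⟩

theorem map_NJ_succ (k : ℕ) : (NJ (Set.Iio (k + 1))).map (QuotientGroup.mk' (NJ (Set.Iio k))) =
    NC (im (Set.Iio k) gx) (im (Set.Iio k) gy) (nn k) k
        (im (Set.Iio k) (tgt gx gy k)) := by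
  obtain ⟨φ, hφ⟩ : ∃ φ : F2 →* GJ (Set.Iio k), φ = QuotientGroup.mk' (NJ (Set.Iio k)) := ⟨_, rfl⟩
  have hsurj : Function.Surjective φ := by
    rw [hφ]
    exact QuotientGroup.mk'_surjective _
  have him : ∀ x, im (Set.Iio k) x = φ x := by
    intro x
    rw [hφ]
    rfl
  rw [him, him, him, ← hφ]
  calc (NJ (Set.Iio (k + 1))).map φ = Subgroup.normalClosure (φ '' rels (Set.Iio (k + 1))) :=
        Subgroup.map_normalClosure _ φ hsurj
    _ = Subgroup.normalClosure (φ '' rels (Set.Iio k) ∪
          φ '' {fw gy (gx ^ nn k) * (gx ^ k)⁻¹, gw gy (gx ^ nn k) * (tgt gx gy k)⁻¹}) := by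
        rw [rels_succ, Set.image_union]
    _ = Subgroup.normalClosure
          (φ '' {fw gy (gx ^ nn k) * (gx ^ k)⁻¹, gw gy (gx ^ nn k) * (tgt gx gy k)⁻¹}) := by
        apply normalClosure_union_one
        rintro _ ⟨w, hw, rfl⟩
        rw [hφ, QuotientGroup.mk'_apply, QuotientGroup.eq_one_iff]
        exact Subgroup.subset_normalClosure hw
    _ = NC (φ gx) (φ gy) (nn k) k (φ (tgt gx gy k)) := by
        unfold NC
        rw [Set.image_pair, map_mul, map_mul, map_inv, map_inv, map_fw, map_gw, map_pow, map_pow,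
          zpow_natCast, zpow_natCast]

/-- the group with the relators `j < k + 1` is the quotient of the group with the relators
`j < k`. -/
theorem step_iso (k : ℕ) :
    ∃ e : (GJ (Set.Iio k) ⧸ NC (im (Set.Iio k) gx) (im (Set.Iio k) gy) (nn k) k
        (im (Set.Iio k) (tgt gx gy k))) ≃* GJ (Set.Iio (k + 1)),
      ∀ x : F2, e (QuotientGroup.mk (im (Set.Iio k) x)) = im (Set.Iio (k + 1)) x := by
  have hle : NJ (Set.Iio k) ≤ NJ (Set.Iio (k + 1)) := by
    refine Subgroup.normalClosure_mono ?_
    rw [rels_succ]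
    exact Set.subset_union_left
  have hmap := map_NJ_succ k
  refine ⟨(QuotientGroup.quotientMulEquivOfEq hmap.symm).trans
    (QuotientGroup.quotientQuotientEquivQuotient (NJ (Set.Iio k)) (NJ (Set.Iio (k + 1))) hle), ?_⟩
  intro x
  rfl

end Pool.Agent.LibSCQ
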