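import Pool.Agent.LibSCQ.Pres
import Pool.Agent.LibSCQ.Stage
import Pool.Agent.LibSCQ.Free
import Pool.Agent.LibSCQ.Defs
import Pool.Agent.LibSCQ.TowerA

/-!
TASK 11. The tower of quotients and its limit.
-/

set_option autoImplicit false

namespace Pool.Agent.LibSCQ

theorem im_wd (J : Set ℕ) (i : ℕ) : im J (wd gx gy i) = wd (im J gx) (im J gy) i := by
  induction i using Nat.strong_induction_on with
  | _ i ih =>
    match i with
    | 0 => simp [wd]
    | n + 1 =>
      rw [wd, wd, ← ih (n / 4) (by omega)]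
      simp only [im, QuotientGroup.mk_mul]
      congr 1
      unfold ltr
      split_ifs <;> simp

theorem wd_len {H : Type} [Group H] {a b : H} {d : H → H → ℤ} (h : Geo d) (ha : d 1 a ≤ 1)
    (hb : d 1 b ≤ 1) (i : ℕ) : d 1 (wd a b i) ≤ i := by
  have inv' : ∀ x, d 1 x⁻¹ = d 1 x := by
    intro x
    have := h.inv x⁻¹ 1 x
    rw [mul_one, inv_mul_cancel, h.symm] at this
    omega
  induction i using Nat.strong_induction_on with
  | _ i ih =>
    match i with
    | 0 => simp [wd, h.self]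
    | n + 1 =>
      rw [wd]
      have h1 := ih (n / 4) (by omega)
      have h2 : d 1 (ltr a b (n % 4)) ≤ 1 := by
        unfold ltr
        split_ifs
        · exact ha
        · rw [inv']; exact ha
        · exact hb
        · rw [inv']; exact hb
      have h3 := h.tri 1 (wd a b (n / 4)) (wd a b (n / 4) * ltr a b (n % 4))
      have h4 := h.inv (wd a b (n / 4)) 1 (ltr a b (n % 4))
      rw [mul_one] at h4
      have : ((n / 4 : ℕ) : ℤ) ≤ n := by
        exact_mod_cast Nat.div_le_self n 4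
      push_cast at *
      omega

theorem tgt_len {H : Type} [Group H] {a b : H} {d : H → H → ℤ} {δ : ℤ} (h : Lin a d δ)
    (hb : d 1 b ≤ 1) (j : ℕ) : d 1 (tgt a b j) ≤ (j : ℤ) ^ 2 := by
  have ha : d 1 a ≤ 1 := by
    have := h.line 1
    rw [zpow_one] at this
    simp [this]
  unfold tgt
  split_ifs with h1
  · have := h.line (((j / 2) ^ 2 : ℕ) : ℤ)
    rw [zpow_natCast] at this
    rw [this]
    have h2 : (j / 2) ^ 2 ≤ j ^ 2 := Nat.pow_le_pow_left (Nat.div_le_self j 2) 2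
    rw [abs_of_nonneg (by positivity)]
    exact_mod_cast h2
  · have h2 := wd_len h.geo ha hb (j / 2)
    have h3 : j / 2 ≤ j ^ 2 := (Nat.div_le_self j 2).trans (Nat.le_self_pow (by norm_num) j)
    have h4 : ((j / 2 : ℕ) : ℤ) ≤ (j : ℤ) ^ 2 := by exact_mod_cast h3
    omega

theorem nn_big (j : ℕ) : 10 ^ 12 ≤ nn j := by
  unfold nn
  exact Nat.pow_le_pow_right (by norm_num) (by
    have : 1 ≤ 3 ^ j := Nat.one_le_pow _ _ (by norm_num)
    omega)

theorem nn_step (j : ℕ) : nn (j + 1) = nn j ^ 3 := by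
  unfold nn
  rw [← pow_mul]
  congr 1
  ring

theorem j_le_nn (j : ℕ) : (j + 1) ^ 2 ≤ nn j := by
  unfold nn
  calc (j + 1) ^ 2 ≤ (2 ^ j) ^ 2 := Nat.pow_le_pow_left (Nat.lt_two_pow_self) 2
    _ = 2 ^ (j * 2) := by rw [← pow_mul]
    _ ≤ 10 ^ (j * 2) := Nat.pow_le_pow_left (by norm_num) _
    _ ≤ 10 ^ (12 * 3 ^ j) := by
        apply Nat.pow_le_pow_right (by norm_num)
        have : j < 3 ^ j := Nat.lt_pow_self (by norm_num)
        omega

theorem const_ok (j : ℕ) :
    1000000 * (dl j + kp j + (j : ℤ) ^ 2 + j + 3000) ≤ nn j := by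
  cases j with
  | zero => norm_num [dl, kp, nn]
  | succ j =>
    have h1 : (10 : ℤ) ^ 12 ≤ nn j := by exact_mod_cast nn_big j
    have h2 : ((j : ℤ) + 1) ^ 2 ≤ nn j := by exact_mod_cast j_le_nn j
    rw [nn_step]
    simp only [dl, kp]
    push_cast
    set N : ℤ := (nn j : ℤ)
    have h3 : ((j : ℤ) + 1) ≤ N := by nlinarith
    nlinarith [mul_nonneg (sub_nonneg.2 h1) (sub_nonneg.2 h1), sq_nonneg N]

theorem tower_hyp (j : ℕ) (d : GJ (Set.Iio j) → GJ (Set.Iio j) → ℤ)
    (h : Good (im _ gx) (im _ gy) d (dl j) (kp j) {m | ∃ i < j, m = nn i}) :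
    StepHyp (im (Set.Iio j) gx) (im (Set.Iio j) gy) d (dl j) (kp j) {m | ∃ i < j, m = nn i}
      (nn j) (dl j + kp j + (j : ℤ) ^ 2 + j + 3000) j (im (Set.Iio j) (tgt gx gy j)) := by
  refine ⟨h, ?_, const_ok j⟩
  have h1 : im (Set.Iio j) (tgt gx gy j) = tgt (im (Set.Iio j) gx) (im (Set.Iio j) gy) j := by
    unfold tgt
    split_ifs
    · simp [im]
    · exact im_wd _ _
  have h2 := tgt_len h.toLin h.b_le j
  rw [h1, abs_of_nonneg (by positivity)]
  linarith

theorem tower0 : ∃ d : GJ (Set.Iio 0) → GJ (Set.Iio 0) → ℤ,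
    Good (im _ gx) (im _ gy) d (dl 0) (kp 0) {m : ℤ | ∃ i < 0, m = nn i} := by
  have h0 : NJ (Set.Iio 0) = ⊥ := by
    unfold NJ
    have : rels (Set.Iio 0) = ∅ := by
      ext w
      simp [rels]
    rw [this, Subgroup.normalClosure_empty]
  let e : F2 ≃* GJ (Set.Iio 0) :=
    (QuotientGroup.quotientBot (G := F2)).symm.trans
      (QuotientGroup.quotientMulEquivOfEq h0.symm)
  have he : ∀ x, e x = im (Set.Iio 0) x := fun x => rfl
  have := free_good.map e
  rw [he, he] at this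
  have hD : (∅ : Set ℤ) = {m : ℤ | ∃ i < 0, m = nn i} := by
    ext m
    simp
  rw [hD] at this
  exact ⟨_, this⟩

theorem tower_good (j : ℕ) : ∃ d : GJ (Set.Iio j) → GJ (Set.Iio j) → ℤ,
    Good (im _ gx) (im _ gy) d (dl j) (kp j) {m | ∃ i < j, m = nn i} := by
  induction j with
  | zero => exact tower0
  | succ j ih =>
    obtain ⟨d, hd⟩ := ih
    have hs := tower_hyp j d hd
    obtain ⟨e, he⟩ := step_iso j
    have := hs.stage.map e
    rw [he, he] at this
    have hD : (insert (nn j : ℤ) {m | ∃ i < j, m = nn i} : Set ℤ) =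
        {m : ℤ | ∃ i < j + 1, m = nn i} := by
      ext m
      simp only [Set.mem_setOf_eq, Set.mem_insert_iff]
      constructor
      · rintro (h | ⟨i, hi, h⟩)
        · exact ⟨j, by omega, h⟩
        · exact ⟨i, by omega, h⟩
      · rintro ⟨i, hi, rfl⟩
        rcases Nat.lt_succ_iff_lt_or_eq.1 hi with h | h
        · exact Or.inr ⟨i, h, rfl⟩
        · left; rw [h]
    rw [hD] at this
    exact ⟨_, this⟩

/-- all groups of the tower satisfy `Good`, and nontrivial elements killed in the next step are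
long -/
theorem tower (j : ℕ) :
    ∃ d : GJ (Set.Iio j) → GJ (Set.Iio j) → ℤ,
      Good (im _ gx) (im _ gy) d (dl j) (kp j) {m | ∃ i < j, m = nn i} ∧
      ∀ x : F2, im (Set.Iio (j + 1)) x = 1 → im (Set.Iio j) x ≠ 1 → 100 * nn j ≤ d 1 (im _ x) := by
  obtain ⟨d, hd⟩ := tower_good j
  refine ⟨d, hd, ?_⟩
  intro x hx hx'
  have hs := tower_hyp j d hd
  obtain ⟨e, he⟩ := step_iso j
  have h1 := he x
  rw [hx] at h1
  have h2 : (QuotientGroup.mk (im (Set.Iio j) x) : GJ (Set.Iio j) ⧸ NC (im (Set.Iio j) gx)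
      (im (Set.Iio j) gy) (nn j) j (im (Set.Iio j) (tgt gx gy j))) = 1 := by
    apply e.injective
    rw [h1, map_one]
  rw [QuotientGroup.eq_one_iff] at h2
  have := hs.inj h2 hx' 1
  rwa [mul_one] at this

/-! ### the limit group -/

/-- the limit group -/
abbrev GG : Type := GJ Set.univ

theorem rels_mono {J K : Set ℕ} (h : J ⊆ K) : rels J ⊆ rels K := by
  rintro w ⟨j, hj, hw⟩
  exact ⟨j, h hj, hw⟩

theorem NJ_mono {J K : Set ℕ} (h : J ⊆ K) : NJ J ≤ NJ K :=
  Subgroup.normalClosure_mono (rels_mono h)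

theorem im_eq_one_iff {J : Set ℕ} {x : F2} : im J x = 1 ↔ x ∈ NJ J :=
  QuotientGroup.eq_one_iff x

theorem im_mono' {J K : Set ℕ} (h : J ⊆ K) {x : F2} (hx : im J x = 1) : im K x = 1 :=
  im_eq_one_iff.2 (NJ_mono h (im_eq_one_iff.1 hx))

theorem im_eq {J K : Set ℕ} (h : J ⊆ K) {x y : F2} (hx : im J x = im J y) : im K x = im K y := by
  have h1 : im J (x⁻¹ * y) = 1 := by
    simp only [im, QuotientGroup.mk_mul, QuotientGroup.mk_inv] at hx ⊢
    rw [hx, inv_mul_cancel]
  have h2 := im_mono' h h1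
  simp only [im, QuotientGroup.mk_mul, QuotientGroup.mk_inv] at h2 ⊢
  exact inv_mul_eq_one.1 h2

theorem im_mono {i j : ℕ} (hij : i ≤ j) (x : F2) (hx : im (Set.Iio i) x = 1) :
    im (Set.Iio j) x = 1 :=
  im_mono' (Set.Iio_subset_Iio hij) hx

theorem lim_mono (j : ℕ) (x : F2) (hx : im (Set.Iio j) x = 1) : im Set.univ x = 1 :=
  im_mono' (Set.subset_univ _) hx

theorem lim_eq_one (x : F2) (hx : im Set.univ x = 1) : ∃ j, im (Set.Iio j) x = 1 := by
  rw [im_eq_one_iff] at hx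
  let S : Subgroup F2 :=
    { carrier := {x | ∃ j, x ∈ NJ (Set.Iio j)}
      one_mem' := ⟨0, one_mem _⟩
      mul_mem' := by
        rintro a b ⟨i, hi⟩ ⟨j, hj⟩
        refine ⟨max i j, mul_mem (NJ_mono ?_ hi) (NJ_mono ?_ hj)⟩
        · exact Set.Iio_subset_Iio (le_max_left _ _)
        · exact Set.Iio_subset_Iio (le_max_right _ _)
      inv_mem' := by
        rintro a ⟨i, hi⟩
        exact ⟨i, inv_mem hi⟩ }
  have hS : S.Normal := ⟨by
    rintro n ⟨j, hj⟩ g
    exact ⟨j, (inferInstance : (NJ (Set.Iio j)).Normal).conj_mem n hj g⟩⟩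
  have h1 : NJ Set.univ ≤ S := by
    apply Subgroup.normalClosure_le_normal
    rintro w ⟨j, -, hw⟩
    exact ⟨j + 1, Subgroup.subset_normalClosure ⟨j, by simp, hw⟩⟩
  obtain ⟨j, hj⟩ := h1 hx
  exact ⟨j, im_eq_one_iff.2 hj⟩

theorem lim_eq (x y : F2) (hx : im Set.univ x = im Set.univ y) :
    ∃ j, im (Set.Iio j) x = im (Set.Iio j) y := by
  have h1 : im Set.univ (x⁻¹ * y) = 1 := by
    simp only [im, QuotientGroup.mk_mul, QuotientGroup.mk_inv] at hx ⊢
    rw [hx, inv_mul_cancel]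
  obtain ⟨j, hj⟩ := lim_eq_one _ h1
  refine ⟨j, ?_⟩
  simp only [im, QuotientGroup.mk_mul, QuotientGroup.mk_inv] at hj ⊢
  exact inv_mul_eq_one.1 hj

theorem im_fw (J : Set ℕ) (b u : F2) : im J (fw b u) = fw (im J b) (im J u) := by
  unfold fw im
  generalize List.range 1000 = L
  induction L with
  | nil => rfl
  | cons a L ih => simp [← ih]

theorem im_gw (J : Set ℕ) (b u : F2) : im J (gw b u) = gw (im J b) (im J u) := by
  unfold gw im
  generalize List.range 1000 = L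
  induction L with
  | nil => rfl
  | cons a L ih => simp [← ih]

theorem im_tgt (J : Set ℕ) (j : ℕ) : im J (tgt gx gy j) = tgt (im J gx) (im J gy) j := by
  unfold tgt
  split_ifs
  · simp [im]
  · exact im_wd _ _

theorem im_pow (J : Set ℕ) (x : F2) (n : ℕ) : im J (x ^ n) = im J x ^ n := rfl

theorem im_zpow (J : Set ℕ) (x : F2) (n : ℤ) : im J (x ^ n) = im J x ^ n := rfl

theorem im_mul (J : Set ℕ) (x y : F2) : im J (x * y) = im J x * im J y := rfl

theorem im_inv (J : Set ℕ) (x : F2) : im J x⁻¹ = (im J x)⁻¹ := rfl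

theorem gg_rel1 (j : ℕ) : fw (im Set.univ gy) (im Set.univ gx ^ nn j) = im Set.univ gx ^ j := by
  have h : im Set.univ (fw gy (gx ^ nn j) * (gx ^ j)⁻¹) = 1 :=
    im_eq_one_iff.2 (Subgroup.subset_normalClosure ⟨j, trivial, Or.inl rfl⟩)
  rw [im_mul, im_inv, im_fw, im_pow, im_pow] at h
  exact mul_inv_eq_one.1 h

theorem gg_rel2 (j : ℕ) :
    gw (im Set.univ gy) (im Set.univ gx ^ nn j) = tgt (im Set.univ gx) (im Set.univ gy) j := by
  have h : im Set.univ (gw gy (gx ^ nn j) * (tgt gx gy j)⁻¹) = 1 :=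
    im_eq_one_iff.2 (Subgroup.subset_normalClosure ⟨j, trivial, Or.inr rfl⟩)
  rw [im_mul, im_inv, im_gw, im_pow, im_tgt] at h
  exact mul_inv_eq_one.1 h

theorem gg_inj (k : ℤ) (hk : (im Set.univ gx) ^ k = 1) : k = 0 := by
  rw [← im_zpow] at hk
  obtain ⟨j, hj⟩ := lim_eq_one _ hk
  obtain ⟨d, hd, -⟩ := tower j
  have h1 := hd.line k
  rw [← im_zpow, hj, hd.geo.self] at h1
  exact abs_eq_zero.1 h1.symm

theorem gg_cent (g : GG) (hg : g * im Set.univ gx = im Set.univ gx * g) :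
    g ∈ Subgroup.zpowers (im Set.univ gx) := by
  obtain ⟨x, rfl⟩ := QuotientGroup.mk_surjective g
  change im _ x * _ = _ * im _ x at hg
  change im _ x ∈ _
  rw [← im_mul, ← im_mul] at hg
  obtain ⟨j, hj⟩ := lim_eq _ _ hg
  obtain ⟨d, hd, -⟩ := tower j
  rw [im_mul, im_mul] at hj
  by_cases h : im (Set.Iio j) x ∈ Subgroup.zpowers (im (Set.Iio j) gx)
  · obtain ⟨k, hk⟩ := Subgroup.mem_zpowers_iff.1 h
    rw [← im_zpow] at hk
    refine Subgroup.mem_zpowers_iff.2 ⟨k, ?_⟩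
    rw [← im_zpow]
    exact im_eq (Set.subset_univ _) hk
  · have := hd.toPar.malnormal h (i := 1) (j := 1) (by simpa using hj.symm)
    omega

theorem gg_D (m : ℤ) (hm : fw (im Set.univ gy) (im Set.univ gx ^ m) ∈
    Subgroup.zpowers (im Set.univ gx)) : ∃ j, m = nn j := by
  obtain ⟨k, hk⟩ := Subgroup.mem_zpowers_iff.1 hm
  rw [← im_zpow, ← im_zpow, ← im_fw] at hk
  obtain ⟨j, hj⟩ := lim_eq _ _ hk
  obtain ⟨d, hd, -⟩ := tower j
  rw [im_zpow, im_fw, im_zpow] at hj
  obtain ⟨i, -, hi⟩ := hd.dset m (Subgroup.mem_zpowers_iff.2 ⟨k, hj⟩)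
  exact ⟨i, hi⟩

theorem gg_len (i : ℕ) (t : ℤ)
    (ht : wd (im Set.univ gx) (im Set.univ gy) i = im Set.univ gx ^ t) : t ≤ i := by
  rw [← im_wd, ← im_zpow] at ht
  obtain ⟨j, hj⟩ := lim_eq _ _ ht
  obtain ⟨d, hd, -⟩ := tower j
  rw [im_zpow, im_wd] at hj
  have ha : d 1 (im (Set.Iio j) gx) ≤ 1 := by
    have := hd.line 1
    rw [zpow_one] at this
    simp [this]
  have h1 := wd_len hd.geo ha hd.b_le i
  rw [hj, hd.line] at h1
  exact (le_abs_self t).trans h1

theorem gen_J (J : Set ℕ) : Subgroup.closure {im J gx, im J gy} = ⊤ := by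
  have h1 : Subgroup.closure (Set.range (FreeGroup.of : Fin 2 → F2)) = ⊤ :=
    FreeGroup.closure_range_of (Fin 2)
  have h2 : Set.range (FreeGroup.of : Fin 2 → F2) = {gx, gy} := by
    ext x
    simp only [Set.mem_range, Set.mem_insert_iff, Set.mem_singleton_iff]
    constructor
    · rintro ⟨i, rfl⟩
      fin_cases i
      · left; rfl
      · right; rfl
    · rintro (h | h)
      · exact ⟨0, h.symm⟩
      · exact ⟨1, h.symm⟩
  rw [h2] at h1
  have h3 := congrArg (Subgroup.map (QuotientGroup.mk' (NJ J))) h1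
  rw [MonoidHom.map_closure, Set.image_pair, ← MonoidHom.range_eq_map,
    MonoidHom.range_eq_top.2 (QuotientGroup.mk'_surjective _)] at h3
  exact h3

theorem gg_gen : Subgroup.closure {im Set.univ gx, im Set.univ gy} = ⊤ := gen_J _

theorem gg_tf (g : GG) (p : ℕ) (hp : 0 < p) (hg : g ^ p = 1) : g = 1 := by
  obtain ⟨x, rfl⟩ := QuotientGroup.mk_surjective g
  change im _ x ^ p = 1 at hg
  change im _ x = 1
  rw [← im_pow] at hg
  obtain ⟨j, hj⟩ := lim_eq_one _ hg
  obtain ⟨d, hd, -⟩ := tower j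
  rw [im_pow] at hj
  exact im_mono' (Set.subset_univ _) (hd.tf _ p hp hj)

theorem gg_not_cyclic : ¬ IsCyclic GG := by
  intro h
  have hb : im Set.univ gy ∈ Subgroup.zpowers (im Set.univ gx) := by
    apply gg_cent
    let _ := IsCyclic.commGroup (α := GG)
    exact mul_comm _ _
  obtain ⟨k, hk⟩ := Subgroup.mem_zpowers_iff.1 hb
  rw [← im_zpow] at hk
  obtain ⟨j, hj⟩ := lim_eq _ _ hk
  obtain ⟨d, hd, -⟩ := tower j
  have := hd.jsep 1 0 (by norm_num) (by norm_num) 0 k (by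
    rw [im_zpow] at hj
    simp [hj])
  omega

/-! ### word length -/

theorem exists_word {G : Type} [Group G] {S : Set G} (hS : Subgroup.closure S = ⊤) (g : G) :
    ∃ l : List G, l.length = wordLen S g ∧ (∀ x ∈ l, x ∈ S ∨ x⁻¹ ∈ S) ∧ l.prod = g := by
  have h : {n | ∃ l : List G, l.length = n ∧ (∀ x ∈ l, x ∈ S ∨ x⁻¹ ∈ S) ∧ l.prod = g}.Nonempty := by
    have h0 : g ∈ (Subgroup.closure S).toSubmonoid := by rw [hS]; trivial
    rw [Subgroup.closure_toSubmonoid] at h0
    obtain ⟨l, hl, hg⟩ := Submonoid.exists_list_of_mem_closure h0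
    exact ⟨l.length, l, rfl, fun x hx => hl x hx, hg⟩
  exact Nat.sInf_mem h

theorem wordLen_leT {G : Type} [Group G] {S : Set G} {g : G} {l : List G}
    (h : ∀ x ∈ l, x ∈ S ∨ x⁻¹ ∈ S) (hl : l.prod = g) : wordLen S g ≤ l.length :=
  Nat.sInf_le ⟨l, rfl, h, hl⟩

theorem wordLen_map {G H : Type} [Group G] [Group H] (f : G →* H) {S : Set G} {T : Set H}
    (hS : Subgroup.closure S = ⊤) (hST : ∀ x ∈ S, f x ∈ T) (g : G) :
    wordLen T (f g) ≤ wordLen S g := by
  obtain ⟨l, hl, h1, h2⟩ := exists_word hS g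
  rw [← hl, ← List.length_map (f := f) (as := l)]
  apply wordLen_leT
  · intro x hx
    obtain ⟨y, hy, rfl⟩ := List.mem_map.1 hx
    rcases h1 y hy with h | h
    · exact Or.inl (hST _ h)
    · right
      rw [← map_inv]
      exact hST _ h
  · rw [← h2, map_list_prod]

theorem list_lift {G H : Type} [Group G] [Group H] (f : G →* H) {S : Set G} {T : Set H}
    (hST : ∀ y ∈ T, ∃ x ∈ S, f x = y) (l : List H) (h1 : ∀ y ∈ l, y ∈ T ∨ y⁻¹ ∈ T) :
    ∃ l' : List G, (∀ x ∈ l', x ∈ S ∨ x⁻¹ ∈ S) ∧ l'.length = l.length ∧ f l'.prod = l.prod := by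
  induction l with
  | nil => exact ⟨[], by simp, rfl, by simp⟩
  | cons y l ih =>
    have : ∃ x : G, (x ∈ S ∨ x⁻¹ ∈ S) ∧ f x = y := by
      rcases h1 y (by simp) with hy | hy
      · obtain ⟨x, hx, hxy⟩ := hST y hy
        exact ⟨x, Or.inl hx, hxy⟩
      · obtain ⟨x, hx, hxy⟩ := hST _ hy
        exact ⟨x⁻¹, Or.inr (by simpa using hx), by rw [map_inv, hxy, inv_inv]⟩
    obtain ⟨x, hx, hxy⟩ := this
    obtain ⟨l', h2, h3, h4⟩ := ih fun z hz => h1 z (List.mem_cons_of_mem _ hz)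
    refine ⟨x :: l', ?_, by simp [h3], by simp [h4, hxy]⟩
    intro z hz
    rcases List.mem_cons.1 hz with rfl | hz
    · exact hx
    · exact h2 z hz

theorem wordLen_lift {G H : Type} [Group G] [Group H] (f : G →* H) {S : Set G} {T : Set H}
    (hT : Subgroup.closure T = ⊤) (hST : ∀ y ∈ T, ∃ x ∈ S, f x = y) (h : H) :
    ∃ g, f g = h ∧ wordLen S g ≤ wordLen T h := by
  obtain ⟨l, hl, h1, h2⟩ := exists_word hT h
  obtain ⟨l', h3, h4, h5⟩ := list_lift f hST l h1
  refine ⟨l'.prod, by rw [h5, h2], ?_⟩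
  rw [← hl, ← h4]
  exact wordLen_leT h3 rfl

/-- the projection -/
def prJ {J K : Set ℕ} (h : J ⊆ K) : GJ J →* GJ K :=
  QuotientGroup.map (NJ J) (NJ K) (MonoidHom.id F2) (NJ_mono h)

theorem prJ_im {J K : Set ℕ} (h : J ⊆ K) (x : F2) : prJ h (im J x) = im K x := rfl

theorem nn_mono {i j : ℕ} (h : i ≤ j) : nn i ≤ nn j := by
  unfold nn
  apply Nat.pow_le_pow_right (by norm_num)
  exact Nat.mul_le_mul_left 12 (Nat.pow_le_pow_right (by norm_num) h)

theorem wl_J {J K : Set ℕ} (h : J ⊆ K) (x : F2) :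
    wordLen {im K gx, im K gy} (im K x) ≤ wordLen {im J gx, im J gy} (im J x) := by
  rw [← prJ_im h x]
  apply wordLen_map (prJ h) (gen_J J)
  intro y hy
  rcases hy with rfl | hy
  · exact Or.inl (prJ_im h _)
  · rw [Set.mem_singleton_iff.1 hy]
    exact Or.inr (prJ_im h _)

/-- elements of the kernel of the map to the limit group are long -/
theorem ker_long (j : ℕ) (x : F2) (hx : im Set.univ x = 1) (hx' : im (Set.Iio j) x ≠ 1) :
    100 * nn j ≤ wordLen {im (Set.Iio j) gx, im (Set.Iio j) gy} (im (Set.Iio j) x) := by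
  classical
  have h1 := lim_eq_one x hx
  set k := Nat.find h1 with hk
  have h2 : im (Set.Iio k) x = 1 := Nat.find_spec h1
  have h3 : j < k := by
    by_contra h
    exact hx' (im_mono' (Set.Iio_subset_Iio (by omega)) h2)
  obtain ⟨m, hm⟩ : ∃ m, k = m + 1 := ⟨k - 1, by omega⟩
  have h4 : im (Set.Iio m) x ≠ 1 := Nat.find_min h1 (m := m) (by omega)
  obtain ⟨d, hd, h5⟩ := tower m
  rw [hm] at h2
  have h6 := h5 x h2 h4
  rw [hd.word, inv_one, one_mul] at h6
  have h7 := wl_J (J := Set.Iio j) (K := Set.Iio m) (Set.Iio_subset_Iio (by omega)) x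
  have h8 := nn_mono (i := j) (j := m) (by omega)
  have h9 : 100 * nn m ≤ wordLen {im (Set.Iio m) gx, im (Set.Iio m) gy} (im (Set.Iio m) x) := by
    exact_mod_cast h6
  omega

theorem wl_lift (j : ℕ) (x : GG) : ∃ x' : F2, im Set.univ x' = x ∧
    wordLen {im (Set.Iio j) gx, im (Set.Iio j) gy} (im (Set.Iio j) x') ≤
      wordLen {im Set.univ gx, im Set.univ gy} x := by
  obtain ⟨g, hg, h⟩ := wordLen_lift (prJ (Set.subset_univ (Set.Iio j)))
    (S := {im (Set.Iio j) gx, im (Set.Iio j) gy}) (T := {im Set.univ gx, im Set.univ gy})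
    gg_gen (by
      intro y hy
      rcases hy with rfl | hy
      · exact ⟨_, Or.inl rfl, prJ_im _ _⟩
      · rw [Set.mem_singleton_iff.1 hy]
        exact ⟨_, Or.inr rfl, prJ_im _ _⟩) x
  obtain ⟨x', rfl⟩ := QuotientGroup.mk_surjective g
  exact ⟨x', hg, h⟩

/-- the four point condition in balls of the limit group -/
theorem gg_four (j : ℕ) (x y z w : GG)
    (hx : wordLen {im Set.univ gx, im Set.univ gy} x ≤ nn j)
    (hy : wordLen {im Set.univ gx, im Set.univ gy} y ≤ nn j)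
    (hz : wordLen {im Set.univ gx, im Set.univ gy} z ≤ nn j)
    (hw : wordLen {im Set.univ gx, im Set.univ gy} w ≤ nn j) :
    ((wordLen {im Set.univ gx, im Set.univ gy} (x⁻¹ * z) : ℤ) +
        wordLen {im Set.univ gx, im Set.univ gy} (y⁻¹ * w)) ≤
      max ((wordLen {im Set.univ gx, im Set.univ gy} (x⁻¹ * y) : ℤ) +
          wordLen {im Set.univ gx, im Set.univ gy} (z⁻¹ * w))
        ((wordLen {im Set.univ gx, im Set.univ gy} (x⁻¹ * w) : ℤ) +
          wordLen {im Set.univ gx, im Set.univ gy} (y⁻¹ * z)) + dl j := by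
  obtain ⟨d, hd, -⟩ := tower j
  -- distances of lifts
  have key : ∀ x' y' : F2,
      wordLen {im (Set.Iio j) gx, im (Set.Iio j) gy} (im (Set.Iio j) x') ≤ nn j →
      wordLen {im (Set.Iio j) gx, im (Set.Iio j) gy} (im (Set.Iio j) y') ≤ nn j →
      (wordLen {im Set.univ gx, im Set.univ gy} ((im Set.univ x')⁻¹ * im Set.univ y') : ℤ) =
        d (im (Set.Iio j) x') (im (Set.Iio j) y') := by
    intro x' y' hx' hy'
    have e1 : ∀ g, d 1 g = wordLen {im (Set.Iio j) gx, im (Set.Iio j) gy} g := by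
      intro g
      rw [hd.word, inv_one, one_mul]
    have e2 : d (im (Set.Iio j) x') (im (Set.Iio j) y') =
        wordLen {im (Set.Iio j) gx, im (Set.Iio j) gy} (im (Set.Iio j) (x'⁻¹ * y')) := by
      rw [hd.word]
      rfl
    have e3 := hd.geo.tri (im (Set.Iio j) x') 1 (im (Set.Iio j) y')
    rw [hd.geo.symm (im (Set.Iio j) x') 1, e1, e1] at e3
    have h1 := wl_J (Set.subset_univ (Set.Iio j)) (x'⁻¹ * y')
    obtain ⟨u, hu, hu'⟩ := wl_lift j (im Set.univ (x'⁻¹ * y'))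
    have h2 : im (Set.Iio j) ((x'⁻¹ * y')⁻¹ * u) = 1 := by
      by_contra h
      have h3 := ker_long j _ (by rw [im_mul, im_inv, hu, inv_mul_cancel]) h
      have h4 := hd.geo.tri (im (Set.Iio j) (x'⁻¹ * y')) 1 (im (Set.Iio j) u)
      rw [hd.geo.symm _ 1, e1, e1] at h4
      have h5 : d (im (Set.Iio j) (x'⁻¹ * y')) (im (Set.Iio j) u) =
        wordLen {im (Set.Iio j) gx, im (Set.Iio j) gy}
          (im (Set.Iio j) ((x'⁻¹ * y')⁻¹ * u)) := by
        rw [hd.word]
        rfl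
      have h6 := nn_big j
      omega
    have h3 : im (Set.Iio j) (x'⁻¹ * y') = im (Set.Iio j) u := by
      rw [im_mul, im_inv] at h2
      exact inv_mul_eq_one.1 h2
    rw [e2]
    change ((wordLen {im Set.univ gx, im Set.univ gy} (im Set.univ (x'⁻¹ * y')) : ℕ) : ℤ) = _
    rw [h3] at h1 ⊢
    have := le_antisymm h1 hu'
    exact_mod_cast this
  obtain ⟨x', rfl, hx'⟩ := wl_lift j x
  obtain ⟨y', rfl, hy'⟩ := wl_lift j y
  obtain ⟨z', rfl, hz'⟩ := wl_lift j z
  obtain ⟨w', rfl, hw'⟩ := wl_lift j w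
  rw [key x' z' (by omega) (by omega), key y' w' (by omega) (by omega),
    key x' y' (by omega) (by omega), key z' w' (by omega) (by omega),
    key x' w' (by omega) (by omega), key y' z' (by omega) (by omega)]
  have := hd.hyp (im (Set.Iio j) x') (im (Set.Iio j) y') (im (Set.Iio j) z') (im (Set.Iio j) w')
  rcases this with h | h
  · exact h.trans (by gcongr; exact le_max_left _ _)
  · exact h.trans (by gcongr; exact le_max_right _ _)

end Pool.Agent.LibSCQ
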